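import Pool.Agent.Lib.MP_d8bd92_nt.Hp.Defs

set_option autoImplicit false

/-!
Phase 3 (points of order 3): definitions.

A semistable curve with a rational point of order 3 has a minimal model `y^2 + z x y + a y = x^3`, `gcd (z, a) = 1`, `3 ∤ z`,
`Δ = a^3 (z^3 - 27 a)`.  The pair is `(x, y) = (a, z^3 - 27 a)`: coprime, `3 ∤ y`, `27 x + y = z^3`, conductor `rad (x y)`.
-/

namespace Pool.Agent.Lib.MP_d8bd92_nt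

namespace T3

open Finset Pool.Agent.Lib.Szpiro Hp

/-- pairs `(x, y)` of nonzero integers with `27 x + y` a cube, `3 x` and `y` coprime, `rad x * rad y ≤ Y`, sizes at most `Y ^ K` -/
def PairSet3 (K Y : ℝ) : Set (ℤ × ℤ) :=
  {w | w.1 ≠ 0 ∧ w.2 ≠ 0 ∧ IsCoprime (3 * w.1) w.2 ∧ (∃ z : ℤ, 27 * w.1 + w.2 = z ^ 3) ∧
    (rd w.1.natAbs : ℝ) * rd w.2.natAbs ≤ Y ∧
    (w.1.natAbs : ℝ) ≤ Y ^ K ∧ (w.2.natAbs : ℝ) ≤ Y ^ K}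

/-- at most `C Y^(3/4-δ)` pairs of `PairSet3 K Y` satisfy `Q Y`, for all `Y` -/
def Few3 (K : ℝ) (Q : ℝ → ℤ × ℤ → Prop) : Prop :=
  ∃ C δ : ℝ, 0 < C ∧ 0 < δ ∧ ∀ (Y : ℝ), 1 ≤ Y → ∀ P : Finset (ℤ × ℤ),
    (∀ w ∈ P, w ∈ PairSet3 K Y ∧ Q Y w) → (P.card : ℝ) ≤ C * Y ^ (3 / 4 - δ)

/-- type (a): `|x| = w T ^ e`, dust `w` with `rad w ≤ Y ^ σ` (`T` squarefree: a prime of mass 1, or two primes with equal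
exponents) -/
def IsA (σ : ℝ) (e : ℕ) (Y : ℝ) (x : ℤ) : Prop :=
  ∃ w T : ℕ, x.natAbs = w * T ^ e ∧ Nat.Coprime w T ∧ Squarefree T ∧ (rd w : ℝ) ≤ Y ^ σ

/-- type (b): `|x| = w p ^ a q ^ b`, `p`, `q` primes of size `Y ^ (1/4 ± σ)`, dust `w` with `rad w ≤ Y ^ σ` -/
def IsB (σ : ℝ) (a b : ℕ) (Y : ℝ) (x : ℤ) : Prop :=
  ∃ w p q : ℕ, x.natAbs = w * p ^ a * q ^ b ∧ p.Prime ∧ q.Prime ∧ p ≠ q ∧ Nat.Coprime w p ∧ Nat.Coprime w q ∧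
    (rd w : ℝ) ≤ Y ^ σ ∧ Y ^ (1 / 4 - σ) ≤ (p : ℝ) ∧ (p : ℝ) ≤ Y ^ (1 / 4 + σ) ∧ Y ^ (1 / 4 - σ) ≤ (q : ℝ) ∧ (q : ℝ) ≤ Y ^ (1 / 4 + σ)

end T3

end Pool.Agent.Lib.MP_d8bd92_nt
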