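import Mathlib

set_option autoImplicit false

/-!
Phase 3, the tie `α p^a q^b + β c^e r^f = z^3`: definitions (route A).
-/

namespace Pool.Agent.Lib.MP_d8bd92_nt

namespace T3

open Finset

/-- the `3 × 3` determinant -/
def d3 (x₁ x₂ x₃ y₁ y₂ y₃ w₁ w₂ w₃ : ℤ) : ℤ :=
  x₁ * (y₂ * w₃ - y₃ * w₂) - x₂ * (y₁ * w₃ - y₃ * w₁) + x₃ * (y₁ * w₂ - y₂ * w₁)

/-- The slice of a tie for fixed `p` (`A = α p ^ a`, `B = β`): pairs `v = (c, r)` of primes (`c` has exponent `e`, `r` has exponent `f`),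
with a prime `q v` and an integer `z v`: `A (q v)^b + B c^e r^f = (z v)^3`, the two terms are coprime, the first one is the larger one. -/
structure Pl (A B : ℤ) (b e f : ℕ) (L U : ℝ) (E : Finset (ℕ × ℕ)) (q : ℕ × ℕ → ℕ) (z : ℕ × ℕ → ℤ) : Prop where
  p1 : ∀ v ∈ E, v.1.Prime ∧ L ≤ (v.1 : ℝ) ∧ (v.1 : ℝ) ≤ U
  p2 : ∀ v ∈ E, v.2.Prime ∧ L ≤ (v.2 : ℝ) ∧ (v.2 : ℝ) ≤ U
  pq : ∀ v ∈ E, (q v).Prime ∧ L ≤ (q v : ℝ) ∧ (q v : ℝ) ≤ U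
  eq : ∀ v ∈ E, A * (q v : ℤ) ^ b + B * ((v.1 : ℤ) ^ e * (v.2 : ℤ) ^ f) = z v ^ 3
  co : ∀ v ∈ E, IsCoprime (A * (q v : ℤ) ^ b) (B * ((v.1 : ℤ) ^ e * (v.2 : ℤ) ^ f))
  big : ∀ v ∈ E, |B * ((v.1 : ℤ) ^ e * (v.2 : ℤ) ^ f)| ≤ |A * (q v : ℤ) ^ b|

open scoped Classical in
/-- `N` columns `c j` (first coordinates) and many common rows `i ∈ I` (second coordinates) of a slice: the rows of `z` are proportional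
modulo `A`, the `q` of one row are distinct, and few pairs of rows have a common value of `q` in some column. -/
structure Tup (A : ℤ) (N : ℕ) (η H : ℝ) (E : Finset (ℕ × ℕ)) (q : ℕ × ℕ → ℕ) (z : ℕ × ℕ → ℤ) (c : Fin N → ℕ) (I : Finset ℕ) : Prop where
  ci : Function.Injective c
  mem : ∀ i ∈ I, ∀ j, (c j, i) ∈ E
  card : H ^ (1 - η) ≤ (I.card : ℝ)
  qi : ∀ i ∈ I, ∀ j m, j ≠ m → q (c j, i) ≠ q (c m, i)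
  dv : ∀ i ∈ I, ∀ k ∈ I, ∀ j m, A ∣ z (c j, i) * z (c m, k) - z (c m, i) * z (c j, k)
  bad : (((I ×ˢ I).filter (fun x => x.1 ≠ x.2 ∧ ∃ j, q (c j, x.1) = q (c j, x.2))).card : ℝ) ≤ H ^ (1 + η)

/-- there is no `N × N` matrix over `ℚ` with rank `≤ w`, entrywise `b`-th power of rank `≤ b` and nonzero `2 × 2` minors -/
def AlgN (w b N : ℕ) : Prop :=
  ∀ q : Fin N → Fin N → ℚ,
    (∀ r c : Fin (w + 1) → Fin N, Matrix.det (Matrix.of fun i j => q (r i) (c j)) = 0) →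
    (∀ r c : Fin (b + 1) → Fin N, Matrix.det (Matrix.of fun i j => q (r i) (c j) ^ b) = 0) →
    (∀ i i' j j', i ≠ i' → j ≠ j' → q i j * q i' j' - q i j' * q i' j ≠ 0) → False

/-- The quadruples `((p, q), (c, r))` of one tie.  All four are primes between `H ^ (1 - δ)` and `H ^ (1 + δ)`. -/
def TieSet (K : ℝ) (a b e f : ℕ) (δ H : ℝ) (α β : ℤ) (S : Finset ((ℕ × ℕ) × (ℕ × ℕ))) : Prop :=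
  α ≠ 0 ∧ β ≠ 0 ∧ |(α : ℝ)| ≤ H ^ K ∧ |(β : ℝ)| ≤ H ^ K ∧
  (∀ l : ℕ, l.Prime → (l : ℤ) ∣ α → (l : ℝ) ≤ 3 * H ^ δ) ∧
  (∀ l : ℕ, l.Prime → (l : ℤ) ∣ β → (l : ℝ) ≤ 3 * H ^ δ) ∧
  ∀ s ∈ S,
    (s.1.1.Prime ∧ H ^ (1 - δ) ≤ (s.1.1 : ℝ) ∧ (s.1.1 : ℝ) ≤ H ^ (1 + δ)) ∧
    (s.1.2.Prime ∧ H ^ (1 - δ) ≤ (s.1.2 : ℝ) ∧ (s.1.2 : ℝ) ≤ H ^ (1 + δ)) ∧
    (s.2.1.Prime ∧ H ^ (1 - δ) ≤ (s.2.1 : ℝ) ∧ (s.2.1 : ℝ) ≤ H ^ (1 + δ)) ∧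
    (s.2.2.Prime ∧ H ^ (1 - δ) ≤ (s.2.2 : ℝ) ∧ (s.2.2 : ℝ) ≤ H ^ (1 + δ)) ∧
    IsCoprime (α * ((s.1.1 : ℤ) ^ a * (s.1.2 : ℤ) ^ b)) (β * ((s.2.1 : ℤ) ^ e * (s.2.2 : ℤ) ^ f)) ∧
    |β * ((s.2.1 : ℤ) ^ e * (s.2.2 : ℤ) ^ f)| ≤ |α * ((s.1.1 : ℤ) ^ a * (s.1.2 : ℤ) ^ b)| ∧
    ∃ z : ℤ, α * ((s.1.1 : ℤ) ^ a * (s.1.2 : ℤ) ^ b) + β * ((s.2.1 : ℤ) ^ e * (s.2.2 : ℤ) ^ f) = z ^ 3

end T3

end Pool.Agent.Lib.MP_d8bd92_nt
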