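import Pool.Agent.Lib.MP_d8bd92_nt.T3.Defs
import Pool.Agent.Lib.MP_d8bd92_nt.T3.TieDefs
import Pool.Agent.Lib.MP_d8bd92_nt.Hp.BA

set_option autoImplicit false

/-!
Phase 3: from the tie to pairs of type (b)-(b).
-/

namespace Pool.Agent.Lib.MP_d8bd92_nt

namespace T3

open Finset Pool.Agent.Lib.Szpiro Hp

/-- one side of type (b) -/
private structure BB_d (σ : ℝ) (a b : ℕ) (Y : ℝ) (x u : ℤ) (p q : ℕ) : Prop where
  eq : x = u * ((p : ℤ) ^ a * (q : ℤ) ^ b)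
  u0 : u ≠ 0
  pp : p.Prime
  qp : q.Prime
  ru : (rd u.natAbs : ℝ) ≤ Y ^ σ
  pl : Y ^ (1 / 4 - σ) ≤ (p : ℝ)
  ph : (p : ℝ) ≤ Y ^ (1 / 4 + σ)
  ql : Y ^ (1 / 4 - σ) ≤ (q : ℝ)
  qh : (q : ℝ) ≤ Y ^ (1 / 4 + σ)

private theorem BB_dec {σ Y : ℝ} {a b : ℕ} {x : ℤ} (hx : x ≠ 0) (h : IsB σ a b Y x) :
    ∃ (u : ℤ) (p q : ℕ), BB_d σ a b Y x u p q := by
  obtain ⟨w, p, q, hw, hp, hq, -, -, -, hr, h1, h2, h3, h4⟩ := h
  have hw0 : w ≠ 0 := by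
    rintro rfl
    apply hx
    rw [← Int.natAbs_eq_zero, hw]
    ring
  have hs0 : x.sign ≠ 0 := by
    intro h0
    exact hx (Int.sign_eq_zero_iff_zero.1 h0)
  refine ⟨x.sign * w, p, q, ?_, ?_, hp, hq, ?_, h1, h2, h3, h4⟩
  · calc x = x.sign * (x.natAbs : ℤ) := (Int.sign_mul_natAbs x).symm
      _ = x.sign * ((w * p ^ a * q ^ b : ℕ) : ℤ) := by rw [hw]
      _ = x.sign * w * ((p : ℤ) ^ a * (q : ℤ) ^ b) := by push_cast; ring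
  · exact mul_ne_zero hs0 (by exact_mod_cast hw0)
  · rw [Int.natAbs_mul, Int.natAbs_sign_of_ne_zero hx, one_mul, Int.natAbs_natCast]
    exact hr

private theorem BB_prime_le {l : ℕ} {u : ℤ} (hu : u ≠ 0) (hl : l.Prime) (h : (l : ℤ) ∣ u) : l ≤ rd u.natAbs := by
  have h1 : l ∣ u.natAbs := Int.natCast_dvd.1 h
  have h2 : l ∈ u.natAbs.primeFactors := Nat.mem_primeFactors.2 ⟨hl, h1, Int.natAbs_ne_zero.2 hu⟩
  have h3 : l ∣ rd u.natAbs := by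
    unfold rd
    exact Finset.dvd_prod_of_mem (fun p => p) h2
  exact Nat.le_of_dvd (rd_pos _) h3

private theorem BB_three {Y : ℝ} (hY : 81 ≤ Y) : 3 ≤ Y ^ (1 / 4 : ℝ) := by
  have h1 : (81 : ℝ) ^ (1 / 4 : ℝ) ≤ Y ^ (1 / 4 : ℝ) := Real.rpow_le_rpow (by norm_num) hY (by norm_num)
  have h2 : (81 : ℝ) ^ (1 / 4 : ℝ) = 3 := by
    rw [show (81 : ℝ) = 3 ^ (4 : ℝ) by norm_num, ← Real.rpow_mul (by norm_num)]
    norm_num
  linarith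

private theorem BB_al {K σ δ Y : ℝ} (hY : 81 ≤ Y) (hδ : 0 < δ) (hσδ : σ ≤ δ / 4) {u κ : ℤ}
    (hκ : κ = 1 ∨ κ = 27) (hu0 : u ≠ 0) (hu : (u.natAbs : ℝ) ≤ Y ^ K) (hru : (rd u.natAbs : ℝ) ≤ Y ^ σ) :
    κ * u ≠ 0 ∧ |((κ * u : ℤ) : ℝ)| ≤ (Y ^ (1 / 4 : ℝ)) ^ (4 * K + 3) ∧
      ∀ l : ℕ, l.Prime → (l : ℤ) ∣ κ * u → (l : ℝ) ≤ 3 * (Y ^ (1 / 4 : ℝ)) ^ δ := by
  have hY0 : 0 < Y := by linarith
  have hY1 : 1 ≤ Y := by linarith
  have h3 := BB_three hY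
  have hκ0 : κ ≠ 0 := by rcases hκ with rfl | rfl <;> norm_num
  have hH : 1 ≤ (Y ^ (1 / 4 : ℝ)) ^ δ := Real.one_le_rpow (by linarith) hδ.le
  refine ⟨mul_ne_zero hκ0 hu0, ?_, ?_⟩
  · have e1 : |((κ * u : ℤ) : ℝ)| = |(κ : ℝ)| * (u.natAbs : ℝ) := by
      push_cast
      rw [abs_mul, Nat.cast_natAbs]
      push_cast
      rfl
    have e2 : |(κ : ℝ)| ≤ 27 := by
      rcases hκ with rfl | rfl <;> norm_num
    have e3 : (27 : ℝ) ≤ (Y ^ (1 / 4 : ℝ)) ^ (3 : ℝ) := by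
      have : (3 : ℝ) ^ (3 : ℝ) ≤ (Y ^ (1 / 4 : ℝ)) ^ (3 : ℝ) := Real.rpow_le_rpow (by norm_num) h3 (by norm_num)
      have e : (3 : ℝ) ^ (3 : ℝ) = 27 := by norm_num
      linarith
    have e4 : (Y ^ (1 / 4 : ℝ)) ^ (4 * K + 3) = (Y ^ (1 / 4 : ℝ)) ^ (3 : ℝ) * Y ^ K := by
      rw [← Real.rpow_mul hY0.le, ← Real.rpow_mul hY0.le, ← Real.rpow_add hY0]
      congr 1
      ring
    rw [e1, e4]
    exact mul_le_mul (e2.trans e3) hu (Nat.cast_nonneg _) (by positivity)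
  · intro l hl hd
    rcases Int.Prime.dvd_mul' hl hd with h | h
    · have h1 : l ≤ 3 := by
        rcases hκ with rfl | rfl
        · have : l ∣ 1 := by exact_mod_cast h
          have := Nat.le_of_dvd one_pos this
          omega
        · have h2 : l ∣ 3 ^ 3 := by exact_mod_cast h
          have h4 := hl.dvd_of_dvd_pow h2
          exact Nat.le_of_dvd (by norm_num) h4
      have h2 : (l : ℝ) ≤ 3 := by exact_mod_cast h1
      linarith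
    · have h1 : (l : ℝ) ≤ (rd u.natAbs : ℝ) := by exact_mod_cast BB_prime_le hu0 hl h
      have h2 : Y ^ σ ≤ (Y ^ (1 / 4 : ℝ)) ^ δ := by
        rw [← Real.rpow_mul hY0.le]
        exact Real.rpow_le_rpow_of_exponent_le hY1 (by linarith)
      linarith

private theorem BB_pr {σ δ Y : ℝ} (hY : 1 ≤ Y) (hσδ : σ ≤ δ / 4) {p : ℕ}
    (h1 : Y ^ (1 / 4 - σ) ≤ (p : ℝ)) (h2 : (p : ℝ) ≤ Y ^ (1 / 4 + σ)) :
    (Y ^ (1 / 4 : ℝ)) ^ (1 - δ) ≤ (p : ℝ) ∧ (p : ℝ) ≤ (Y ^ (1 / 4 : ℝ)) ^ (1 + δ) := by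
  have hY0 : 0 < Y := by linarith
  rw [← Real.rpow_mul hY0.le, ← Real.rpow_mul hY0.le]
  constructor
  · exact (Real.rpow_le_rpow_of_exponent_le hY (by linarith)).trans h1
  · exact h2.trans (Real.rpow_le_rpow_of_exponent_le hY (by linarith))

private theorem BB_set {K σ δ Y : ℝ} {a b e f : ℕ} (hY : 81 ≤ Y) (hδ : 0 < δ) (hσδ : σ ≤ δ / 4) {u v κ κ' : ℤ}
    (hκ : κ = 1 ∨ κ = 27) (hκ' : κ' = 1 ∨ κ' = 27) (hu0 : u ≠ 0) (hv0 : v ≠ 0) (hu : (u.natAbs : ℝ) ≤ Y ^ K)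
    (hv : (v.natAbs : ℝ) ≤ Y ^ K) (hru : (rd u.natAbs : ℝ) ≤ Y ^ σ) (hrv : (rd v.natAbs : ℝ) ≤ Y ^ σ)
    (S : Finset ((ℕ × ℕ) × (ℕ × ℕ)))
    (hS : ∀ s ∈ S, ∃ x y : ℤ, BB_d σ a b Y x u s.1.1 s.1.2 ∧ BB_d σ e f Y y v s.2.1 s.2.2 ∧
      IsCoprime (κ * x) (κ' * y) ∧ |κ' * y| ≤ |κ * x| ∧ ∃ z : ℤ, κ * x + κ' * y = z ^ 3) :
    TieSet (4 * K + 3) a b e f δ (Y ^ (1 / 4 : ℝ)) (κ * u) (κ' * v) S := by
  have hY1 : 1 ≤ Y := by linarith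
  obtain ⟨a1, a2, a3⟩ := BB_al hY hδ hσδ hκ hu0 hu hru
  obtain ⟨b1, b2, b3⟩ := BB_al hY hδ hσδ hκ' hv0 hv hrv
  refine ⟨a1, b1, a2, b2, a3, b3, ?_⟩
  intro s hs
  obtain ⟨x, y, hx, hy, h1, h2, z, h3⟩ := hS s hs
  have e1 : κ * u * ((s.1.1 : ℤ) ^ a * (s.1.2 : ℤ) ^ b) = κ * x := by rw [hx.eq]; ring
  have e2 : κ' * v * ((s.2.1 : ℤ) ^ e * (s.2.2 : ℤ) ^ f) = κ' * y := by rw [hy.eq]; ring
  rw [e1, e2]
  refine ⟨⟨hx.pp, BB_pr hY1 hσδ hx.pl hx.ph⟩, ⟨hx.qp, BB_pr hY1 hσδ hx.ql hx.qh⟩,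
    ⟨hy.pp, BB_pr hY1 hσδ hy.pl hy.ph⟩, ⟨hy.qp, BB_pr hY1 hσδ hy.ql hy.qh⟩, h1, h2, z, h3⟩

/-- From the tie to pairs of type (b)-(b). -/
theorem few3_BB_of_tie (h : ∀ (K : ℝ) (a b e f : ℕ), 1 ≤ b → b < a → 1 ≤ f → f < e →
      ∃ δ C : ℝ, 0 < δ ∧ 0 < C ∧ ∀ (H : ℝ) (α β : ℤ) (S : Finset ((ℕ × ℕ) × (ℕ × ℕ))), 1 ≤ H →
        TieSet K a b e f δ H α β S → (S.card : ℝ) ≤ C * H ^ (3 - 10 * δ))
    (K : ℝ) (hK : 1 ≤ K) (a b e f : ℕ) (hb : 1 ≤ b) (hba : b < a) (hf : 1 ≤ f) (hfe : f < e) :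
    ∃ σ : ℝ, 0 < σ ∧ Few3 K (fun Y w => IsB σ a b Y w.1 ∧ IsB σ e f Y w.2) := by
  classical
  obtain ⟨δ1, C1, hδ1, hC1, H1⟩ := h (4 * K + 3) a b e f hb hba hf hfe
  obtain ⟨δ2, C2, hδ2, hC2, H2⟩ := h (4 * K + 3) e f a b hf hfe hb hba
  obtain ⟨δ, hδ, hd1, hd2⟩ : ∃ δ : ℝ, 0 < δ ∧ δ ≤ δ1 ∧ δ ≤ δ2 :=
    ⟨min δ1 δ2, lt_min hδ1 hδ2, min_le_left _ _, min_le_right _ _⟩
  have hK0 : 0 < K := by linarith
  obtain ⟨C3, hC3, H3⟩ := count_rad (δ / (4 * K)) (by positivity)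
  obtain ⟨T, hT⟩ : ∃ T : ℝ, T = (2 * (81 : ℝ) ^ K + 1) ^ 2 := ⟨_, rfl⟩
  have hT0 : 0 < T := by rw [hT]; positivity
  refine ⟨δ / 4, by positivity, T + C3 ^ 2 * (C1 + C2), min (3 * δ / 2) (1 / 2), by positivity,
    lt_min (by positivity) (by norm_num), ?_⟩
  intro Y hY P hP
  have hY0 : 0 < Y := by linarith
  have hYK : 1 ≤ Y ^ K := Real.one_le_rpow hY hK0.le
  have hm1 : min (3 * δ / 2) (1 / 2) ≤ 3 * δ / 2 := min_le_left _ _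
  have hm2 : min (3 * δ / 2) (1 / 2) ≤ 1 / 2 := min_le_right _ _
  have hYe : 1 ≤ Y ^ (3 / 4 - min (3 * δ / 2) (1 / 2)) := Real.one_le_rpow hY (by linarith)
  have hCC : 0 < C3 ^ 2 * (C1 + C2) := by positivity
  rcases lt_or_ge Y 81 with hs | hbig
  · -- small `Y`
    have hn : ∀ w ∈ P, w ∈ Finset.Icc (-((⌊(81 : ℝ) ^ K⌋₊ : ℕ) : ℤ)) ((⌊(81 : ℝ) ^ K⌋₊ : ℕ) : ℤ) ×ˢ
        Finset.Icc (-((⌊(81 : ℝ) ^ K⌋₊ : ℕ) : ℤ)) ((⌊(81 : ℝ) ^ K⌋₊ : ℕ) : ℤ) := by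
      intro w hw
      obtain ⟨-, -, -, -, -, h6, h7⟩ := (hP w hw).1
      have hpow : Y ^ K ≤ (81 : ℝ) ^ K := Real.rpow_le_rpow hY0.le hs.le hK0.le
      have a1 : w.1.natAbs ≤ ⌊(81 : ℝ) ^ K⌋₊ := Nat.le_floor (h6.trans hpow)
      have a2 : w.2.natAbs ≤ ⌊(81 : ℝ) ^ K⌋₊ := Nat.le_floor (h7.trans hpow)
      rw [Finset.mem_product, Finset.mem_Icc, Finset.mem_Icc]
      omega
    have h1 := Finset.card_le_card hn
    rw [Finset.card_product, Int.card_Icc] at h1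
    have h4 : (((⌊(81 : ℝ) ^ K⌋₊ : ℕ) : ℤ) + 1 - -((⌊(81 : ℝ) ^ K⌋₊ : ℕ) : ℤ)).toNat = 2 * ⌊(81 : ℝ) ^ K⌋₊ + 1 := by
      omega
    rw [h4] at h1
    have h5 : (P.card : ℝ) ≤ (2 * ((⌊(81 : ℝ) ^ K⌋₊ : ℕ) : ℝ) + 1) * (2 * ((⌊(81 : ℝ) ^ K⌋₊ : ℕ) : ℝ) + 1) := by
      exact_mod_cast h1
    have h6 : ((⌊(81 : ℝ) ^ K⌋₊ : ℕ) : ℝ) ≤ (81 : ℝ) ^ K := Nat.floor_le (by positivity)
    have h7 : (P.card : ℝ) ≤ T := by
      rw [hT, sq]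
      exact h5.trans (mul_le_mul (by linarith) (by linarith) (by positivity) (by positivity))
    calc (P.card : ℝ) ≤ T + C3 ^ 2 * (C1 + C2) := by linarith
      _ = (T + C3 ^ 2 * (C1 + C2)) * 1 := by ring
      _ ≤ _ := mul_le_mul_of_nonneg_left hYe (by linarith)
  -- large `Y`
  have hH3 := BB_three hbig
  have hH1 : 1 ≤ Y ^ (1 / 4 : ℝ) := by linarith
  have hdat : ∀ w : ℤ × ℤ, ∃ (u : ℤ) (p q : ℕ) (v : ℤ) (c r : ℕ), w ∈ P →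
      BB_d (δ / 4) a b Y w.1 u p q ∧ BB_d (δ / 4) e f Y w.2 v c r := by
    intro w
    by_cases hw : w ∈ P
    · obtain ⟨hm, h1, h2⟩ := hP w hw
      obtain ⟨u, p, q, h3⟩ := BB_dec hm.1 h1
      obtain ⟨v, c, r, h4⟩ := BB_dec hm.2.1 h2
      exact ⟨u, p, q, v, c, r, fun _ => ⟨h3, h4⟩⟩
    · exact ⟨0, 0, 0, 0, 0, 0, fun h => absurd h hw⟩
  choose u p q v c r hd using hdat
  have hub : ∀ w ∈ P, ((u w).natAbs : ℝ) ≤ Y ^ K := by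
    intro w hw
    have h1 : (u w).natAbs ≤ w.1.natAbs := by
      refine Nat.le_of_dvd (Int.natAbs_pos.2 (hP w hw).1.1) (Int.natAbs_dvd_natAbs.2 ?_)
      exact ⟨_, (hd w hw).1.eq⟩
    have h2 := (hP w hw).1.2.2.2.2.2.1
    refine le_trans ?_ h2
    exact_mod_cast h1
  have hvb : ∀ w ∈ P, ((v w).natAbs : ℝ) ≤ Y ^ K := by
    intro w hw
    have h1 : (v w).natAbs ≤ w.2.natAbs := by
      refine Nat.le_of_dvd (Int.natAbs_pos.2 (hP w hw).1.2.1) (Int.natAbs_dvd_natAbs.2 ?_)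
      exact ⟨_, (hd w hw).2.eq⟩
    have h2 := (hP w hw).1.2.2.2.2.2.2
    refine le_trans ?_ h2
    exact_mod_cast h1
  have hZ1 : 1 ≤ ⌊Y ^ K⌋₊ := Nat.le_floor (by rw [Nat.cast_one]; exact hYK)
  have hZle : ((⌊Y ^ K⌋₊ : ℕ) : ℝ) ≤ Y ^ K := Nat.floor_le (by linarith)
  have hX0 : 0 ≤ Y ^ (δ / 4) := Real.rpow_nonneg hY0.le _
  have hZe : ((⌊Y ^ K⌋₊ : ℕ) : ℝ) ^ (δ / (4 * K)) ≤ Y ^ (δ / 4) := by
    refine (Real.rpow_le_rpow (Nat.cast_nonneg _) hZle (by positivity)).trans ?_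
    rw [← Real.rpow_mul hY0.le]
    apply le_of_eq
    congr 1
    field_simp
  have hkey : ∀ g : ℤ × ℤ → ℤ, (∀ w ∈ P, g w ≠ 0 ∧ ((g w).natAbs : ℝ) ≤ Y ^ K ∧ (rd (g w).natAbs : ℝ) ≤ Y ^ (δ / 4)) →
      ((P.image g).card : ℝ) ≤ C3 * Y ^ (δ / 4) * Y ^ (δ / 4) := by
    intro g hg
    have h1 := H3 ⌊Y ^ K⌋₊ (Y ^ (δ / 4)) (P.image g) hZ1 hX0 (by
      intro x hx
      obtain ⟨w, hw, rfl⟩ := Finset.mem_image.1 hx
      obtain ⟨g1, g2, g3⟩ := hg w hw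
      exact ⟨g1, Nat.le_floor g2, g3⟩)
    refine h1.trans (mul_le_mul_of_nonneg_right ?_ hX0)
    exact mul_le_mul_of_nonneg_left hZe (by linarith)
  have hU := hkey u (fun w hw => ⟨(hd w hw).1.u0, hub w hw, (hd w hw).1.ru⟩)
  have hV := hkey v (fun w hw => ⟨(hd w hw).2.u0, hvb w hw, (hd w hw).2.ru⟩)
  -- fibres
  have hcop : ∀ w ∈ P, IsCoprime (27 * w.1) w.2 := by
    intro w hw
    have h1 := (hP w hw).1.2.2.1
    have h3 : IsCoprime (3 : ℤ) w.2 := IsCoprime.of_mul_left_left h1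
    have h4 : IsCoprime w.1 w.2 := IsCoprime.of_mul_left_right h1
    have h5 : IsCoprime ((3 : ℤ) ^ 3) w.2 := IsCoprime.pow_left h3
    have h6 := IsCoprime.mul_left h5 h4
    norm_num at h6
    exact h6
  have hfib : ∀ k ∈ P.image (fun w => (u w, v w)),
      ((P.filter (fun w => (u w, v w) = k)).card : ℝ) ≤ (C1 + C2) * Y ^ (3 / 4 - 5 * δ / 2) := by
    intro k hk
    obtain ⟨w0, hw0, rfl⟩ := Finset.mem_image.1 hk
    obtain ⟨F, hF⟩ : ∃ F : Finset (ℤ × ℤ), F = P.filter (fun w => (u w, v w) = (u w0, v w0)) := ⟨_, rfl⟩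
    rw [← hF]
    have hFm : ∀ w ∈ F, w ∈ P ∧ u w = u w0 ∧ v w = v w0 := by
      intro w hw
      rw [hF, Finset.mem_filter, Prod.mk.injEq] at hw
      exact hw
    have hsplit : F.card = (F.filter (fun w => |w.2| ≤ |27 * w.1|)).card +
        (F.filter (fun w => ¬ |w.2| ≤ |27 * w.1|)).card := (Finset.card_filter_add_card_filter_not _).symm
    have hinj : ∀ w ∈ F, ∀ w' ∈ F, ((p w, q w), (c w, r w)) = ((p w', q w'), (c w', r w')) → w = w' := by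
      intro w hw w' hw' he
      obtain ⟨m1, m2, m3⟩ := hFm w hw
      obtain ⟨n1, n2, n3⟩ := hFm w' hw'
      simp only [Prod.mk.injEq] at he
      obtain ⟨⟨e1, e2⟩, e3, e4⟩ := he
      refine Prod.ext ?_ ?_
      · rw [(hd w m1).1.eq, (hd w' n1).1.eq, m2, n2, e1, e2]
      · rw [(hd w m1).2.eq, (hd w' n1).2.eq, m3, n3, e3, e4]
    have hpart : ∀ (δ0 : ℝ), δ ≤ δ0 → (Y ^ (1 / 4 : ℝ)) ^ (3 - 10 * δ0) ≤ Y ^ (3 / 4 - 5 * δ / 2) := by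
      intro δ0 h0
      rw [← Real.rpow_mul hY0.le]
      exact Real.rpow_le_rpow_of_exponent_le hY (by linarith)
    have f1 : (((F.filter (fun w => |w.2| ≤ |27 * w.1|)).card : ℕ) : ℝ) ≤ C1 * Y ^ (3 / 4 - 5 * δ / 2) := by
      have hc := Finset.card_image_of_injOn (s := F.filter (fun w => |w.2| ≤ |27 * w.1|))
        (f := fun w => ((p w, q w), (c w, r w))) (by
          intro w hw w' hw' he
          exact hinj w (Finset.mem_filter.1 hw).1 w' (Finset.mem_filter.1 hw').1 he)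
      rw [← hc]
      have hts := BB_set (K := K) (σ := δ / 4) (δ := δ1) (Y := Y) (a := a) (b := b) (e := e) (f := f) hbig hδ1
        (by linarith) (u := u w0) (v := v w0) (κ := 27) (κ' := 1) (Or.inr rfl) (Or.inl rfl) (hd w0 hw0).1.u0
        (hd w0 hw0).2.u0 (hub w0 hw0) (hvb w0 hw0) (hd w0 hw0).1.ru (hd w0 hw0).2.ru
        ((F.filter (fun w => |w.2| ≤ |27 * w.1|)).image (fun w => ((p w, q w), (c w, r w)))) (by
          intro s hs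
          obtain ⟨w, hw, rfl⟩ := Finset.mem_image.1 hs
          obtain ⟨hwF, hle⟩ := Finset.mem_filter.1 hw
          obtain ⟨m1, m2, m3⟩ := hFm w hwF
          obtain ⟨d1, d2⟩ := hd w m1
          rw [m2] at d1
          rw [m3] at d2
          refine ⟨w.1, w.2, d1, d2, ?_, ?_, ?_⟩
          · rw [one_mul]
            exact hcop w m1
          · rw [one_mul]
            exact hle
          · obtain ⟨z, hz⟩ := (hP w m1).1.2.2.2.1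
            exact ⟨z, by rw [one_mul]; exact hz⟩)
      refine (H1 _ _ _ _ hH1 hts).trans ?_
      exact mul_le_mul_of_nonneg_left (hpart δ1 hd1) hC1.le
    have f2 : (((F.filter (fun w => ¬ |w.2| ≤ |27 * w.1|)).card : ℕ) : ℝ) ≤ C2 * Y ^ (3 / 4 - 5 * δ / 2) := by
      have hc := Finset.card_image_of_injOn (s := F.filter (fun w => ¬ |w.2| ≤ |27 * w.1|))
        (f := fun w => ((c w, r w), (p w, q w))) (by
          intro w hw w' hw' he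
          refine hinj w (Finset.mem_filter.1 hw).1 w' (Finset.mem_filter.1 hw').1 ?_
          simp only [Prod.mk.injEq] at he ⊢
          exact ⟨he.2, he.1⟩)
      rw [← hc]
      have hts := BB_set (K := K) (σ := δ / 4) (δ := δ2) (Y := Y) (a := e) (b := f) (e := a) (f := b) hbig hδ2
        (by linarith) (u := v w0) (v := u w0) (κ := 1) (κ' := 27) (Or.inl rfl) (Or.inr rfl) (hd w0 hw0).2.u0
        (hd w0 hw0).1.u0 (hvb w0 hw0) (hub w0 hw0) (hd w0 hw0).2.ru (hd w0 hw0).1.ru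
        ((F.filter (fun w => ¬ |w.2| ≤ |27 * w.1|)).image (fun w => ((c w, r w), (p w, q w)))) (by
          intro s hs
          obtain ⟨w, hw, rfl⟩ := Finset.mem_image.1 hs
          obtain ⟨hwF, hle⟩ := Finset.mem_filter.1 hw
          obtain ⟨m1, m2, m3⟩ := hFm w hwF
          obtain ⟨d1, d2⟩ := hd w m1
          rw [m2] at d1
          rw [m3] at d2
          refine ⟨w.2, w.1, d2, d1, ?_, ?_, ?_⟩
          · rw [one_mul]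
            exact (hcop w m1).symm
          · rw [one_mul]
            exact (not_le.1 hle).le
          · obtain ⟨z, hz⟩ := (hP w m1).1.2.2.2.1
            exact ⟨z, by rw [one_mul, add_comm]; exact hz⟩)
      refine (H2 _ _ _ _ hH1 hts).trans ?_
      exact mul_le_mul_of_nonneg_left (hpart δ2 hd2) hC2.le
    rw [hsplit]
    push_cast
    linarith
  have hsum : (P.card : ℝ) ≤ ((P.image (fun w => (u w, v w))).card : ℝ) * ((C1 + C2) * Y ^ (3 / 4 - 5 * δ / 2)) := by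
    rw [Finset.card_eq_sum_card_image (fun w => (u w, v w)) P, Nat.cast_sum]
    refine (Finset.sum_le_card_nsmul _ _ _ hfib).trans ?_
    rw [nsmul_eq_mul]
  have hkeys : ((P.image (fun w => (u w, v w))).card : ℝ) ≤ (C3 * Y ^ (δ / 4) * Y ^ (δ / 4)) * (C3 * Y ^ (δ / 4) * Y ^ (δ / 4)) := by
    have h1 : P.image (fun w => (u w, v w)) ⊆ (P.image u) ×ˢ (P.image v) := by
      intro k hk
      obtain ⟨w, hw, rfl⟩ := Finset.mem_image.1 hk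
      exact Finset.mem_product.2 ⟨Finset.mem_image_of_mem _ hw, Finset.mem_image_of_mem _ hw⟩
    have h2 := Finset.card_le_card h1
    rw [Finset.card_product] at h2
    have h3 : ((P.image (fun w => (u w, v w))).card : ℝ) ≤ ((P.image u).card : ℝ) * ((P.image v).card : ℝ) := by
      exact_mod_cast h2
    exact h3.trans (mul_le_mul hU hV (Nat.cast_nonneg _) (by positivity))
  have hlast : (C3 * Y ^ (δ / 4) * Y ^ (δ / 4)) * (C3 * Y ^ (δ / 4) * Y ^ (δ / 4)) *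
      ((C1 + C2) * Y ^ (3 / 4 - 5 * δ / 2)) = C3 ^ 2 * (C1 + C2) * Y ^ (3 / 4 - 3 * δ / 2) := by
    have e1 : Y ^ (3 / 4 - 3 * δ / 2) = Y ^ (δ / 4) * Y ^ (δ / 4) * Y ^ (δ / 4) * Y ^ (δ / 4) * Y ^ (3 / 4 - 5 * δ / 2) := by
      rw [← Real.rpow_add hY0, ← Real.rpow_add hY0, ← Real.rpow_add hY0, ← Real.rpow_add hY0]
      congr 1
      ring
    rw [e1]
    ring
  have hC12 : 0 < C1 + C2 := by linarith
  refine hsum.trans ((mul_le_mul_of_nonneg_right hkeys (by positivity)).trans ?_)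
  rw [hlast]
  have h8 : Y ^ (3 / 4 - 3 * δ / 2) ≤ Y ^ (3 / 4 - min (3 * δ / 2) (1 / 2)) :=
    Real.rpow_le_rpow_of_exponent_le hY (by linarith)
  refine (mul_le_mul_of_nonneg_left h8 hCC.le).trans ?_
  exact mul_le_mul_of_nonneg_right (by linarith) (by linarith)

end T3

end Pool.Agent.Lib.MP_d8bd92_nt
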