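import Pool.Agent.Lib.MP_d8bd92_nt.ThC

set_option autoImplicit false

/-! Phase 3: the one variable input, from `Th.long_fiber`. -/

namespace Pool.Agent.Lib.MP_d8bd92_nt

namespace T3

open Finset

/-- one sign pattern -/
theorem bp_sign (α β : ℤ) (hα : α ≠ 0) (hβ : β ≠ 0) (l : ℕ) (hl : 1 ≤ l) (ε : ℝ) (hε : 0 < ε) : ∃ C : ℝ, 0 < C ∧
    ∀ (Z N : ℝ) (m u : ℕ) (S : Finset ℕ), 1 ≤ Z → 1 ≤ N → m ≠ 0 → u ≠ 0 → (m : ℝ) ≤ Z →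
    (∀ T ∈ S, 1 ≤ T ∧ (T : ℝ) ≤ N ∧ ((u * T ^ l : ℕ) : ℝ) ≤ Z ∧ ∃ z : ℤ, α * (m : ℤ) + β * ((u * T ^ l : ℕ) : ℤ) = z ^ 3) →
    (S.card : ℝ) ≤ C * Z ^ ε * N ^ (1 / 3 : ℝ) := by
  obtain ⟨C, hC, h⟩ := Th.long_fiber α β hα hβ l hl ε hε
  refine ⟨C, by linarith, ?_⟩
  intro Z N m u S hZ hN hm hu hmZ hS
  have hZ0 : 0 < Z := by linarith
  have hN0 : 0 < N := by linarith
  rcases S.eq_empty_or_nonempty with hne | ⟨T0, hT0⟩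
  · rw [hne]
    simp only [Finset.card_empty, Nat.cast_zero]
    positivity
  have hbig : ∀ T ∈ S, T ≤ ⌊N⌋₊ ∧ u * T ^ l ≤ ⌊Z⌋₊ ∧ T ≤ ⌊Z⌋₊ ∧ u ≤ ⌊Z⌋₊ := by
    intro T hT
    obtain ⟨h1, h2, h3, _⟩ := hS T hT
    have k1 : T ≤ ⌊N⌋₊ := Nat.le_floor h2
    have k2 : u * T ^ l ≤ ⌊Z⌋₊ := Nat.le_floor h3
    have hu1 : 1 ≤ u := Nat.one_le_iff_ne_zero.2 hu
    have hT1 : 1 ≤ T ^ l := Nat.one_le_pow _ _ h1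
    have k3 : T ≤ u * T ^ l := by
      calc T ≤ T ^ l := Nat.le_self_pow (by omega) T
        _ = 1 * T ^ l := (one_mul _).symm
        _ ≤ u * T ^ l := Nat.mul_le_mul_right _ hu1
    have k4 : u ≤ u * T ^ l := Nat.le_mul_of_pos_right _ hT1
    exact ⟨k1, k2, k3.trans k2, k4.trans k2⟩
  obtain ⟨b1, b2, b3, b4⟩ := hbig T0 hT0
  obtain ⟨t1, t2, t3, _⟩ := hS T0 hT0
  obtain ⟨X, hX⟩ : ∃ X : ℕ, X = min ⌊N⌋₊ ⌊Z⌋₊ := ⟨_, rfl⟩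
  have hX1 : 1 ≤ X := by rw [hX]; exact le_min (t1.trans b1) (t1.trans b3)
  have hXZ : X ≤ ⌊Z⌋₊ := by rw [hX]; exact min_le_right _ _
  have hXN : (X : ℝ) ≤ N := by
    have h1 : X ≤ ⌊N⌋₊ := by rw [hX]; exact min_le_left _ _
    calc (X : ℝ) ≤ ⌊N⌋₊ := by exact_mod_cast h1
      _ ≤ N := Nat.floor_le hN0.le
  have hZf : ((⌊Z⌋₊ : ℕ) : ℝ) ≤ Z := Nat.floor_le hZ0.le
  have hfin := h ⌊Z⌋₊ m u X S (Nat.le_floor (by exact_mod_cast hZ)) (Nat.one_le_iff_ne_zero.2 hm) (Nat.le_floor hmZ)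
    (Nat.one_le_iff_ne_zero.2 hu) b4 hX1 hXZ (fun T hT => by
      obtain ⟨g1, g2, g3, g4⟩ := hS T hT
      obtain ⟨c1, c2, c3, c4⟩ := hbig T hT
      exact ⟨g1, by rw [hX]; exact le_min c1 c3, c2, g4⟩)
  refine hfin.trans ?_
  have e1 : ((⌊Z⌋₊ : ℕ) : ℝ) ^ ε ≤ Z ^ ε := Real.rpow_le_rpow (Nat.cast_nonneg _) hZf hε.le
  have e2 : (X : ℝ) ^ (1 / 3 : ℝ) ≤ N ^ (1 / 3 : ℝ) := Real.rpow_le_rpow (Nat.cast_nonneg _) hXN (by norm_num)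
  have hC0 : 0 ≤ C := by linarith
  gcongr

theorem bp_cube_third (l : ℕ) (hl : 1 ≤ l) (ε : ℝ) (hε : 0 < ε) : ∃ C : ℝ, 0 < C ∧ ∀ (Z N : ℝ) (c A : ℤ) (S : Finset ℕ),
    1 ≤ Z → 1 ≤ N → c ≠ 0 → A ≠ 0 → (c.natAbs : ℝ) ≤ Z →
    (∀ T ∈ S, 1 ≤ T ∧ (T : ℝ) ≤ N ∧ ((A * (T : ℤ) ^ l).natAbs : ℝ) ≤ Z ∧
      ∃ z : ℤ, c + A * (T : ℤ) ^ l = z ^ 3) →
    (S.card : ℝ) ≤ C * Z ^ ε * N ^ (1 / 3 : ℝ) := by
  obtain ⟨C1, h1, H1⟩ := bp_sign 1 1 one_ne_zero one_ne_zero l hl ε hε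
  obtain ⟨C2, h2, H2⟩ := bp_sign 1 (-1) one_ne_zero (by norm_num) l hl ε hε
  obtain ⟨C3, h3, H3⟩ := bp_sign (-1) 1 (by norm_num) one_ne_zero l hl ε hε
  obtain ⟨C4, h4, H4⟩ := bp_sign (-1) (-1) (by norm_num) (by norm_num) l hl ε hε
  refine ⟨C1 + C2 + C3 + C4, by positivity, ?_⟩
  intro Z N c A S hZ hN hc hA hcZ hS
  have hZ0 : 0 < Z := by linarith
  have hN0 : 0 < N := by linarith
  have hP : 0 ≤ Z ^ ε * N ^ (1 / 3 : ℝ) := by positivity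
  have hm : c.natAbs ≠ 0 := Int.natAbs_ne_zero.2 hc
  have hu : A.natAbs ≠ 0 := Int.natAbs_ne_zero.2 hA
  have habs : ∀ T : ℕ, (A * (T : ℤ) ^ l).natAbs = A.natAbs * T ^ l := by
    intro T
    rw [Int.natAbs_mul, Int.natAbs_pow, Int.natAbs_natCast]
  have fin : ∀ (s t : ℤ) (D : ℝ), c = s * (c.natAbs : ℤ) → A = t * (A.natAbs : ℤ) →
      (∀ (Z N : ℝ) (m u : ℕ) (S : Finset ℕ), 1 ≤ Z → 1 ≤ N → m ≠ 0 → u ≠ 0 → (m : ℝ) ≤ Z →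
      (∀ T ∈ S, 1 ≤ T ∧ (T : ℝ) ≤ N ∧ ((u * T ^ l : ℕ) : ℝ) ≤ Z ∧ ∃ z : ℤ, s * (m : ℤ) + t * ((u * T ^ l : ℕ) : ℤ) = z ^ 3) →
      (S.card : ℝ) ≤ D * Z ^ ε * N ^ (1 / 3 : ℝ)) → D ≤ C1 + C2 + C3 + C4 →
      (S.card : ℝ) ≤ (C1 + C2 + C3 + C4) * Z ^ ε * N ^ (1 / 3 : ℝ) := by
    intro s t D hs ht H hD
    have g1 := H Z N c.natAbs A.natAbs S hZ hN hm hu hcZ (fun T hT => by
      obtain ⟨k1, k2, k3, z, k4⟩ := hS T hT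
      refine ⟨k1, k2, ?_, z, ?_⟩
      · rw [← habs T]
        exact k3
      · rw [← k4]
        push_cast
        have e0 : s * |c| = c := by
          rw [Int.abs_eq_natAbs]
          exact hs.symm
        have e3 : t * (|A| * (T : ℤ) ^ l) = A * (T : ℤ) ^ l := by
          rw [← mul_assoc, Int.abs_eq_natAbs, ← ht]
        rw [e0, e3])
    refine g1.trans ?_
    rw [mul_assoc, mul_assoc]
    exact mul_le_mul_of_nonneg_right hD hP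
  have hcs : c = 1 * (c.natAbs : ℤ) ∨ c = -1 * (c.natAbs : ℤ) := by omega
  have hAs : A = 1 * (A.natAbs : ℤ) ∨ A = -1 * (A.natAbs : ℤ) := by omega
  rcases hcs with hs | hs <;> rcases hAs with ht | ht
  · exact fin 1 1 C1 hs ht H1 (by linarith)
  · exact fin 1 (-1) C2 hs ht H2 (by linarith)
  · exact fin (-1) 1 C3 hs ht H3 (by linarith)
  · exact fin (-1) (-1) C4 hs ht H4 (by linarith)

/-- the one variable input -/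
theorem bp_cube (l : ℕ) (hl : 1 ≤ l) (ε : ℝ) (hε : 0 < ε) : ∃ C : ℝ, 0 < C ∧ ∀ (Z N : ℝ) (c A : ℤ) (S : Finset ℕ),
    1 ≤ Z → 1 ≤ N → c ≠ 0 → A ≠ 0 → (c.natAbs : ℝ) ≤ Z →
    (∀ T ∈ S, 1 ≤ T ∧ (T : ℝ) ≤ N ∧ ((A * (T : ℤ) ^ l).natAbs : ℝ) ≤ Z ∧ IsCoprime c (A * (T : ℤ) ^ l) ∧
      ∃ z : ℤ, c + A * (T : ℤ) ^ l = z ^ 3) →
    (S.card : ℝ) ≤ C * Z ^ ε * N ^ (2 / 5 : ℝ) := by
  obtain ⟨C, hC, H⟩ := bp_cube_third l hl ε hε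
  refine ⟨C, hC, ?_⟩
  intro Z N c A S hZ hN hc hA hcZ hS
  refine (H Z N c A S hZ hN hc hA hcZ (fun T hT => ?_)).trans ?_
  · obtain ⟨k1, k2, k3, _, k5⟩ := hS T hT
    exact ⟨k1, k2, k3, k5⟩
  · have h1 : N ^ (1 / 3 : ℝ) ≤ N ^ (2 / 5 : ℝ) := Real.rpow_le_rpow_of_exponent_le hN (by norm_num)
    have hZ0 : 0 < Z := by linarith
    gcongr

end T3

end Pool.Agent.Lib.MP_d8bd92_nt
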