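import Pool.Agent.Lib.MP_d8bd92_nt.ThF
import Pool.Agent.Lib.MP_d8bd92_nt.T3.Defs

set_option autoImplicit false

/-!
Semistable curves with a rational point of order three from pairs of integers.
-/

namespace Pool.Agent.Lib.MP_d8bd92_nt

namespace T3

open Finset Pool.Agent.Lib.Szpiro Hp

/-- the parameters of a semistable curve with a point of order three -/
theorem curves3_param (Y κ : ℝ) (c : ℤ × ℤ) (hc : c ∈ torSet 3 Y κ) : ∃ a b : ℤ,
    c.1 = a * (a ^ 3 - 24 * b) ∧ c.2 = -a ^ 6 + 36 * a ^ 3 * b - 216 * b ^ 2 ∧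
    (b, a ^ 3 - 27 * b) ∈ PairSet3 κ Y := by
  obtain ⟨W, h4, h6, hΔ, hss, ⟨P, hP⟩, hN, hD⟩ := hc
  obtain ⟨a, b, e1, e2, e3⟩ := order_three_int W P hP
  have hne : b ^ 3 * (a ^ 3 - 27 * b) ≠ 0 := by rw [← e3]; exact hΔ
  have hb0 : b ≠ 0 := by rintro h0; rw [h0] at hne; simp at hne
  have hd0 : a ^ 3 - 27 * b ≠ 0 := by intro h0; rw [h0] at hne; simp at hne
  have hab : IsCoprime a b := by
    rw [Int.isCoprime_iff_gcd_eq_one]
    by_contra hg
    obtain ⟨p, hp, hpd⟩ := Nat.exists_prime_and_dvd hg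
    have hpa : (p : ℤ) ∣ a := (Int.natCast_dvd_natCast.mpr hpd).trans (Int.gcd_dvd_left ..)
    have hpb : (p : ℤ) ∣ b := (Int.natCast_dvd_natCast.mpr hpd).trans (Int.gcd_dvd_right ..)
    have h7 : (p : ℤ) ∣ W.c₄ := by rw [e1]; exact Dvd.dvd.mul_right hpa _
    have h8 : (p : ℤ) ∣ W.Δ := by rw [e3]; exact Dvd.dvd.mul_right (dvd_pow hpb (by norm_num)) _
    exact (Nat.prime_iff_prime_int.mp hp).not_isUnit (hss.isUnit_of_dvd' h7 h8)
  have h3a : IsCoprime (3 : ℤ) a := by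
    rw [Prime.coprime_iff_not_dvd Int.prime_three]
    intro h3
    have h7 : (3 : ℤ) ∣ W.c₄ := by rw [e1]; exact Dvd.dvd.mul_right h3 _
    have h8 : (3 : ℤ) ∣ W.Δ := by
      rw [e3]
      apply Dvd.dvd.mul_left
      exact dvd_sub (dvd_pow h3 (by norm_num)) ⟨9 * b, by ring⟩
    exact Int.prime_three.not_isUnit (hss.isUnit_of_dvd' h7 h8)
  have h27 : IsCoprime (27 * b) (a ^ 3 - 27 * b) := by
    have h7 : IsCoprime (27 * b) (a ^ 3) := by
      apply IsCoprime.pow_right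
      apply IsCoprime.mul_left _ hab.symm
      have : (27 : ℤ) = 3 ^ 3 := by norm_num
      rw [this]
      exact IsCoprime.pow_left h3a
    have h8 : a ^ 3 - 27 * b = a ^ 3 + (27 * b) * (-1) := by ring
    rw [h8]
    exact IsCoprime.add_mul_left_right h7 (-1)
  have hbd : IsCoprime b (a ^ 3 - 27 * b) := (IsCoprime.mul_left_iff.mp h27).2
  have h3b : IsCoprime (3 * b) (a ^ 3 - 27 * b) := by
    have h9 : IsCoprime (9 * (3 * b)) (a ^ 3 - 27 * b) := by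
      have e9 : (9 : ℤ) * (3 * b) = 27 * b := by ring
      rw [e9]
      exact h27
    exact (IsCoprime.mul_left_iff.mp h9).2
  have hcop : Nat.Coprime b.natAbs (a ^ 3 - 27 * b).natAbs := by
    rw [← Int.isCoprime_iff_nat_coprime]; exact hbd
  have hN' : W.Δ.natAbs = b.natAbs ^ 3 * (a ^ 3 - 27 * b).natAbs := by
    rw [e3, Int.natAbs_mul, Int.natAbs_pow]
  have hb1 : 1 ≤ b.natAbs := Int.natAbs_pos.mpr hb0
  have hd1 : 1 ≤ (a ^ 3 - 27 * b).natAbs := Int.natAbs_pos.mpr hd0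
  have hrd : rd b.natAbs * rd (a ^ 3 - 27 * b).natAbs = rd W.Δ.natAbs := by
    rw [hN', rd_mul_coprime _ _ (by positivity) (by omega) (Nat.Coprime.pow_left 3 hcop)]
    congr 1
    unfold rd
    rw [Nat.primeFactors_pow _ (by norm_num)]
  refine ⟨a, b, by rw [← h4, e1], by rw [← h6, e2], hb0, hd0, h3b, ⟨a, by ring⟩, ?_, ?_, ?_⟩
  · have : ((rd b.natAbs : ℕ) : ℝ) * ((rd (a ^ 3 - 27 * b).natAbs : ℕ) : ℝ) =
        ((rd W.Δ.natAbs : ℕ) : ℝ) := by exact_mod_cast hrd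
    rw [this]
    exact hN
  · refine le_trans ?_ hD
    have : b.natAbs ≤ W.Δ.natAbs := by
      rw [hN']
      exact (Nat.le_self_pow (by norm_num) _).trans (Nat.le_mul_of_pos_right _ hd1)
    exact_mod_cast this
  · refine le_trans ?_ hD
    have : (a ^ 3 - 27 * b).natAbs ≤ W.Δ.natAbs := by
      rw [hN']
      exact Nat.le_mul_of_pos_left _ (by positivity)
    exact_mod_cast this

/-- power saving for the semistable curves with a rational point of order three -/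
theorem torSet_three_few (κ : ℝ) (hκ : 0 < κ) (H : Few3 κ (fun _ _ => True)) :
    ∃ C δ : ℝ, 0 < C ∧ 0 < δ ∧ ∀ Y : ℝ, 1 ≤ Y →
      (torSet 3 Y κ).Finite ∧ ((torSet 3 Y κ).ncard : ℝ) ≤ C * Y ^ (3 / 4 - δ) := by
  classical
  obtain ⟨C, δ, hC, hδ, hP⟩ := H
  obtain ⟨C0, _, h0⟩ := torSet_three κ 1 hκ one_pos
  refine ⟨C, δ, hC, hδ, fun Y hY => ?_⟩
  have hfin := (h0 Y hY).1
  refine ⟨hfin, ?_⟩
  have hpar : ∀ c : ℤ × ℤ, ∃ t : ℤ × ℤ, c ∈ torSet 3 Y κ →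
      (c.1 = t.1 * (t.1 ^ 3 - 24 * t.2) ∧ c.2 = -t.1 ^ 6 + 36 * t.1 ^ 3 * t.2 - 216 * t.2 ^ 2 ∧
        (t.2, t.1 ^ 3 - 27 * t.2) ∈ PairSet3 κ Y) := by
    intro c
    by_cases hc : c ∈ torSet 3 Y κ
    · obtain ⟨a, b, h⟩ := curves3_param Y κ c hc
      exact ⟨(a, b), fun _ => h⟩
    · exact ⟨0, fun h => absurd h hc⟩
  choose t ht using hpar
  obtain ⟨f, hf⟩ : ∃ f : ℤ × ℤ → ℤ × ℤ, f = fun c => ((t c).2, (t c).1 ^ 3 - 27 * (t c).2) :=
    ⟨_, rfl⟩
  have hinj : Set.InjOn f (torSet 3 Y κ) := by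
    intro c hc c' hc' hcc
    rw [hf] at hcc
    simp only [Prod.mk.injEq] at hcc
    obtain ⟨h1, h2⟩ := hcc
    obtain ⟨e2, e3, _⟩ := ht c hc
    obtain ⟨e2', e3', _⟩ := ht c' hc'
    have h3 : (t c).1 ^ 3 = (t c').1 ^ 3 := by rw [h1] at h2; linarith
    have h4 : (t c).1 = (t c').1 := (Odd.strictMono_pow (by decide : Odd 3)).injective h3
    exact Prod.ext (by rw [e2, e2', h4, h1]) (by rw [e3, e3', h4, h1])
  have hcard : (torSet 3 Y κ).ncard = (hfin.toFinset.image f).card := by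
    rw [Finset.card_image_of_injOn (by simpa using hinj), Set.ncard_eq_toFinset_card _ hfin]
  rw [hcard]
  apply hP Y hY
  intro w hw
  obtain ⟨c, hc, rfl⟩ := Finset.mem_image.1 hw
  have h5 := (ht c (by simpa using hc)).2.2
  rw [hf]
  exact ⟨h5, trivial⟩

end T3

end Pool.Agent.Lib.MP_d8bd92_nt
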