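import Pool.Agent.Lib.MP_d8bd92_nt.T3.Defs

set_option autoImplicit false

/-! Phase 3: elementary lemmas on `Few3`. -/

namespace Pool.Agent.Lib.MP_d8bd92_nt

namespace T3

open Finset Pool.Agent.Lib.Szpiro Hp

theorem few3_mono (K : ℝ) (Q Q' : ℝ → ℤ × ℤ → Prop) (h : ∀ Y w, 1 ≤ Y → w ∈ PairSet3 K Y → Q' Y w → Q Y w)
    (hQ : Few3 K Q) : Few3 K Q' := by
  obtain ⟨C, δ, hC, hδ, hb⟩ := hQ
  exact ⟨C, δ, hC, hδ, fun Y hY P hP => hb Y hY P (fun w hw => ⟨(hP w hw).1, h Y w hY (hP w hw).1 (hP w hw).2⟩)⟩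

theorem few3_or (K : ℝ) (Q Q' : ℝ → ℤ × ℤ → Prop) (hQ : Few3 K Q) (hQ' : Few3 K Q') :
    Few3 K (fun Y w => Q Y w ∨ Q' Y w) := by
  classical
  obtain ⟨C, δ, hC, hδ, hb⟩ := hQ
  obtain ⟨C', δ', hC', hδ', hb'⟩ := hQ'
  refine ⟨C + C', min δ δ', by positivity, lt_min hδ hδ', fun Y hY P hP => ?_⟩
  have h1 := hb Y hY (P.filter (fun w => Q Y w)) (fun w hw => by
    rw [Finset.mem_filter] at hw; exact ⟨(hP w hw.1).1, hw.2⟩)
  have h2 := hb' Y hY (P.filter (fun w => ¬ Q Y w)) (fun w hw => by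
    rw [Finset.mem_filter] at hw
    refine ⟨(hP w hw.1).1, ?_⟩
    rcases (hP w hw.1).2 with h | h
    · exact absurd h hw.2
    · exact h)
  have h3 : P.card = (P.filter (fun w => Q Y w)).card + (P.filter (fun w => ¬ Q Y w)).card :=
    (Finset.card_filter_add_card_filter_not _).symm
  have h4 : Y ^ (3 / 4 - δ) ≤ Y ^ (3 / 4 - min δ δ') :=
    Real.rpow_le_rpow_of_exponent_le hY (by linarith [min_le_left δ δ'])
  have h5 : Y ^ (3 / 4 - δ') ≤ Y ^ (3 / 4 - min δ δ') :=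
    Real.rpow_le_rpow_of_exponent_le hY (by linarith [min_le_right δ δ'])
  rw [h3]
  push_cast
  calc _ ≤ C * Y ^ (3 / 4 - δ) + C' * Y ^ (3 / 4 - δ') := add_le_add h1 h2
    _ ≤ C * Y ^ (3 / 4 - min δ δ') + C' * Y ^ (3 / 4 - min δ δ') := by gcongr
    _ = _ := by ring

theorem few3_false (K : ℝ) : Few3 K (fun _ _ => False) := by
  refine ⟨1, 1, one_pos, one_pos, fun Y hY P hP => ?_⟩
  have h1 : P = ∅ := by
    rw [Finset.eq_empty_iff_forall_notMem]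
    intro w hw
    exact (hP w hw).2
  rw [h1]
  simp
  have : 0 < Y := by linarith
  positivity

theorem few3_finset (K : ℝ) {ι : Type} (I : Finset ι) (Q : ι → ℝ → ℤ × ℤ → Prop) (hQ : ∀ i ∈ I, Few3 K (Q i)) :
    Few3 K (fun Y w => ∃ i ∈ I, Q i Y w) := by
  classical
  induction I using Finset.induction_on with
  | empty =>
    apply few3_mono K _ _ _ (few3_false K)
    rintro Y w _ _ ⟨i, hi, _⟩
    simp at hi
  | insert i I hi ih =>
    have h1 := ih (fun j hj => hQ j (Finset.mem_insert_of_mem hj))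
    apply few3_mono K _ _ _ (few3_or K _ _ (hQ i (Finset.mem_insert_self _ _)) h1)
    rintro Y w _ _ ⟨j, hj, hq⟩
    rw [Finset.mem_insert] at hj
    rcases hj with rfl | hj
    · exact Or.inl hq
    · exact Or.inr ⟨j, hj, hq⟩

theorem isA_mono (σ σ' : ℝ) (h : σ ≤ σ') (e : ℕ) (Y : ℝ) (hY : 1 ≤ Y) (x : ℤ) (hx : IsA σ e Y x) : IsA σ' e Y x := by
  obtain ⟨w, T, h1, h2, h3, h4⟩ := hx
  exact ⟨w, T, h1, h2, h3, h4.trans (Real.rpow_le_rpow_of_exponent_le hY h)⟩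

theorem isB_mono (σ σ' : ℝ) (h : σ ≤ σ') (a b : ℕ) (Y : ℝ) (hY : 1 ≤ Y) (x : ℤ) (hx : IsB σ a b Y x) :
    IsB σ' a b Y x := by
  obtain ⟨w, p, q, h1, h2, h3, h4, h5, h6, h7, h8, h9, h10, h11⟩ := hx
  have e1 : Y ^ (1 / 4 - σ') ≤ Y ^ (1 / 4 - σ) := Real.rpow_le_rpow_of_exponent_le hY (by linarith)
  have e2 : Y ^ (1 / 4 + σ) ≤ Y ^ (1 / 4 + σ') := Real.rpow_le_rpow_of_exponent_le hY (by linarith)
  exact ⟨w, p, q, h1, h2, h3, h4, h5, h6, h7.trans (Real.rpow_le_rpow_of_exponent_le hY h), e1.trans h8,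
    h9.trans e2, e1.trans h10, h11.trans e2⟩

/-- a common lower bound of finitely many positive numbers -/
theorem exists_min_pos {ι : Type} [Finite ι] (s : ι → ℝ) (hs : ∀ i, 0 < s i) : ∃ σ : ℝ, 0 < σ ∧ ∀ i, σ ≤ s i := by
  rcases isEmpty_or_nonempty ι with he | he
  · exact ⟨1, one_pos, fun i => (he.false i).elim⟩
  · obtain ⟨i0, hi0⟩ := Finite.exists_min s
    exact ⟨s i0, hs i0, hi0⟩

end T3

end Pool.Agent.Lib.MP_d8bd92_nt
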