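import Mathlib

set_option autoImplicit false

/-!
Lemma F (cubic forms), first part: a nonzero binary cubic form vanishes on at most three lines; counting of forms.
-/

namespace Pool.Agent.Lib.MP_d8bd92_nt

namespace T3

open Finset

/-- value of the cubic form with coefficients `Φ` -/
def evF (Φ : Fin 4 → ℤ) (i j : ℤ) : ℤ := Φ 0 * i ^ 3 + Φ 1 * (i ^ 2 * j) + Φ 2 * (i * j ^ 2) + Φ 3 * j ^ 3

theorem evF_sub (Φ Ψ : Fin 4 → ℤ) (i j : ℤ) : evF (Φ - Ψ) i j = evF Φ i j - evF Ψ i j := by
  unfold evF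
  simp only [Pi.sub_apply]
  ring

/-- four pairwise non proportional zeros -/
theorem evF_four (Φ : Fin 4 → ℤ) (i j : Fin 4 → ℤ) (h0 : ∀ k, evF Φ (i k) (j k) = 0)
    (h1 : ∀ k l, k < l → j l * i k - j k * i l ≠ 0) : Φ = 0 := by
  have hdet : (Matrix.projVandermonde j i).det ≠ 0 := by
    rw [Matrix.det_projVandermonde]
    refine Finset.prod_ne_zero_iff.mpr fun k _ => Finset.prod_ne_zero_iff.mpr fun l hl => ?_
    exact h1 k l (Finset.mem_Ioi.mp hl)
  have hv : (Matrix.projVandermonde j i).mulVec Φ = 0 := by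
    funext k
    simp only [Matrix.mulVec, dotProduct, Matrix.projVandermonde_apply, Fin.sum_univ_four, Pi.zero_apply]
    have h2 := h0 k
    unfold evF at h2
    have e0 : (Fin.rev (0 : Fin 4)).1 = 3 := rfl
    have e1 : (Fin.rev (1 : Fin 4)).1 = 2 := rfl
    have e2 : (Fin.rev (2 : Fin 4)).1 = 1 := rfl
    have e3 : (Fin.rev (3 : Fin 4)).1 = 0 := rfl
    have f0 : (0 : Fin 4).1 = 0 := rfl
    have f1 : (1 : Fin 4).1 = 1 := rfl
    have f2 : (2 : Fin 4).1 = 2 := rfl
    have f3 : (3 : Fin 4).1 = 3 := rfl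
    rw [e0, e1, e2, e3, f0, f1, f2, f3]
    linarith
  exact Matrix.eq_zero_of_mulVec_eq_zero hdet hv

/-- a third of the zeros of a nonzero cubic form lies on one line -/
theorem third_line (Φ : Fin 4 → ℤ) (hΦ : Φ ≠ 0) (S : Finset ℕ) (hS : S.Nonempty) (i j : ℕ → ℤ)
    (h0 : ∀ P ∈ S, evF Φ (i P) (j P) = 0) :
    ∃ P0 ∈ S, S.card ≤ 3 * (S.filter (fun P => i P * j P0 - j P * i P0 = 0)).card := by
  by_contra hcon
  push Not at hcon
  set L : ℕ → Finset ℕ := fun P0 => S.filter (fun P => i P * j P0 - j P * i P0 = 0) with hL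
  obtain ⟨P1, hP1⟩ := hS
  have c1 := hcon P1 hP1
  obtain ⟨P2, hP2, n2⟩ : ∃ P2 ∈ S, P2 ∉ L P1 := by
    by_contra h
    push Not at h
    have h3 : S.card ≤ (L P1).card := Finset.card_le_card (fun x hx => h x hx)
    have : (L P1).card = (S.filter (fun P => i P * j P1 - j P * i P1 = 0)).card := rfl
    omega
  have c2 := hcon P2 hP2
  obtain ⟨P3, hP3, n3⟩ : ∃ P3 ∈ S, P3 ∉ L P1 ∪ L P2 := by
    by_contra h
    push Not at h
    have h3 : S.card ≤ (L P1 ∪ L P2).card := Finset.card_le_card (fun x hx => h x hx)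
    have h4 := Finset.card_union_le (L P1) (L P2)
    have e1 : (L P1).card = (S.filter (fun P => i P * j P1 - j P * i P1 = 0)).card := rfl
    have e2 : (L P2).card = (S.filter (fun P => i P * j P2 - j P * i P2 = 0)).card := rfl
    omega
  have c3 := hcon P3 hP3
  obtain ⟨P4, hP4, n4⟩ : ∃ P4 ∈ S, P4 ∉ L P1 ∪ L P2 ∪ L P3 := by
    by_contra h
    push Not at h
    have h3 : S.card ≤ (L P1 ∪ L P2 ∪ L P3).card := Finset.card_le_card (fun x hx => h x hx)
    have h4 := Finset.card_union_le (L P1) (L P2)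
    have h5 := Finset.card_union_le (L P1 ∪ L P2) (L P3)
    have e1 : (L P1).card = (S.filter (fun P => i P * j P1 - j P * i P1 = 0)).card := rfl
    have e2 : (L P2).card = (S.filter (fun P => i P * j P2 - j P * i P2 = 0)).card := rfl
    have e3 : (L P3).card = (S.filter (fun P => i P * j P3 - j P * i P3 = 0)).card := rfl
    omega
  have m : ∀ P P0, P ∈ S → P ∉ L P0 → i P * j P0 - j P * i P0 ≠ 0 := by
    intro P P0 hP hn h
    exact hn (Finset.mem_filter.mpr ⟨hP, h⟩)
  rw [Finset.mem_union, not_or] at n3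
  rw [Finset.mem_union, Finset.mem_union, not_or, not_or] at n4
  have m21 := m P2 P1 hP2 n2
  have m31 := m P3 P1 hP3 n3.1
  have m32 := m P3 P2 hP3 n3.2
  have m41 := m P4 P1 hP4 n4.1.1
  have m42 := m P4 P2 hP4 n4.1.2
  have m43 := m P4 P3 hP4 n4.2
  apply hΦ
  refine evF_four Φ ![i P1, i P2, i P3, i P4] ![j P1, j P2, j P3, j P4] ?_ ?_
  · intro k
    fin_cases k
    · exact h0 P1 hP1
    · exact h0 P2 hP2
    · exact h0 P3 hP3
    · exact h0 P4 hP4
  · intro k l hkl
    fin_cases k <;> fin_cases l <;> first | exact absurd hkl (by decide) | skip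
    · intro h; apply m21; simp at h; linarith
    · intro h; apply m31; simp at h; linarith
    · intro h; apply m41; simp at h; linarith
    · intro h; apply m32; simp at h; linarith
    · intro h; apply m42; simp at h; linarith
    · intro h; apply m43; simp at h; linarith

end T3

end Pool.Agent.Lib.MP_d8bd92_nt
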