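import Mathlib

set_option autoImplicit false

/-!
Lemma F, second part: a reduced basis for vectors with bounded determinants.
-/

namespace Pool.Agent.Lib.MP_d8bd92_nt

namespace T3

open Finset

/-- determinant of two integer vectors -/
def dt (x y : ℤ × ℤ) : ℤ := x.1 * y.2 - x.2 * y.1

theorem dt_add_left (x y z : ℤ × ℤ) : dt (x + y) z = dt x z + dt y z := by
  simp only [dt, Prod.fst_add, Prod.snd_add]; ring

theorem dt_add_right (x y z : ℤ × ℤ) : dt z (x + y) = dt z x + dt z y := by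
  simp only [dt, Prod.fst_add, Prod.snd_add]; ring

theorem dt_neg_left (x z : ℤ × ℤ) : dt (-x) z = - dt x z := by
  simp only [dt, Prod.fst_neg, Prod.snd_neg]; ring

theorem dt_neg_right (x z : ℤ × ℤ) : dt z (-x) = - dt z x := by
  simp only [dt, Prod.fst_neg, Prod.snd_neg]; ring

theorem dt_zero_left (z : ℤ × ℤ) : dt 0 z = 0 := by simp [dt]

theorem dt_zero_right (z : ℤ × ℤ) : dt z 0 = 0 := by simp [dt]

theorem dt_closure (s : Set (ℤ × ℤ)) (D : ℤ) (h : ∀ x ∈ s, ∀ y ∈ s, D ∣ dt x y) :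
    ∀ x ∈ AddSubgroup.closure s, ∀ y ∈ AddSubgroup.closure s, D ∣ dt x y := by
  intro x hx
  have h1 : ∀ z ∈ s, D ∣ dt x z := by
    intro z hz
    refine AddSubgroup.closure_induction (p := fun x _ => D ∣ dt x z) ?_ ?_ ?_ ?_ hx
    · intro u hu
      exact h u hu z hz
    · rw [dt_zero_left]; exact dvd_zero _
    · intro u v _ _ hu hv
      rw [dt_add_left]; exact dvd_add hu hv
    · intro u _ hu
      rw [dt_neg_left]; exact (dvd_neg).mpr hu
  intro y hy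
  refine AddSubgroup.closure_induction (p := fun y _ => D ∣ dt x y) ?_ ?_ ?_ ?_ hy
  · intro u hu
    exact h1 u hu
  · rw [dt_zero_right]; exact dvd_zero _
  · intro u v _ _ hu hv
    rw [dt_add_right]; exact dvd_add hu hv
  · intro u _ hu
    rw [dt_neg_right]; exact (dvd_neg).mpr hu

/-- one step of the reduction: `|α|, |β| ≤ 1/2` -/
theorem gauss_real (a b c α β : ℝ) (hα : |α| ≤ 1 / 2) (hβ : |β| ≤ 1 / 2) (ha : 0 ≤ a) (hac : a ≤ c)
    (hb : 2 * |b| ≤ a) : α ^ 2 * a + 2 * (α * β) * b + β ^ 2 * c ≤ 3 / 4 * c := by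
  have h1 : α ^ 2 ≤ 1 / 4 := by
    have := abs_le.mp hα
    nlinarith
  have h2 : β ^ 2 ≤ 1 / 4 := by
    have := abs_le.mp hβ
    nlinarith
  have h3 : |2 * (α * β) * b| ≤ 1 / 4 * a := by
    rw [abs_mul, abs_mul, abs_mul]
    have h4 : |α| * |β| ≤ 1 / 4 := by
      have := abs_nonneg α
      have := abs_nonneg β
      nlinarith
    have h5 : |(2 : ℝ)| = 2 := by norm_num
    rw [h5]
    have h6 := abs_nonneg b
    have h7 : 0 ≤ |α| * |β| := by positivity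
    nlinarith
  have h8 := le_abs_self (2 * (α * β) * b)
  nlinarith

theorem gauss_box (S : Finset ℕ) (p : ℕ → ℤ × ℤ) (V : ℝ) (D0 : ℕ) (hD0 : 1 ≤ D0)
    (hd : ∀ P ∈ S, ∀ P' ∈ S, (D0 : ℤ) ∣ dt (p P) (p P') ∧ |((dt (p P) (p P') : ℤ) : ℝ)| ≤ V * D0)
    (hne : ∃ P ∈ S, ∃ P' ∈ S, dt (p P) (p P') ≠ 0) :
    ∃ (e1 e2 : ℤ × ℤ) (i j : ℕ → ℤ) (I J : ℝ), 0 < I ∧ 0 < J ∧ I * J ≤ 3 * V ∧
      e1 ∈ AddSubgroup.closure (p '' (S : Set ℕ)) ∧ e2 ∈ AddSubgroup.closure (p '' (S : Set ℕ)) ∧ dt e1 e2 ≠ 0 ∧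
      ∀ P ∈ S, (p P).1 = i P * e1.1 + j P * e2.1 ∧ (p P).2 = i P * e1.2 + j P * e2.2 ∧
        |(i P : ℝ)| ≤ I ∧ |(j P : ℝ)| ≤ J := by
  classical
  obtain ⟨P1, hP1, P2, hP2, hP12⟩ := hne
  obtain ⟨⟨A, B⟩, hAB, hmax⟩ := Finset.exists_max_image (S ×ˢ S) (fun t => |dt (p t.1) (p t.2)|)
    ⟨(P1, P2), Finset.mem_product.mpr ⟨hP1, hP2⟩⟩
  rw [Finset.mem_product] at hAB
  obtain ⟨hA, hB⟩ := hAB
  simp only at hA hB
  have hmax' : ∀ P ∈ S, ∀ P' ∈ S, |dt (p P) (p P')| ≤ |dt (p A) (p B)| := by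
    intro P hP P' hP'
    exact hmax (P, P') (Finset.mem_product.mpr ⟨hP, hP'⟩)
  set M : ℤ := dt (p A) (p B) with hM
  have hM0 : M ≠ 0 := by
    intro h
    have h1 := hmax' P1 hP1 P2 hP2
    rw [h, abs_zero] at h1
    exact hP12 (abs_nonpos_iff.mp h1)
  set L := AddSubgroup.closure (p '' (S : Set ℕ)) with hL
  have hpL : ∀ P ∈ S, p P ∈ L := fun P hP => AddSubgroup.subset_closure ⟨P, hP, rfl⟩
  have hLd : ∀ x ∈ L, ∀ y ∈ L, (D0 : ℤ) ∣ dt x y := by
    refine dt_closure _ _ ?_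
    rintro x ⟨P, hP, rfl⟩ y ⟨P', hP', rfl⟩
    exact (hd P hP P' hP').1
  -- the quadratic form
  set X1 : ℤ × ℤ → ℤ := fun x => dt x (p B) with hX1
  set X2 : ℤ × ℤ → ℤ := fun x => dt (p A) x with hX2
  set Q : ℤ × ℤ → ℤ := fun x => X1 x ^ 2 + X2 x ^ 2 with hQ
  have hQ0 : ∀ x, 0 ≤ Q x := fun x => by positivity
  have key : ∀ x y, X1 x * X2 y - X2 x * X1 y = M * dt x y := by
    intro x y
    simp only [hX1, hX2, hM, dt]
    ring
  have hQz : ∀ x, Q x = 0 → x = 0 := by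
    intro x hx
    have h1 : X1 x = 0 := by
      have : X1 x ^ 2 ≤ 0 := by have := sq_nonneg (X2 x); simp only [hQ] at hx; linarith
      exact pow_eq_zero_iff (two_ne_zero) |>.mp (le_antisymm this (sq_nonneg _))
    have h2 : X2 x = 0 := by
      have : X2 x ^ 2 ≤ 0 := by have := sq_nonneg (X1 x); simp only [hQ] at hx; linarith
      exact pow_eq_zero_iff (two_ne_zero) |>.mp (le_antisymm this (sq_nonneg _))
    have h3 : M * x.1 = 0 := by
      have : M * x.1 = X1 x * (p A).1 + X2 x * (p B).1 := by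
        simp only [hX1, hX2, hM, dt]; ring
      rw [this, h1, h2]; ring
    have h4 : M * x.2 = 0 := by
      have : M * x.2 = X1 x * (p A).2 + X2 x * (p B).2 := by
        simp only [hX1, hX2, hM, dt]; ring
      rw [this, h1, h2]; ring
    have h5 := (mul_eq_zero.mp h3).resolve_left hM0
    have h6 := (mul_eq_zero.mp h4).resolve_left hM0
    exact Prod.ext h5 h6
  have hX1l : ∀ x y, ∀ i j : ℤ, X1 (i • x + j • y) = i * X1 x + j * X1 y := by
    intro x y i j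
    simp only [hX1, dt, Prod.fst_add, Prod.snd_add, Prod.smul_fst, Prod.smul_snd, smul_eq_mul]
    ring
  have hX2l : ∀ x y, ∀ i j : ℤ, X2 (i • x + j • y) = i * X2 x + j * X2 y := by
    intro x y i j
    simp only [hX2, dt, Prod.fst_add, Prod.snd_add, Prod.smul_fst, Prod.smul_snd, smul_eq_mul]
    ring
  -- shortest vectors
  obtain ⟨e1, ⟨he1L, he10⟩, he1m⟩ := WellFounded.has_min (measure fun x : ℤ × ℤ => (Q x).toNat).wf
    {x : ℤ × ℤ | x ∈ L ∧ x ≠ 0} ⟨p A, hpL A hA, by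
      intro h; apply hM0; rw [hM, h]; exact dt_zero_left _⟩
  have he1min : ∀ x ∈ L, x ≠ 0 → Q e1 ≤ Q x := by
    intro x hx hx0
    have h1 : ¬ (Q x).toNat < (Q e1).toNat := he1m x ⟨hx, hx0⟩
    have h2 := hQ0 x
    have h3 := hQ0 e1
    omega
  obtain ⟨e2, ⟨he2L, he20⟩, he2m⟩ := WellFounded.has_min (measure fun x : ℤ × ℤ => (Q x).toNat).wf
    {x : ℤ × ℤ | x ∈ L ∧ dt e1 x ≠ 0} (by
      by_contra hemp
      rw [Set.not_nonempty_iff_eq_empty] at hemp
      have h1 : dt e1 (p A) = 0 := by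
        by_contra h
        have : p A ∈ {x : ℤ × ℤ | x ∈ L ∧ dt e1 x ≠ 0} := ⟨hpL A hA, h⟩
        rw [hemp] at this
        exact this
      have h2 : dt e1 (p B) = 0 := by
        by_contra h
        have : p B ∈ {x : ℤ × ℤ | x ∈ L ∧ dt e1 x ≠ 0} := ⟨hpL B hB, h⟩
        rw [hemp] at this
        exact this
      apply he10
      apply hQz
      have h3 : X1 e1 = 0 := h2
      have h4 : X2 e1 = 0 := by
        have : X2 e1 = - dt e1 (p A) := by simp only [hX2, dt]; ring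
        rw [this, h1, neg_zero]
      simp only [hQ, h3, h4]
      ring)
  have he2min : ∀ x ∈ L, dt e1 x ≠ 0 → Q e2 ≤ Q x := by
    intro x hx hx0
    have h1 : ¬ (Q x).toNat < (Q e2).toNat := he2m x ⟨hx, hx0⟩
    have h2 := hQ0 x
    have h3 := hQ0 e2
    omega
  set Δ : ℤ := dt e1 e2 with hΔ
  have hΔ0 : Δ ≠ 0 := he20
  have he2ne : e2 ≠ 0 := by
    intro h
    apply hΔ0
    rw [hΔ, h]
    exact dt_zero_right _
  have hQ12 : Q e1 ≤ Q e2 := he1min e2 he2L he2ne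
  have hQ1pos : 0 < Q e1 := by
    rcases (hQ0 e1).lt_or_eq with h | h
    · exact h
    · exact absurd (hQz e1 h.symm) he10
  have hQ2pos : 0 < Q e2 := lt_of_lt_of_le hQ1pos hQ12
  -- the scalar product
  set b12 : ℤ := X1 e1 * X1 e2 + X2 e1 * X2 e2 with hb12
  have hbp : 2 * |b12| ≤ Q e1 := by
    have h1 : Q e2 ≤ Q (e2 + e1) := by
      refine he2min _ (L.add_mem he2L he1L) ?_
      rw [dt_add_right]
      have : dt e1 e1 = 0 := by simp only [dt]; ring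
      rw [this, add_zero]
      exact hΔ0
    have h2 : Q e2 ≤ Q (e2 - e1) := by
      refine he2min _ (L.sub_mem he2L he1L) ?_
      rw [sub_eq_add_neg, dt_add_right, dt_neg_right]
      have : dt e1 e1 = 0 := by simp only [dt]; ring
      rw [this, neg_zero, add_zero]
      exact hΔ0
    have h3 : Q (e2 + e1) = Q e2 + 2 * b12 + Q e1 := by
      have a1 : X1 (e2 + e1) = X1 e2 + X1 e1 := dt_add_left _ _ _
      have a2 : X2 (e2 + e1) = X2 e2 + X2 e1 := dt_add_right _ _ _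
      simp only [hQ, a1, a2, hb12]
      ring
    have h4 : Q (e2 - e1) = Q e2 - 2 * b12 + Q e1 := by
      have a1 : X1 (e2 - e1) = X1 e2 - X1 e1 := by
        simp only [hX1]; rw [sub_eq_add_neg, dt_add_left, dt_neg_left]; ring
      have a2 : X2 (e2 - e1) = X2 e2 - X2 e1 := by
        simp only [hX2]; rw [sub_eq_add_neg, dt_add_right, dt_neg_right]; ring
      simp only [hQ, a1, a2, hb12]
      ring
    rcases abs_cases b12 with h | h <;> linarith [h.1]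
  -- coordinates
  have hcoord : ∀ x ∈ L, ∃ i j : ℤ, x = i • e1 + j • e2 := by
    intro x hx
    have hΔR : (Δ : ℝ) ≠ 0 := by exact_mod_cast hΔ0
    set β : ℝ := (dt e1 x : ℝ) / Δ with hβ
    set α : ℝ := (dt x e2 : ℝ) / Δ with hα
    set j : ℤ := round β with hj
    set i : ℤ := round α with hi
    set y : ℤ × ℤ := x - (i • e1 + j • e2) with hy
    have hyL : y ∈ L := L.sub_mem hx (L.add_mem (L.zsmul_mem he1L i) (L.zsmul_mem he2L j))
    have hxr1 : (X1 x : ℝ) = α * X1 e1 + β * X1 e2 := by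
      rw [hα, hβ]
      field_simp
      have : Δ * X1 x = dt x e2 * X1 e1 + dt e1 x * X1 e2 := by
        simp only [hX1, hΔ, dt]; ring
      exact_mod_cast (by linarith : X1 x * Δ = dt x e2 * X1 e1 + dt e1 x * X1 e2)
    have hxr2 : (X2 x : ℝ) = α * X2 e1 + β * X2 e2 := by
      rw [hα, hβ]
      field_simp
      have : Δ * X2 x = dt x e2 * X2 e1 + dt e1 x * X2 e2 := by
        simp only [hX2, hΔ, dt]; ring
      exact_mod_cast (by linarith : X2 x * Δ = dt x e2 * X2 e1 + dt e1 x * X2 e2)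
    set α' : ℝ := α - i with hα'
    set β' : ℝ := β - j with hβ'
    have hα2 : |α'| ≤ 1 / 2 := abs_sub_round α
    have hβ2 : |β'| ≤ 1 / 2 := abs_sub_round β
    have hX1y : X1 y = X1 x - (i * X1 e1 + j * X1 e2) := by
      have : X1 y = X1 x - X1 (i • e1 + j • e2) := by
        simp only [hX1, hy]; rw [sub_eq_add_neg, dt_add_left, dt_neg_left]; ring
      rw [this, hX1l]
    have hX2y : X2 y = X2 x - (i * X2 e1 + j * X2 e2) := by
      have : X2 y = X2 x - X2 (i • e1 + j • e2) := by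
        simp only [hX2, hy]; rw [sub_eq_add_neg, dt_add_right, dt_neg_right]; ring
      rw [this, hX2l]
    have hy1 : (X1 y : ℝ) = α' * X1 e1 + β' * X1 e2 := by
      rw [hX1y]; push_cast; rw [hxr1, hα', hβ']; ring
    have hy2 : (X2 y : ℝ) = α' * X2 e1 + β' * X2 e2 := by
      rw [hX2y]; push_cast; rw [hxr2, hα', hβ']; ring
    have hQy : (Q y : ℝ) = α' ^ 2 * (Q e1 : ℝ) + 2 * (α' * β') * (b12 : ℝ) + β' ^ 2 * (Q e2 : ℝ) := by
      simp only [hQ, hb12]; push_cast; rw [hy1, hy2]; ring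
    have hQyle : (Q y : ℝ) ≤ 3 / 4 * (Q e2 : ℝ) := by
      rw [hQy]
      refine gauss_real _ _ _ _ _ hα2 hβ2 ?_ ?_ ?_
      · exact_mod_cast (hQ0 e1)
      · exact_mod_cast hQ12
      · have : (2 * |b12| : ℤ) ≤ Q e1 := hbp
        exact_mod_cast this
    have hpar : dt e1 y = 0 := by
      by_contra h
      have h1 : Q e2 ≤ Q y := he2min y hyL h
      have h2 : (Q e2 : ℝ) ≤ Q y := by exact_mod_cast h1
      have h3 : (0 : ℝ) < Q e2 := by exact_mod_cast hQ2pos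
      linarith
    have hβ0 : β' = 0 := by
      have h1 : dt e1 y = dt e1 x - j * Δ := by
        rw [hy, sub_eq_add_neg, dt_add_right, dt_neg_right, dt_add_right]
        have a1 : dt e1 (i • e1) = 0 := by
          simp only [dt, Prod.smul_fst, Prod.smul_snd, smul_eq_mul]; ring
        have a2 : dt e1 (j • e2) = j * Δ := by
          simp only [hΔ, dt, Prod.smul_fst, Prod.smul_snd, smul_eq_mul]; ring
        rw [a1, a2]; ring
      rw [hpar] at h1
      have h2 : ((dt e1 x : ℤ) : ℝ) = j * Δ := by exact_mod_cast (by linarith : dt e1 x = j * Δ)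
      rw [hβ', hβ, h2]
      field_simp
      ring
    have hy0 : y = 0 := by
      by_contra h
      have h1 : Q e1 ≤ Q y := he1min y hyL h
      have h2 : (Q e1 : ℝ) ≤ Q y := by exact_mod_cast h1
      rw [hQy, hβ0] at h2
      have h3 : (0 : ℝ) < Q e1 := by exact_mod_cast hQ1pos
      have h4 : α' ^ 2 ≤ 1 / 4 := by
        have := abs_le.mp hα2
        nlinarith
      nlinarith
    refine ⟨i, j, ?_⟩
    exact sub_eq_zero.mp hy0
  -- choose coordinates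
  choose! ci cj hcij using hcoord
  have hMR : (M : ℝ) ≠ 0 := by exact_mod_cast hM0
  have hΔR : (Δ : ℝ) ≠ 0 := by exact_mod_cast hΔ0
  have hMabs : (0 : ℝ) < |(M : ℝ)| := abs_pos.mpr hMR
  have hΔabs : (0 : ℝ) < |(Δ : ℝ)| := abs_pos.mpr hΔR
  have hQ1R : (0 : ℝ) < Q e1 := by exact_mod_cast hQ1pos
  have hQ2R : (0 : ℝ) < Q e2 := by exact_mod_cast hQ2pos
  have had : ∀ x y, (M * dt x y) ^ 2 ≤ Q x * Q y := by
    intro x y
    rw [← key]
    simp only [hQ]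
    nlinarith [sq_nonneg (X1 x * X1 y + X2 x * X2 y)]
  have hQP : ∀ P ∈ S, Q (p P) ≤ 2 * M ^ 2 := by
    intro P hP
    have h1 : |X1 (p P)| ≤ |M| := hmax' P hP B hB
    have h2 : |X2 (p P)| ≤ |M| := hmax' A hA P hP
    have h3 := sq_le_sq.mpr h1
    have h4 := sq_le_sq.mpr h2
    simp only [hQ]
    linarith
  have hprod : (Q e1 : ℝ) * Q e2 ≤ 4 / 3 * ((M : ℝ) * Δ) ^ 2 := by
    have h1 : Q e1 * Q e2 = (M * Δ) ^ 2 + b12 ^ 2 := by
      have h2 := key e1 e2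
      rw [← hΔ] at h2
      rw [← h2]
      simp only [hQ, hb12]
      ring
    have h3 : 4 * b12 ^ 2 ≤ Q e1 ^ 2 := by
      have h4 : (2 * |b12|) ^ 2 ≤ Q e1 ^ 2 := by
        have := abs_nonneg b12
        nlinarith
      rw [mul_pow, sq_abs] at h4
      linarith
    have h5 : Q e1 ^ 2 ≤ Q e1 * Q e2 := by nlinarith
    have h6 : 3 * (Q e1 * Q e2) ≤ 4 * (M * Δ) ^ 2 := by linarith
    have h7 : (3 : ℝ) * ((Q e1 : ℝ) * Q e2) ≤ 4 * ((M : ℝ) * Δ) ^ 2 := by exact_mod_cast h6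
    linarith
  refine ⟨e1, e2, fun P => ci (p P), fun P => cj (p P), Real.sqrt (2 * Q e2) / |(Δ : ℝ)|, Real.sqrt (2 * Q e1) / |(Δ : ℝ)|,
    by positivity, by positivity, ?_, he1L, he2L, hΔ0, ?_⟩
  · have h1 : Real.sqrt (2 * Q e2) * Real.sqrt (2 * Q e1) ≤ 3 * (|(M : ℝ)| * |(Δ : ℝ)|) := by
      rw [← Real.sqrt_mul (by positivity)]
      refine Real.sqrt_le_iff.mpr ⟨by positivity, ?_⟩
      have h2 : (|(M : ℝ)| * |(Δ : ℝ)|) ^ 2 = ((M : ℝ) * Δ) ^ 2 := by
        rw [← abs_mul, sq_abs]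
      have h3 : (0 : ℝ) ≤ ((M : ℝ) * Δ) ^ 2 := by positivity
      nlinarith
    have h4 : |(M : ℝ)| ≤ V * D0 := (hd A hA B hB).2
    have h5 : (D0 : ℝ) ≤ |(Δ : ℝ)| := by
      have h6 := Int.le_of_dvd (abs_pos.mpr hΔ0) ((dvd_abs _ _).mpr (hLd e1 he1L e2 he2L))
      exact_mod_cast h6
    have hD0R : (0 : ℝ) < D0 := by exact_mod_cast hD0
    have hV : 0 ≤ V := by
      by_contra h
      push Not at h
      have := mul_neg_of_neg_of_pos h hD0R
      linarith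
    rw [div_mul_div_comm, div_le_iff₀ (by positivity)]
    calc Real.sqrt (2 * Q e2) * Real.sqrt (2 * Q e1) ≤ 3 * (|(M : ℝ)| * |(Δ : ℝ)|) := h1
      _ ≤ 3 * ((V * |(Δ : ℝ)|) * |(Δ : ℝ)|) := by
          have : |(M : ℝ)| ≤ V * |(Δ : ℝ)| := h4.trans (mul_le_mul_of_nonneg_left h5 hV)
          nlinarith
      _ = 3 * V * (|(Δ : ℝ)| * |(Δ : ℝ)|) := by ring
  · intro P hP
    have h1 := hcij (p P) (hpL P hP)
    have h2 : (p P).1 = ci (p P) * e1.1 + cj (p P) * e2.1 := by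
      have := congrArg Prod.fst h1
      simpa only [Prod.fst_add, Prod.smul_fst, smul_eq_mul] using this
    have h3 : (p P).2 = ci (p P) * e1.2 + cj (p P) * e2.2 := by
      have := congrArg Prod.snd h1
      simpa only [Prod.snd_add, Prod.smul_snd, smul_eq_mul] using this
    have h4 : dt e1 (p P) = cj (p P) * Δ := by
      simp only [hΔ, dt, h2, h3]; ring
    have h5 : dt (p P) e2 = ci (p P) * Δ := by
      simp only [hΔ, dt, h2, h3]; ring
    have hMp : (0 : ℝ) < (M : ℝ) ^ 2 := by positivity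
    have hQPR : (Q (p P) : ℝ) ≤ 2 * (M : ℝ) ^ 2 := by exact_mod_cast hQP P hP
    refine ⟨h2, h3, ?_, ?_⟩
    · rw [le_div_iff₀ hΔabs, ← abs_mul]
      refine Real.abs_le_sqrt ?_
      have h6 := had (p P) e2
      rw [h5] at h6
      have h7 : ((M : ℝ) * (ci (p P) * Δ)) ^ 2 ≤ (Q (p P) : ℝ) * Q e2 := by exact_mod_cast h6
      have h8 : (Q (p P) : ℝ) * Q e2 ≤ 2 * (M : ℝ) ^ 2 * Q e2 := mul_le_mul_of_nonneg_right hQPR hQ2R.le
      have h9 : (M : ℝ) ^ 2 * ((ci (p P) : ℝ) * Δ) ^ 2 ≤ (M : ℝ) ^ 2 * (2 * Q e2) := by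
        calc (M : ℝ) ^ 2 * ((ci (p P) : ℝ) * Δ) ^ 2 = ((M : ℝ) * (ci (p P) * Δ)) ^ 2 := by ring
          _ ≤ 2 * (M : ℝ) ^ 2 * Q e2 := h7.trans h8
          _ = (M : ℝ) ^ 2 * (2 * Q e2) := by ring
      exact le_of_mul_le_mul_left h9 hMp
    · rw [le_div_iff₀ hΔabs, ← abs_mul]
      refine Real.abs_le_sqrt ?_
      have h6 := had e1 (p P)
      rw [h4] at h6
      have h7 : ((M : ℝ) * (cj (p P) * Δ)) ^ 2 ≤ (Q e1 : ℝ) * Q (p P) := by exact_mod_cast h6
      have h8 : (Q e1 : ℝ) * Q (p P) ≤ Q e1 * (2 * (M : ℝ) ^ 2) := mul_le_mul_of_nonneg_left hQPR hQ1R.le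
      have h9 : (M : ℝ) ^ 2 * ((cj (p P) : ℝ) * Δ) ^ 2 ≤ (M : ℝ) ^ 2 * (2 * Q e1) := by
        calc (M : ℝ) ^ 2 * ((cj (p P) : ℝ) * Δ) ^ 2 = ((M : ℝ) * (cj (p P) * Δ)) ^ 2 := by ring
          _ ≤ Q e1 * (2 * (M : ℝ) ^ 2) := h7.trans h8
          _ = (M : ℝ) ^ 2 * (2 * Q e1) := by ring
      exact le_of_mul_le_mul_left h9 hMp

end T3

end Pool.Agent.Lib.MP_d8bd92_nt
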