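import Pool.Agent.Lib.MP_d8bd92_nt.T3.FormA

set_option autoImplicit false

/-!
Lemma F, third part: pigeonhole over binary cubic forms.
-/

namespace Pool.Agent.Lib.MP_d8bd92_nt

namespace T3

open Finset

/-- mixed coefficients of `Φ (ξ u + D r, ξ v + D s)` -/
def evG1 (Φ : Fin 4 → ℤ) (u v r s : ℤ) : ℤ :=
  3 * Φ 0 * u ^ 2 * r + Φ 1 * (u ^ 2 * s + 2 * u * v * r) + Φ 2 * (v ^ 2 * r + 2 * u * v * s) + 3 * Φ 3 * v ^ 2 * s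

def evG2 (Φ : Fin 4 → ℤ) (u v r s : ℤ) : ℤ :=
  3 * Φ 0 * u * r ^ 2 + Φ 1 * (2 * u * r * s + v * r ^ 2) + Φ 2 * (u * s ^ 2 + 2 * v * r * s) + 3 * Φ 3 * v * s ^ 2

theorem evF_expand (Φ : Fin 4 → ℤ) (u v r s x D : ℤ) :
    evF Φ (x * u + D * r) (x * v + D * s) =
      evF Φ u v * x ^ 3 + evG1 Φ u v r s * (x ^ 2 * D) + evG2 Φ u v r s * (x * D ^ 2) + evF Φ r s * D ^ 3 := by
  unfold evF evG1 evG2
  ring

theorem evG1_sub (Φ Ψ : Fin 4 → ℤ) (u v r s : ℤ) : evG1 (Φ - Ψ) u v r s = evG1 Φ u v r s - evG1 Ψ u v r s := by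
  unfold evG1
  simp only [Pi.sub_apply]
  ring

theorem evG2_sub (Φ Ψ : Fin 4 → ℤ) (u v r s : ℤ) : evG2 (Φ - Ψ) u v r s = evG2 Φ u v r s - evG2 Ψ u v r s := by
  unfold evG2
  simp only [Pi.sub_apply]
  ring

theorem evF_smul (Φ : Fin 4 → ℤ) (t i j : ℤ) : evF Φ (t * i) (t * j) = t ^ 3 * evF Φ i j := by
  unfold evF
  ring

/-- size of a cubic form -/
theorem evF_abs_le (Ψ : Fin 4 → ℤ) (n : Fin 4 → ℕ) (T I J : ℝ) (hI : 0 < I) (hJ : 0 < J)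
    (hn : ∀ k : Fin 4, (n k : ℝ) ≤ T / (8 * (I ^ (3 - k.1) * J ^ k.1))) (hΨ : ∀ k, |Ψ k| ≤ n k)
    (i j : ℤ) (hi : |(i : ℝ)| ≤ I) (hj : |(j : ℝ)| ≤ J) : |((evF Ψ i j : ℤ) : ℝ)| ≤ T / 2 := by
  have key : ∀ k : Fin 4, |(Ψ k : ℝ)| * (|(i : ℝ)| ^ (3 - k.1) * |(j : ℝ)| ^ k.1) ≤ T / 8 := by
    intro k
    have h1 : |(Ψ k : ℝ)| ≤ n k := by
      have := hΨ k
      exact_mod_cast this
    have h2 : |(i : ℝ)| ^ (3 - k.1) ≤ I ^ (3 - k.1) := pow_le_pow_left₀ (abs_nonneg _) hi _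
    have h3 : |(j : ℝ)| ^ k.1 ≤ J ^ k.1 := pow_le_pow_left₀ (abs_nonneg _) hj _
    have h4 : |(i : ℝ)| ^ (3 - k.1) * |(j : ℝ)| ^ k.1 ≤ I ^ (3 - k.1) * J ^ k.1 :=
      mul_le_mul h2 h3 (by positivity) (by positivity)
    have h5 : (0 : ℝ) < I ^ (3 - k.1) * J ^ k.1 := by positivity
    calc |(Ψ k : ℝ)| * (|(i : ℝ)| ^ (3 - k.1) * |(j : ℝ)| ^ k.1)
        ≤ (n k : ℝ) * (I ^ (3 - k.1) * J ^ k.1) := mul_le_mul h1 h4 (by positivity) (by positivity)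
      _ ≤ T / (8 * (I ^ (3 - k.1) * J ^ k.1)) * (I ^ (3 - k.1) * J ^ k.1) :=
          mul_le_mul_of_nonneg_right (hn k) h5.le
      _ = T / 8 := by
          field_simp
  have k0 := key 0
  have k1 := key 1
  have k2 := key 2
  have k3 := key 3
  have f0 : (0 : Fin 4).1 = 0 := rfl
  have f1 : (1 : Fin 4).1 = 1 := rfl
  have f2 : (2 : Fin 4).1 = 2 := rfl
  have f3 : (3 : Fin 4).1 = 3 := rfl
  rw [f0] at k0
  rw [f1] at k1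
  rw [f2] at k2
  rw [f3] at k3
  have e0 : ((evF Ψ i j : ℤ) : ℝ) = (Ψ 0 : ℝ) * (i : ℝ) ^ 3 + (Ψ 1 : ℝ) * ((i : ℝ) ^ 2 * j) +
      (Ψ 2 : ℝ) * (i * (j : ℝ) ^ 2) + (Ψ 3 : ℝ) * (j : ℝ) ^ 3 := by
    unfold evF
    push_cast
    ring
  rw [e0]
  have a0 : |(Ψ 0 : ℝ) * (i : ℝ) ^ 3| ≤ T / 8 := by
    rw [abs_mul, abs_pow]
    simpa using k0
  have a1 : |(Ψ 1 : ℝ) * ((i : ℝ) ^ 2 * j)| ≤ T / 8 := by
    rw [abs_mul, abs_mul, abs_pow]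
    simpa using k1
  have a2 : |(Ψ 2 : ℝ) * (i * (j : ℝ) ^ 2)| ≤ T / 8 := by
    rw [abs_mul, abs_mul, abs_pow]
    simpa using k2
  have a3 : |(Ψ 3 : ℝ) * (j : ℝ) ^ 3| ≤ T / 8 := by
    rw [abs_mul, abs_pow]
    simpa using k3
  have b0 := abs_le.mp a0
  have b1 := abs_le.mp a1
  have b2 := abs_le.mp a2
  have b3 := abs_le.mp a3
  rw [abs_le]
  constructor <;> linarith [b0.1, b0.2, b1.1, b1.2, b2.1, b2.2, b3.1, b3.2]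

/-- the pigeonhole argument -/
theorem formF_core (S : Finset ℕ) (hS : S.Nonempty) (hpos : ∀ P ∈ S, 1 ≤ P) (e N : ℕ) (hN : 1 ≤ N)
    (T B I J : ℝ) (hT : 0 < T) (hI : 0 < I) (hJ : 0 < J) (hB : 0 ≤ B)
    (hW : ∀ (l : ℤ) (n : ℕ → ℤ), (∀ Y ∈ S, (N : ℤ) ∣ n Y - l * (Y : ℤ) ^ e) → (∀ Y ∈ S, |(n Y : ℝ)| ≤ T) →
      ∃ h : ℤ, ∀ Y ∈ S, n Y = h * (Y : ℤ) ^ e)
    (i j ξ : ℕ → ℤ) (ξ1 ξ2 lam : ℤ) (hi : ∀ P ∈ S, |(i P : ℝ)| ≤ I ∧ |(j P : ℝ)| ≤ J)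
    (hξ : ∀ P ∈ S, ξ P = i P * ξ1 + j P * ξ2 ∧ (N : ℤ) ∣ ξ P ^ 3 - lam * (P : ℤ) ^ e ∧ IsCoprime (ξ P) (N : ℤ))
    (hBT : ∀ P ∈ S, T ≤ B * (P : ℝ) ^ e)
    (hcount : 2 * B + 1 < T ^ 4 / (8 ^ 4 * (I * J) ^ 6) / (N : ℝ) ^ 3) :
    ∃ P0 ∈ S, S.card ≤ 3 * (S.filter (fun P => i P * j P0 - j P * i P0 = 0)).card := by
  classical
  have : NeZero N := ⟨by omega⟩
  have hNR : (0 : ℝ) < N := by exact_mod_cast hN
  set n : Fin 4 → ℕ := fun k => ⌊T / (8 * (I ^ (3 - k.1) * J ^ k.1))⌋₊ with hn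
  have hn1 : ∀ k : Fin 4, (n k : ℝ) ≤ T / (8 * (I ^ (3 - k.1) * J ^ k.1)) := fun k =>
    Nat.floor_le (by positivity)
  have hn2 : ∀ k : Fin 4, T / (8 * (I ^ (3 - k.1) * J ^ k.1)) ≤ (n k : ℝ) + 1 := fun k =>
    (Nat.lt_floor_add_one _).le
  set Fam : Finset (Fin 4 → ℤ) := Fintype.piFinset (fun k => Finset.Icc (0 : ℤ) (n k)) with hFam
  have hcard : T ^ 4 / (8 ^ 4 * (I * J) ^ 6) ≤ (Fam.card : ℝ) := by
    have h1 : (Fam.card : ℝ) = ((n 0 : ℝ) + 1) * ((n 1 : ℝ) + 1) * ((n 2 : ℝ) + 1) * ((n 3 : ℝ) + 1) := by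
      rw [hFam, Fintype.card_piFinset, Fin.prod_univ_four]
      simp only [Int.card_Icc]
      push_cast
      have : ∀ m : ℕ, ((((m : ℤ) + 1 - 0).toNat : ℕ) : ℝ) = (m : ℝ) + 1 := by
        intro m
        have : ((m : ℤ) + 1 - 0).toNat = m + 1 := by omega
        rw [this]; push_cast; ring
      rw [this, this, this, this]
    rw [h1]
    have g0 := hn2 0
    have g1 := hn2 1
    have g2 := hn2 2
    have g3 := hn2 3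
    have f0 : (0 : Fin 4).1 = 0 := rfl
    have f1 : (1 : Fin 4).1 = 1 := rfl
    have f2 : (2 : Fin 4).1 = 2 := rfl
    have f3 : (3 : Fin 4).1 = 3 := rfl
    rw [f0] at g0
    rw [f1] at g1
    rw [f2] at g2
    rw [f3] at g3
    have h2 : T ^ 4 / (8 ^ 4 * (I * J) ^ 6) = T / (8 * (I ^ (3 - 0) * J ^ 0)) * (T / (8 * (I ^ (3 - 1) * J ^ 1))) *
        (T / (8 * (I ^ (3 - 2) * J ^ 2))) * (T / (8 * (I ^ (3 - 3) * J ^ 3))) := by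
      simp only [Nat.sub_zero, Nat.sub_self]
      have e1 : (3 - 1 : ℕ) = 2 := rfl
      have e2 : (3 - 2 : ℕ) = 1 := rfl
      rw [e1, e2]
      field_simp
    rw [h2]
    refine mul_le_mul (mul_le_mul (mul_le_mul g0 g1 (by positivity) (by positivity)) g2 (by positivity)
      (by positivity)) g3 (by positivity) (by positivity)
  obtain ⟨P0, hP0⟩ := hS
  set u : ℤ := i P0 with hu
  set v : ℤ := j P0 with hv
  set G : (Fin 4 → ℤ) → ZMod N × ZMod N × ZMod N := fun Φ =>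
    (((evG1 Φ u v ξ2 (-ξ1) : ℤ) : ZMod N), ((evG2 Φ u v ξ2 (-ξ1) : ℤ) : ZMod N), ((evF Φ ξ2 (-ξ1) : ℤ) : ZMod N)) with hG
  obtain ⟨y, -, hy⟩ := Finset.exists_le_card_fiber_of_nsmul_le_card_of_maps_to
    (s := Fam) (t := (Finset.univ : Finset (ZMod N × ZMod N × ZMod N))) (f := G)
    (b := (Fam.card : ℝ) / (N : ℝ) ^ 3) (fun a _ => Finset.mem_univ _) ⟨0, Finset.mem_univ _⟩ (by
      rw [Finset.card_univ, Fintype.card_prod, Fintype.card_prod, ZMod.card, nsmul_eq_mul]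
      push_cast
      rw [mul_div_assoc']
      rw [div_le_iff₀ (by positivity)]
      apply le_of_eq
      ring)
  set Fib : Finset (Fin 4 → ℤ) := Fam.filter (fun Φ => G Φ = y) with hFib
  have hFc : 2 * B + 1 < (Fib.card : ℝ) := by
    refine lt_of_lt_of_le hcount (le_trans ?_ hy)
    exact div_le_div_of_nonneg_right hcard (by positivity)
  have hFne : Fib.Nonempty := by
    rw [← Finset.card_pos]
    have : (0 : ℝ) < Fib.card := by linarith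
    exact_mod_cast this
  obtain ⟨Φ0, hΦ0⟩ := hFne
  -- differences
  obtain ⟨a, b, hab⟩ : IsCoprime (ξ P0 ^ 3) (N : ℤ) := IsCoprime.pow_left (hξ P0 hP0).2.2
  have hmem : ∀ Φ ∈ Fib, (∀ k, 0 ≤ Φ k ∧ Φ k ≤ n k) ∧ G Φ = y := by
    intro Φ hΦ
    rw [hFib, Finset.mem_filter, hFam, Fintype.mem_piFinset] at hΦ
    exact ⟨fun k => Finset.mem_Icc.mp (hΦ.1 k), hΦ.2⟩
  have hh : ∀ Φ ∈ Fib, ∃ h : ℤ, (∀ Y ∈ S, evF (Φ - Φ0) (i Y) (j Y) = h * (Y : ℤ) ^ e) ∧ |(h : ℝ)| ≤ B := by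
    intro Φ hΦ
    obtain ⟨h1, h2⟩ := hmem Φ hΦ
    obtain ⟨h3, h4⟩ := hmem Φ0 hΦ0
    have hG12 : G Φ = G Φ0 := h2.trans h4.symm
    have d1 : (N : ℤ) ∣ evG1 (Φ - Φ0) u v ξ2 (-ξ1) := by
      rw [evG1_sub]
      have : ((evG1 Φ u v ξ2 (-ξ1) : ℤ) : ZMod N) = ((evG1 Φ0 u v ξ2 (-ξ1) : ℤ) : ZMod N) := congrArg Prod.fst hG12
      rw [← ZMod.intCast_zmod_eq_zero_iff_dvd]
      push_cast
      rw [this, sub_self]
    have d2 : (N : ℤ) ∣ evG2 (Φ - Φ0) u v ξ2 (-ξ1) := by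
      rw [evG2_sub]
      have : ((evG2 Φ u v ξ2 (-ξ1) : ℤ) : ZMod N) = ((evG2 Φ0 u v ξ2 (-ξ1) : ℤ) : ZMod N) :=
        congrArg (fun t => t.2.1) hG12
      rw [← ZMod.intCast_zmod_eq_zero_iff_dvd]
      push_cast
      rw [this, sub_self]
    have d3 : (N : ℤ) ∣ evF (Φ - Φ0) ξ2 (-ξ1) := by
      rw [evF_sub]
      have : ((evF Φ ξ2 (-ξ1) : ℤ) : ZMod N) = ((evF Φ0 ξ2 (-ξ1) : ℤ) : ZMod N) :=
        congrArg (fun t => t.2.2) hG12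
      rw [← ZMod.intCast_zmod_eq_zero_iff_dvd]
      push_cast
      rw [this, sub_self]
    have hcong : ∀ Y ∈ S, (N : ℤ) ∣ evF (Φ - Φ0) (i Y) (j Y) - (a * evF (Φ - Φ0) u v * lam) * (Y : ℤ) ^ e := by
      intro Y hY
      obtain ⟨x1, x2, x3⟩ := hξ Y hY
      obtain ⟨z1, -, -⟩ := hξ P0 hP0
      set D : ℤ := i Y * v - j Y * u with hD
      have hi1 : ξ Y * u + D * ξ2 = ξ P0 * i Y := by
        rw [x1, z1, hD, ← hu, ← hv]; ring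
      have hj1 : ξ Y * v + D * (-ξ1) = ξ P0 * j Y := by
        rw [x1, z1, hD, ← hu, ← hv]; ring
      have hexp := evF_expand (Φ - Φ0) u v ξ2 (-ξ1) (ξ Y) D
      rw [hi1, hj1, evF_smul] at hexp
      have e1 : (N : ℤ) ∣ ξ P0 ^ 3 * evF (Φ - Φ0) (i Y) (j Y) - evF (Φ - Φ0) u v * ξ Y ^ 3 := by
        rw [hexp]
        have : evF (Φ - Φ0) u v * ξ Y ^ 3 + evG1 (Φ - Φ0) u v ξ2 (-ξ1) * (ξ Y ^ 2 * D) +
            evG2 (Φ - Φ0) u v ξ2 (-ξ1) * (ξ Y * D ^ 2) + evF (Φ - Φ0) ξ2 (-ξ1) * D ^ 3 -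
            evF (Φ - Φ0) u v * ξ Y ^ 3 = evG1 (Φ - Φ0) u v ξ2 (-ξ1) * (ξ Y ^ 2 * D) +
            evG2 (Φ - Φ0) u v ξ2 (-ξ1) * (ξ Y * D ^ 2) + evF (Φ - Φ0) ξ2 (-ξ1) * D ^ 3 := by ring
        rw [this]
        exact dvd_add (dvd_add (d1.mul_right _) (d2.mul_right _)) (d3.mul_right _)
      have e2 : evF (Φ - Φ0) (i Y) (j Y) - (a * evF (Φ - Φ0) u v * lam) * (Y : ℤ) ^ e =
          a * (ξ P0 ^ 3 * evF (Φ - Φ0) (i Y) (j Y) - evF (Φ - Φ0) u v * ξ Y ^ 3) +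
          a * evF (Φ - Φ0) u v * (ξ Y ^ 3 - lam * (Y : ℤ) ^ e) + N * (b * evF (Φ - Φ0) (i Y) (j Y)) := by
        have : evF (Φ - Φ0) (i Y) (j Y) = (a * ξ P0 ^ 3 + b * N) * evF (Φ - Φ0) (i Y) (j Y) := by
          rw [hab, one_mul]
        linear_combination this
      rw [e2]
      exact dvd_add (dvd_add (e1.mul_left _) (x2.mul_left _)) (dvd_mul_right _ _)
    have hsize : ∀ Y ∈ S, |((evF (Φ - Φ0) (i Y) (j Y) : ℤ) : ℝ)| ≤ T / 2 := by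
      intro Y hY
      refine evF_abs_le (Φ - Φ0) n T I J hI hJ hn1 ?_ _ _ (hi Y hY).1 (hi Y hY).2
      intro k
      have q1 := h1 k
      have q2 := h3 k
      rw [Pi.sub_apply, abs_le]
      constructor <;> linarith [q1.1, q1.2, q2.1, q2.2]
    obtain ⟨h, hh⟩ := hW (a * evF (Φ - Φ0) u v * lam) (fun Y => evF (Φ - Φ0) (i Y) (j Y)) hcong
      (fun Y hY => (hsize Y hY).trans (by linarith))
    refine ⟨h, hh, ?_⟩
    have r1 := hh P0 hP0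
    have r2 := hsize P0 hP0
    rw [r1] at r2
    push_cast at r2
    have r3 := hBT P0 hP0
    have r4 : (0 : ℝ) < (P0 : ℝ) ^ e := by
      have : (1 : ℝ) ≤ P0 := by exact_mod_cast hpos P0 hP0
      positivity
    rw [abs_mul, abs_of_pos r4] at r2
    have r5 : |(h : ℝ)| * (P0 : ℝ) ^ e ≤ B * (P0 : ℝ) ^ e := by linarith
    exact le_of_mul_le_mul_right r5 r4
  choose! hf hhf using hh
  -- two forms with the same `h`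
  have hmaps : ∀ Φ ∈ Fib, hf Φ ∈ Finset.Icc (-⌊B⌋) ⌊B⌋ := by
    intro Φ hΦ
    have h1 := (hhf Φ hΦ).2
    rw [abs_le] at h1
    rw [Finset.mem_Icc]
    have h2 : hf Φ ≤ ⌊B⌋ := Int.le_floor.mpr h1.2
    have h3 : -hf Φ ≤ ⌊B⌋ := Int.le_floor.mpr (by push_cast; linarith [h1.1])
    exact ⟨by linarith, h2⟩
  have hlt : (Finset.Icc (-⌊B⌋) ⌊B⌋).card < Fib.card := by
    have h1 : ((Finset.Icc (-⌊B⌋) ⌊B⌋).card : ℝ) ≤ 2 * B + 1 := by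
      rw [Int.card_Icc]
      have h0 : 0 ≤ ⌊B⌋ := Int.floor_nonneg.mpr hB
      have h2 : ((⌊B⌋ + 1 - -⌊B⌋).toNat : ℝ) = 2 * (⌊B⌋ : ℝ) + 1 := by
        have : (((⌊B⌋ + 1 - -⌊B⌋).toNat : ℕ) : ℤ) = 2 * ⌊B⌋ + 1 := by omega
        exact_mod_cast congrArg (fun t : ℤ => (t : ℝ)) this
      rw [h2]
      have := Int.floor_le B
      linarith
    have h2 : ((Finset.Icc (-⌊B⌋) ⌊B⌋).card : ℝ) < Fib.card := lt_of_le_of_lt h1 hFc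
    exact_mod_cast h2
  obtain ⟨Φ1, hΦ1, Φ2, hΦ2, hne, heq⟩ := Finset.exists_ne_map_eq_of_card_lt_of_maps_to hlt hmaps
  refine third_line (Φ1 - Φ2) (sub_ne_zero.mpr hne) S ⟨P0, hP0⟩ i j ?_
  intro P hP
  have h1 := (hhf Φ1 hΦ1).1 P hP
  have h2 := (hhf Φ2 hΦ2).1 P hP
  rw [heq] at h1
  rw [evF_sub] at h1 h2 ⊢
  linarith

end T3

end Pool.Agent.Lib.MP_d8bd92_nt
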