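import Pool.Agent.Lib.MP_d8bd92_nt.T3.FormB
import Pool.Agent.Lib.MP_d8bd92_nt.T3.FormC

set_option autoImplicit false

/-!
Lemma F (binary cubic forms) from the statement of the dense Weyl lemma for primes.
-/

namespace Pool.Agent.Lib.MP_d8bd92_nt

namespace T3

open Finset

/-- the statement of the dense Weyl lemma for primes (exponent `f`, saving `c`) -/
def WeylStat (f : ℕ) (c : ℝ) : Prop :=
  ∃ d H0 : ℝ, 0 < d ∧ 1 ≤ H0 ∧ ∀ H : ℝ, H0 ≤ H → ∀ S : Finset ℕ,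
    (∀ Y ∈ S, Y.Prime ∧ H ^ (1 - d) ≤ (Y : ℝ) ∧ (Y : ℝ) ≤ H ^ (1 + d)) → H ^ (1 - d) ≤ (S.card : ℝ) →
    ∀ (N : ℕ) (lam : ℤ) (lam' : ℝ) (n : ℕ → ℤ), 1 ≤ N →
      (∀ Y ∈ S, (N : ℤ) ∣ n Y - lam * (Y : ℤ) ^ f) →
      (∀ Y ∈ S, |(n Y : ℝ) - lam' * (Y : ℝ) ^ f| ≤ N * H ^ (-c)) →
      ∃ h : ℤ, ∀ Y ∈ S, n Y = h * (Y : ℤ) ^ f

theorem closure_dvd (s : Set (ℤ × ℤ)) (D a1 a2 : ℤ) (h : ∀ x ∈ s, D ∣ a1 * x.1 + a2 * x.2) :
    ∀ x ∈ AddSubgroup.closure s, D ∣ a1 * x.1 + a2 * x.2 := by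
  intro x hx
  refine AddSubgroup.closure_induction (p := fun x _ => D ∣ a1 * x.1 + a2 * x.2) ?_ ?_ ?_ ?_ hx
  · exact h
  · simp
  · intro u v _ _ hu hv
    have : a1 * (u + v).1 + a2 * (u + v).2 = (a1 * u.1 + a2 * u.2) + (a1 * v.1 + a2 * v.2) := by
      simp only [Prod.fst_add, Prod.snd_add]; ring
    rw [this]
    exact dvd_add hu hv
  · intro u _ hu
    have : a1 * (-u).1 + a2 * (-u).2 = -(a1 * u.1 + a2 * u.2) := by
      simp only [Prod.fst_neg, Prod.snd_neg]; ring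
    rw [this]
    exact (dvd_neg).mpr hu

/-- LEMMA F -/
theorem lemma_F_of (e : ℕ) (he : 1 ≤ e) (c : ℝ) (hc : 0 < c) (hW : WeylStat e c) :
    ∃ d H0 : ℝ, 0 < d ∧ 1 ≤ H0 ∧ ∀ H : ℝ, H0 ≤ H → ∀ S : Finset ℕ,
      (∀ P ∈ S, P.Prime ∧ H ^ (1 - d) ≤ (P : ℝ) ∧ (P : ℝ) ≤ H ^ (1 + d)) → H ^ (1 - d) ≤ (S.card : ℝ) →
      ∀ (N : ℕ) (lam a1 a2 D : ℤ) (xi : ℕ → ℤ) (p : ℕ → ℤ × ℤ) (V : ℝ) (D0 : ℕ), 1 ≤ N → 1 ≤ D0 → D ≠ 0 →
        (∀ P ∈ S, ∀ P' ∈ S, (D0 : ℤ) ∣ (p P).1 * (p P').2 - (p P).2 * (p P').1 ∧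
          |(((p P).1 * (p P').2 - (p P).2 * (p P').1 : ℤ) : ℝ)| ≤ V * D0) →
        (∀ P ∈ S, D * xi P = a1 * (p P).1 + a2 * (p P).2 ∧ (N : ℤ) ∣ xi P ^ 3 - lam * (P : ℤ) ^ e ∧
          IsCoprime (xi P) (N : ℤ)) →
        V ^ 6 ≤ N * H ^ (-(6 * c)) → V ^ 6 ≤ H ^ (e - 6 * c) →
        ∃ P0 ∈ S, S.card ≤ 3 * (S.filter (fun P => (p P).1 * (p P0).2 - (p P).2 * (p P0).1 = 0)).card := by
  obtain ⟨d1, H1, hd1, hH1, hWW⟩ := hW
  have heR : (1 : ℝ) ≤ e := by exact_mod_cast he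
  set Cst : ℝ := 8 ^ 4 * 3 ^ 6 with hCst
  have hCpos : (1 : ℝ) ≤ Cst := by rw [hCst]; norm_num
  refine ⟨min (min d1 (c / e)) (1 / 2), max H1 ((8 * Cst) ^ (1 / (2 * c))), by positivity, le_max_of_le_left hH1, ?_⟩
  intro H hH S hS hcard N lam a1 a2 D xi p V D0 hN hD0 hD hdet hxi hV1 hV2
  set d : ℝ := min (min d1 (c / e)) (1 / 2) with hd
  have hdd1 : d ≤ d1 := (min_le_left _ _).trans (min_le_left _ _)
  have hdce : d ≤ c / e := (min_le_left _ _).trans (min_le_right _ _)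
  have hdh : d ≤ 1 / 2 := min_le_right _ _
  have hH1' : H1 ≤ H := (le_max_left _ _).trans hH
  have hHone : 1 ≤ H := hH1.trans hH1'
  have hH0 : 0 < H := by linarith
  have hH2 : 8 * Cst ≤ H ^ (2 * c) := by
    have h1 : (8 * Cst) ^ (1 / (2 * c)) ≤ H := (le_max_right _ _).trans hH
    calc 8 * Cst = ((8 * Cst) ^ (1 / (2 * c))) ^ (2 * c) := by
          rw [← Real.rpow_mul (by positivity), one_div_mul_cancel (by positivity), Real.rpow_one]
      _ ≤ H ^ (2 * c) := Real.rpow_le_rpow (by positivity) h1 (by positivity)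
  have hSne : S.Nonempty := by
    rw [← Finset.card_pos]
    have h1 : (0 : ℝ) < H ^ (1 - d) := by positivity
    have : (0 : ℝ) < S.card := lt_of_lt_of_le h1 hcard
    exact_mod_cast this
  by_cases hcol : ∃ P ∈ S, ∃ P' ∈ S, dt (p P) (p P') ≠ 0
  swap
  · push Not at hcol
    obtain ⟨P0, hP0⟩ := hSne
    refine ⟨P0, hP0, ?_⟩
    have : S.filter (fun P => (p P).1 * (p P0).2 - (p P).2 * (p P0).1 = 0) = S := by
      rw [Finset.filter_eq_self]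
      intro P hP
      exact hcol P hP P0 hP0
    rw [this]
    omega
  have hNR : (0 : ℝ) < N := by exact_mod_cast hN
  have hD0R : (0 : ℝ) < D0 := by exact_mod_cast hD0
  have hVpos : 0 < V := by
    obtain ⟨P, hP, P', hP', hne⟩ := hcol
    have h1 := (hdet P hP P' hP').2
    have h2 : (1 : ℝ) ≤ |((dt (p P) (p P') : ℤ) : ℝ)| := by
      have := Int.one_le_abs hne
      exact_mod_cast this
    have h3 : |((dt (p P) (p P') : ℤ) : ℝ)| ≤ V * D0 := h1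
    have h4 : 0 < V * D0 := by linarith
    exact (pos_iff_pos_of_mul_pos h4).mpr hD0R
  obtain ⟨e1, e2, i, j, I, J, hI, hJ, hIJ, he1, he2, hdt, hco⟩ := gauss_box S p V D0 hD0
    (fun P hP P' hP' => hdet P hP P' hP') hcol
  have hgen : ∀ x ∈ p '' (S : Set ℕ), D ∣ a1 * x.1 + a2 * x.2 := by
    rintro x ⟨P, hP, rfl⟩
    exact ⟨xi P, (hxi P hP).1.symm⟩
  obtain ⟨x1, hx1⟩ := closure_dvd _ D a1 a2 hgen e1 he1
  obtain ⟨x2, hx2⟩ := closure_dvd _ D a1 a2 hgen e2 he2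
  have hxi' : ∀ P ∈ S, xi P = i P * x1 + j P * x2 ∧ (N : ℤ) ∣ xi P ^ 3 - lam * (P : ℤ) ^ e ∧
      IsCoprime (xi P) (N : ℤ) := by
    intro P hP
    obtain ⟨h1, h2, h3⟩ := hxi P hP
    obtain ⟨h4, h5, -, -⟩ := hco P hP
    refine ⟨?_, h2, h3⟩
    apply mul_left_cancel₀ hD
    rw [h1, h4, h5]
    linear_combination i P * hx1 + j P * hx2
  set T : ℝ := N * H ^ (-c) with hT
  have hTpos : 0 < T := by positivity
  set B : ℝ := T * H ^ (-(e * (1 - d))) with hB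
  have hBpos : 0 < B := by positivity
  have hBT : ∀ P ∈ S, T ≤ B * (P : ℝ) ^ e := by
    intro P hP
    have h1 := (hS P hP).2.1
    have h2 : H ^ ((e : ℝ) * (1 - d)) ≤ (P : ℝ) ^ e := by
      calc H ^ ((e : ℝ) * (1 - d)) = (H ^ (1 - d)) ^ e := by
            rw [mul_comm, Real.rpow_mul hH0.le, Real.rpow_natCast]
        _ ≤ (P : ℝ) ^ e := pow_le_pow_left₀ (by positivity) h1 _
    calc T = B * H ^ ((e : ℝ) * (1 - d)) := by
          rw [hB, mul_assoc, ← Real.rpow_add hH0, neg_add_cancel, Real.rpow_zero, mul_one]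
      _ ≤ B * (P : ℝ) ^ e := mul_le_mul_of_nonneg_left h2 hBpos.le
  have hcount : 2 * B + 1 < T ^ 4 / (8 ^ 4 * (I * J) ^ 6) / (N : ℝ) ^ 3 := by
    have hV6 : 0 < V ^ 6 := by positivity
    have h1 : (I * J) ^ 6 ≤ 3 ^ 6 * V ^ 6 := by
      calc (I * J) ^ 6 ≤ (3 * V) ^ 6 := pow_le_pow_left₀ (by positivity) hIJ _
        _ = 3 ^ 6 * V ^ 6 := by ring
    have h2 : N * H ^ (-(4 * c)) / (Cst * V ^ 6) ≤ T ^ 4 / (8 ^ 4 * (I * J) ^ 6) / (N : ℝ) ^ 3 := by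
      have h3 : T ^ 4 = (N : ℝ) ^ 4 * H ^ (-(4 * c)) := by
        rw [hT, mul_pow, ← Real.rpow_natCast (H ^ (-c)) 4, ← Real.rpow_mul hH0.le]
        congr 2
        push_cast
        ring
      rw [h3, div_div, div_le_div_iff₀ (by positivity) (by positivity)]
      have h4 : 8 ^ 4 * (I * J) ^ 6 * (N : ℝ) ^ 3 ≤ Cst * V ^ 6 * (N : ℝ) ^ 3 := by
        have : 8 ^ 4 * (I * J) ^ 6 ≤ Cst * V ^ 6 := by rw [hCst]; nlinarith
        exact mul_le_mul_of_nonneg_right this (by positivity)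
      calc N * H ^ (-(4 * c)) * (8 ^ 4 * (I * J) ^ 6 * (N : ℝ) ^ 3)
          ≤ N * H ^ (-(4 * c)) * (Cst * V ^ 6 * (N : ℝ) ^ 3) := mul_le_mul_of_nonneg_left h4 (by positivity)
        _ = (N : ℝ) ^ 4 * H ^ (-(4 * c)) * (Cst * V ^ 6) := by ring
    refine lt_of_lt_of_le ?_ h2
    have hP2 : (0 : ℝ) < H ^ (2 * c) := by positivity
    -- first bound
    have h5 : H ^ (2 * c) / Cst ≤ N * H ^ (-(4 * c)) / (Cst * V ^ 6) := by
      rw [div_le_div_iff₀ (by positivity) (by positivity)]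
      have h6 : H ^ (2 * c) * V ^ 6 ≤ N * H ^ (-(4 * c)) := by
        calc H ^ (2 * c) * V ^ 6 ≤ H ^ (2 * c) * (N * H ^ (-(6 * c))) := mul_le_mul_of_nonneg_left hV1 hP2.le
          _ = N * (H ^ (2 * c) * H ^ (-(6 * c))) := by ring
          _ = N * H ^ (-(4 * c)) := by
              rw [← Real.rpow_add hH0]; congr 2; ring
      calc H ^ (2 * c) * (Cst * V ^ 6) = Cst * (H ^ (2 * c) * V ^ 6) := by ring
        _ ≤ Cst * (N * H ^ (-(4 * c))) := mul_le_mul_of_nonneg_left h6 (by linarith)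
        _ = N * H ^ (-(4 * c)) * Cst := by ring
    have h7 : 8 ≤ H ^ (2 * c) / Cst := by
      rw [le_div_iff₀ (by linarith)]
      exact hH2
    -- second bound
    have h8 : N * H ^ (2 * c - e) / Cst ≤ N * H ^ (-(4 * c)) / (Cst * V ^ 6) := by
      rw [div_le_div_iff₀ (by positivity) (by positivity)]
      have h9 : H ^ (2 * c - e) * V ^ 6 ≤ H ^ (-(4 * c)) := by
        calc H ^ (2 * c - e) * V ^ 6 ≤ H ^ (2 * c - e) * H ^ (e - 6 * c) :=
              mul_le_mul_of_nonneg_left hV2 (by positivity)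
          _ = H ^ (-(4 * c)) := by
              rw [← Real.rpow_add hH0]; congr 1; ring
      calc N * H ^ (2 * c - e) * (Cst * V ^ 6) = N * Cst * (H ^ (2 * c - e) * V ^ 6) := by ring
        _ ≤ N * Cst * H ^ (-(4 * c)) := mul_le_mul_of_nonneg_left h9 (by positivity)
        _ = N * H ^ (-(4 * c)) * Cst := by ring
    have h10 : 8 * B ≤ N * H ^ (2 * c - e) / Cst := by
      rw [le_div_iff₀ (by linarith)]
      have h11 : H ^ (-c) * H ^ (-(e * (1 - d))) * H ^ (2 * c) ≤ H ^ (2 * c - e) := by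
        rw [← Real.rpow_add hH0, ← Real.rpow_add hH0]
        refine Real.rpow_le_rpow_of_exponent_le hHone ?_
        have h12 : e * d ≤ c := by
          rw [le_div_iff₀ (by linarith)] at hdce
          linarith
        nlinarith
      calc 8 * B * Cst = (N * (H ^ (-c) * H ^ (-(e * (1 - d))))) * (8 * Cst) := by rw [hB, hT]; ring
        _ ≤ (N * (H ^ (-c) * H ^ (-(e * (1 - d))))) * H ^ (2 * c) := mul_le_mul_of_nonneg_left hH2 (by positivity)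
        _ = N * (H ^ (-c) * H ^ (-(e * (1 - d))) * H ^ (2 * c)) := by ring
        _ ≤ N * H ^ (2 * c - e) := mul_le_mul_of_nonneg_left h11 (by positivity)
    linarith
  obtain ⟨P0, hP0, hfin⟩ := formF_core S hSne (fun P hP => (hS P hP).1.one_lt.le) e N hN T B I J hTpos hI hJ hBpos.le
    (fun l n h1 h2 => by
      refine hWW H hH1' S ?_ ?_ N l 0 n hN h1 ?_
      · intro Y hY
        obtain ⟨g1, g2, g3⟩ := hS Y hY
        refine ⟨g1, le_trans ?_ g2, g3.trans ?_⟩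
        · exact Real.rpow_le_rpow_of_exponent_le hHone (by linarith)
        · exact Real.rpow_le_rpow_of_exponent_le hHone (by linarith)
      · exact le_trans (Real.rpow_le_rpow_of_exponent_le hHone (by linarith)) hcard
      · intro Y hY
        simpa using h2 Y hY)
    i j xi x1 x2 lam (fun P hP => (hco P hP).2.2) hxi' hBT hcount
  refine ⟨P0, hP0, hfin.trans (Nat.mul_le_mul_left 3 (Finset.card_le_card ?_))⟩
  intro P hP
  rw [Finset.mem_filter] at hP ⊢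
  refine ⟨hP.1, ?_⟩
  obtain ⟨u1, u2, -, -⟩ := hco P hP.1
  obtain ⟨v1, v2, -, -⟩ := hco P0 hP0
  rw [u1, u2, v1, v2]
  have : (i P * e1.1 + j P * e2.1) * (i P0 * e1.2 + j P0 * e2.2) - (i P * e1.2 + j P * e2.2) * (i P0 * e1.1 + j P0 * e2.1)
      = (i P * j P0 - j P * i P0) * (e1.1 * e2.2 - e1.2 * e2.1) := by ring
  rw [this, hP.2, zero_mul]

end T3

end Pool.Agent.Lib.MP_d8bd92_nt
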