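import Mathlib

set_option autoImplicit false

/-!
Phase 3, Lemma W (dense Weyl): if `n_Y = λ Y^f mod N` and `n_Y` is close to `λ' Y^f` for a dense set of primes `Y`,
then `n_Y = h Y^f` for one integer `h`.  Divided differences of order `f` at all scales.
-/

namespace Pool.Agent.Lib.MP_d8bd92_nt

namespace T3

open Finset

/-- divided differences -/
theorem dd_pow (f : ℕ) (T : Finset ℕ) (hT : T.card = f + 1) :
    ∑ i ∈ T, ((i : ℚ) ^ f) / ∏ j ∈ T.erase i, ((i : ℚ) - (j : ℚ)) = 1 := by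
  have hinj : Set.InjOn (fun i : ℕ => (i : ℚ)) (T : Set ℕ) := fun a _ b _ h => by simpa using h
  have h := Lagrange.leadingCoeff_eq_sum (F := ℚ) (s := T) (v := fun i : ℕ => (i : ℚ)) hinj
    (P := Polynomial.X ^ f) (by rw [Polynomial.degree_X_pow, hT]; push_cast; rfl)
  rw [Polynomial.leadingCoeff_X_pow] at h
  rw [h]
  refine Finset.sum_congr rfl fun i _ => ?_
  simp

/-- `f + 1` elements of a cell of scale `g` give an integer relation -/
theorem cell_comb (f g L : ℕ) (T : Finset ℕ) (hT : T.card = f + 1) (hg : 1 ≤ g)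
    (h : ∀ i ∈ T, ∀ j ∈ T, i ≠ j → ∃ d : ℤ, (i : ℤ) - j = g * d ∧ |d| ≤ L) :
    ∃ (D : ℕ) (c : ℕ → ℤ), 1 ≤ D ∧ D ≤ L ^ (f * (f + 1)) ∧ (∀ i ∈ T, |c i| ≤ D) ∧
      ∑ i ∈ T, c i * (i : ℤ) ^ f = D * (g : ℤ) ^ f := by
  classical
  have hg0 : (g : ℤ) ≠ 0 := by exact_mod_cast (by omega : g ≠ 0)
  set d : ℕ → ℕ → ℤ := fun i j => ((i : ℤ) - j) / g with hd
  have hd1 : ∀ i ∈ T, ∀ j ∈ T, i ≠ j → (i : ℤ) - j = g * d i j ∧ |d i j| ≤ L ∧ d i j ≠ 0 := by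
    intro i hi j hj hij
    obtain ⟨d', h1, h2⟩ := h i hi j hj hij
    have h3 : d i j = d' := by
      simp only [hd]
      rw [h1]
      exact Int.mul_ediv_cancel_left _ hg0
    rw [h3]
    refine ⟨h1, h2, ?_⟩
    rintro rfl
    rw [mul_zero] at h1
    exact hij (by exact_mod_cast (sub_eq_zero.mp h1))
  set P : ℕ → ℤ := fun i => ∏ j ∈ T.erase i, d i j with hP
  have hP0 : ∀ i ∈ T, P i ≠ 0 := by
    intro i hi
    simp only [hP]
    refine Finset.prod_ne_zero_iff.mpr fun j hj => ?_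
    exact (hd1 i hi j (Finset.mem_of_mem_erase hj) (Finset.ne_of_mem_erase hj).symm).2.2
  have hPL : ∀ i ∈ T, |P i| ≤ (L : ℤ) ^ f := by
    intro i hi
    simp only [hP]
    rw [Finset.abs_prod]
    calc ∏ j ∈ T.erase i, |d i j| ≤ ∏ _j ∈ T.erase i, (L : ℤ) := by
          refine Finset.prod_le_prod (fun j _ => abs_nonneg _) fun j hj => ?_
          exact (hd1 i hi j (Finset.mem_of_mem_erase hj) (Finset.ne_of_mem_erase hj).symm).2.1
      _ = (L : ℤ) ^ f := by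
          rw [Finset.prod_const, Finset.card_erase_of_mem hi, hT]; simp
  have hP1 : ∀ i ∈ T, 1 ≤ |P i| := fun i hi => Int.one_le_abs (hP0 i hi)
  set D : ℕ := ∏ i ∈ T, (P i).natAbs with hD
  have hDZ : (D : ℤ) = ∏ i ∈ T, |P i| := by
    rw [hD]; push_cast; rfl
  have hD1 : 1 ≤ D := by
    rw [hD]
    refine Finset.one_le_prod' fun i hi => ?_
    exact Nat.one_le_iff_ne_zero.mpr (Int.natAbs_ne_zero.mpr (hP0 i hi))
  refine ⟨D, fun i => (P i).sign * ∏ k ∈ T.erase i, |P k|, hD1, ?_, ?_, ?_⟩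
  · have h1 : (D : ℤ) ≤ ((L ^ (f * (f + 1)) : ℕ) : ℤ) := by
      rw [hDZ]
      calc ∏ i ∈ T, |P i| ≤ ∏ _i ∈ T, ((L : ℤ) ^ f) :=
            Finset.prod_le_prod (fun j _ => abs_nonneg _) fun j hj => hPL j hj
        _ = ((L : ℤ) ^ f) ^ (f + 1) := by rw [Finset.prod_const, hT]
        _ = ((L ^ (f * (f + 1)) : ℕ) : ℤ) := by rw [← pow_mul]; push_cast; rfl
    exact_mod_cast h1
  · intro i hi
    rw [abs_mul, Int.abs_sign_of_ne_zero (hP0 i hi), one_mul, Finset.abs_prod, hDZ, ← Finset.mul_prod_erase T _ hi]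
    simp only [abs_abs]
    have h1 := hP1 i hi
    have h2 : 0 ≤ ∏ k ∈ T.erase i, |P k| := Finset.prod_nonneg fun k _ => abs_nonneg _
    nlinarith
  · have key : ∀ i ∈ T, ((((P i).sign * ∏ k ∈ T.erase i, |P k| : ℤ)) : ℚ) * (i : ℚ) ^ f =
        (D : ℚ) * (g : ℚ) ^ f * ((i : ℚ) ^ f / ∏ j ∈ T.erase i, ((i : ℚ) - (j : ℚ))) := by
      intro i hi
      have h1 : ∏ j ∈ T.erase i, ((i : ℚ) - (j : ℚ)) = (g : ℚ) ^ f * (P i : ℚ) := by
        have h2 : ∏ j ∈ T.erase i, ((i : ℤ) - (j : ℤ)) = (g : ℤ) ^ f * P i := by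
          simp only [hP]
          have h3 : (g : ℤ) ^ f = ∏ _j ∈ T.erase i, (g : ℤ) := by
            rw [Finset.prod_const, Finset.card_erase_of_mem hi, hT]; simp
          rw [h3, ← Finset.prod_mul_distrib]
          refine Finset.prod_congr rfl fun j hj => ?_
          exact (hd1 i hi j (Finset.mem_of_mem_erase hj) (Finset.ne_of_mem_erase hj).symm).1
        have h4 := congrArg (fun t : ℤ => (t : ℚ)) h2
        push_cast at h4
        exact h4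
      have h5 : (D : ℤ) = ((P i).sign * ∏ k ∈ T.erase i, |P k|) * P i := by
        rw [hDZ, ← Finset.mul_prod_erase T _ hi]
        have h6 : (P i).sign * P i = |P i| := by
          rw [Int.sign_mul_self_eq_abs]
        calc |P i| * ∏ x ∈ T.erase i, |P x| = ((P i).sign * P i) * ∏ x ∈ T.erase i, |P x| := by rw [h6]
          _ = _ := by ring
      have h7 : (D : ℚ) = (((P i).sign * ∏ k ∈ T.erase i, |P k| : ℤ) : ℚ) * (P i : ℚ) := by
        exact_mod_cast h5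
      rw [h1, h7]
      have hPq : (P i : ℚ) ≠ 0 := by exact_mod_cast hP0 i hi
      have hgq : (g : ℚ) ≠ 0 := by exact_mod_cast (by omega : g ≠ 0)
      field_simp
    have hsum : ∑ i ∈ T, ((((P i).sign * ∏ k ∈ T.erase i, |P k| : ℤ)) : ℚ) * (i : ℚ) ^ f = (D : ℚ) * (g : ℚ) ^ f := by
      rw [Finset.sum_congr rfl key, ← Finset.mul_sum, dd_pow f T hT, mul_one]
    have h8 : ((∑ i ∈ T, ((P i).sign * ∏ k ∈ T.erase i, |P k|) * (i : ℤ) ^ f : ℤ) : ℚ) = (((D : ℤ) * (g : ℤ) ^ f : ℤ) : ℚ) := by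
      rw [Int.cast_sum]
      rw [show ((((D : ℤ) * (g : ℤ) ^ f : ℤ)) : ℚ) = (D : ℚ) * (g : ℚ) ^ f by push_cast; rfl, ← hsum]
      refine Finset.sum_congr rfl fun i _ => ?_
      push_cast
      rfl
    exact_mod_cast h8

/-- pigeonhole: a dense set has `f + 1` elements in one cell of scale `g` -/
theorem cell_exists (f g L X : ℕ) (S : Finset ℕ) (hg : 1 ≤ g) (hL : 1 ≤ L) (hS : ∀ Y ∈ S, Y ≤ X)
    (hc : g * (X / (g * L) + 1) * f < S.card) :
    ∃ T ⊆ S, T.card = f + 1 ∧ ∀ i ∈ T, ∀ j ∈ T, i ≠ j → ∃ d : ℤ, (i : ℤ) - j = g * d ∧ |d| ≤ L := by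
  classical
  have hgL : 0 < g * L := Nat.mul_pos (by omega) (by omega)
  have hmaps : ∀ Y ∈ S, ((Y % g, Y / (g * L)) : ℕ × ℕ) ∈ (range g ×ˢ range (X / (g * L) + 1)) := by
    intro Y hY
    rw [Finset.mem_product, Finset.mem_range, Finset.mem_range]
    exact ⟨Nat.mod_lt _ (by omega), Nat.lt_succ_of_le (Nat.div_le_div_right (hS Y hY))⟩
  have hcard : (range g ×ˢ range (X / (g * L) + 1)).card * f < S.card := by
    rw [Finset.card_product, Finset.card_range, Finset.card_range]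
    exact hc
  obtain ⟨y, _, hy⟩ := Finset.exists_lt_card_fiber_of_mul_lt_card_of_maps_to hmaps hcard
  obtain ⟨T, hT1, hT2⟩ := Finset.exists_subset_card_eq (show f + 1 ≤ _ from hy)
  refine ⟨T, fun t ht => (Finset.mem_filter.mp (hT1 ht)).1, hT2, ?_⟩
  intro i hi j hj hij
  have hi' := (Finset.mem_filter.mp (hT1 hi)).2
  have hj' := (Finset.mem_filter.mp (hT1 hj)).2
  rw [Prod.ext_iff] at hi' hj'
  obtain ⟨hi1, hi2⟩ := hi'
  obtain ⟨hj1, hj2⟩ := hj'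
  simp only at hi1 hi2 hj1 hj2
  have hdvd : (g : ℤ) ∣ (i : ℤ) - j := by
    have : (j : ℤ) ≡ i [ZMOD g] := by
      have h0 : j ≡ i [MOD g] := by
        unfold Nat.ModEq
        rw [hi1, hj1]
      exact Int.natCast_modEq_iff.mpr h0
    exact this.dvd
  obtain ⟨d, hd⟩ := hdvd
  refine ⟨d, hd, ?_⟩
  have h1 : |(i : ℤ) - j| < g * L := by
    have e1 := Nat.div_add_mod i (g * L)
    have e2 := Nat.div_add_mod j (g * L)
    have e3 := Nat.mod_lt i hgL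
    have e4 := Nat.mod_lt j hgL
    rw [hi2] at e1
    rw [hj2] at e2
    zify at e1 e2 e3 e4
    rw [abs_lt]
    constructor
    · have e5 : (0 : ℤ) ≤ (i : ℤ) % ((g : ℤ) * L) := Int.emod_nonneg _ (by exact_mod_cast hgL.ne')
      linarith
    · have e5 : (0 : ℤ) ≤ (j : ℤ) % ((g : ℤ) * L) := Int.emod_nonneg _ (by exact_mod_cast hgL.ne')
      linarith
  rw [hd, abs_mul] at h1
  have h2 : |(g : ℤ)| = g := abs_of_nonneg (by positivity)
  rw [h2] at h1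
  have h3 : (0 : ℤ) < g := by exact_mod_cast hg
  exact le_of_lt (lt_of_mul_lt_mul_left h1 h3.le)

/-- the comparison of scales -/
theorem weyl_core (f L X m : ℕ) (S : Finset ℕ) (η θ B : ℝ) (k : ℕ → ℤ) (hL : 1 ≤ L) (hη : 0 ≤ η)
    (hB : ((L ^ (f * (f + 1)) : ℕ) : ℝ) ≤ B) (hS : ∀ Y ∈ S, Y ≤ X)
    (hk : ∀ Y ∈ S, |θ * (Y : ℝ) ^ f - k Y| ≤ η)
    (hcell : ∀ i ≤ m, 2 ^ i * (X / (2 ^ i * L) + 1) * f < S.card)
    (h1 : B * B * ((f + 1) * (1 + 2 ^ f) * η) < 1)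
    (h2 : B * ((1 + (f + 1) * ((X : ℝ) / 2 ^ m) ^ f) * η) < 1) :
    ∃ D : ℕ, 1 ≤ D ∧ (D : ℝ) ≤ B ∧ ∃ k0 : ℤ, ∀ Y ∈ S, (D : ℤ) * k Y = k0 * (Y : ℤ) ^ f := by
  classical
  have step : ∀ i ≤ m, ∃ (D : ℕ) (K : ℤ), 1 ≤ D ∧ (D : ℝ) ≤ B ∧
      |θ * (D * (2 ^ i : ℝ) ^ f) - K| ≤ (f + 1) * D * η := by
    intro i hi
    obtain ⟨T, hTS, hT, hTd⟩ := cell_exists f (2 ^ i) L X S Nat.one_le_two_pow hL hS (hcell i hi)
    obtain ⟨D, c, hD1, hD2, hc, hsum⟩ := cell_comb f (2 ^ i) L T hT Nat.one_le_two_pow hTd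
    refine ⟨D, ∑ i ∈ T, c i * k i, hD1, le_trans (by exact_mod_cast hD2) hB, ?_⟩
    have e1 : (∑ j ∈ T, (c j : ℝ) * (j : ℝ) ^ f) = D * (2 ^ i : ℝ) ^ f := by
      have := congrArg (fun t : ℤ => (t : ℝ)) hsum
      push_cast at this
      exact this
    have e2 : θ * (D * (2 ^ i : ℝ) ^ f) - ((∑ j ∈ T, c j * k j : ℤ) : ℝ) = ∑ j ∈ T, (c j : ℝ) * (θ * (j : ℝ) ^ f - k j) := by
      rw [← e1, Finset.mul_sum]
      push_cast
      rw [← Finset.sum_sub_distrib]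
      refine Finset.sum_congr rfl fun j _ => by ring
    rw [e2]
    calc |∑ j ∈ T, (c j : ℝ) * (θ * (j : ℝ) ^ f - k j)| ≤ ∑ j ∈ T, |(c j : ℝ) * (θ * (j : ℝ) ^ f - k j)| :=
          Finset.abs_sum_le_sum_abs _ _
      _ ≤ ∑ _j ∈ T, (D : ℝ) * η := by
          refine Finset.sum_le_sum fun j hj => ?_
          rw [abs_mul]
          have e3 : |(c j : ℝ)| ≤ D := by exact_mod_cast hc j hj
          exact mul_le_mul e3 (hk j (hTS hj)) (abs_nonneg _) (by positivity)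
      _ = (f + 1) * D * η := by
          rw [Finset.sum_const, hT, nsmul_eq_mul]; push_cast; ring
  obtain ⟨D, k0, hD1, hDB, hD⟩ := step 0 (Nat.zero_le m)
  simp only [pow_zero, one_pow, mul_one] at hD
  have hDpos : (0 : ℝ) < D := by exact_mod_cast hD1
  have hBpos : 0 < B := lt_of_lt_of_le hDpos hDB
  have ind : ∀ i ≤ m, |θ * D - k0| * (2 ^ i : ℝ) ^ f ≤ D * ((f + 1) * η) := by
    intro i
    induction i with
    | zero =>
      intro _
      simp only [pow_zero, one_pow, mul_one]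
      calc |θ * D - k0| ≤ (f + 1) * D * η := hD
        _ = _ := by ring
    | succ i ih =>
      intro hi
      have ih' := ih (by omega)
      obtain ⟨D', K', hD1', hDB', hD'⟩ := step (i + 1) hi
      have hDpos' : (0 : ℝ) < D' := by exact_mod_cast hD1'
      have e0 : (2 ^ (i + 1) : ℝ) ^ f = 2 ^ f * (2 ^ i : ℝ) ^ f := by
        rw [pow_succ, mul_pow]; ring
      -- the two integers agree
      have e1 : (D : ℤ) * K' = D' * (2 ^ (i + 1)) ^ f * k0 := by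
        have e2 : |((D : ℝ) * K' - D' * (2 ^ (i + 1)) ^ f * k0)| < 1 := by
          have e3 : (D : ℝ) * K' - D' * (2 ^ (i + 1)) ^ f * k0 =
              -(D * (θ * (D' * (2 ^ (i + 1) : ℝ) ^ f) - K')) + (D' * (2 ^ (i + 1)) ^ f) * (θ * D - k0) := by ring
          rw [e3]
          have e4 : |-(D * (θ * (D' * (2 ^ (i + 1) : ℝ) ^ f) - K'))| ≤ D * ((f + 1) * D' * η) := by
            rw [abs_neg, abs_mul, abs_of_pos hDpos]
            exact mul_le_mul_of_nonneg_left hD' hDpos.le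
          have e5 : |(D' * (2 ^ (i + 1) : ℝ) ^ f) * (θ * D - k0)| ≤ D' * 2 ^ f * (D * ((f + 1) * η)) := by
            rw [abs_mul, abs_of_nonneg (by positivity : (0 : ℝ) ≤ D' * (2 ^ (i + 1) : ℝ) ^ f), e0]
            calc (D' : ℝ) * (2 ^ f * (2 ^ i : ℝ) ^ f) * |θ * D - k0| = D' * 2 ^ f * (|θ * D - k0| * (2 ^ i : ℝ) ^ f) := by ring
              _ ≤ D' * 2 ^ f * (D * ((f + 1) * η)) := mul_le_mul_of_nonneg_left ih' (by positivity)
          refine lt_of_le_of_lt (abs_add_le _ _) (lt_of_le_of_lt (add_le_add e4 e5) ?_)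
          have e6 : (D : ℝ) * D' ≤ B * B := mul_le_mul hDB hDB' hDpos'.le hBpos.le
          have e7 : (D : ℝ) * ((f + 1) * D' * η) + D' * 2 ^ f * (D * ((f + 1) * η)) = D * D' * ((f + 1) * (1 + 2 ^ f) * η) := by ring
          rw [e7]
          exact lt_of_le_of_lt (mul_le_mul_of_nonneg_right e6 (by positivity)) h1
        have e8 : |((D : ℤ) * K' - D' * (2 ^ (i + 1)) ^ f * k0)| < 1 := by exact_mod_cast e2
        have e9 := Int.abs_lt_one_iff.mp e8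
        linarith
      have e1' : (D : ℝ) * K' = D' * (2 ^ (i + 1)) ^ f * k0 := by exact_mod_cast e1
      have e10 : D' * (|θ * D - k0| * (2 ^ (i + 1) : ℝ) ^ f) ≤ D' * (D * ((f + 1) * η)) := by
        have e11 : D' * (|θ * D - k0| * (2 ^ (i + 1) : ℝ) ^ f) = |D * (θ * (D' * (2 ^ (i + 1) : ℝ) ^ f) - K')| := by
          have e12 : D * (θ * (D' * (2 ^ (i + 1) : ℝ) ^ f) - K') = (D' * (2 ^ (i + 1) : ℝ) ^ f) * (θ * D - k0) := by
            rw [mul_sub, e1']; ring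
          rw [e12, abs_mul, abs_of_nonneg (by positivity : (0 : ℝ) ≤ D' * (2 ^ (i + 1) : ℝ) ^ f)]
          ring
        rw [e11, abs_mul, abs_of_pos hDpos]
        calc (D : ℝ) * |θ * (D' * (2 ^ (i + 1) : ℝ) ^ f) - K'| ≤ D * ((f + 1) * D' * η) :=
              mul_le_mul_of_nonneg_left hD' hDpos.le
          _ = _ := by ring
      exact le_of_mul_le_mul_left e10 hDpos'
  have top := ind m le_rfl
  refine ⟨D, hD1, hDB, k0, fun Y hY => ?_⟩
  have hYX : (Y : ℝ) ≤ X := by exact_mod_cast hS Y hY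
  have hm : (0 : ℝ) < (2 ^ m : ℝ) ^ f := by positivity
  have r1 : |θ * D - k0| ≤ D * ((f + 1) * η) / (2 ^ m : ℝ) ^ f := by
    rw [le_div_iff₀ hm]; exact top
  have r2 : |((D : ℝ) * k Y - k0 * (Y : ℝ) ^ f)| < 1 := by
    have r3 : (D : ℝ) * k Y - k0 * (Y : ℝ) ^ f = -(D * (θ * (Y : ℝ) ^ f - k Y)) + (θ * D - k0) * (Y : ℝ) ^ f := by ring
    rw [r3]
    have r4 : |-(D * (θ * (Y : ℝ) ^ f - k Y))| ≤ D * η := by
      rw [abs_neg, abs_mul, abs_of_pos hDpos]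
      exact mul_le_mul_of_nonneg_left (hk Y hY) hDpos.le
    have r5 : |(θ * D - k0) * (Y : ℝ) ^ f| ≤ D * ((f + 1) * η) / (2 ^ m : ℝ) ^ f * (X : ℝ) ^ f := by
      rw [abs_mul, abs_of_nonneg (by positivity : (0 : ℝ) ≤ (Y : ℝ) ^ f)]
      exact mul_le_mul r1 (pow_le_pow_left₀ (by positivity) hYX f) (by positivity) (by positivity)
    refine lt_of_le_of_lt (abs_add_le _ _) (lt_of_le_of_lt (add_le_add r4 r5) ?_)
    have r6 : D * η + D * ((f + 1) * η) / (2 ^ m : ℝ) ^ f * (X : ℝ) ^ f = D * ((1 + (f + 1) * ((X : ℝ) / 2 ^ m) ^ f) * η) := by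
      rw [div_pow]; ring
    rw [r6]
    exact lt_of_le_of_lt (mul_le_mul_of_nonneg_right hDB (by positivity)) h2
  have r7 : |((D : ℤ) * k Y - k0 * (Y : ℤ) ^ f)| < 1 := by exact_mod_cast r2
  have r8 := Int.abs_lt_one_iff.mp r7
  linarith

theorem weyl_num1 (x : ℝ) (hx : 0 ≤ x) : x * (x + 1) * 40 ≤ 40 * (x + 1) ^ 2 := by nlinarith

theorem weyl_num2 (x : ℝ) (hx : 0 ≤ x) : x * 40 + 40 ≤ 40 * (x + 1) ^ 2 := by nlinarith

/-- **Lemma W** (dense Weyl): `n_Y = λ Y^f mod N`, `n_Y` within `N H^(-c)` of `λ' Y^f` for all `Y` of a dense set of primes: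
then `n_Y = h Y^f` -/
theorem weyl_primes (f : ℕ) (hf : 1 ≤ f) (c : ℝ) (hc : 0 < c) :
    ∃ d H0 : ℝ, 0 < d ∧ 1 ≤ H0 ∧ ∀ H : ℝ, H0 ≤ H → ∀ S : Finset ℕ,
      (∀ Y ∈ S, Y.Prime ∧ H ^ (1 - d) ≤ (Y : ℝ) ∧ (Y : ℝ) ≤ H ^ (1 + d)) → H ^ (1 - d) ≤ (S.card : ℝ) →
      ∀ (N : ℕ) (lam : ℤ) (lam' : ℝ) (n : ℕ → ℤ), 1 ≤ N →
        (∀ Y ∈ S, (N : ℤ) ∣ n Y - lam * (Y : ℤ) ^ f) →
        (∀ Y ∈ S, |(n Y : ℝ) - lam' * (Y : ℝ) ^ f| ≤ N * H ^ (-c)) →
        ∃ h : ℤ, ∀ Y ∈ S, n Y = h * (Y : ℤ) ^ f := by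
  have hf0 : (1 : ℝ) ≤ f := by exact_mod_cast hf
  set q : ℝ := 40 * ((f : ℝ) + 1) ^ 2 with hq
  have hq0 : 160 ≤ q := by rw [hq]; nlinarith
  set d : ℝ := min c 1 / q with hd
  have hm0 : 0 < min c 1 := lt_min hc one_pos
  have hd0 : 0 < d := by rw [hd]; positivity
  have hdq : d * q = min c 1 := by rw [hd]; field_simp
  have hd1 : d * q ≤ 1 := by rw [hdq]; exact min_le_right _ _
  have hdc : d * q ≤ c := by rw [hdq]; exact min_le_left _ _
  have h160 : d * 160 ≤ d * q := mul_le_mul_of_nonneg_left hq0 hd0.le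
  set V : ℝ := ((f : ℝ) + 1) * (1 + 2 ^ f) + 2 * f + 2 with hV
  have hV0 : 0 < V := by rw [hV]; positivity
  set H0 : ℝ := max 2 (V ^ (1 / (2 * d))) with hH0
  refine ⟨d, H0, hd0, le_trans (by norm_num) (le_max_left _ _), ?_⟩
  intro H hH S hS hScard N lam lam' n hN hdiv hclose
  have hH2 : 2 ≤ H := le_trans (le_max_left _ _) hH
  have hHpos : 0 < H := by linarith
  have hH1 : 1 ≤ H := by linarith
  have hHV : V ≤ H ^ (2 * d) := by
    have h1 : V ^ (1 / (2 * d)) ≤ H := le_trans (le_max_right _ _) hH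
    have h2 := Real.rpow_le_rpow (by positivity) h1 (by positivity : 0 ≤ 2 * d)
    rwa [← Real.rpow_mul hV0.le, one_div, inv_mul_cancel₀ (by positivity), Real.rpow_one] at h2
  set κ : ℝ := 4 * d with hκ
  have hκ0 : 0 < κ := by rw [hκ]; positivity
  have hVκ : V ≤ H ^ κ := le_trans hHV (Real.rpow_le_rpow_of_exponent_le hH1 (by rw [hκ]; linarith))
  have hf1 : 0 ≤ ((f : ℝ) + 1) * (1 + 2 ^ f) := by positivity
  have hV2 : 2 ≤ H ^ κ := by
    refine le_trans ?_ hVκ; rw [hV]; linarith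
  have hVc : ((f : ℝ) + 1) * (1 + 2 ^ f) ≤ H ^ κ := by
    refine le_trans ?_ hVκ; rw [hV]; linarith
  have hV3 : 2 * (f : ℝ) < H ^ (2 * d) := by
    refine lt_of_lt_of_le ?_ hHV; rw [hV]; linarith
  -- the parameters
  set L : ℕ := ⌈H ^ κ⌉₊ with hLdef
  have hL1 : H ^ κ ≤ L := Nat.le_ceil _
  have hL2 : (L : ℝ) ≤ H ^ (2 * κ) := by
    have h1 : (L : ℝ) < H ^ κ + 1 := Nat.ceil_lt_add_one (by positivity)
    have h2 : H ^ (2 * κ) = H ^ κ * H ^ κ := by rw [← Real.rpow_add hHpos]; ring_nf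
    rw [h2]; nlinarith
  have hLpos : 1 ≤ L := by
    have : (1 : ℝ) ≤ L := by linarith
    exact_mod_cast this
  have hLr : (0 : ℝ) < L := by exact_mod_cast hLpos
  set X : ℕ := ⌊H ^ (1 + d)⌋₊ with hX
  have hX1 : (X : ℝ) ≤ H ^ (1 + d) := Nat.floor_le (by positivity)
  have hκ1 : κ < 1 := by rw [hκ]; linarith
  have hG1 : 1 ≤ H ^ (1 - κ) := Real.one_le_rpow hH1 (by linarith)
  set G : ℕ := ⌊H ^ (1 - κ)⌋₊ with hG
  have hG0 : G ≠ 0 := by
    have : 1 ≤ G := Nat.le_floor (by simpa using hG1)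
    omega
  set m : ℕ := Nat.log 2 G with hm
  have hm1 : (2 : ℝ) ^ m ≤ H ^ (1 - κ) := by
    have h1 : 2 ^ m ≤ G := Nat.pow_log_le_self 2 hG0
    have h2 : ((2 ^ m : ℕ) : ℝ) ≤ G := by exact_mod_cast h1
    push_cast at h2
    exact le_trans h2 (Nat.floor_le (by positivity))
  have hm2 : H ^ (1 - κ) ≤ 2 * 2 ^ m := by
    have h1 : G < 2 ^ (m + 1) := Nat.lt_pow_succ_log_self (by norm_num) G
    have h2 : ((G + 1 : ℕ) : ℝ) ≤ ((2 ^ (m + 1) : ℕ) : ℝ) := by exact_mod_cast h1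
    push_cast at h2
    have h3 := Nat.lt_floor_add_one (H ^ (1 - κ))
    rw [pow_succ] at h2
    linarith
  set M : ℝ := 2 * κ * ((f : ℝ) * (f + 1)) with hM
  set η : ℝ := H ^ (-c) with hη
  have hηpos : 0 < η := by rw [hη]; positivity
  set θ : ℝ := (lam - lam') / N with hθ
  have hNr : (0 : ℝ) < N := by exact_mod_cast hN
  set k : ℕ → ℤ := fun Y => (lam * (Y : ℤ) ^ f - n Y) / N with hk
  have hkN : ∀ Y ∈ S, (N : ℤ) * k Y = lam * (Y : ℤ) ^ f - n Y := by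
    intro Y hY
    simp only [hk]
    have h1 : (N : ℤ) ∣ lam * (Y : ℤ) ^ f - n Y := by
      have := (hdiv Y hY).neg_right
      rwa [neg_sub] at this
    exact Int.mul_ediv_cancel' h1
  have hkr : ∀ Y ∈ S, |θ * (Y : ℝ) ^ f - k Y| ≤ η := by
    intro Y hY
    have h1 : (N : ℝ) * k Y = lam * (Y : ℝ) ^ f - n Y := by exact_mod_cast hkN Y hY
    have h2 : N * (θ * (Y : ℝ) ^ f - k Y) = n Y - lam' * (Y : ℝ) ^ f := by
      rw [mul_sub, h1, hθ]; field_simp; ring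
    have h3 := hclose Y hY
    rw [← h2, abs_mul, abs_of_pos hNr] at h3
    exact le_of_mul_le_mul_left h3 hNr
  have hff : (f : ℝ) * (f + 1) * 40 ≤ q := weyl_num1 _ (by positivity)
  have hf40 : (f : ℝ) * 40 + 40 ≤ q := weyl_num2 _ (by positivity)
  have hMd : M * 5 ≤ d * q := by
    rw [hM, hκ]
    have := mul_le_mul_of_nonneg_left hff hd0.le
    linarith
  have hdf : d * f * 40 + d * 40 ≤ d * q := by
    have := mul_le_mul_of_nonneg_left hf40 hd0.le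
    linarith
  have hdfpos : 0 ≤ d * f := by positivity
  have c1 : ((L ^ (f * (f + 1)) : ℕ) : ℝ) ≤ H ^ M := by
    push_cast
    calc (L : ℝ) ^ (f * (f + 1)) ≤ (H ^ (2 * κ)) ^ (f * (f + 1)) := pow_le_pow_left₀ hLr.le hL2 _
      _ = H ^ M := by
        rw [← Real.rpow_natCast, ← Real.rpow_mul hHpos.le, hM]; push_cast; rfl
  have c2 : ∀ Y ∈ S, Y ≤ X := by
    intro Y hY
    exact Nat.le_floor (hS Y hY).2.2
  have c3 : ∀ i ≤ m, 2 ^ i * (X / (2 ^ i * L) + 1) * f < S.card := by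
    intro i hi
    have hi2 : (2 : ℝ) ^ i ≤ H ^ (1 - κ) := le_trans (pow_le_pow_right₀ (by norm_num) hi) hm1
    have h0 : ((X / (2 ^ i * L) : ℕ) : ℝ) ≤ (X : ℝ) / ((2 ^ i * L : ℕ) : ℝ) := Nat.cast_div_le
    have h1 : ((2 ^ i * (X / (2 ^ i * L) + 1) * f : ℕ) : ℝ) < S.card := by
      push_cast at h0 ⊢
      have h2 : (2 : ℝ) ^ i * (((X / (2 ^ i * L) : ℕ) : ℝ) + 1) ≤ 2 * H ^ (1 + d - κ) := by
        have h3 : (2 : ℝ) ^ i * ((X : ℝ) / (2 ^ i * L)) = X / L := by field_simp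
        have h4 : (X : ℝ) / L ≤ H ^ (1 + d - κ) := by
          rw [div_le_iff₀ hLr]
          calc (X : ℝ) ≤ H ^ (1 + d) := hX1
            _ = H ^ (1 + d - κ) * H ^ κ := by rw [← Real.rpow_add hHpos]; ring_nf
            _ ≤ H ^ (1 + d - κ) * L := by gcongr
        have h5 : H ^ (1 - κ) ≤ H ^ (1 + d - κ) := Real.rpow_le_rpow_of_exponent_le hH1 (by linarith)
        calc (2 : ℝ) ^ i * (((X / (2 ^ i * L) : ℕ) : ℝ) + 1) ≤ 2 ^ i * ((X : ℝ) / (2 ^ i * L) + 1) := by gcongr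
          _ = X / L + 2 ^ i := by rw [mul_add, h3, mul_one]
          _ ≤ _ := by linarith
      have h6 : H ^ (1 - d) = H ^ (1 + d - κ) * H ^ (2 * d) := by
        rw [← Real.rpow_add hHpos, hκ]; ring_nf
      have h7 : 0 < H ^ (1 + d - κ) := by positivity
      calc (2 : ℝ) ^ i * (((X / (2 ^ i * L) : ℕ) : ℝ) + 1) * f ≤ 2 * H ^ (1 + d - κ) * f := by gcongr
        _ = H ^ (1 + d - κ) * (2 * f) := by ring
        _ < H ^ (1 + d - κ) * H ^ (2 * d) := by gcongr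
        _ = H ^ (1 - d) := h6.symm
        _ ≤ S.card := hScard
    exact_mod_cast h1
  have c4 : H ^ M * H ^ M * (((f : ℝ) + 1) * (1 + 2 ^ f) * η) < 1 := by
    have h1 : H ^ M * H ^ M * (((f : ℝ) + 1) * (1 + 2 ^ f) * η) ≤ H ^ M * H ^ M * (H ^ κ * η) := by gcongr
    have h2 : H ^ M * H ^ M * (H ^ κ * η) = H ^ (M + M + (κ + -c)) := by
      rw [hη, ← Real.rpow_add hHpos, ← Real.rpow_add hHpos, ← Real.rpow_add hHpos]
    have h3 : M + M + (κ + -c) < 0 := by rw [hκ]; linarith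
    calc _ ≤ _ := h1
      _ = _ := h2
      _ < 1 := Real.rpow_lt_one_of_one_lt_of_neg (by linarith) h3
  have c5 : H ^ M * ((1 + ((f : ℝ) + 1) * ((X : ℝ) / 2 ^ m) ^ f) * η) < 1 := by
    have h0 : (X : ℝ) / 2 ^ m ≤ 2 * H ^ (d + κ) := by
      rw [div_le_iff₀ (by positivity)]
      calc (X : ℝ) ≤ H ^ (1 + d) := hX1
        _ = H ^ (d + κ) * H ^ (1 - κ) := by rw [← Real.rpow_add hHpos]; ring_nf
        _ ≤ H ^ (d + κ) * (2 * 2 ^ m) := by gcongr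
        _ = _ := by ring
    have h0' : ((X : ℝ) / 2 ^ m) ^ f ≤ 2 ^ f * H ^ ((d + κ) * f) := by
      calc ((X : ℝ) / 2 ^ m) ^ f ≤ (2 * H ^ (d + κ)) ^ f := pow_le_pow_left₀ (by positivity) h0 f
        _ = 2 ^ f * H ^ ((d + κ) * f) := by
          rw [mul_pow, ← Real.rpow_natCast (H ^ (d + κ)) f, ← Real.rpow_mul hHpos.le]
    have h5 : 1 ≤ H ^ ((d + κ) * f) := Real.one_le_rpow hH1 (by positivity)
    have h1 : (1 + ((f : ℝ) + 1) * ((X : ℝ) / 2 ^ m) ^ f) ≤ H ^ κ * H ^ ((d + κ) * f) := by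
      calc (1 + ((f : ℝ) + 1) * ((X : ℝ) / 2 ^ m) ^ f) ≤ (((f : ℝ) + 1)) * H ^ ((d + κ) * f) + ((f : ℝ) + 1) * (2 ^ f * H ^ ((d + κ) * f)) := by
            have h6 : (1 : ℝ) ≤ ((f : ℝ) + 1) * H ^ ((d + κ) * f) :=
              one_le_mul_of_one_le_of_one_le (by linarith) h5
            have h7 : ((f : ℝ) + 1) * ((X : ℝ) / 2 ^ m) ^ f ≤ ((f : ℝ) + 1) * (2 ^ f * H ^ ((d + κ) * f)) := by gcongr
            linarith
        _ = (((f : ℝ) + 1) * (1 + 2 ^ f)) * H ^ ((d + κ) * f) := by ring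
        _ ≤ _ := by gcongr
    have h2 : H ^ M * ((H ^ κ * H ^ ((d + κ) * f)) * η) = H ^ (M + ((κ + (d + κ) * f) + -c)) := by
      rw [hη, ← Real.rpow_add hHpos, ← Real.rpow_add hHpos, ← Real.rpow_add hHpos]
    have h3 : M + ((κ + (d + κ) * f) + -c) < 0 := by rw [hκ]; linarith
    calc _ ≤ H ^ M * ((H ^ κ * H ^ ((d + κ) * f)) * η) := by gcongr
      _ = _ := h2
      _ < 1 := Real.rpow_lt_one_of_one_lt_of_neg (by linarith) h3
  obtain ⟨D, hD1, hDB, k0, hk0⟩ := weyl_core f L X m S η θ (H ^ M) k hLpos hηpos.le c1 c2 hkr c3 c4 c5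
  have hDlt : ∀ Y ∈ S, D < Y := by
    intro Y hY
    have h1 : (D : ℝ) < Y := by
      refine lt_of_le_of_lt hDB (lt_of_lt_of_le ?_ (hS Y hY).2.1)
      refine Real.rpow_lt_rpow_of_exponent_lt (by linarith) ?_
      linarith
    exact_mod_cast h1
  have hρ : ∀ Y ∈ S, (D : ℤ) * n Y = (D * lam - N * k0) * (Y : ℤ) ^ f := by
    intro Y hY
    have h1 := hkN Y hY
    have h2 := hk0 Y hY
    have h3 : n Y = lam * (Y : ℤ) ^ f - N * k Y := by linarith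
    rw [h3, mul_sub, show (D : ℤ) * ((N : ℤ) * k Y) = N * (D * k Y) by ring, h2]
    ring
  have hdvd : ∀ Y ∈ S, ∃ h : ℤ, n Y = h * (Y : ℤ) ^ f ∧ D * h = D * lam - N * k0 := by
    intro Y hY
    have hYp := (hS Y hY).1
    have hco : IsCoprime ((Y : ℤ) ^ f) (D : ℤ) := by
      refine IsCoprime.pow_left ?_
      rw [Nat.isCoprime_iff_coprime]
      refine (Nat.Prime.coprime_iff_not_dvd hYp).mpr fun h => ?_
      exact absurd (Nat.le_of_dvd (by omega) h) (not_le.mpr (hDlt Y hY))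
    have h1 : (Y : ℤ) ^ f ∣ n Y := by
      refine hco.dvd_of_dvd_mul_left ?_
      rw [hρ Y hY]
      exact Dvd.intro_left _ rfl
    obtain ⟨h, hh⟩ := h1
    refine ⟨h, by rw [hh]; ring, ?_⟩
    have h2 := hρ Y hY
    have h3 : ((Y : ℤ) ^ f) ≠ 0 := by
      have := hYp.pos
      positivity
    rw [hh] at h2
    refine mul_right_cancel₀ h3 ?_
    linarith
  by_cases hSne : S.Nonempty
  · obtain ⟨Y0, hY0⟩ := hSne
    obtain ⟨h, _, hh⟩ := hdvd Y0 hY0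
    refine ⟨h, fun Y hY => ?_⟩
    obtain ⟨h', hh1, hh2⟩ := hdvd Y hY
    have : (D : ℤ) ≠ 0 := by exact_mod_cast (by omega : D ≠ 0)
    have h4 : h' = h := mul_left_cancel₀ this (by rw [hh2, hh])
    rw [hh1, h4]
  · exact ⟨0, fun Y hY => absurd ⟨Y, hY⟩ hSne⟩

end T3

end Pool.Agent.Lib.MP_d8bd92_nt
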