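import Pool.Agent.Lib.MP_d8bd92_nt.T3.T3All
import Pool.Agent.Lib.MP_d8bd92_nt.T3.O3.BB

set_option autoImplicit false

/-! Phase 3: all pairs of `PairSet3`. -/

namespace Pool.Agent.Lib.MP_d8bd92_nt

namespace T3

/-- all pairs -/
theorem few3_all (K : ℝ) (hK : 1 ≤ K) : Few3 K (fun _ _ => True) :=
  few3_all_of (fun K hK a b e f hb hba hf hfe => few3_BB K hK a b e f hb hba hf hfe) K hK

end T3

end Pool.Agent.Lib.MP_d8bd92_nt
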