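import Pool.Agent.Lib.MP_d8bd92_nt.ThD

set_option autoImplicit false

/-!
Phase 3: variants of `part_div` (exponent 3) and `part_long` (any size of the long prime).
-/

namespace Pool.Agent.Lib.MP_d8bd92_nt

open Finset Pool.Agent.Lib.Szpiro

namespace T3

open Th

/-- multiples `n` of `n₁`, `n ≤ n₁³`, for which `α m + β n` is a cube -/
theorem fiber_three (α β : ℤ) (hβ : β ≠ 0) (σ : ℝ) (hσ : 0 < σ) : ∃ C : ℝ, 1 ≤ C ∧
    ∀ (Z m n₁ : ℕ) (S : Finset ℕ), 1 ≤ Z → 1 ≤ n₁ → n₁ ≤ Z →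
    IsCoprime (α * (m : ℤ)) (n₁ : ℤ) →
    (∀ n ∈ S, n₁ ∣ n ∧ n ≤ n₁ ^ 3 ∧ ∃ a : ℤ, α * (m : ℤ) + β * (n : ℤ) = a ^ 3) →
    (S.card : ℝ) ≤ C * (Z : ℝ) ^ σ := by
  classical
  obtain ⟨C, hC1, hC⟩ := card_kth 3 (by norm_num) σ hσ
  have hβ1 : 1 ≤ β.natAbs := Int.natAbs_pos.mpr hβ
  have hβR : (1 : ℝ) ≤ (β.natAbs : ℝ) := by exact_mod_cast hβ1
  refine ⟨C * (2 * (2 * (β.natAbs : ℝ) + 1)), ?_, ?_⟩
  · nlinarith
  intro Z m n₁ S hZ hn hnZ hcop hS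
  have hZ1 : (1 : ℝ) ≤ Z := by exact_mod_cast hZ
  have hn0 : (0 : ℝ) < n₁ := by exact_mod_cast hn
  have hch : ∀ n : ℕ, ∃ a : ℤ, n ∈ S → α * (m : ℤ) + β * (n : ℤ) = a ^ 3 := by
    intro n
    by_cases h : n ∈ S
    · obtain ⟨_, _, a, ha⟩ := hS n h
      exact ⟨a, fun _ => ha⟩
    · exact ⟨0, fun h' => absurd h' h⟩
  choose f hf using hch
  have hinj : Set.InjOn f (S : Set ℕ) := by
    intro n hn' n' hn'' h
    have h1 := hf n hn'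
    have h2 := hf n' hn''
    rw [← h] at h2
    have h3 : β * (n : ℤ) = β * (n' : ℤ) := by linarith
    have h4 := mul_left_cancel₀ hβ h3
    exact_mod_cast h4
  rw [← Finset.card_image_of_injOn hinj]
  have hkey : ∀ s ∈ S.image f, ∃ n ∈ S, s ^ 3 = α * (m : ℤ) + β * (n : ℤ) := by
    intro s hs
    obtain ⟨n, hn', rfl⟩ := Finset.mem_image.mp hs
    exact ⟨n, hn', (hf n hn').symm⟩
  have hdiam : ∀ s ∈ S.image f, ∀ s' ∈ S.image f, s - s' ≤ ((2 * β.natAbs * n₁ : ℕ) : ℤ) := by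
    intro s hs s' hs'
    obtain ⟨n, hnS, e1⟩ := hkey s hs
    obtain ⟨n', hnS', e2⟩ := hkey s' hs'
    obtain ⟨_, b1, _⟩ := hS n hnS
    obtain ⟨_, b2, _⟩ := hS n' hnS'
    have b1' : (n : ℤ) ≤ (n₁ : ℤ) ^ 3 := by exact_mod_cast b1
    have b2' : (n' : ℤ) ≤ (n₁ : ℤ) ^ 3 := by exact_mod_cast b2
    have h1 : |s ^ 3 - s' ^ 3| ≤ |β| * (n₁ : ℤ) ^ 3 := by
      have h2 : s ^ 3 - s' ^ 3 = β * ((n : ℤ) - n') := by rw [e1, e2]; ring
      rw [h2, abs_mul]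
      apply mul_le_mul_of_nonneg_left _ (abs_nonneg _)
      rw [abs_le]
      constructor <;> omega
    have h2 := cube_gap s s' _ h1
    have h3 : ((2 * β.natAbs * n₁ : ℕ) : ℤ) = 2 * |β| * n₁ := by
      push_cast
      rfl
    rw [h3]
    by_contra hcon
    push Not at hcon
    have hb1 : 1 ≤ |β| := Int.one_le_abs hβ
    have hn1 : (1 : ℤ) ≤ n₁ := by exact_mod_cast hn
    have h4 : 2 * |β| * n₁ < |s - s'| := lt_of_lt_of_le hcon (le_abs_self _)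
    have h5 : (2 * |β| * n₁) ^ 3 < |s - s'| ^ 3 := by
      apply pow_lt_pow_left₀ h4 (by positivity) (by norm_num)
    have h6 : 4 * (|β| * (n₁ : ℤ) ^ 3) ≤ (2 * |β| * n₁) ^ 3 := by
      have h7 : |β| ≤ |β| ^ 3 := by nlinarith [sq_nonneg |β|, mul_le_mul hb1 hb1 zero_le_one (by linarith)]
      have h9 : |β| * (n₁ : ℤ) ^ 3 ≤ |β| ^ 3 * (n₁ : ℤ) ^ 3 :=
        mul_le_mul h7 le_rfl (by positivity) (by positivity)
      have h10 : (0 : ℤ) ≤ |β| ^ 3 * (n₁ : ℤ) ^ 3 := by positivity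
      calc 4 * (|β| * (n₁ : ℤ) ^ 3) ≤ 8 * (|β| ^ 3 * (n₁ : ℤ) ^ 3) := by linarith
        _ = (2 * |β| * n₁) ^ 3 := by ring
    linarith
  have hfin := hC n₁ (α * (m : ℤ)) (S.image f) (2 * (2 * (β.natAbs : ℝ) + 1)) hn (by positivity) ?_ ?_
  · refine hfin.trans ?_
    have h1 : (n₁ : ℝ) ^ σ ≤ (Z : ℝ) ^ σ :=
      Real.rpow_le_rpow (by positivity) (by exact_mod_cast hnZ) hσ.le
    calc C * (n₁ : ℝ) ^ σ * (2 * (2 * (β.natAbs : ℝ) + 1))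
        ≤ C * (Z : ℝ) ^ σ * (2 * (2 * (β.natAbs : ℝ) + 1)) := by gcongr
      _ = C * (2 * (2 * (β.natAbs : ℝ) + 1)) * (Z : ℝ) ^ σ := by ring
  · intro s hs
    obtain ⟨n, hnS, e1⟩ := hkey s hs
    obtain ⟨b0, _, _⟩ := hS n hnS
    have hdv : (n₁ : ℤ) ∣ s ^ 3 - α * (m : ℤ) := by
      rw [e1]
      have h2 : α * (m : ℤ) + β * (n : ℤ) - α * (m : ℤ) = β * n := by ring
      rw [h2]
      exact Dvd.dvd.mul_left (by exact_mod_cast b0) _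
    refine ⟨?_, hdv⟩
    obtain ⟨k, hk⟩ := hdv
    have h3 : s ^ 3 = α * (m : ℤ) + n₁ * k := by linarith
    have h4 : IsCoprime (s ^ 3) (n₁ : ℤ) := by
      rw [h3]
      exact IsCoprime.add_mul_left_left hcop k
    exact IsCoprime.pow_left_iff (by norm_num) |>.mp h4
  · intro x T' hT' hx
    have h1 := cdD_card_class T' (2 * β.natAbs * n₁) n₁ hn
      (fun s hs t ht => hdiam s (hT' hs) t (hT' ht)) x hx
    refine h1.trans (le_of_eq ?_)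
    push_cast
    field_simp

/-- the larger number has a large divisor with a small radical -/
theorem part_div3 (α β : ℤ) (hβ : β ≠ 0) (σ : ℝ) (hσ : 0 < σ) : ∃ C : ℝ, 1 ≤ C ∧
    ∀ (Q : ℝ) (Z : ℕ) (S : Finset (ℕ × ℕ)), 0 ≤ Q → 1 ≤ Z →
      (∀ w ∈ S, 1 ≤ w.1 ∧ w.1 ≤ Z ∧ 1 ≤ w.2 ∧ w.2 ≤ Z ∧ IsCoprime (α * (w.1 : ℤ)) (w.2 : ℤ) ∧
        (∃ n₁ : ℕ, 1 ≤ n₁ ∧ n₁ ∣ w.2 ∧ w.2 ≤ n₁ ^ 3 ∧ (rd w.1 : ℝ) * rd n₁ ≤ Q) ∧
        ∃ a : ℤ, α * (w.1 : ℤ) + β * (w.2 : ℤ) = a ^ 3) →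
      (S.card : ℝ) ≤ C * (Z : ℝ) ^ σ * Q := by
  classical
  obtain ⟨C1, hC11, hC1⟩ := weighted_count (α := ℕ × ℕ) (σ / 2) (by positivity)
  obtain ⟨C2, hC21, hC2⟩ := fiber_three α β hβ (σ / 2) (by positivity)
  refine ⟨C1 * C2, one_le_mul_of_one_le_of_one_le hC11 hC21, ?_⟩
  intro Q Z S hQ hZ hS
  have hZ1 : (1 : ℝ) ≤ Z := by exact_mod_cast hZ
  have hZ0 : (0 : ℝ) < Z := by linarith
  have hch : ∀ w : ℕ × ℕ, ∃ n₁ : ℕ, w ∈ S → (1 ≤ n₁ ∧ n₁ ∣ w.2 ∧ w.2 ≤ n₁ ^ 3 ∧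
      (rd w.1 : ℝ) * rd n₁ ≤ Q) := by
    intro w
    by_cases h : w ∈ S
    · obtain ⟨_, _, _, _, _, ⟨n₁, hn⟩, _⟩ := hS w h
      exact ⟨n₁, fun _ => hn⟩
    · exact ⟨0, fun h' => absurd h' h⟩
  choose f hf using hch
  have h := hC1 Z 1 (C2 * (Z : ℝ) ^ (σ / 2) * Q) S (fun w => (0, w.1, f w)) hZ (by positivity) ?_ ?_
  · refine h.trans (le_of_eq ?_)
    have h7 : (Z : ℝ) ^ (σ / 2) * (Z : ℝ) ^ (σ / 2) = (Z : ℝ) ^ σ := by
      rw [← Real.rpow_add hZ0]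
      congr 1
      ring
    rw [← h7]
    push_cast
    ring
  · intro w hw
    obtain ⟨h1, h2, h3, h4, _⟩ := hS w hw
    obtain ⟨k1, k2, _⟩ := hf w hw
    exact ⟨by norm_num, h1, h2, k1, (Nat.le_of_dvd (by omega) k2).trans h4⟩
  · intro j m u
    set F := S.filter (fun w => ((0, w.1, f w) : ℕ × ℕ × ℕ) = (j, m, u)) with hF
    rcases F.eq_empty_or_nonempty with h0 | ⟨w0, hw0⟩
    · rw [h0, Finset.card_empty, Nat.cast_zero]
      positivity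
    · have hmem : ∀ w ∈ F, w ∈ S ∧ w.1 = m ∧ f w = u := by
        intro w hw
        rw [hF, Finset.mem_filter] at hw
        have h1 := hw.2
        simp only [Prod.mk.injEq] at h1
        exact ⟨hw.1, h1.2.1, h1.2.2⟩
      obtain ⟨a1, a2, a3⟩ := hmem w0 hw0
      obtain ⟨b1, b2, b3, b4⟩ := hf w0 a1
      obtain ⟨c1, c2, c3, c4, c5, _⟩ := hS w0 a1
      rw [a3] at b1 b2 b3 b4
      rw [a2] at b4 c5
      have hcard : (F.card : ℝ) ≤ C2 * (Z : ℝ) ^ (σ / 2) := by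
        have h1 : F.card = (F.image Prod.snd).card := by
          rw [Finset.card_image_of_injOn]
          intro w hw w' hw' hww
          exact Prod.ext ((hmem w hw).2.1.trans (hmem w' hw').2.1.symm) hww
        rw [h1]
        apply hC2 Z m u _ hZ b1 ((Nat.le_of_dvd (by omega) b2).trans c4)
        · exact IsCoprime.of_isCoprime_of_dvd_right c5 (by exact_mod_cast b2)
        · intro n hn
          obtain ⟨w, hw, rfl⟩ := Finset.mem_image.mp hn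
          obtain ⟨d1, d2, d3⟩ := hmem w hw
          obtain ⟨e1, e2, e3, e4⟩ := hf w d1
          obtain ⟨_, _, _, _, _, _, a, ha⟩ := hS w d1
          rw [d3] at e2 e3
          rw [d2] at ha
          exact ⟨e2, e3, a, ha⟩
      have hm := one_le_rd m
      have hu := one_le_rd u
      have h3 : (1 : ℝ) ≤ Q * (((rd m : ℝ))⁻¹ * ((rd u : ℝ))⁻¹) := by
        rw [← mul_inv, ← div_eq_mul_inv, le_div_iff₀ (by positivity), one_mul]
        exact b4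
      calc (F.card : ℝ) ≤ C2 * (Z : ℝ) ^ (σ / 2) * 1 := by rw [mul_one]; exact hcard
        _ ≤ C2 * (Z : ℝ) ^ (σ / 2) * (Q * (((rd m : ℝ))⁻¹ * ((rd u : ℝ))⁻¹)) :=
            mul_le_mul_of_nonneg_left h3 (by positivity)
        _ = C2 * (Z : ℝ) ^ (σ / 2) * Q * (((rd m : ℝ))⁻¹ * ((rd u : ℝ))⁻¹) := by ring

/-- the larger number is a power of a large number times a number with small radical -/
theorem part_long3 (α β : ℤ) (hα : α ≠ 0) (hβ : β ≠ 0) (K : ℕ) (σ : ℝ) (hσ : 0 < σ) :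
    ∃ C : ℝ, 1 ≤ C ∧
    ∀ (R Q : ℝ) (Z : ℕ) (S : Finset (ℕ × ℕ)), 1 ≤ R → 1 ≤ Q → 1 ≤ Z →
      (∀ w ∈ S, 1 ≤ w.1 ∧ w.1 ≤ Z ∧ 1 ≤ w.2 ∧ w.2 ≤ Z ∧ (rd w.1 : ℝ) * rd w.2 ≤ R ∧
        (∃ p i n' : ℕ, 1 ≤ i ∧ i < K ∧ 1 ≤ n' ∧ n' * p ^ i = w.2 ∧ rd n' * p = rd w.2 ∧
          Q ≤ (p : ℝ)) ∧
        ∃ a : ℤ, α * (w.1 : ℤ) + β * (w.2 : ℤ) = a ^ 3) →
      (S.card : ℝ) ≤ C * (Z : ℝ) ^ σ * (R * Q ^ (-(2 / 3) : ℝ)) := by
  classical
  obtain ⟨C1, hC11, hC1⟩ := weighted_count (α := ℕ × ℕ) (σ / 2) (by positivity)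
  have hfs : ∀ i : ℕ, ∃ C : ℝ, 1 ≤ C ∧ (1 ≤ i → ∀ (Z m u X : ℕ) (S : Finset ℕ), 1 ≤ Z → 1 ≤ m →
      m ≤ Z → 1 ≤ u → u ≤ Z → 1 ≤ X → X ≤ Z →
      (∀ x ∈ S, 1 ≤ x ∧ x ≤ X ∧ u * x ^ i ≤ Z ∧
        ∃ a : ℤ, α * (m : ℤ) + β * ((u * x ^ i : ℕ) : ℤ) = a ^ 3) →
      (S.card : ℝ) ≤ C * (Z : ℝ) ^ (σ / 2) * (X : ℝ) ^ (1 / 3 : ℝ)) := by
    intro i
    by_cases hi : 1 ≤ i
    · obtain ⟨C, h1, h2⟩ := long_fiber α β hα hβ i hi (σ / 2) (by positivity)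
      exact ⟨C, h1, fun _ => h2⟩
    · exact ⟨1, le_rfl, fun h => absurd h hi⟩
  choose Cf hCf1 hCf using hfs
  have hCf0 : ∀ i, 0 ≤ Cf i := fun i => zero_le_one.trans (hCf1 i)
  set C2 : ℝ := 1 + ∑ i ∈ range K, Cf i with hC2
  have hC21 : 1 ≤ C2 := by
    have := Finset.sum_nonneg (fun i (_ : i ∈ range K) => hCf0 i)
    linarith
  have hCle : ∀ i, i < K → Cf i ≤ C2 := by
    intro i hi
    have := Finset.single_le_sum (f := Cf) (fun i _ => hCf0 i) (Finset.mem_range.mpr hi)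
    linarith
  refine ⟨C1 * (K + 1) * C2, ?_, ?_⟩
  · have h1 : (1 : ℝ) ≤ (K : ℝ) + 1 := by linarith [(Nat.cast_nonneg K : (0 : ℝ) ≤ K)]
    exact one_le_mul_of_one_le_of_one_le (one_le_mul_of_one_le_of_one_le hC11 h1) hC21
  intro R Q Z S hR hQ1 hZ hS
  have hQ0 : 0 < Q := by linarith
  have hR0 : 0 < R := by linarith
  have hZ1 : (1 : ℝ) ≤ Z := by exact_mod_cast hZ
  have hZ0 : (0 : ℝ) < Z := by linarith
  have hch : ∀ w : ℕ × ℕ, ∃ t : ℕ × ℕ × ℕ, w ∈ S → (1 ≤ t.2.1 ∧ t.2.1 < K ∧ 1 ≤ t.2.2 ∧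
      t.2.2 * t.1 ^ t.2.1 = w.2 ∧ rd t.2.2 * t.1 = rd w.2 ∧ Q ≤ (t.1 : ℝ)) := by
    intro w
    by_cases h : w ∈ S
    · obtain ⟨_, _, _, _, _, ⟨p, i, n', hn⟩, _⟩ := hS w h
      exact ⟨(p, i, n'), fun _ => hn⟩
    · exact ⟨0, fun h' => absurd h' h⟩
  choose f hf using hch
  have h := hC1 Z K (C2 * (Z : ℝ) ^ (σ / 2) * (R * Q ^ (-(2 / 3) : ℝ))) S
    (fun w => ((f w).2.1, w.1, (f w).2.2)) hZ (by positivity) ?_ ?_
  · have h7 : (Z : ℝ) ^ (σ / 2) * (Z : ℝ) ^ (σ / 2) = (Z : ℝ) ^ σ := by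
      rw [← Real.rpow_add hZ0]
      congr 1
      ring
    calc (S.card : ℝ) ≤ C1 * K * (Z : ℝ) ^ (σ / 2) * (C2 * (Z : ℝ) ^ (σ / 2) * (R * Q ^ (-(2 / 3) : ℝ))) := h
      _ = C1 * K * C2 * ((Z : ℝ) ^ (σ / 2) * (Z : ℝ) ^ (σ / 2)) * (R * Q ^ (-(2 / 3) : ℝ)) := by ring
      _ = C1 * K * C2 * (Z : ℝ) ^ σ * (R * Q ^ (-(2 / 3) : ℝ)) := by rw [h7]
      _ ≤ C1 * (K + 1) * C2 * (Z : ℝ) ^ σ * (R * Q ^ (-(2 / 3) : ℝ)) := by
          gcongr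
          linarith
  · intro w hw
    obtain ⟨h1, h2, h3, h4, _⟩ := hS w hw
    obtain ⟨k1, k2, k3, k4, k5, k6⟩ := hf w hw
    refine ⟨k2, h1, h2, k3, ?_⟩
    refine le_trans (Nat.le_of_dvd (by omega) ?_) h4
    rw [← k4]
    exact dvd_mul_right _ _
  · intro i m u
    set F := S.filter (fun w => (((f w).2.1, w.1, (f w).2.2) : ℕ × ℕ × ℕ) = (i, m, u)) with hF
    rcases F.eq_empty_or_nonempty with h0 | ⟨w0, hw0⟩
    · rw [h0, Finset.card_empty, Nat.cast_zero]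
      positivity
    · have hmem : ∀ w ∈ F, w ∈ S ∧ (f w).2.1 = i ∧ w.1 = m ∧ (f w).2.2 = u := by
        intro w hw
        rw [hF, Finset.mem_filter] at hw
        have h1 := hw.2
        simp only [Prod.mk.injEq] at h1
        exact ⟨hw.1, h1.1, h1.2.1, h1.2.2⟩
      have hm := one_le_rd m
      have hu := one_le_rd u
      set q : ℝ := R * (((rd m : ℝ))⁻¹ * ((rd u : ℝ))⁻¹) with hq
      have hpq : ∀ w ∈ F, ((f w).1 : ℝ) ≤ q := by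
        intro w hw
        obtain ⟨a1, a2, a3, a4⟩ := hmem w hw
        obtain ⟨k1, k2, k3, k4, k5, k6⟩ := hf w a1
        obtain ⟨_, _, _, _, h5, _⟩ := hS w a1
        rw [hq, ← mul_inv, ← div_eq_mul_inv, le_div_iff₀ (by positivity)]
        rw [← k5, a4, a3] at h5
        push_cast at h5
        calc ((f w).1 : ℝ) * ((rd m : ℝ) * (rd u : ℝ)) = (rd m : ℝ) * ((rd u : ℝ) * ((f w).1 : ℝ)) := by
              ring
          _ ≤ R := h5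
      have hp1 : ∀ w ∈ F, 1 ≤ (f w).1 := by
        intro w hw
        obtain ⟨a1, _⟩ := hmem w hw
        obtain ⟨_, _, _, _, _, k6⟩ := hf w a1
        have h1 : (1 : ℝ) ≤ ((f w).1 : ℝ) := hQ1.trans k6
        exact_mod_cast h1
      have hpZ : ∀ w ∈ F, (f w).1 ≤ Z := by
        intro w hw
        obtain ⟨a1, a2, a3, a4⟩ := hmem w hw
        obtain ⟨k1, k2, k3, k4, k5, k6⟩ := hf w a1
        obtain ⟨_, _, h3, h4, _⟩ := hS w a1
        refine le_trans (Nat.le_of_dvd (by omega) ?_) h4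
        rw [← k4]
        exact Dvd.dvd.mul_left (dvd_pow_self _ (by omega)) _
      obtain ⟨a1, a2, a3, a4⟩ := hmem w0 hw0
      obtain ⟨k1, k2, k3, k4, k5, k6⟩ := hf w0 a1
      obtain ⟨c1, c2, c3, c4, c5, _⟩ := hS w0 a1
      have hq0 : 0 < q := by positivity
      have hqR : Q ≤ q := k6.trans (hpq w0 hw0)
      set X : ℕ := min ⌊q⌋₊ Z with hX
      have hX1 : 1 ≤ X := by
        rw [hX, le_min_iff]
        refine ⟨?_, hZ⟩
        apply Nat.le_floor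
        rw [Nat.cast_one]
        exact hQ1.trans hqR
      have hXq : (X : ℝ) ≤ q := by
        have h1 : X ≤ ⌊q⌋₊ := min_le_left _ _
        exact le_trans (by exact_mod_cast h1) (Nat.floor_le hq0.le)
      have hcard : (F.card : ℝ) ≤ Cf i * (Z : ℝ) ^ (σ / 2) * (X : ℝ) ^ (1 / 3 : ℝ) := by
        have h1 : F.card = (F.image (fun w => (f w).1)).card := by
          rw [Finset.card_image_of_injOn]
          intro w hw w' hw' hww
          simp only at hww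
          obtain ⟨b1, b2, b3, b4⟩ := hmem w hw
          obtain ⟨b1', b2', b3', b4'⟩ := hmem w' hw'
          obtain ⟨_, _, _, e1, _⟩ := hf w b1
          obtain ⟨_, _, _, e2, _⟩ := hf w' b1'
          apply Prod.ext
          · rw [b3, b3']
          · rw [← e1, ← e2, b2, b2', b4, b4', hww]
        rw [h1]
        rw [a2] at k1
        apply hCf i k1 Z m u X _ hZ (by rw [← a3]; exact c1) (by rw [← a3]; exact c2)
          (by rw [← a4]; exact k3) ?_ hX1 (min_le_right _ _)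
        · intro x hx
          obtain ⟨w, hw, rfl⟩ := Finset.mem_image.mp hx
          obtain ⟨b1, b2, b3, b4⟩ := hmem w hw
          obtain ⟨_, _, _, e1, _⟩ := hf w b1
          obtain ⟨_, _, _, g4, _, _, a, ha⟩ := hS w b1
          rw [b2, b4] at e1
          refine ⟨hp1 w hw, ?_, ?_, a, ?_⟩
          · rw [hX, le_min_iff]
            exact ⟨Nat.le_floor (hpq w hw), hpZ w hw⟩
          · rw [e1]; exact g4
          · rw [e1, ← b3]; exact ha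
        · refine le_trans (Nat.le_of_dvd (by omega) ?_) c4
          rw [← k4, a4]
          exact dvd_mul_right _ _
      have hXb : (X : ℝ) ^ (1 / 3 : ℝ) ≤ Q ^ (-(2 / 3) : ℝ) * q := by
        calc (X : ℝ) ^ (1 / 3 : ℝ) ≤ q ^ (1 / 3 : ℝ) :=
              Real.rpow_le_rpow (by positivity) hXq (by norm_num)
          _ = q ^ (-(2 / 3) : ℝ) * q := by
              nth_rewrite 3 [← Real.rpow_one q]
              rw [← Real.rpow_add hq0]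
              norm_num
          _ ≤ Q ^ (-(2 / 3) : ℝ) * q := by
              apply mul_le_mul_of_nonneg_right _ hq0.le
              exact Real.rpow_le_rpow_of_nonpos hQ0 hqR (by norm_num)
      have hi : i < K := by rw [← a2]; exact k2
      calc (F.card : ℝ) ≤ Cf i * (Z : ℝ) ^ (σ / 2) * (X : ℝ) ^ (1 / 3 : ℝ) := hcard
        _ ≤ C2 * (Z : ℝ) ^ (σ / 2) * (Q ^ (-(2 / 3) : ℝ) * q) := by
            apply mul_le_mul _ hXb (by positivity) (by positivity)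
            exact mul_le_mul_of_nonneg_right (hCle i hi) (by positivity)
        _ = C2 * (Z : ℝ) ^ (σ / 2) * (R * Q ^ (-(2 / 3) : ℝ)) *
            (((rd m : ℝ))⁻¹ * ((rd u : ℝ))⁻¹) := by rw [hq]; ring

end T3

end Pool.Agent.Lib.MP_d8bd92_nt
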