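import Pool.Agent.Lib.MP_d8bd92_nt.T3.FewBasic
import Pool.Agent.Lib.MP_d8bd92_nt.ThF

set_option autoImplicit false

/-!
Phase 3: passage to natural numbers.
-/

namespace Pool.Agent.Lib.MP_d8bd92_nt

namespace T3

open Finset Pool.Agent.Lib.Szpiro

/-- pairs of natural numbers with `α m + β n` a cube -/
def CfN (α β : ℤ) (Z : ℕ) (R : ℝ) (w : ℕ × ℕ) : Prop :=
  1 ≤ w.1 ∧ w.1 ≤ Z ∧ 1 ≤ w.2 ∧ w.2 ≤ Z ∧ IsCoprime (α * (w.1 : ℤ)) (w.2 : ℤ) ∧ IsCoprime (β * (w.2 : ℤ)) (w.1 : ℤ) ∧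
    (rd w.1 : ℝ) * rd w.2 ≤ R ∧ ∃ a : ℤ, α * (w.1 : ℤ) + β * (w.2 : ℤ) = a ^ 3

def FewN (α β : ℤ) (K : ℝ) (Q : ℝ → ℕ × ℕ → Prop) : Prop :=
  ∃ C δ : ℝ, 0 < C ∧ 0 < δ ∧ ∀ Y : ℝ, 1 ≤ Y → ∀ S : Finset (ℕ × ℕ),
    (∀ w ∈ S, CfN α β ⌊Y ^ K⌋₊ Y w ∧ Q Y w) → (S.card : ℝ) ≤ C * Y ^ (3 / 4 - δ)

/-- signs of a pair -/
def sgn2 (w : ℤ × ℤ) : Bool × Bool := (decide (0 ≤ w.1), decide (0 ≤ w.2))

theorem few3_of_sgn (K : ℝ) (Q : ℝ → ℤ × ℤ → Prop) (h : ∀ s : Bool × Bool, Few3 K (fun Y w => sgn2 w = s ∧ Q Y w)) :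
    Few3 K Q := by
  apply few3_mono K _ _ _ (few3_finset K Finset.univ _ (fun s _ => h s))
  intro Y w _ _ hq
  exact ⟨sgn2 w, Finset.mem_univ _, rfl, hq⟩

theorem cfN_of_pair (K Y : ℝ) (w : ℤ × ℤ) (hw : w ∈ PairSet3 K Y) :
    CfN (27 * Th.sg (sgn2 w).1) (Th.sg (sgn2 w).2) ⌊Y ^ K⌋₊ Y (w.1.natAbs, w.2.natAbs) ∧
    CfN (Th.sg (sgn2 w).2) (27 * Th.sg (sgn2 w).1) ⌊Y ^ K⌋₊ Y (w.2.natAbs, w.1.natAbs) := by
  obtain ⟨h1, h2, h3, ⟨z, h4⟩, h5, h6, h7⟩ := hw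
  have e1 : Th.sg (sgn2 w).1 * (w.1.natAbs : ℤ) = w.1 := (Th.sg_natAbs w.1).symm
  have e2 : Th.sg (sgn2 w).2 * (w.2.natAbs : ℤ) = w.2 := (Th.sg_natAbs w.2).symm
  have e27 : 27 * Th.sg (sgn2 w).1 * (w.1.natAbs : ℤ) = 27 * w.1 := by rw [mul_assoc, e1]
  have c0 : IsCoprime (27 * w.1) w.2 := by
    have h3a := (IsCoprime.mul_left_iff.mp h3).1
    have h3b := (IsCoprime.mul_left_iff.mp h3).2
    apply IsCoprime.mul_left _ h3b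
    have := (IsCoprime.pow_left (m := 3) h3a)
    norm_num at this
    exact this
  have c1 : IsCoprime (27 * w.1) ((w.2.natAbs : ℕ) : ℤ) := by
    rw [Int.isCoprime_iff_gcd_eq_one] at c0 ⊢
    simpa [Int.gcd, Int.natAbs_abs] using c0
  have c2 : IsCoprime w.2 ((w.1.natAbs : ℕ) : ℤ) := by
    have c3 := (IsCoprime.mul_left_iff.mp c0).2.symm
    rw [Int.isCoprime_iff_gcd_eq_one] at c3 ⊢
    simpa [Int.gcd, Int.natAbs_abs] using c3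
  have a1 : 1 ≤ w.1.natAbs := Int.natAbs_pos.mpr h1
  have a2 : 1 ≤ w.2.natAbs := Int.natAbs_pos.mpr h2
  have b1 : w.1.natAbs ≤ ⌊Y ^ K⌋₊ := Nat.le_floor h6
  have b2 : w.2.natAbs ≤ ⌊Y ^ K⌋₊ := Nat.le_floor h7
  refine ⟨⟨a1, b1, a2, b2, ?_, ?_, h5, z, ?_⟩, ⟨a2, b2, a1, b1, ?_, ?_, ?_, z, ?_⟩⟩
  · rw [e27]; exact c1
  · rw [e2]; exact c2
  · rw [e27, e2]; exact h4
  · rw [e2]; exact c2
  · rw [e27]; exact c1
  · rw [mul_comm]; exact h5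
  · rw [e27, e2, add_comm]; exact h4

theorem natAbs_inj_sgn (w w' : ℤ × ℤ) (hs : sgn2 w = sgn2 w') (h1 : w.1.natAbs = w'.1.natAbs) (h2 : w.2.natAbs = w'.2.natAbs) :
    w = w' := by
  simp only [sgn2, Prod.mk.injEq, decide_eq_decide] at hs
  exact Prod.ext (by omega) (by omega)

/-- second member varying -/
theorem few3_of_N2 (K : ℝ) (Q : ℝ → ℕ × ℕ → Prop) (h : ∀ s : Bool × Bool, FewN (27 * Th.sg s.1) (Th.sg s.2) K Q) :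
    Few3 K (fun Y w => Q Y (w.1.natAbs, w.2.natAbs)) := by
  classical
  apply few3_of_sgn
  intro s
  obtain ⟨C, δ, hC, hδ, hb⟩ := h s
  refine ⟨C, δ, hC, hδ, fun Y hY P hP => ?_⟩
  have hinj : Set.InjOn (fun w : ℤ × ℤ => (w.1.natAbs, w.2.natAbs)) (P : Set (ℤ × ℤ)) := by
    intro w hw w' hw' hww
    simp only [Prod.mk.injEq] at hww
    exact natAbs_inj_sgn w w' ((hP w hw).2.1.trans (hP w' hw').2.1.symm) hww.1 hww.2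
  rw [← card_image_of_injOn hinj]
  apply hb Y hY
  intro x hx
  obtain ⟨w, hw, rfl⟩ := mem_image.mp hx
  obtain ⟨h1, h2, h3⟩ := hP w hw
  have h4 := (cfN_of_pair K Y w h1).1
  rw [h2] at h4
  exact ⟨h4, h3⟩

/-- first member varying -/
theorem few3_of_N1 (K : ℝ) (Q : ℝ → ℕ × ℕ → Prop) (h : ∀ s : Bool × Bool, FewN (Th.sg s.2) (27 * Th.sg s.1) K Q) :
    Few3 K (fun Y w => Q Y (w.2.natAbs, w.1.natAbs)) := by
  classical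
  apply few3_of_sgn
  intro s
  obtain ⟨C, δ, hC, hδ, hb⟩ := h s
  refine ⟨C, δ, hC, hδ, fun Y hY P hP => ?_⟩
  have hinj : Set.InjOn (fun w : ℤ × ℤ => (w.2.natAbs, w.1.natAbs)) (P : Set (ℤ × ℤ)) := by
    intro w hw w' hw' hww
    simp only [Prod.mk.injEq] at hww
    exact natAbs_inj_sgn w w' ((hP w hw).2.1.trans (hP w' hw').2.1.symm) hww.2 hww.1
  rw [← card_image_of_injOn hinj]
  apply hb Y hY
  intro x hx
  obtain ⟨w, hw, rfl⟩ := mem_image.mp hx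
  obtain ⟨h1, h2, h3⟩ := hP w hw
  have h4 := (cfN_of_pair K Y w h1).2
  rw [h2] at h4
  exact ⟨h4, h3⟩

theorem few3_large (K : ℝ) (Q Q' : ℝ → ℤ × ℤ → Prop) (Y0 : ℝ) (hQ : Few3 K Q)
    (h : ∀ Y w, 1 ≤ Y → Y0 ≤ Y → w ∈ PairSet3 K Y → Q' Y w → Q Y w) : Few3 K Q' := by
  classical
  obtain ⟨C, δ, hC, hδ, hb⟩ := hQ
  set B : ℕ := ⌊(max 1 Y0) ^ (max K 0)⌋₊ with hB
  set C1 : ℝ := ((Finset.Icc (-(B : ℤ)) B ×ˢ Finset.Icc (-(B : ℤ)) B).card : ℝ) with hC1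
  have hC10 : 0 ≤ C1 := by positivity
  refine ⟨C + C1, min δ (1 / 2), by positivity, lt_min hδ (by norm_num), fun Y hY P hP => ?_⟩
  have hY0 : 0 < Y := by linarith
  have h4 : Y ^ (3 / 4 - δ) ≤ Y ^ (3 / 4 - min δ (1 / 2)) :=
    Real.rpow_le_rpow_of_exponent_le hY (by linarith [min_le_left δ (1 / 2 : ℝ)])
  have h5 : 1 ≤ Y ^ (3 / 4 - min δ (1 / 2 : ℝ)) :=
    Real.one_le_rpow hY (by linarith [min_le_right δ (1 / 2 : ℝ)])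
  by_cases hYY : Y0 ≤ Y
  · have h1 := hb Y hY P (fun w hw => ⟨(hP w hw).1, h Y w hY hYY (hP w hw).1 (hP w hw).2⟩)
    calc (P.card : ℝ) ≤ C * Y ^ (3 / 4 - δ) := h1
      _ ≤ C * Y ^ (3 / 4 - min δ (1 / 2)) := by gcongr
      _ ≤ (C + C1) * Y ^ (3 / 4 - min δ (1 / 2)) := by gcongr; linarith
  · push Not at hYY
    have hsub : P ⊆ Finset.Icc (-(B : ℤ)) B ×ˢ Finset.Icc (-(B : ℤ)) B := by
      intro w hw
      obtain ⟨_, _, _, _, _, h1, h2⟩ := (hP w hw).1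
      have h6 : Y ^ K ≤ (max 1 Y0) ^ (max K 0) := by
        calc Y ^ K ≤ Y ^ (max K 0) := Real.rpow_le_rpow_of_exponent_le hY (le_max_left _ _)
          _ ≤ (max 1 Y0) ^ (max K 0) := Real.rpow_le_rpow hY0.le
            (hYY.le.trans (le_max_right _ _)) (le_max_right _ _)
      have h7 : w.1.natAbs ≤ B := Nat.le_floor (h1.trans h6)
      have h8 : w.2.natAbs ≤ B := Nat.le_floor (h2.trans h6)
      rw [Finset.mem_product, Finset.mem_Icc, Finset.mem_Icc]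
      refine ⟨⟨?_, ?_⟩, ⟨?_, ?_⟩⟩ <;> omega
    have h9 : (P.card : ℝ) ≤ C1 := by
      rw [hC1]
      exact_mod_cast Finset.card_le_card hsub
    calc (P.card : ℝ) ≤ C1 := h9
      _ ≤ (C + C1) * 1 := by linarith
      _ ≤ (C + C1) * Y ^ (3 / 4 - min δ (1 / 2)) := by gcongr

theorem fewN_or (α β : ℤ) (K : ℝ) (Q Q' : ℝ → ℕ × ℕ → Prop) (hQ : FewN α β K Q) (hQ' : FewN α β K Q') :
    FewN α β K (fun Y w => Q Y w ∨ Q' Y w) := by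
  classical
  obtain ⟨C, δ, hC, hδ, hb⟩ := hQ
  obtain ⟨C', δ', hC', hδ', hb'⟩ := hQ'
  refine ⟨C + C', min δ δ', by positivity, lt_min hδ hδ', fun Y hY P hP => ?_⟩
  have h1 := hb Y hY (P.filter (fun w => Q Y w)) (fun w hw => by
    rw [mem_filter] at hw
    exact ⟨(hP w hw.1).1, hw.2⟩)
  have h2 := hb' Y hY (P.filter (fun w => ¬ Q Y w)) (fun w hw => by
    rw [mem_filter] at hw
    exact ⟨(hP w hw.1).1, (hP w hw.1).2.resolve_left hw.2⟩)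
  have h3 : ((P.filter (fun w => Q Y w)).card : ℝ) + (P.filter (fun w => ¬ Q Y w)).card = P.card := by
    have := card_filter_add_card_filter_not (s := P) (fun w => Q Y w)
    exact_mod_cast this
  have h4 : Y ^ (3 / 4 - δ) ≤ Y ^ (3 / 4 - min δ δ') :=
    Real.rpow_le_rpow_of_exponent_le hY (by linarith [min_le_left δ δ'])
  have h5 : Y ^ (3 / 4 - δ') ≤ Y ^ (3 / 4 - min δ δ') :=
    Real.rpow_le_rpow_of_exponent_le hY (by linarith [min_le_right δ δ'])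
  calc (P.card : ℝ) = ((P.filter (fun w => Q Y w)).card : ℝ) + (P.filter (fun w => ¬ Q Y w)).card := h3.symm
    _ ≤ C * Y ^ (3 / 4 - δ) + C' * Y ^ (3 / 4 - δ') := add_le_add h1 h2
    _ ≤ C * Y ^ (3 / 4 - min δ δ') + C' * Y ^ (3 / 4 - min δ δ') := by gcongr
    _ = (C + C') * Y ^ (3 / 4 - min δ δ') := by ring

theorem fewN_mono (α β : ℤ) (K : ℝ) (Q Q' : ℝ → ℕ × ℕ → Prop)
    (h : ∀ Y w, 1 ≤ Y → CfN α β ⌊Y ^ K⌋₊ Y w → Q' Y w → Q Y w) (hQ : FewN α β K Q) : FewN α β K Q' := by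
  obtain ⟨C, δ, hC, hδ, hb⟩ := hQ
  exact ⟨C, δ, hC, hδ, fun Y hY P hP => hb Y hY P (fun w hw => ⟨(hP w hw).1, h Y w hY (hP w hw).1 (hP w hw).2⟩)⟩

/-- `⌊Y ^ K⌋ ^ σ ≤ Y ^ (K σ)` -/
theorem floor_rpow (K σ Y : ℝ) (hσ : 0 ≤ σ) (hY : 1 ≤ Y) : ((⌊Y ^ K⌋₊ : ℕ) : ℝ) ^ σ ≤ Y ^ (K * σ) := by
  have h1 : 0 ≤ Y ^ K := Real.rpow_nonneg (by linarith) _
  rw [Real.rpow_mul (by linarith)]
  exact Real.rpow_le_rpow (Nat.cast_nonneg _) (Nat.floor_le h1) hσ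

theorem floor_one (K Y : ℝ) (hK : 0 ≤ K) (hY : 1 ≤ Y) : 1 ≤ ⌊Y ^ K⌋₊ :=
  Nat.le_floor (by exact_mod_cast Real.one_le_rpow hY hK)

end T3

end Pool.Agent.Lib.MP_d8bd92_nt
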