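import Pool.Agent.Lib.MP_d8bd92_nt.TwRad

set_option autoImplicit false

/-!
Phase 3: unitary divisors with a prescribed radical.
-/

namespace Pool.Agent.Lib.MP_d8bd92_nt

namespace T3

open Finset Pool.Agent.Lib.Szpiro

/-- the `p`-part -/
theorem ppart (n p : ℕ) (hn : n ≠ 0) (hp : p.Prime) (hpn : p ∣ n) : ∃ l n' : ℕ, 1 ≤ l ∧ n = p ^ l * n' ∧ Nat.Coprime p n' ∧
    n' ≠ 0 := by
  refine ⟨n.factorization p, n / p ^ n.factorization p, ?_, ?_, ?_, ?_⟩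
  · exact (Nat.Prime.dvd_iff_one_le_factorization hp hn).mp hpn
  · exact (Nat.ordProj_mul_ordCompl_eq_self n p).symm
  · exact Nat.coprime_ordCompl hp hn
  · exact (Nat.ordCompl_pos p hn).ne'

/-- greedy choice: all primes of `n` are at most `X`, `rad n ≥ B`: a unitary divisor with radical in `[B, max X (B X'))`,
where `X'` bounds the primes smaller than `B` -/
theorem greedy (n : ℕ) (hn : n ≠ 0) (B X : ℝ) (hB : 1 < B) (hX : ∀ p : ℕ, p.Prime → p ∣ n → (p : ℝ) ≤ X) (hBn : B ≤ (rd n : ℝ)) :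
    ∃ d n' : ℕ, n = d * n' ∧ Nat.Coprime d n' ∧ B ≤ (rd d : ℝ) ∧ (rd d : ℝ) ≤ B * X := by
  classical
  -- the unitary divisors with radical `< B`
  set F : Finset ℕ := n.divisors.filter (fun d => Nat.Coprime d (n / d) ∧ (rd d : ℝ) < B) with hF
  have h1F : 1 ∈ F := by
    rw [hF, mem_filter, Nat.mem_divisors]
    refine ⟨⟨one_dvd _, hn⟩, Nat.coprime_one_left _, ?_⟩
    rw [rd_one, Nat.cast_one]
    exact hB
  obtain ⟨d, hdF, hmax⟩ := F.exists_max_image (fun d => rd d) ⟨1, h1F⟩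
  rw [hF, mem_filter, Nat.mem_divisors] at hdF
  obtain ⟨⟨hdn, _⟩, hcop, hdB⟩ := hdF
  obtain ⟨n1, hn1⟩ := hdn
  have hd0 : d ≠ 0 := by
    rintro rfl
    rw [zero_mul] at hn1
    exact hn hn1
  have hn10 : n1 ≠ 0 := by
    rintro rfl
    rw [mul_zero] at hn1
    exact hn hn1
  have hdiv : n / d = n1 := by
    rw [hn1]
    exact Nat.mul_div_cancel_left _ (Nat.pos_of_ne_zero hd0)
  rw [hdiv] at hcop
  have hn1ne : n1 ≠ 1 := by
    rintro rfl
    rw [mul_one] at hn1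
    rw [hn1] at hBn
    linarith
  obtain ⟨p, hp, hpn1⟩ := Nat.exists_prime_and_dvd hn1ne
  obtain ⟨l, n2, hl, e2, hc2, hn20⟩ := ppart n1 p hn10 hp hpn1
  have hdp : Nat.Coprime d p := Nat.Coprime.coprime_dvd_right hpn1 hcop
  have hrd : rd (d * p ^ l) = rd d * p := by
    rw [rd_mul_coprime d (p ^ l) hd0 (pow_ne_zero _ hp.ne_zero) (Nat.Coprime.pow_right _ hdp), rd_prime_pow p l hp (by omega)]
  have hcop2 : Nat.Coprime (d * p ^ l) n2 := by
    apply Nat.Coprime.mul_left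
    · apply Nat.Coprime.coprime_dvd_right _ hcop
      rw [e2]
      exact dvd_mul_left _ _
    · exact Nat.Coprime.pow_left _ hc2
  have hnn : n = d * p ^ l * n2 := by rw [hn1, e2]; ring
  refine ⟨d * p ^ l, n2, hnn, hcop2, ?_, ?_⟩
  · by_contra hcon
    push Not at hcon
    have hmem : d * p ^ l ∈ F := by
      rw [hF, mem_filter, Nat.mem_divisors]
      have hdp0 : 0 < d * p ^ l := Nat.mul_pos (Nat.pos_of_ne_zero hd0) (pow_pos hp.pos _)
      refine ⟨⟨⟨n2, hnn⟩, hn⟩, ?_, hcon⟩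
      have : n / (d * p ^ l) = n2 := by
        rw [hnn]
        exact Nat.mul_div_cancel_left _ hdp0
      rw [this]
      exact hcop2
    have h3 := hmax _ hmem
    rw [hrd] at h3
    have h4 : rd d * 2 ≤ rd d * p := Nat.mul_le_mul_left _ hp.two_le
    have h5 := rd_pos d
    omega
  · rw [hrd]
    push_cast
    have hpn : p ∣ n := by
      rw [hn1]
      exact Dvd.dvd.mul_left hpn1 _
    have h6 := hX p hp hpn
    have h7 : (0 : ℝ) ≤ (rd d : ℝ) := Nat.cast_nonneg _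
    have h8 : (0 : ℝ) ≤ (p : ℝ) := Nat.cast_nonneg _
    exact mul_le_mul hdB.le h6 h8 (by linarith)

/-- one part with radical in `[B, B^2]`, if all primes are at most `B^2` -/
theorem one_part (n : ℕ) (hn : n ≠ 0) (B : ℝ) (hB : 1 < B) (hX : ∀ p : ℕ, p.Prime → p ∣ n → (p : ℝ) ≤ B ^ 2)
    (hBn : B ≤ (rd n : ℝ)) : ∃ d n' : ℕ, n = d * n' ∧ Nat.Coprime d n' ∧ B ≤ (rd d : ℝ) ∧ (rd d : ℝ) ≤ B ^ 2 := by
  by_cases h : ∃ p : ℕ, p.Prime ∧ p ∣ n ∧ B ≤ (p : ℝ)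
  · obtain ⟨p, hp, hpn, hBp⟩ := h
    obtain ⟨l, n', hl, e, hc, hn'⟩ := ppart n p hn hp hpn
    refine ⟨p ^ l, n', e, Nat.Coprime.pow_left _ hc, ?_, ?_⟩
    · rw [rd_prime_pow p l hp (by omega)]
      exact hBp
    · rw [rd_prime_pow p l hp (by omega)]
      exact hX p hp hpn
  · push Not at h
    obtain ⟨d, n', h1, h2, h3, h4⟩ := greedy n hn B B hB (fun p hp hpn => (h p hp hpn).le) hBn
    exact ⟨d, n', h1, h2, h3, by rw [sq]; exact h4⟩

theorem rd_mul_c (m n : ℕ) (hmn : m * n ≠ 0) (h : Nat.Coprime m n) : rd (m * n) = rd m * rd n :=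
  rd_mul_coprime m n (left_ne_zero_of_mul hmn) (right_ne_zero_of_mul hmn) h

/-- three coprime parts with radicals at least `B`, if `rad n ≥ B^5` and all primes are at most `B^2`; the largest part `d`
has `n ≤ d^3` and `rad d ≤ rad n / B^2` -/
theorem three_parts (n : ℕ) (hn : n ≠ 0) (B : ℝ) (hB : 1 < B) (hX : ∀ p : ℕ, p.Prime → p ∣ n → (p : ℝ) ≤ B ^ 2)
    (hBn : B ^ 5 ≤ (rd n : ℝ)) : ∃ d : ℕ, 1 ≤ d ∧ d ∣ n ∧ n ≤ d ^ 3 ∧ (rd d : ℝ) * B ^ 2 ≤ rd n := by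
  have hB0 : 0 < B := by linarith
  have hB1 : B ≤ B ^ 5 := le_self_pow₀ hB.le (by norm_num)
  obtain ⟨d1, n1, e1, c1, l1, u1⟩ := one_part n hn B hB hX (hB1.trans hBn)
  have hr1 : (rd n : ℝ) = rd d1 * rd n1 := by
    rw [e1] at hn ⊢
    rw [rd_mul_c d1 n1 hn c1]
    push_cast
    ring
  have hd10 : d1 ≠ 0 := by rw [e1] at hn; exact left_ne_zero_of_mul hn
  have hn10 : n1 ≠ 0 := by rw [e1] at hn; exact right_ne_zero_of_mul hn
  have hn1B : B ^ 3 ≤ (rd n1 : ℝ) := by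
    have h2 : B ^ 5 ≤ B ^ 2 * (rd n1 : ℝ) := by
      rw [hr1] at hBn
      refine hBn.trans ?_
      exact mul_le_mul_of_nonneg_right u1 (Nat.cast_nonneg _)
    have h3 : B ^ 2 * B ^ 3 ≤ B ^ 2 * (rd n1 : ℝ) := by
      calc B ^ 2 * B ^ 3 = B ^ 5 := by ring
        _ ≤ _ := h2
    exact le_of_mul_le_mul_left h3 (by positivity)
  have hn1n : n1 ∣ n := by rw [e1]; exact dvd_mul_left _ _
  have hB3 : B ≤ B ^ 3 := le_self_pow₀ hB.le (by norm_num)
  obtain ⟨d2, d3, e2, c2, l2, u2⟩ := one_part n1 hn10 B hB (fun p hp h => hX p hp (dvd_trans h hn1n)) (hB3.trans hn1B)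
  have hr2 : (rd n1 : ℝ) = rd d2 * rd d3 := by
    rw [e2] at hn10 ⊢
    rw [rd_mul_c d2 d3 hn10 c2]
    push_cast
    ring
  have hd20 : d2 ≠ 0 := by rw [e2] at hn10; exact left_ne_zero_of_mul hn10
  have hd30 : d3 ≠ 0 := by rw [e2] at hn10; exact right_ne_zero_of_mul hn10
  have l3 : B ≤ (rd d3 : ℝ) := by
    have h2 : B ^ 2 * B ≤ B ^ 2 * (rd d3 : ℝ) := by
      calc B ^ 2 * B = B ^ 3 := by ring
        _ ≤ (rd n1 : ℝ) := hn1B
        _ = rd d2 * rd d3 := hr2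
        _ ≤ B ^ 2 * (rd d3 : ℝ) := mul_le_mul_of_nonneg_right u2 (Nat.cast_nonneg _)
    exact le_of_mul_le_mul_left h2 (by positivity)
  have hall : n = d1 * (d2 * d3) := by rw [← e2]; exact e1
  have hrall : (rd n : ℝ) = rd d1 * (rd d2 * rd d3) := by rw [hr1, hr2]
  have p1 : (0 : ℝ) ≤ (rd d1 : ℝ) := Nat.cast_nonneg _
  have p2 : (0 : ℝ) ≤ (rd d2 : ℝ) := Nat.cast_nonneg _
  have p3 : (0 : ℝ) ≤ (rd d3 : ℝ) := Nat.cast_nonneg _
  rcases le_total d1 d2 with h12 | h12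
  · rcases le_total d2 d3 with h23 | h23
    · -- d3 is the largest
      refine ⟨d3, by omega, ?_, ?_, ?_⟩
      · rw [hall]; exact Dvd.dvd.mul_left (dvd_mul_left _ _) _
      · rw [hall]
        calc d1 * (d2 * d3) ≤ d3 * (d3 * d3) := Nat.mul_le_mul (h12.trans h23) (Nat.mul_le_mul_right _ h23)
          _ = d3 ^ 3 := by ring
      · rw [hrall]
        calc (rd d3 : ℝ) * B ^ 2 = (B * B) * rd d3 := by ring
          _ ≤ ((rd d1 : ℝ) * rd d2) * rd d3 := by gcongr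
          _ = _ := by ring
    · refine ⟨d2, by omega, ?_, ?_, ?_⟩
      · rw [hall]; exact Dvd.dvd.mul_left (dvd_mul_right _ _) _
      · rw [hall]
        calc d1 * (d2 * d3) ≤ d2 * (d2 * d2) := Nat.mul_le_mul h12 (Nat.mul_le_mul_left _ h23)
          _ = d2 ^ 3 := by ring
      · rw [hrall]
        calc (rd d2 : ℝ) * B ^ 2 = (B * B) * rd d2 := by ring
          _ ≤ ((rd d1 : ℝ) * rd d3) * rd d2 := by gcongr
          _ = _ := by ring
  · rcases le_total d1 d3 with h13 | h13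
    · refine ⟨d3, by omega, ?_, ?_, ?_⟩
      · rw [hall]; exact Dvd.dvd.mul_left (dvd_mul_left _ _) _
      · rw [hall]
        calc d1 * (d2 * d3) ≤ d3 * (d3 * d3) := Nat.mul_le_mul h13 (Nat.mul_le_mul_right _ (h12.trans h13))
          _ = d3 ^ 3 := by ring
      · rw [hrall]
        calc (rd d3 : ℝ) * B ^ 2 = (B * B) * rd d3 := by ring
          _ ≤ ((rd d1 : ℝ) * rd d2) * rd d3 := by gcongr
          _ = _ := by ring
    · refine ⟨d1, by omega, ?_, ?_, ?_⟩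
      · rw [hall]; exact dvd_mul_right _ _
      · rw [hall]
        calc d1 * (d2 * d3) ≤ d1 * (d1 * d1) := Nat.mul_le_mul_left _ (Nat.mul_le_mul h12 h13)
          _ = d1 ^ 3 := by ring
      · rw [hrall]
        calc (rd d1 : ℝ) * B ^ 2 = rd d1 * (B * B) := by ring
          _ ≤ (rd d1 : ℝ) * (rd d2 * rd d3) := by gcongr

end T3

end Pool.Agent.Lib.MP_d8bd92_nt
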