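import Pool.Agent.Lib.MP_d8bd92_nt.T3.U5
import Pool.Agent.Lib.MP_d8bd92_nt.T3.U6
import Pool.Agent.Lib.MP_d8bd92_nt.T3.U7
import Pool.Agent.Lib.MP_d8bd92_nt.T3.U8
import Pool.Agent.Lib.MP_d8bd92_nt.Hp.SfOf

set_option autoImplicit false

/-!
Phase 3: pairs with a small first radical are few.
-/

namespace Pool.Agent.Lib.MP_d8bd92_nt

namespace T3

open Finset Pool.Agent.Lib.Szpiro

theorem CfN.swap {α β : ℤ} {Z : ℕ} {R : ℝ} {w : ℕ × ℕ} (h : CfN α β Z R w) : CfN β α Z R (w.2, w.1) := by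
  obtain ⟨h1, h2, h3, h4, h5, h6, h7, a, h8⟩ := h
  exact ⟨h3, h4, h1, h2, h6, h5, by rw [mul_comm]; exact h7, a, by rw [add_comm]; exact h8⟩

theorem exists_UD (α β : ℤ) (hα : α ≠ 0) (hβ : β ≠ 0) (Z : ℕ) (hZ : 1 ≤ Z) (R RC RU RV : ℝ) (S : Finset (ℕ × ℕ)) (u v : ℕ × ℕ → ℕ)
    (h : ∀ w ∈ S, CfN α β Z R w) (hf : ∀ w ∈ S, w.2 = u w * v w) (h3 : ∀ w ∈ S, Nat.Coprime (u w) 3)
    (hrc : ∀ w ∈ S, (rd w.1 : ℝ) ≤ RC) (hru : ∀ w ∈ S, (rd (u w) : ℝ) ≤ RU) (hrv : ∀ w ∈ S, (rd (v w) : ℝ) ≤ RV) :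
    ∃ zf : ℕ × ℕ → ℤ, UD α β Z RC RU RV S u v zf := by
  classical
  have hch : ∀ w : ℕ × ℕ, ∃ a : ℤ, w ∈ S → α * (w.1 : ℤ) + β * (w.2 : ℤ) = a ^ 3 := by
    intro w
    by_cases hw : w ∈ S
    · obtain ⟨_, _, _, _, _, _, _, a, ha⟩ := h w hw
      exact ⟨a, fun _ => ha⟩
    · exact ⟨0, fun h' => absurd h' hw⟩
  choose zf hzf using hch
  exact ⟨zf, hZ, hα, hβ, fun w hw => (h w hw).1, fun w hw => (h w hw).2.1, fun w hw => (h w hw).2.2.1,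
    fun w hw => (h w hw).2.2.2.1, fun w hw => (h w hw).2.2.2.2.1, hf, h3, hrc, hru, hrv, hzf⟩

theorem fewN_of_bound (α β : ℤ) (K : ℝ) (hK : 1 ≤ K) (Q : ℝ → ℕ × ℕ → Prop) (e : ℝ) (he : e < 3 / 4)
    (h : ∀ σ : ℝ, 0 < σ → ∃ C : ℝ, 0 < C ∧ ∀ Y : ℝ, 1 ≤ Y → ∀ S : Finset (ℕ × ℕ),
      (∀ w ∈ S, CfN α β ⌊Y ^ K⌋₊ Y w ∧ Q Y w) → (S.card : ℝ) ≤ C * ((⌊Y ^ K⌋₊ : ℕ) : ℝ) ^ σ * Y ^ e) : FewN α β K Q := by
  have hK0 : 0 < K := by linarith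
  obtain ⟨C, hC, hb⟩ := h ((3 / 4 - e) / (2 * K)) (by
    apply div_pos <;> linarith)
  refine ⟨C, (3 / 4 - e) / 2, hC, by linarith, fun Y hY S hS => ?_⟩
  have hY0 : 0 < Y := by linarith
  refine (hb Y hY S hS).trans ?_
  have h1 := floor_rpow K ((3 / 4 - e) / (2 * K)) Y (by
    apply div_nonneg <;> linarith) hY
  have h2 : K * ((3 / 4 - e) / (2 * K)) = (3 / 4 - e) / 2 := by field_simp
  rw [h2] at h1
  calc C * ((⌊Y ^ K⌋₊ : ℕ) : ℝ) ^ ((3 / 4 - e) / (2 * K)) * Y ^ e ≤ C * Y ^ ((3 / 4 - e) / 2) * Y ^ e := by gcongr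
    _ = C * (Y ^ ((3 / 4 - e) / 2) * Y ^ e) := by ring
    _ = C * Y ^ (3 / 4 - (3 / 4 - e) / 2) := by
      rw [← Real.rpow_add hY0]
      congr 2
      ring

/-- Cauchy-Schwarz range -/
theorem fewN_cs (α β : ℤ) (hα : α ≠ 0) (hβ : β ≠ 0) (K c : ℝ) (hK : 1 ≤ K) (hc : 0 < c) (hc1 : c ≤ 1 / 100) :
    FewN α β K (fun Y w => (rd w.1 : ℝ) ≤ Y ^ (1 / 2 - c) ∧ (rd w.2 : ℝ) ≤ Y ^ (3 / 4 - 1 / 50 : ℝ)) := by
  classical
  apply fewN_of_bound α β K hK _ (3 / 4 - c / 4) (by linarith)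
  intro σ hσ
  obtain ⟨C, hC, hcount⟩ := unitary_count β α σ hσ
  obtain ⟨C2, hC2, hbox⟩ := Hp.box_count K (c / 4) (by linarith) (by positivity)
  refine ⟨3 * C * C2, by positivity, fun Y hY S hS => ?_⟩
  have hY0 : 0 < Y := by linarith
  have hZ1 := floor_one K Y (by linarith) hY
  set Z : ℕ := ⌊Y ^ K⌋₊ with hZ
  have hZR : (Z : ℝ) ≤ Y ^ K := Nat.floor_le (Real.rpow_nonneg hY0.le _)
  set L : ℕ := Nat.log 2 ⌊Y ^ K⌋₊ + 1 with hL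
  have hmaps : ∀ w ∈ S, Nat.log 2 (rd w.1) ∈ range L := by
    intro w hw
    obtain ⟨⟨h1, h2, _⟩, _⟩ := hS w hw
    rw [mem_range]
    refine (hbox Y hY _ (rd_pos _) ?_).1
    have h3 : rd w.1 ≤ w.1 := rd_le (by omega)
    exact le_trans (by exact_mod_cast h3.trans h2) hZR
  have hLle : (L : ℝ) ≤ C2 * Y ^ (c / 4) := (hbox Y hY 1 le_rfl (by
    rw [Nat.cast_one]
    exact Real.one_le_rpow hY (by linarith))).2
  set B : ℝ := 3 * C * (Z : ℝ) ^ σ * Y ^ (3 / 4 - c / 2) with hB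
  have hB0 : 0 ≤ B := by positivity
  have hfib : ∀ k ∈ range L, (S.filter (fun w => Nat.log 2 (rd w.1) = k)).card ≤ ⌊B⌋₊ := by
    intro k _
    apply Nat.le_floor
    rcases (S.filter (fun w => Nat.log 2 (rd w.1) = k)).eq_empty_or_nonempty with he | ⟨w0, hw0⟩
    · rw [he, card_empty, Nat.cast_zero]
      exact hB0
    rw [mem_filter] at hw0
    obtain ⟨⟨_, _, _, _, _, _, hr0, _⟩, hs0, _⟩ := hS w0 hw0.1
    have hb0 := Hp.log2_box (rd w0.1) (rd_pos _)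
    rw [hw0.2] at hb0
    have hk1 : (1 : ℝ) ≤ 2 ^ k := one_le_pow₀ (by norm_num)
    have hk0 : (0 : ℝ) < 2 ^ k := by positivity
    have hkY : (2 : ℝ) ^ k ≤ Y ^ (1 / 2 - c) := hb0.1.trans hs0
    have hkY1 : (2 : ℝ) ^ k ≤ Y := by
      refine hkY.trans ?_
      calc Y ^ (1 / 2 - c) ≤ Y ^ (1 : ℝ) := Real.rpow_le_rpow_of_exponent_le hY (by linarith)
        _ = Y := Real.rpow_one Y
    set RC : ℝ := min (Y / 2 ^ k) (Y ^ (3 / 4 - 1 / 50 : ℝ)) with hRC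
    have hRC1 : 1 ≤ RC := by
      rw [hRC]
      apply le_min
      · rw [le_div_iff₀ hk0, one_mul]
        exact hkY1
      · exact Real.one_le_rpow hY (by norm_num)
    have hinj : Set.InjOn (fun w : ℕ × ℕ => (w.2, w.1)) ((S.filter (fun w => Nat.log 2 (rd w.1) = k) : Finset (ℕ × ℕ)) : Set (ℕ × ℕ)) := by
      intro a _ b _ hab
      simp only [Prod.mk.injEq] at hab
      exact Prod.ext hab.2 hab.1
    rw [← card_image_of_injOn hinj]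
    set S' := (S.filter (fun w => Nat.log 2 (rd w.1) = k)).image (fun w => (w.2, w.1)) with hS'
    have hm : ∀ w ∈ S', CfN β α Z Y w ∧ (rd w.1 : ℝ) ≤ RC ∧ (rd w.2 : ℝ) ≤ 2 * 2 ^ k := by
      intro x hx
      obtain ⟨w, hw, rfl⟩ := mem_image.mp hx
      rw [mem_filter] at hw
      obtain ⟨h1, h2, h3⟩ := hS w hw.1
      have hb := Hp.log2_box (rd w.1) (rd_pos _)
      rw [hw.2] at hb
      refine ⟨h1.swap, ?_, hb.2⟩
      apply le_min _ h3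
      show (rd w.2 : ℝ) ≤ Y / 2 ^ k
      rw [le_div_iff₀ hk0]
      have h4 := h1.2.2.2.2.2.2.1
      have h5 : (0 : ℝ) ≤ (rd w.2 : ℝ) := Nat.cast_nonneg _
      calc (rd w.2 : ℝ) * 2 ^ k ≤ (rd w.2 : ℝ) * rd w.1 := mul_le_mul_of_nonneg_left hb.1 h5
        _ = (rd w.1 : ℝ) * rd w.2 := mul_comm _ _
        _ ≤ Y := h4
    obtain ⟨zf, hU⟩ := exists_UD β α hβ hα Z hZ1 Y RC 1 (2 * 2 ^ k) S' (fun _ => 1) (fun w => w.2) (fun w hw => (hm w hw).1)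
      (fun w _ => (one_mul _).symm) (fun w _ => Nat.coprime_one_left _) (fun w hw => (hm w hw).2.1)
      (fun w _ => by rw [rd_one, Nat.cast_one]) (fun w hw => (hm w hw).2.2)
    have hmain := hcount hRC1 le_rfl (by linarith) hU
    refine hmain.trans ?_
    rw [Real.one_rpow, mul_one, mul_one]
    have e1 : RC ≤ Y ^ (3 / 4 - c / 2) := (min_le_right _ _).trans (Real.rpow_le_rpow_of_exponent_le hY (by linarith))
    have e2 : √RC * (2 * 2 ^ k) ≤ 2 * Y ^ (3 / 4 - c / 2) := by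
      have h6 : √RC * 2 ^ k ≤ Y ^ (3 / 4 - c / 2) := by
        have h7 : √RC * 2 ^ k ≤ √(Y * 2 ^ k) := by
          apply Real.le_sqrt_of_sq_le
          rw [mul_pow, Real.sq_sqrt (by linarith)]
          calc RC * (2 ^ k) ^ 2 ≤ (Y / 2 ^ k) * (2 ^ k) ^ 2 := by
                gcongr
                exact min_le_left _ _
            _ = Y * 2 ^ k := by field_simp
        refine h7.trans ?_
        rw [Real.sqrt_le_left (by positivity)]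
        calc Y * 2 ^ k ≤ Y * Y ^ (1 / 2 - c) := by gcongr
          _ = (Y ^ (3 / 4 - c / 2)) ^ 2 := by
            nth_rewrite 1 [← Real.rpow_one Y]
            rw [← Real.rpow_add hY0, ← Real.rpow_natCast (Y ^ (3 / 4 - c / 2)) 2, ← Real.rpow_mul hY0.le]
            congr 1
            push_cast
            ring
      calc √RC * (2 * 2 ^ k) = 2 * (√RC * 2 ^ k) := by ring
        _ ≤ 2 * Y ^ (3 / 4 - c / 2) := by gcongr
    calc C * (Z : ℝ) ^ σ * (RC + √RC * (2 * 2 ^ k)) ≤ C * (Z : ℝ) ^ σ * (Y ^ (3 / 4 - c / 2) + 2 * Y ^ (3 / 4 - c / 2)) := by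
          gcongr
      _ = B := by rw [hB]; ring
  have hcard := card_le_mul_card_image_of_maps_to hmaps ⌊B⌋₊ hfib
  rw [card_range] at hcard
  calc (S.card : ℝ) ≤ ((⌊B⌋₊ * L : ℕ) : ℝ) := by exact_mod_cast hcard
    _ = (⌊B⌋₊ : ℝ) * L := by push_cast; ring
    _ ≤ B * (C2 * Y ^ (c / 4)) := by
      gcongr
      exact Nat.floor_le hB0
    _ = 3 * C * C2 * (Z : ℝ) ^ σ * (Y ^ (3 / 4 - c / 2) * Y ^ (c / 4)) := by rw [hB]; ring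
    _ = 3 * C * C2 * (Z : ℝ) ^ σ * Y ^ (3 / 4 - c / 4) := by
      rw [← Real.rpow_add hY0]
      congr 2
      ring

/-- the largest part -/
theorem fewN_div (α β : ℤ) (hβ : β ≠ 0) (K : ℝ) (hK : 1 ≤ K) :
    FewN α β K (fun Y w => ∃ d : ℕ, 1 ≤ d ∧ d ∣ w.2 ∧ w.2 ≤ d ^ 3 ∧ (rd w.1 : ℝ) * rd d ≤ Y ^ (3 / 4 - 1 / 50 : ℝ)) := by
  apply fewN_of_bound α β K hK _ (3 / 4 - 1 / 50) (by norm_num)
  intro σ hσ
  obtain ⟨C, hC, h⟩ := part_div3 α β hβ σ hσ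
  refine ⟨C, by linarith, fun Y hY S hS => ?_⟩
  have hY0 : 0 < Y := by linarith
  apply h (Y ^ (3 / 4 - 1 / 50 : ℝ)) ⌊Y ^ K⌋₊ S (Real.rpow_nonneg hY0.le _) (floor_one K Y (by linarith) hY)
  intro w hw
  obtain ⟨⟨h1, h2, h3, h4, h5, h6, h7, a, h8⟩, d, d1, d2, d3, d4⟩ := hS w hw
  exact ⟨h1, h2, h3, h4, h5, ⟨d, d1, d2, d3, d4⟩, a, h8⟩

/-- a long prime -/
theorem fewN_long (α β : ℤ) (hα : α ≠ 0) (hβ : β ≠ 0) (K : ℝ) (hK : 1 ≤ K) (L : ℕ) :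
    FewN α β K (fun Y w => ∃ p i n' : ℕ, 1 ≤ i ∧ i < L ∧ 1 ≤ n' ∧ n' * p ^ i = w.2 ∧ rd n' * p = rd w.2 ∧
      Y ^ (1 / 2 - 1 / 25 : ℝ) ≤ (p : ℝ)) := by
  apply fewN_of_bound α β K hK _ (1 + -(2 / 3) * (1 / 2 - 1 / 25)) (by norm_num)
  intro σ hσ
  obtain ⟨C, hC, h⟩ := part_long3 α β hα hβ L σ hσ
  refine ⟨C, by linarith, fun Y hY S hS => ?_⟩
  have hY0 : 0 < Y := by linarith
  have h1 := h Y (Y ^ (1 / 2 - 1 / 25 : ℝ)) ⌊Y ^ K⌋₊ S hY (Real.one_le_rpow hY (by norm_num)) (floor_one K Y (by linarith) hY) (by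
    intro w hw
    obtain ⟨⟨h1, h2, h3, h4, h5, h6, h7, a, h8⟩, p, i, n', k1, k2, k3, k4, k5, k6⟩ := hS w hw
    exact ⟨h1, h2, h3, h4, h7, ⟨p, i, n', k1, k2, k3, k4, k5, k6⟩, a, h8⟩)
  refine h1.trans (le_of_eq ?_)
  congr 1
  rw [← Real.rpow_mul hY0.le, Real.rpow_add hY0, Real.rpow_one]
  congr 2
  ring

theorem fewN_small (α β : ℤ) (hα : α ≠ 0) (hβ : β ≠ 0) (K c : ℝ) (hK : 1 ≤ K) (hc : 0 < c) :
    FewN α β K (fun Y w => (rd w.1 : ℝ) ≤ Y ^ (1 / 2 - c)) := by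
  set c0 : ℝ := min c (1 / 100) with hc0
  have hc01 : c0 ≤ c := min_le_left _ _
  have hc02 : c0 ≤ 1 / 100 := min_le_right _ _
  have hc03 : 0 < c0 := lt_min hc (by norm_num)
  set L : ℕ := ⌊4 * K⌋₊ + 1 with hL
  apply fewN_mono α β K _ _ _ (fewN_or α β K _ _ (fewN_cs α β hα hβ K c0 hK hc03 hc02)
    (fewN_or α β K _ _ (fewN_div α β hβ K hK) (fewN_long α β hα hβ K hK L)))
  intro Y w hY hw hs
  have hY0 : 0 < Y := by linarith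
  obtain ⟨h1, h2, h3, h4, h5, h6, h7, a, h8⟩ := hw
  have hrw1 : (1 : ℝ) ≤ rd w.1 := one_le_rd _
  have hrw2 : (1 : ℝ) ≤ rd w.2 := one_le_rd _
  by_cases hA : (rd w.2 : ℝ) ≤ Y ^ (3 / 4 - 1 / 50 : ℝ)
  · exact Or.inl ⟨hs.trans (Real.rpow_le_rpow_of_exponent_le hY (by linarith)), hA⟩
  right
  push Not at hA
  have hY1 : 1 < Y := by
    by_contra hcon
    have : Y = 1 := by linarith
    rw [this, Real.one_rpow] at hA
    rw [this] at h7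
    nlinarith
  set B : ℝ := Y ^ (1 / 8 + 1 / 100 : ℝ) with hB
  have hB1 : 1 < B := Real.one_lt_rpow hY1 (by norm_num)
  have hB0 : 0 < B := by linarith
  have hB2 : B ^ 2 = Y ^ (1 / 4 + 1 / 50 : ℝ) := by
    rw [hB, ← Real.rpow_natCast (Y ^ (1 / 8 + 1 / 100 : ℝ)) 2, ← Real.rpow_mul hY0.le]
    congr 1
    norm_num
  have hB5 : B ^ 5 ≤ Y ^ (3 / 4 - 1 / 50 : ℝ) := by
    rw [hB, ← Real.rpow_natCast (Y ^ (1 / 8 + 1 / 100 : ℝ)) 5, ← Real.rpow_mul hY0.le]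
    apply Real.rpow_le_rpow_of_exponent_le hY
    norm_num
  have hQB : Y ^ (3 / 4 - 1 / 50 : ℝ) * B ^ 2 = Y := by
    rw [hB2, ← Real.rpow_add hY0]
    nth_rewrite 2 [← Real.rpow_one Y]
    congr 1
    norm_num
  have hw20 : w.2 ≠ 0 := by omega
  -- use of a divisor `d` with `rad d * B^2 ≤ rad w.2`
  have hdiv : ∀ d : ℕ, (rd d : ℝ) * B ^ 2 ≤ rd w.2 → (rd w.1 : ℝ) * rd d ≤ Y ^ (3 / 4 - 1 / 50 : ℝ) := by
    intro d hd
    have h9 : (rd w.1 : ℝ) * rd d * B ^ 2 ≤ Y ^ (3 / 4 - 1 / 50 : ℝ) * B ^ 2 := by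
      rw [hQB]
      calc (rd w.1 : ℝ) * rd d * B ^ 2 = (rd w.1 : ℝ) * (rd d * B ^ 2) := by ring
        _ ≤ (rd w.1 : ℝ) * rd w.2 := by gcongr
        _ ≤ Y := h7
    exact le_of_mul_le_mul_right h9 (by positivity)
  by_cases hC : ∀ p : ℕ, p.Prime → p ∣ w.2 → (p : ℝ) ≤ B ^ 2
  · left
    obtain ⟨d, d1, d2, d3, d4⟩ := three_parts w.2 hw20 B hB1 hC (hB5.trans hA.le)
    exact ⟨d, d1, d2, d3, hdiv d d4⟩
  push Not at hC
  obtain ⟨p, hp, hpw, hpB⟩ := hC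
  obtain ⟨l, n', hl, e, hcop, hn'⟩ := ppart w.2 p hw20 hp hpw
  have hrd : rd w.2 = p * rd n' := by
    rw [e, rd_mul_coprime _ _ (pow_ne_zero _ hp.ne_zero) hn' (Nat.Coprime.pow_left _ hcop), rd_prime_pow p l hp (by omega)]
  by_cases hD : p ^ l ≤ n'
  · left
    refine ⟨n', Nat.pos_of_ne_zero hn', by rw [e]; exact dvd_mul_left _ _, ?_, hdiv n' ?_⟩
    · rw [e]
      calc p ^ l * n' ≤ n' * n' := Nat.mul_le_mul_right _ hD
        _ = n' ^ 2 := (sq _).symm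
        _ ≤ n' ^ 3 := Nat.pow_le_pow_right (Nat.pos_of_ne_zero hn') (by norm_num)
    · rw [hrd]
      push_cast
      have h9 : (0 : ℝ) ≤ (rd n' : ℝ) := Nat.cast_nonneg _
      calc (rd n' : ℝ) * B ^ 2 ≤ (rd n' : ℝ) * p := mul_le_mul_of_nonneg_left hpB.le h9
        _ = (p : ℝ) * rd n' := mul_comm _ _
  push Not at hD
  by_cases hE : (rd w.1 : ℝ) * p ≤ Y ^ (3 / 4 - 1 / 50 : ℝ)
  · left
    have hpl : 0 < p ^ l := pow_pos hp.pos _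
    refine ⟨p ^ l, hpl, by rw [e]; exact dvd_mul_right _ _, ?_, ?_⟩
    · rw [e]
      calc p ^ l * n' ≤ p ^ l * p ^ l := Nat.mul_le_mul_left _ hD.le
        _ = (p ^ l) ^ 2 := (sq _).symm
        _ ≤ (p ^ l) ^ 3 := Nat.pow_le_pow_right hpl (by norm_num)
    · rw [rd_prime_pow p l hp (by omega)]
      exact hE
  right
  push Not at hE
  have hp0 : (0 : ℝ) < p := by exact_mod_cast hp.pos
  have hw1 : (rd w.1 : ℝ) ≤ Y ^ (1 / 4 + 1 / 50 : ℝ) := by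
    have h9 : (rd w.1 : ℝ) * Y ^ (3 / 4 - 1 / 50 : ℝ) ≤ Y ^ (1 / 4 + 1 / 50 : ℝ) * Y ^ (3 / 4 - 1 / 50 : ℝ) := by
      calc (rd w.1 : ℝ) * Y ^ (3 / 4 - 1 / 50 : ℝ) ≤ (rd w.1 : ℝ) * rd w.2 := by gcongr
        _ ≤ Y := h7
        _ = Y ^ (1 / 4 + 1 / 50 : ℝ) * Y ^ (3 / 4 - 1 / 50 : ℝ) := by
          rw [← Real.rpow_add hY0]
          nth_rewrite 1 [← Real.rpow_one Y]
          congr 1
          norm_num
    exact le_of_mul_le_mul_right h9 (by positivity)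
  have hpbig : Y ^ (1 / 2 - 1 / 25 : ℝ) ≤ (p : ℝ) := by
    have h9 : Y ^ (1 / 4 + 1 / 50 : ℝ) * Y ^ (1 / 2 - 1 / 25 : ℝ) ≤ Y ^ (1 / 4 + 1 / 50 : ℝ) * p := by
      calc Y ^ (1 / 4 + 1 / 50 : ℝ) * Y ^ (1 / 2 - 1 / 25 : ℝ) = Y ^ (3 / 4 - 1 / 50 : ℝ) := by
            rw [← Real.rpow_add hY0]
            congr 1
            norm_num
        _ ≤ (rd w.1 : ℝ) * p := hE.le
        _ ≤ Y ^ (1 / 4 + 1 / 50 : ℝ) * p := by gcongr
    exact le_of_mul_le_mul_left h9 (by positivity)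
  refine ⟨p, l, n', hl, ?_, Nat.pos_of_ne_zero hn', by rw [e, mul_comm], by rw [hrd, mul_comm], hpbig⟩
  -- the exponent
  have h10 : (Y ^ (1 / 4 : ℝ)) ^ l ≤ Y ^ K := by
    calc (Y ^ (1 / 4 : ℝ)) ^ l ≤ (p : ℝ) ^ l := by
          apply pow_le_pow_left₀ (by positivity)
          exact (Real.rpow_le_rpow_of_exponent_le hY (by norm_num)).trans hpbig
      _ ≤ ((w.2 : ℕ) : ℝ) := by
          have : p ^ l ≤ w.2 := by
            rw [e]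
            exact Nat.le_mul_of_pos_right _ (Nat.pos_of_ne_zero hn')
          exact_mod_cast this
      _ ≤ ((⌊Y ^ K⌋₊ : ℕ) : ℝ) := by exact_mod_cast h4
      _ ≤ Y ^ K := Nat.floor_le (Real.rpow_nonneg hY0.le _)
  rw [← Real.rpow_natCast (Y ^ (1 / 4 : ℝ)) l, ← Real.rpow_mul hY0.le, Real.rpow_le_rpow_left_iff hY1] at h10
  rw [hL]
  have h11 : (l : ℝ) ≤ 4 * K := by linarith
  exact Nat.lt_succ_of_le (Nat.le_floor h11)

theorem few3_small1 (K c : ℝ) (hK : 1 ≤ K) (hc : 0 < c) : Few3 K (fun Y w => (rd w.1.natAbs : ℝ) ≤ Y ^ (1 / 2 - c)) :=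
  few3_of_N2 K (fun Y w => (rd w.1 : ℝ) ≤ Y ^ (1 / 2 - c)) (fun s =>
    fewN_small _ _ (mul_ne_zero (by norm_num) (Th.sg_ne _)) (Th.sg_ne _) K c hK hc)

theorem few3_small2 (K c : ℝ) (hK : 1 ≤ K) (hc : 0 < c) : Few3 K (fun Y w => (rd w.2.natAbs : ℝ) ≤ Y ^ (1 / 2 - c)) :=
  few3_of_N1 K (fun Y w => (rd w.1 : ℝ) ≤ Y ^ (1 / 2 - c)) (fun s =>
    fewN_small _ _ (Th.sg_ne _) (mul_ne_zero (by norm_num) (Th.sg_ne _)) K c hK hc)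

end T3

end Pool.Agent.Lib.MP_d8bd92_nt
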