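import Pool.Agent.Lib.MP_d8bd92_nt.T3.TypeA2
import Pool.Agent.Lib.MP_d8bd92_nt.T3.U9

set_option autoImplicit false

/-! Phase 3: pairs with a side of type (a). -/

namespace Pool.Agent.Lib.MP_d8bd92_nt

namespace T3

theorem few3_A1 (K : ℝ) (hK : 1 ≤ K) (e : ℕ) (he : 1 ≤ e) : ∃ σ : ℝ, 0 < σ ∧ Few3 K (fun Y w => IsA σ e Y w.1) :=
  few3_A1_of K hK e he (fun c hc => few3_small1 K c hK hc) (fun c hc => few3_small2 K c hK hc)

theorem few3_A2 (K : ℝ) (hK : 1 ≤ K) (e : ℕ) (he : 1 ≤ e) : ∃ σ : ℝ, 0 < σ ∧ Few3 K (fun Y w => IsA σ e Y w.2) :=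
  few3_A2_of K hK e he (fun c hc => few3_small1 K c hK hc) (fun c hc => few3_small2 K c hK hc)

end T3

end Pool.Agent.Lib.MP_d8bd92_nt
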