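import Pool.Agent.Lib.MP_d8bd92_nt.T3.U10

set_option autoImplicit false

/-!
Phase 3: the types (a) and (b).
-/

namespace Pool.Agent.Lib.MP_d8bd92_nt

namespace T3

open Finset Pool.Agent.Lib.Szpiro

/-- a number without unitary divisors of intermediate radical, with radical about `Y ^ (1/2)`, has one or two large primes -/
theorem classify (η κ Y : ℝ) (hη : 0 < η) (hη1 : η ≤ 1 / 40) (hκ1 : κ ≤ 1 / 40) (hY : 1 < Y)
    (hlarge : 3 * Y ^ η < Y ^ (1 / 2 - κ)) (n : ℕ) (hn : n ≠ 0) (hlo : Y ^ (1 / 2 - κ) ≤ (rd n : ℝ))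
    (hhi : (rd n : ℝ) ≤ Y ^ (1 / 2 + κ)) (hU : ¬ HasU η Y n) :
    (∃ w p a : ℕ, n = w * p ^ a ∧ p.Prime ∧ 1 ≤ a ∧ Nat.Coprime w p ∧ (rd w : ℝ) ≤ 3 * Y ^ η ∧ Y ^ (1 / 4 - 2 * η) ≤ (p : ℝ)) ∨
    (∃ w p q a b : ℕ, n = w * p ^ a * q ^ b ∧ p.Prime ∧ q.Prime ∧ p ≠ q ∧ 1 ≤ a ∧ 1 ≤ b ∧ Nat.Coprime w p ∧ Nat.Coprime w q ∧
      (rd w : ℝ) ≤ 3 * Y ^ η ∧ Y ^ (1 / 4 - 2 * η) ≤ (p : ℝ) ∧ (p : ℝ) ≤ Y ^ (1 / 4 + 2 * η + κ) ∧
      Y ^ (1 / 4 - 2 * η) ≤ (q : ℝ) ∧ (q : ℝ) ≤ Y ^ (1 / 4 + 2 * η + κ)) := by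
  classical
  have hY0 : 0 < Y := by linarith
  have hYη : 1 < Y ^ η := Real.one_lt_rpow hY hη
  obtain ⟨j, n0, h3n0, e0⟩ := Nat.exists_eq_pow_mul_and_not_dvd hn 3 (by norm_num)
  have hn0 : n0 ≠ 0 := by
    rintro rfl
    rw [mul_zero] at e0
    exact hn e0
  have hc3 : Nat.Coprime 3 n0 := (Nat.Prime.coprime_iff_not_dvd Nat.prime_three).mpr h3n0
  -- unitary divisors of `n0`
  have hun : ∀ u v : ℕ, n0 = u * v → Nat.Coprime u v → (rd u : ℝ) < Y ^ η ∨ Y ^ (1 / 4 - η) < (rd u : ℝ) := by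
    intro u v huv hcuv
    by_contra hcon
    push Not at hcon
    apply hU
    have hu3 : Nat.Coprime u 3 := (Nat.Coprime.coprime_dvd_right (by rw [huv]; exact dvd_mul_right _ _) hc3).symm
    refine ⟨u, 3 ^ j * v, ?_, ?_, hu3, hcon.1, hcon.2⟩
    · rw [e0, huv]; ring
    · exact Nat.Coprime.mul_right (Nat.Coprime.pow_right _ hu3) hcuv
  -- the dust: a unitary divisor with radical `< Y ^ η`, maximal
  set F : Finset ℕ := n0.divisors.filter (fun d => Nat.Coprime d (n0 / d) ∧ (rd d : ℝ) < Y ^ η) with hF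
  have h1F : 1 ∈ F := by
    rw [hF, mem_filter, Nat.mem_divisors]
    refine ⟨⟨one_dvd _, hn0⟩, Nat.coprime_one_left _, ?_⟩
    rw [rd_one, Nat.cast_one]
    exact hYη
  obtain ⟨D, hDF, hmax⟩ := F.exists_max_image (fun d => rd d) ⟨1, h1F⟩
  rw [hF, mem_filter, Nat.mem_divisors] at hDF
  obtain ⟨⟨hDn, _⟩, hcop, hDη⟩ := hDF
  obtain ⟨M, hM⟩ := hDn
  have hD0 : D ≠ 0 := by
    rintro rfl
    rw [zero_mul] at hM
    exact hn0 hM
  have hM0 : M ≠ 0 := by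
    rintro rfl
    rw [mul_zero] at hM
    exact hn0 hM
  have hdiv : n0 / D = M := by
    rw [hM]
    exact Nat.mul_div_cancel_left _ (Nat.pos_of_ne_zero hD0)
  rw [hdiv] at hcop
  have hDr : (0 : ℝ) < rd D := by exact_mod_cast rd_pos D
  -- primes of `M` are large
  have hbig : ∀ p : ℕ, p.Prime → p ∣ M → Y ^ (1 / 4 - 2 * η) ≤ (p : ℝ) := by
    intro p hp hpM
    obtain ⟨l, M2, hl, e2, hc2, hM20⟩ := ppart M p hM0 hp hpM
    have hdp : Nat.Coprime D p := Nat.Coprime.coprime_dvd_right hpM hcop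
    have hrd : rd (D * p ^ l) = rd D * p := by
      rw [rd_mul_coprime D (p ^ l) hD0 (pow_ne_zero _ hp.ne_zero) (Nat.Coprime.pow_right _ hdp), rd_prime_pow p l hp (by omega)]
    have hcop2 : Nat.Coprime (D * p ^ l) M2 := by
      apply Nat.Coprime.mul_left
      · apply Nat.Coprime.coprime_dvd_right _ hcop
        rw [e2]
        exact dvd_mul_left _ _
      · exact Nat.Coprime.pow_left _ hc2
    have hnn : n0 = D * p ^ l * M2 := by rw [hM, e2]; ring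
    have hnot : ¬ (rd (D * p ^ l) : ℝ) < Y ^ η := by
      intro hcon
      have hmem : D * p ^ l ∈ F := by
        rw [hF, mem_filter, Nat.mem_divisors]
        have hdp0 : 0 < D * p ^ l := Nat.mul_pos (Nat.pos_of_ne_zero hD0) (pow_pos hp.pos _)
        refine ⟨⟨⟨M2, hnn⟩, hn0⟩, ?_, hcon⟩
        have : n0 / (D * p ^ l) = M2 := by
          rw [hnn]
          exact Nat.mul_div_cancel_left _ hdp0
        rw [this]
        exact hcop2
      have h3 := hmax _ hmem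
      rw [hrd] at h3
      have h4 : rd D * 2 ≤ rd D * p := Nat.mul_le_mul_left _ hp.two_le
      have h5 := rd_pos D
      omega
    have h6 := (hun _ _ hnn hcop2).resolve_left hnot
    rw [hrd] at h6
    push_cast at h6
    have h7 : Y ^ (1 / 4 - 2 * η) * Y ^ η ≤ (p : ℝ) * Y ^ η := by
      calc Y ^ (1 / 4 - 2 * η) * Y ^ η = Y ^ (1 / 4 - η) := by
            rw [← Real.rpow_add hY0]
            congr 1
            ring
        _ ≤ (rd D : ℝ) * p := h6.le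
        _ ≤ Y ^ η * p := by gcongr
        _ = (p : ℝ) * Y ^ η := mul_comm _ _
    exact le_of_mul_le_mul_right h7 (by positivity)
  -- the dust of `n`
  set w : ℕ := 3 ^ j * D with hw
  have hw0 : w ≠ 0 := mul_ne_zero (pow_ne_zero _ (by norm_num)) hD0
  have hrw : (rd w : ℝ) ≤ 3 * Y ^ η := by
    have h1 : rd w ≤ rd (3 ^ j) * rd D := rd_mul_le _ _ (pow_ne_zero _ (by norm_num)) hD0
    have h2 : rd (3 ^ j) ≤ 3 := by
      rcases Nat.eq_zero_or_pos j with h0 | h0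
      · rw [h0, pow_zero, rd_one]
        norm_num
      · rw [rd_prime_pow 3 j Nat.prime_three (by omega)]
    calc (rd w : ℝ) ≤ ((rd (3 ^ j) * rd D : ℕ) : ℝ) := by exact_mod_cast h1
      _ = (rd (3 ^ j) : ℝ) * rd D := by push_cast; ring
      _ ≤ 3 * Y ^ η := by
        gcongr
        exact_mod_cast h2
  have hnw : n = w * M := by rw [e0, hM, hw]; ring
  have hwM : Nat.Coprime w M := by
    apply Nat.Coprime.mul_left
    · apply Nat.Coprime.pow_left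
      exact Nat.Coprime.coprime_dvd_right (by rw [hM]; exact dvd_mul_left _ _) hc3
    · exact hcop
  have hrn : (rd n : ℝ) = rd w * rd M := by
    rw [hnw, rd_mul_coprime w M hw0 hM0 hwM]
    push_cast
    ring
  have hrw1 : (1 : ℝ) ≤ rd w := one_le_rd w
  have hM1 : M ≠ 1 := by
    rintro rfl
    rw [hrn, rd_one, Nat.cast_one, mul_one] at hlo
    linarith
  obtain ⟨p, hp, hpM⟩ := Nat.exists_prime_and_dvd hM1
  obtain ⟨a, M1, ha, e1, hc1, hM10⟩ := ppart M p hM0 hp hpM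
  have hpb := hbig p hp hpM
  have hwp : Nat.Coprime w p := Nat.Coprime.coprime_dvd_right hpM hwM
  have hrM : rd M = p * rd M1 := by
    rw [e1, rd_mul_coprime _ _ (pow_ne_zero _ hp.ne_zero) hM10 (Nat.Coprime.pow_left _ hc1), rd_prime_pow p a hp (by omega)]
  by_cases hM1' : M1 = 1
  · left
    exact ⟨w, p, a, by rw [hnw, e1, hM1', mul_one], hp, ha, hwp, hrw, hpb⟩
  right
  obtain ⟨q, hq, hqM⟩ := Nat.exists_prime_and_dvd hM1'
  obtain ⟨b, M2, hb, e2, hc2, hM20⟩ := ppart M1 q hM10 hq hqM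
  have hM1M : M1 ∣ M := by rw [e1]; exact dvd_mul_left _ _
  have hqb := hbig q hq (dvd_trans hqM hM1M)
  have hwq : Nat.Coprime w q := Nat.Coprime.coprime_dvd_right (dvd_trans hqM hM1M) hwM
  have hrM1 : rd M1 = q * rd M2 := by
    rw [e2, rd_mul_coprime _ _ (pow_ne_zero _ hq.ne_zero) hM20 (Nat.Coprime.pow_left _ hc2), rd_prime_pow q b hq (by omega)]
  have hpq : p ≠ q := by
    rintro rfl
    have h1 := Nat.dvd_gcd (dvd_refl p) hqM
    rw [hc1] at h1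
    exact hp.one_lt.ne' (Nat.dvd_one.mp h1)
  have hrM2 : (1 : ℝ) ≤ rd M2 := one_le_rd M2
  have hp0 : (0 : ℝ) < p := by exact_mod_cast hp.pos
  have hq0 : (0 : ℝ) < q := by exact_mod_cast hq.pos
  have hall : (rd n : ℝ) = rd w * (p * (q * rd M2)) := by
    rw [hrn, hrM, hrM1]
    push_cast
    ring
  have hpqn : (p : ℝ) * q ≤ Y ^ (1 / 2 + κ) := by
    refine le_trans ?_ hhi
    rw [hall]
    calc (p : ℝ) * q = 1 * (p * (q * 1)) := by ring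
      _ ≤ rd w * (p * (q * rd M2)) := by gcongr
  have hM2 : M2 = 1 := by
    by_contra hne
    obtain ⟨r, hr, hrM2'⟩ := Nat.exists_prime_and_dvd hne
    have hM2M : M2 ∣ M := dvd_trans (by rw [e2]; exact dvd_mul_left _ _) hM1M
    have hrb := hbig r hr (dvd_trans hrM2' hM2M)
    have hrr : r ≤ rd M2 := by
      have h1 : rd r ≤ rd M2 := rd_mono' hM20 (fun p' hp' h => dvd_trans h hrM2')
      have h2 : rd r = r := by
        have := rd_prime_pow r 1 hr (by norm_num)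
        rwa [pow_one] at this
      omega
    have hrr' : (r : ℝ) ≤ rd M2 := by exact_mod_cast hrr
    have h1 : Y ^ (1 / 4 - 2 * η) * (Y ^ (1 / 4 - 2 * η) * Y ^ (1 / 4 - 2 * η)) ≤ Y ^ (1 / 2 + κ) := by
      refine le_trans ?_ hhi
      rw [hall]
      calc Y ^ (1 / 4 - 2 * η) * (Y ^ (1 / 4 - 2 * η) * Y ^ (1 / 4 - 2 * η)) ≤ (p : ℝ) * (q * r) := by gcongr
        _ = 1 * (p * (q * r)) := by ring
        _ ≤ rd w * (p * (q * rd M2)) := by gcongr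
    rw [← Real.rpow_add hY0, ← Real.rpow_add hY0, Real.rpow_le_rpow_left_iff hY] at h1
    linarith
  have hup : ∀ x y : ℝ, 0 < x → Y ^ (1 / 4 - 2 * η) ≤ y → x * y ≤ Y ^ (1 / 2 + κ) → x ≤ Y ^ (1 / 4 + 2 * η + κ) := by
    intro x y hx hy hxy
    have h1 : x * Y ^ (1 / 4 - 2 * η) ≤ Y ^ (1 / 4 + 2 * η + κ) * Y ^ (1 / 4 - 2 * η) := by
      calc x * Y ^ (1 / 4 - 2 * η) ≤ x * y := by gcongr
        _ ≤ Y ^ (1 / 2 + κ) := hxy
        _ = Y ^ (1 / 4 + 2 * η + κ) * Y ^ (1 / 4 - 2 * η) := by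
          rw [← Real.rpow_add hY0]
          congr 1
          ring
    exact le_of_mul_le_mul_right h1 (by positivity)
  refine ⟨w, p, q, a, b, ?_, hp, hq, hpq, ha, hb, hwp, hwq, hrw, hpb, hup p q hp0 hqb hpqn, hqb,
    hup q p hq0 hpb (by rw [mul_comm]; exact hpqn)⟩
  rw [hnw, e1, e2, hM2]
  ring

/-- exponents of large primes are bounded -/
theorem exp_le (Y K : ℝ) (hY : 1 < Y) (n p a : ℕ) (hn : n ≠ 0) (h : p ^ a ∣ n) (hnK : (n : ℝ) ≤ Y ^ K)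
    (hp : Y ^ (1 / 8 : ℝ) ≤ (p : ℝ)) : (a : ℝ) ≤ 8 * K := by
  have hY0 : 0 < Y := by linarith
  have h10 : (Y ^ (1 / 8 : ℝ)) ^ a ≤ Y ^ K := by
    calc (Y ^ (1 / 8 : ℝ)) ^ a ≤ (p : ℝ) ^ a := pow_le_pow_left₀ (by positivity) hp _
      _ ≤ (n : ℝ) := by exact_mod_cast Nat.le_of_dvd (Nat.pos_of_ne_zero hn) h
      _ ≤ Y ^ K := hnK
  rw [← Real.rpow_natCast (Y ^ (1 / 8 : ℝ)) a, ← Real.rpow_mul hY0.le, Real.rpow_le_rpow_left_iff hY] at h10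
  linarith

/-- the type of one side -/
theorem side_type (σ K Y : ℝ) (hσ : 0 < σ) (hY : 1 < Y) (h3 : 3 ≤ Y ^ (σ / 2))
    (hlarge : 3 * Y ^ (min (σ / 8) (1 / 40)) < Y ^ (1 / 2 - (min (σ / 8) (1 / 40)) / 4)) (x : ℤ) (hx : x ≠ 0)
    (hxK : (x.natAbs : ℝ) ≤ Y ^ K) (hlo : Y ^ (1 / 2 - (min (σ / 8) (1 / 40)) / 4) ≤ (rd x.natAbs : ℝ))
    (hhi : (rd x.natAbs : ℝ) ≤ Y ^ (1 / 2 + (min (σ / 8) (1 / 40)) / 4)) (hU : ¬ HasU (min (σ / 8) (1 / 40)) Y x.natAbs) :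
    (∃ e : ℕ, 1 ≤ e ∧ (e : ℝ) ≤ 8 * K ∧ IsA σ e Y x) ∨ ∃ a b : ℕ, 1 ≤ b ∧ b < a ∧ (a : ℝ) ≤ 8 * K ∧ IsB σ a b Y x := by
  set η : ℝ := min (σ / 8) (1 / 40) with hη
  have hη0 : 0 < η := lt_min (by positivity) (by norm_num)
  have hησ : η ≤ σ / 8 := min_le_left _ _
  have hη1 : η ≤ 1 / 40 := min_le_right _ _
  have hY0 : 0 < Y := by linarith
  have hn : x.natAbs ≠ 0 := Int.natAbs_ne_zero.mpr hx
  have hdust : ∀ w : ℕ, (rd w : ℝ) ≤ 3 * Y ^ η → (rd w : ℝ) ≤ Y ^ σ := by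
    intro w hw
    calc (rd w : ℝ) ≤ 3 * Y ^ η := hw
      _ ≤ Y ^ (σ / 2) * Y ^ η := by gcongr
      _ = Y ^ (σ / 2 + η) := (Real.rpow_add hY0 _ _).symm
      _ ≤ Y ^ σ := Real.rpow_le_rpow_of_exponent_le hY.le (by linarith)
  have hp8 : ∀ p : ℕ, Y ^ (1 / 4 - 2 * η) ≤ (p : ℝ) → Y ^ (1 / 8 : ℝ) ≤ (p : ℝ) := fun p hp =>
    (Real.rpow_le_rpow_of_exponent_le hY.le (by linarith)).trans hp
  rcases classify η (η / 4) Y hη0 hη1 (by linarith) hY hlarge x.natAbs hn hlo hhi hU with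
    ⟨w, p, a, e, hp, ha, hc, hrw, hpb⟩ | ⟨w, p, q, a, b, e, hp, hq, hpq, ha, hb, hwp, hwq, hrw, p1, p2, q1, q2⟩
  · left
    refine ⟨a, ha, exp_le Y K hY x.natAbs p a hn (by rw [e]; exact dvd_mul_left _ _) hxK (hp8 p hpb), w, p, e, hc, hp.squarefree,
      hdust w hrw⟩
  · have hea : (a : ℝ) ≤ 8 * K := exp_le Y K hY x.natAbs p a hn (by
      rw [e]
      exact Dvd.dvd.mul_right (dvd_mul_left _ _) _) hxK (hp8 p p1)
    have heb : (b : ℝ) ≤ 8 * K := exp_le Y K hY x.natAbs q b hn (by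
      rw [e]
      exact dvd_mul_left _ _) hxK (hp8 q q1)
    have hlo' : ∀ r : ℕ, Y ^ (1 / 4 - 2 * η) ≤ (r : ℝ) → Y ^ (1 / 4 - σ) ≤ (r : ℝ) := fun r hr =>
      (Real.rpow_le_rpow_of_exponent_le hY.le (by linarith)).trans hr
    have hhi' : ∀ r : ℕ, (r : ℝ) ≤ Y ^ (1 / 4 + 2 * η + η / 4) → (r : ℝ) ≤ Y ^ (1 / 4 + σ) := fun r hr =>
      hr.trans (Real.rpow_le_rpow_of_exponent_le hY.le (by linarith))
    rcases lt_trichotomy a b with hab | hab | hab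
    · right
      exact ⟨b, a, ha, hab, heb, w, q, p, by rw [e]; ring, hq, hp, hpq.symm, hwq, hwp, hdust w hrw, hlo' q q1, hhi' q q2,
        hlo' p p1, hhi' p p2⟩
    · left
      refine ⟨a, ha, hea, w, p * q, ?_, Nat.Coprime.mul_right hwp hwq, ?_, hdust w hrw⟩
      · rw [e, ← hab, mul_pow]
        ring
      · rw [Nat.squarefree_mul_iff]
        exact ⟨(Nat.coprime_primes hp hq).mpr hpq, hp.squarefree, hq.squarefree⟩
    · right
      exact ⟨a, b, hb, hab, hea, w, p, q, e, hp, hq, hpq, hwp, hwq, hdust w hrw, hlo' p p1, hhi' p p2, hlo' q q1, hhi' q q2⟩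

theorem large_rpow (c a : ℝ) (ha : 0 < a) : ∃ Y0 : ℝ, 1 < Y0 ∧ ∀ Y : ℝ, Y0 ≤ Y → c < Y ^ a := by
  refine ⟨(max c 1 + 1) ^ (1 / a), Real.one_lt_rpow (by linarith [le_max_right c 1]) (by positivity), fun Y hY => ?_⟩
  have h0 : (0 : ℝ) ≤ max c 1 + 1 := by linarith [le_max_right c 1]
  have h2 : ((max c 1 + 1) ^ (1 / a)) ^ a = max c 1 + 1 := by
    rw [← Real.rpow_mul h0, one_div_mul_cancel ha.ne', Real.rpow_one]
  calc c < max c 1 + 1 := by linarith [le_max_left c 1]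
    _ = ((max c 1 + 1) ^ (1 / a)) ^ a := h2.symm
    _ ≤ Y ^ a := Real.rpow_le_rpow (Real.rpow_nonneg h0 _) hY ha.le

/-- every pair outside a sparse set has a side of type (a) or both sides of type (b), with exponents at most `8 K` -/
theorem t3_types (K : ℝ) (hK : 1 ≤ K) (σ : ℝ) (hσ : 0 < σ) : Few3 K (fun Y w =>
    ¬ ((∃ e : ℕ, 1 ≤ e ∧ (e : ℝ) ≤ 8 * K ∧ (IsA σ e Y w.1 ∨ IsA σ e Y w.2)) ∨
      ∃ a b e f : ℕ, 1 ≤ b ∧ b < a ∧ (a : ℝ) ≤ 8 * K ∧ 1 ≤ f ∧ f < e ∧ (e : ℝ) ≤ 8 * K ∧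
        IsB σ a b Y w.1 ∧ IsB σ e f Y w.2)) := by
  set η : ℝ := min (σ / 8) (1 / 40) with hη
  have hη0 : 0 < η := lt_min (by positivity) (by norm_num)
  have hη1 : η ≤ 1 / 40 := min_le_right _ _
  obtain ⟨Y1, hY1, hl1⟩ := large_rpow 3 (σ / 2) (by positivity)
  obtain ⟨Y2, hY2, hl2⟩ := large_rpow 3 (1 / 2 - η / 4 - η) (by linarith)
  apply few3_large K _ _ (max Y1 Y2) (few3_or K _ _ (few3_small1 K (η / 4) hK (by positivity)) (few3_or K _ _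
    (few3_small2 K (η / 4) hK (by positivity)) (few3_or K _ _ (few3_U1 K η (η / 4) hK hη0 le_rfl)
    (few3_U2 K η (η / 4) hK hη0 le_rfl))))
  intro Y w hY hYY hw hnot
  have hYgt : 1 < Y := lt_of_lt_of_le hY1 ((le_max_left _ _).trans hYY)
  have hY0 : 0 < Y := by linarith
  have h3 : 3 ≤ Y ^ (σ / 2) := (hl1 Y ((le_max_left _ _).trans hYY)).le
  have hlarge : 3 * Y ^ η < Y ^ (1 / 2 - η / 4) := by
    have h4 := hl2 Y ((le_max_right _ _).trans hYY)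
    calc 3 * Y ^ η < Y ^ (1 / 2 - η / 4 - η) * Y ^ η := by gcongr
      _ = Y ^ (1 / 2 - η / 4) := by
        rw [← Real.rpow_add hY0]
        congr 1
        ring
  by_contra hcon
  push Not at hcon
  obtain ⟨hs1, hs2, hu1, hu2⟩ := hcon
  apply hnot
  obtain ⟨hx0, hy0, _, _, hr, hxK, hyK⟩ := hw
  have hup : ∀ x y : ℝ, 0 ≤ x → Y ^ (1 / 2 - η / 4) < y → x * y ≤ Y → x ≤ Y ^ (1 / 2 + η / 4) := by
    intro x y hx hy hxy
    have h1 : x * Y ^ (1 / 2 - η / 4) ≤ Y ^ (1 / 2 + η / 4) * Y ^ (1 / 2 - η / 4) := by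
      calc x * Y ^ (1 / 2 - η / 4) ≤ x * y := by gcongr
        _ ≤ Y := hxy
        _ = Y ^ (1 / 2 + η / 4) * Y ^ (1 / 2 - η / 4) := by
          rw [← Real.rpow_add hY0]
          nth_rewrite 1 [← Real.rpow_one Y]
          congr 1
          ring
    exact le_of_mul_le_mul_right h1 (by positivity)
  have hh1 : (rd w.1.natAbs : ℝ) ≤ Y ^ (1 / 2 + η / 4) := hup _ _ (Nat.cast_nonneg _) hs2 hr
  have hh2 : (rd w.2.natAbs : ℝ) ≤ Y ^ (1 / 2 + η / 4) := hup _ _ (Nat.cast_nonneg _) hs1 (by rw [mul_comm]; exact hr)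
  have t1 := side_type σ K Y hσ hYgt h3 hlarge w.1 hx0 hxK hs1.le hh1 (hu1 hs2.le hh2)
  have t2 := side_type σ K Y hσ hYgt h3 hlarge w.2 hy0 hyK hs2.le hh2 (hu2 hs1.le hh1)
  rcases t1 with ⟨e, e1, e2, e3⟩ | ⟨a, b, b1, b2, b3, b4⟩
  · exact Or.inl ⟨e, e1, e2, Or.inl e3⟩
  · rcases t2 with ⟨e, e1, e2, e3⟩ | ⟨a', b', b1', b2', b3', b4'⟩
    · exact Or.inl ⟨e, e1, e2, Or.inr e3⟩
    · exact Or.inr ⟨a, b, a', b', b1, b2, b3, b1', b2', b3', b4, b4'⟩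

end T3

end Pool.Agent.Lib.MP_d8bd92_nt
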