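import Pool.Agent.Lib.MP_d8bd92_nt.T3.FewBasic
import Pool.Agent.Lib.MP_d8bd92_nt.T3.TypeA3
import Pool.Agent.Lib.MP_d8bd92_nt.T3.U11

set_option autoImplicit false

/-! Phase 3: all pairs of `PairSet3`. -/

namespace Pool.Agent.Lib.MP_d8bd92_nt

namespace T3

open Finset Pool.Agent.Lib.Szpiro Hp

/-- all pairs, from the block `few3_BB` -/
theorem few3_all_of (few3_BB : ∀ (K : ℝ), 1 ≤ K → ∀ (a b e f : ℕ), 1 ≤ b → b < a → 1 ≤ f → f < e →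
    ∃ σ : ℝ, 0 < σ ∧ Few3 K (fun Y w => IsB σ a b Y w.1 ∧ IsB σ e f Y w.2)) (K : ℝ) (hK : 1 ≤ K) :
    Few3 K (fun _ _ => True) := by
  classical
  obtain ⟨N, hN⟩ : ∃ N : ℕ, N = ⌊8 * K⌋₊ := ⟨_, rfl⟩
  have hle : ∀ e : ℕ, (e : ℝ) ≤ 8 * K → e < N + 1 := by
    intro e he
    rw [hN]
    have := Nat.le_floor he
    omega
  -- the constants
  have hA : ∀ e : Fin (N + 1), ∃ σ : ℝ, 0 < σ ∧ (1 ≤ e.val → Few3 K (fun Y w => IsA σ e.val Y w.1) ∧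
      Few3 K (fun Y w => IsA σ e.val Y w.2)) := by
    intro e
    by_cases he : 1 ≤ e.val
    · obtain ⟨s1, h1, h1'⟩ := few3_A1 K hK e.val he
      obtain ⟨s2, h2, h2'⟩ := few3_A2 K hK e.val he
      refine ⟨min s1 s2, lt_min h1 h2, fun _ => ⟨?_, ?_⟩⟩
      · exact few3_mono K _ _ (fun Y w hY _ hq => isA_mono _ _ (min_le_left _ _) _ _ hY _ hq) h1'
      · exact few3_mono K _ _ (fun Y w hY _ hq => isA_mono _ _ (min_le_right _ _) _ _ hY _ hq) h2'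
    · exact ⟨1, one_pos, fun h => absurd h he⟩
  choose sA hA0 hA1 using hA
  have hB : ∀ t : (Fin (N + 1) × Fin (N + 1)) × (Fin (N + 1) × Fin (N + 1)), ∃ σ : ℝ, 0 < σ ∧
      (1 ≤ t.1.2.val → t.1.2.val < t.1.1.val → 1 ≤ t.2.2.val → t.2.2.val < t.2.1.val →
        Few3 K (fun Y w => IsB σ t.1.1.val t.1.2.val Y w.1 ∧ IsB σ t.2.1.val t.2.2.val Y w.2)) := by
    intro t
    by_cases ht : 1 ≤ t.1.2.val ∧ t.1.2.val < t.1.1.val ∧ 1 ≤ t.2.2.val ∧ t.2.2.val < t.2.1.val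
    · obtain ⟨h1, h2, h3, h4⟩ := ht
      obtain ⟨s, hs, hs'⟩ := few3_BB K hK t.1.1.val t.1.2.val t.2.1.val t.2.2.val h1 h2 h3 h4
      exact ⟨s, hs, fun _ _ _ _ => hs'⟩
    · exact ⟨1, one_pos, fun h1 h2 h3 h4 => absurd ⟨h1, h2, h3, h4⟩ ht⟩
  choose sB hB0 hB1 using hB
  obtain ⟨σ1, hσ1, hσ1'⟩ := exists_min_pos sA hA0
  obtain ⟨σ2, hσ2, hσ2'⟩ := exists_min_pos sB hB0
  obtain ⟨σ, hσ⟩ : ∃ σ : ℝ, σ = min σ1 σ2 := ⟨_, rfl⟩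
  have hσ0 : 0 < σ := by rw [hσ]; exact lt_min hσ1 hσ2
  have hσ1l : σ ≤ σ1 := by rw [hσ]; exact min_le_left _ _
  have hσ2l : σ ≤ σ2 := by rw [hσ]; exact min_le_right _ _
  -- the parts
  have pA := few3_finset K (Finset.univ.filter (fun e : Fin (N + 1) => 1 ≤ e.val))
    (fun e Y w => IsA (sA e) e.val Y w.1 ∨ IsA (sA e) e.val Y w.2) (fun e he => by
      rw [Finset.mem_filter] at he
      exact few3_or K _ _ (hA1 e he.2).1 (hA1 e he.2).2)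
  have pB := few3_finset K (Finset.univ.filter (fun t : (Fin (N + 1) × Fin (N + 1)) × (Fin (N + 1) × Fin (N + 1)) =>
      1 ≤ t.1.2.val ∧ t.1.2.val < t.1.1.val ∧ 1 ≤ t.2.2.val ∧ t.2.2.val < t.2.1.val))
    (fun t Y w => IsB (sB t) t.1.1.val t.1.2.val Y w.1 ∧ IsB (sB t) t.2.1.val t.2.2.val Y w.2) (fun t ht => by
      rw [Finset.mem_filter] at ht
      obtain ⟨_, h1, h2, h3, h4⟩ := ht
      exact hB1 t h1 h2 h3 h4)
  have pT := t3_types K hK σ hσ0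
  apply few3_mono K _ _ _ (few3_or K _ _ pT (few3_or K _ _ pA pB))
  intro Y w hY hw _
  by_cases h : ((∃ e : ℕ, 1 ≤ e ∧ (e : ℝ) ≤ 8 * K ∧ (IsA σ e Y w.1 ∨ IsA σ e Y w.2)) ∨
      ∃ a b e f : ℕ, 1 ≤ b ∧ b < a ∧ (a : ℝ) ≤ 8 * K ∧ 1 ≤ f ∧ f < e ∧ (e : ℝ) ≤ 8 * K ∧
        IsB σ a b Y w.1 ∧ IsB σ e f Y w.2)
  · right
    rcases h with ⟨e, h1, h2, h3⟩ | ⟨a, b, e, f, h1, h2, h3, h4, h5, h6, h7, h8⟩
    · left
      refine ⟨⟨e, hle e h2⟩, ?_, ?_⟩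
      · rw [Finset.mem_filter]
        exact ⟨Finset.mem_univ _, h1⟩
      · rcases h3 with h3 | h3
        · exact Or.inl (isA_mono _ _ (hσ1l.trans (hσ1' _)) _ _ hY _ h3)
        · exact Or.inr (isA_mono _ _ (hσ1l.trans (hσ1' _)) _ _ hY _ h3)
    · right
      have ha := hle a h3
      have he := hle e h6
      refine ⟨((⟨a, ha⟩, ⟨b, by omega⟩), (⟨e, he⟩, ⟨f, by omega⟩)), ?_, ?_, ?_⟩
      · rw [Finset.mem_filter]
        exact ⟨Finset.mem_univ _, h1, h2, h4, h5⟩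
      · exact isB_mono _ _ (hσ2l.trans (hσ2' _)) _ _ _ hY _ h7
      · exact isB_mono _ _ (hσ2l.trans (hσ2' _)) _ _ _ hY _ h8
  · exact Or.inl h

end T3

end Pool.Agent.Lib.MP_d8bd92_nt
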