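import Pool.Agent.Lib.MP_d8bd92_nt.T3.FewBasic
import Pool.Agent.Lib.MP_d8bd92_nt.T3.BpCube
import Pool.Agent.Lib.MP_d8bd92_nt.Hp.AlJ
import Pool.Agent.Lib.MP_d8bd92_nt.Hp.Sm1
import Pool.Agent.Lib.MP_d8bd92_nt.Hp.FPa

set_option autoImplicit false

/-! Phase 3: pairs with a side of type (a). -/

namespace Pool.Agent.Lib.MP_d8bd92_nt

namespace T3

open Finset Pool.Agent.Lib.Szpiro Hp

/-- integers with bounded radical -/
theorem card_rd_int (ε : ℝ) (hε : 0 < ε) : ∃ C : ℝ, 0 < C ∧ ∀ (Z X : ℝ) (S : Finset ℤ), 1 ≤ Z → 1 ≤ X →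
    (∀ n ∈ S, n ≠ 0 ∧ (n.natAbs : ℝ) ≤ Z ∧ (rd n.natAbs : ℝ) ≤ X) → (S.card : ℝ) ≤ C * Z ^ ε * X := by
  classical
  obtain ⟨C, hC, h⟩ := card_rad_le ε hε
  refine ⟨2 * C, by positivity, fun Z X S hZ hX hS => ?_⟩
  have h1 : S.card ≤ 2 * (S.image Int.natAbs).card := by
    apply Finset.card_le_mul_card_image
    intro b _
    have hsub : (S.filter (fun x => x.natAbs = b)) ⊆ {(b : ℤ), -(b : ℤ)} := by
      intro x hx
      rw [Finset.mem_filter] at hx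
      rw [Finset.mem_insert, Finset.mem_singleton]
      have := hx.2
      omega
    exact (Finset.card_le_card hsub).trans Finset.card_le_two
  have h2 := h Z X (S.image Int.natAbs) hZ hX (fun n hn => by
    rw [Finset.mem_image] at hn
    obtain ⟨x, hx, rfl⟩ := hn
    obtain ⟨k1, k2, k3⟩ := hS x hx
    exact ⟨Int.natAbs_pos.2 k1, k2, k3⟩)
  have h3 : (S.card : ℝ) ≤ 2 * ((S.image Int.natAbs).card : ℝ) := by exact_mod_cast h1
  calc (S.card : ℝ) ≤ 2 * ((S.image Int.natAbs).card : ℝ) := h3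
    _ ≤ 2 * (C * Z ^ ε * X) := by linarith
    _ = _ := by ring

theorem natAbs_le27 (β : ℤ) (hβ : β = 1 ∨ β = 27) (n : ℤ) (Z : ℝ) (hZ : 0 ≤ Z) (h : (n.natAbs : ℝ) ≤ Z) :
    ((β * n).natAbs : ℝ) ≤ 27 * Z := by
  rw [Int.natAbs_mul]
  rcases hβ with rfl | rfl
  · rw [show (1 : ℤ).natAbs = 1 from rfl, Nat.one_mul]
    linarith
  · rw [show (27 : ℤ).natAbs = 27 from rfl, Nat.cast_mul]
    push_cast at h ⊢
    linarith

/-- CORE: `α q1 + β q2 = z^3`, `|q2| = w T^e` -/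
theorem typeA_core (α β : ℤ) (hα : α = 1 ∨ α = 27) (hβ : β = 1 ∨ β = 27) (e : ℕ) (he : 1 ≤ e) (ε : ℝ) (hε : 0 < ε) :
    ∃ C : ℝ, 0 < C ∧ ∀ (Z RC W N : ℝ) (E : Finset (ℤ × ℤ)), 1 ≤ Z → 1 ≤ RC → 1 ≤ W → 1 ≤ N →
    (∀ q ∈ E, q.1 ≠ 0 ∧ q.2 ≠ 0 ∧ (q.1.natAbs : ℝ) ≤ Z ∧ (q.2.natAbs : ℝ) ≤ Z ∧ (rd q.1.natAbs : ℝ) ≤ RC ∧
      (∃ z : ℤ, α * q.1 + β * q.2 = z ^ 3) ∧
      ∃ w T : ℕ, q.2.natAbs = w * T ^ e ∧ (rd w : ℝ) ≤ W ∧ (T : ℝ) ≤ N) →
    (E.card : ℝ) ≤ C * Z ^ ε * (RC * W * N ^ (1 / 3 : ℝ)) := by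
  classical
  obtain ⟨C1, hC1, h1⟩ := card_rd_int (ε / 3) (by positivity)
  obtain ⟨C2, hC2, h2⟩ := card_rad_le (ε / 3) (by positivity)
  obtain ⟨C3, hC3, h3⟩ := bp_cube_third e he (ε / 3) (by positivity)
  refine ⟨C1 * (C2 * 3) * (C3 * 27 ^ (ε / 3)), by positivity, ?_⟩
  intro Z RC W N E hZ hRC hW hN hE
  have hZ0 : 0 < Z := by linarith
  have hN0 : 0 < N := by linarith
  have hα0 : α ≠ 0 := by rcases hα with rfl | rfl <;> norm_num
  have hβ0 : β ≠ 0 := by rcases hβ with rfl | rfl <;> norm_num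
  -- the choice of `w`, `T`
  have hch : ∀ q : ℤ × ℤ, ∃ wT : ℕ × ℕ, q ∈ E → (q.2.natAbs = wT.1 * wT.2 ^ e ∧ (rd wT.1 : ℝ) ≤ W ∧ (wT.2 : ℝ) ≤ N) := by
    intro q
    by_cases hq : q ∈ E
    · obtain ⟨_, _, _, _, _, _, w, T, h⟩ := hE q hq
      exact ⟨(w, T), fun _ => h⟩
    · exact ⟨(0, 0), fun h => absurd h hq⟩
  choose wT hwT using hch
  have hpos : ∀ q ∈ E, 1 ≤ (wT q).1 ∧ 1 ≤ (wT q).2 := by
    intro q hq
    have hk := (hwT q hq).1
    have h0 : q.2.natAbs ≠ 0 := Int.natAbs_ne_zero.2 (hE q hq).2.1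
    refine ⟨Nat.one_le_iff_ne_zero.2 ?_, Nat.one_le_iff_ne_zero.2 ?_⟩
    · intro h
      rw [h, zero_mul] at hk
      exact h0 hk
    · intro h
      rw [h, zero_pow (by omega), mul_zero] at hk
      exact h0 hk
  -- the map
  obtain ⟨φ, hφ⟩ : ∃ φ : ℤ × ℤ → ℤ × (ℕ × ℤ), φ = fun q => (q.1, ((wT q).1, q.2.sign)) := ⟨_, rfl⟩
  -- the image
  have himg : ((E.image φ).card : ℝ) ≤ (C1 * Z ^ (ε / 3) * RC) * ((C2 * Z ^ (ε / 3) * W) * 3) := by
    have hsub : E.image φ ⊆ (E.image (fun q => q.1)) ×ˢ ((E.image (fun q => (wT q).1)) ×ˢ ({-1, 0, 1} : Finset ℤ)) := by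
      intro x hx
      rw [Finset.mem_image] at hx
      obtain ⟨q, hq, rfl⟩ := hx
      rw [hφ, Finset.mem_product, Finset.mem_product]
      refine ⟨Finset.mem_image_of_mem _ hq, Finset.mem_image_of_mem _ hq, ?_⟩
      simp only [Finset.mem_insert, Finset.mem_singleton]
      rcases lt_trichotomy q.2 0 with h | h | h
      · left; exact Int.sign_eq_neg_one_of_neg h
      · right; left; rw [h]; rfl
      · right; right; exact Int.sign_eq_one_of_pos h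
    have hc1 : ((E.image (fun q => q.1)).card : ℝ) ≤ C1 * Z ^ (ε / 3) * RC := by
      apply h1 Z RC _ hZ hRC
      intro n hn
      rw [Finset.mem_image] at hn
      obtain ⟨q, hq, rfl⟩ := hn
      obtain ⟨k1, _, k3, _, k5, _⟩ := hE q hq
      exact ⟨k1, k3, k5⟩
    have hc2 : ((E.image (fun q => (wT q).1)).card : ℝ) ≤ C2 * Z ^ (ε / 3) * W := by
      apply h2 Z W _ hZ hW
      intro n hn
      rw [Finset.mem_image] at hn
      obtain ⟨q, hq, rfl⟩ := hn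
      obtain ⟨_, _, _, k4, _, _⟩ := hE q hq
      obtain ⟨m1, m2, m3⟩ := hwT q hq
      refine ⟨(hpos q hq).1, ?_, m2⟩
      refine le_trans ?_ k4
      rw [m1]
      exact_mod_cast Nat.le_mul_of_pos_right _ (pow_pos (hpos q hq).2 e)
    have hcard := Finset.card_le_card hsub
    rw [Finset.card_product, Finset.card_product] at hcard
    have h3c : (({-1, 0, 1} : Finset ℤ)).card ≤ 3 := Finset.card_le_three
    have hcard' : ((E.image φ).card : ℝ) ≤ ((E.image (fun q => q.1)).card : ℝ) *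
        (((E.image (fun q => (wT q).1)).card : ℝ) * (({-1, 0, 1} : Finset ℤ).card : ℝ)) := by exact_mod_cast hcard
    have h3r : ((({-1, 0, 1} : Finset ℤ)).card : ℝ) ≤ 3 := by exact_mod_cast h3c
    refine hcard'.trans ?_
    apply mul_le_mul hc1 _ (by positivity) (by positivity)
    apply mul_le_mul hc2 h3r (by positivity) (by positivity)
  -- the fibres
  have hfib : ∀ y ∈ E.image φ, ((E.filter (fun q => φ q = y)).card : ℝ) ≤ C3 * (27 * Z) ^ (ε / 3) * N ^ (1 / 3 : ℝ) := by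
    intro y hy
    rw [Finset.mem_image] at hy
    obtain ⟨q0, hq0, rfl⟩ := hy
    obtain ⟨F, hF⟩ : ∃ F : Finset (ℤ × ℤ), F = E.filter (fun q => φ q = φ q0) := ⟨_, rfl⟩
    rw [← hF]
    have hmem : ∀ q ∈ F, q ∈ E ∧ q.1 = q0.1 ∧ (wT q).1 = (wT q0).1 ∧ q.2.sign = q0.2.sign := by
      intro q hq
      rw [hF, Finset.mem_filter, hφ] at hq
      obtain ⟨m1, m2⟩ := hq
      simp only [Prod.mk.injEq] at m2
      exact ⟨m1, m2.1, m2.2.1, m2.2.2⟩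
    have hform : ∀ q ∈ F, q.2 = q0.2.sign * ((wT q0).1 : ℤ) * ((wT q).2 : ℤ) ^ e := by
      intro q hq
      obtain ⟨m1, m2, m3, m4⟩ := hmem q hq
      have k1 := (hwT q m1).1
      rw [m3] at k1
      have k2 : q.2 = q.2.sign * (q.2.natAbs : ℤ) := (Int.sign_mul_natAbs q.2).symm
      rw [k2, m4, k1]
      push_cast
      rw [mul_assoc]
    have hinj : Set.InjOn (fun q => (wT q).2) (F : Set (ℤ × ℤ)) := by
      intro q hq q' hq' hh
      have k1 := hform q (by exact_mod_cast hq)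
      have k2 := hform q' (by exact_mod_cast hq')
      have hh' : (wT q).2 = (wT q').2 := hh
      rw [hh'] at k1
      apply Prod.ext
      · rw [(hmem q (by exact_mod_cast hq)).2.1, (hmem q' (by exact_mod_cast hq')).2.1]
      · rw [k1, k2]
    rw [← Finset.card_image_of_injOn hinj]
    have h27 : (1 : ℝ) ≤ 27 * Z := by linarith
    have hs0 : q0.2.sign ≠ 0 := by
      rw [Ne, Int.sign_eq_zero_iff_zero]
      exact (hE q0 hq0).2.1
    have hw0 : ((wT q0).1 : ℤ) ≠ 0 := by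
      have := (hpos q0 hq0).1
      positivity
    apply h3 (27 * Z) N (α * q0.1) (β * (q0.2.sign * ((wT q0).1 : ℤ))) _ h27 hN
      (mul_ne_zero hα0 (hE q0 hq0).1) (mul_ne_zero hβ0 (mul_ne_zero hs0 hw0))
    · exact natAbs_le27 α hα _ Z hZ0.le (hE q0 hq0).2.2.1
    · intro T hT
      rw [Finset.mem_image] at hT
      obtain ⟨q, hq, rfl⟩ := hT
      obtain ⟨m1, m2, m3, m4⟩ := hmem q hq
      have hval : β * (q0.2.sign * ((wT q0).1 : ℤ)) * ((wT q).2 : ℤ) ^ e = β * q.2 := by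
        rw [hform q hq]
        ring
      refine ⟨(hpos q m1).2, (hwT q m1).2.2, ?_, ?_⟩
      · rw [hval]
        exact natAbs_le27 β hβ _ Z hZ0.le (hE q m1).2.2.2.1
      · obtain ⟨_, _, _, _, _, ⟨z, hz⟩, _⟩ := hE q m1
        refine ⟨z, ?_⟩
        rw [hval, ← m2]
        exact hz
  -- the conclusion
  have hsum : (E.card : ℝ) = ∑ y ∈ E.image φ, ((E.filter (fun q => φ q = y)).card : ℝ) := by
    rw [← Nat.cast_sum]
    exact_mod_cast Finset.card_eq_sum_card_image φ E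
  have hle : (E.card : ℝ) ≤ ((E.image φ).card : ℝ) * (C3 * (27 * Z) ^ (ε / 3) * N ^ (1 / 3 : ℝ)) := by
    rw [hsum]
    calc _ ≤ ∑ _y ∈ E.image φ, (C3 * (27 * Z) ^ (ε / 3) * N ^ (1 / 3 : ℝ)) := Finset.sum_le_sum hfib
      _ = _ := by rw [Finset.sum_const, nsmul_eq_mul]
  have h27z : (27 * Z) ^ (ε / 3) = 27 ^ (ε / 3) * Z ^ (ε / 3) := Real.mul_rpow (by norm_num) hZ0.le
  have hZ3 : Z ^ (ε / 3) * Z ^ (ε / 3) * Z ^ (ε / 3) = Z ^ ε := by
    rw [← Real.rpow_add hZ0, ← Real.rpow_add hZ0]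
    congr 1
    ring
  have hR0 : 0 ≤ C3 * (27 * Z) ^ (ε / 3) * N ^ (1 / 3 : ℝ) := by positivity
  calc (E.card : ℝ) ≤ ((E.image φ).card : ℝ) * (C3 * (27 * Z) ^ (ε / 3) * N ^ (1 / 3 : ℝ)) := hle
    _ ≤ ((C1 * Z ^ (ε / 3) * RC) * ((C2 * Z ^ (ε / 3) * W) * 3)) * (C3 * (27 * Z) ^ (ε / 3) * N ^ (1 / 3 : ℝ)) :=
        mul_le_mul_of_nonneg_right himg hR0
    _ = C1 * (C2 * 3) * (C3 * 27 ^ (ε / 3)) * (Z ^ (ε / 3) * Z ^ (ε / 3) * Z ^ (ε / 3)) * (RC * W * N ^ (1 / 3 : ℝ)) := by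
        rw [h27z]
        ring
    _ = _ := by rw [hZ3]

end T3

end Pool.Agent.Lib.MP_d8bd92_nt
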