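import Pool.Agent.Lib.MP_d8bd92_nt.T3.TypeA

set_option autoImplicit false

/-! Phase 3: pairs with a side of type (a), second part. -/

namespace Pool.Agent.Lib.MP_d8bd92_nt

namespace T3

open Finset Pool.Agent.Lib.Szpiro Hp

/-- the common form of the two cases: `q` one of `(x, y)`, `(y, x)` -/
theorem few3_A_swap (K : ℝ) (hK : 1 ≤ K) (e : ℕ) (he : 1 ≤ e)
    (hs1 : ∀ c : ℝ, 0 < c → Few3 K (fun Y w => (rd w.1.natAbs : ℝ) ≤ Y ^ (1 / 2 - c)))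
    (hs2 : ∀ c : ℝ, 0 < c → Few3 K (fun Y w => (rd w.2.natAbs : ℝ) ≤ Y ^ (1 / 2 - c)))
    (α β : ℤ) (hα : α = 1 ∨ α = 27) (hβ : β = 1 ∨ β = 27) (sw : ℤ × ℤ → ℤ × ℤ) (hinj : Function.Injective sw)
    (hsw : ∀ w, α * (sw w).1 + β * (sw w).2 = 27 * w.1 + w.2)
    (hcase : ∀ w, ((sw w).1 = w.1 ∧ (sw w).2 = w.2) ∨ ((sw w).1 = w.2 ∧ (sw w).2 = w.1)) :
    Few3 K (fun Y w => IsA (1 / 100) e Y (sw w).2) := by
  classical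
  have hK0 : 0 < K := by linarith
  obtain ⟨C, hC, h⟩ := typeA_core α β hα hβ e he (1 / (100 * K)) (by positivity)
  apply few3_mono K (fun Y w => ((rd w.1.natAbs : ℝ) ≤ Y ^ (1 / 2 - 1 / 100 : ℝ) ∨ (rd w.2.natAbs : ℝ) ≤ Y ^ (1 / 2 - 1 / 100 : ℝ)) ∨
    (IsA (1 / 100) e Y (sw w).2 ∧ Y ^ (1 / 2 - 1 / 100 : ℝ) < (rd w.1.natAbs : ℝ) ∧ Y ^ (1 / 2 - 1 / 100 : ℝ) < (rd w.2.natAbs : ℝ))) _
    (fun Y w _ _ hq => by
      by_cases g1 : (rd w.1.natAbs : ℝ) ≤ Y ^ (1 / 2 - 1 / 100 : ℝ)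
      · exact Or.inl (Or.inl g1)
      · by_cases g2 : (rd w.2.natAbs : ℝ) ≤ Y ^ (1 / 2 - 1 / 100 : ℝ)
        · exact Or.inl (Or.inr g2)
        · exact Or.inr ⟨hq, not_le.1 g1, not_le.1 g2⟩)
  apply few3_or K _ _ (few3_or K _ _ (hs1 _ (by norm_num)) (hs2 _ (by norm_num)))
  refine ⟨C, 3 / 4 - (1 / 2 + 1 / 100 + 1 / 100 + (1 / 2 + 1 / 100) / 3 + 1 / 100), hC, by norm_num, ?_⟩
  intro Y hY P hP
  have hY0 : 0 < Y := by linarith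
  have hrad : ∀ w ∈ P, (rd (sw w).1.natAbs : ℝ) ≤ Y ^ (1 / 2 + 1 / 100 : ℝ) ∧ (rd (sw w).2.natAbs : ℝ) ≤ Y ^ (1 / 2 + 1 / 100 : ℝ) := by
    intro w hw
    obtain ⟨⟨_, _, _, _, hr, _, _⟩, _, g1, g2⟩ := hP w hw
    have hm : Y ^ (1 / 2 - 1 / 100 : ℝ) * Y ^ (1 / 2 + 1 / 100 : ℝ) = Y := by
      rw [← Real.rpow_add hY0]
      norm_num
    have hp : 0 < Y ^ (1 / 2 - 1 / 100 : ℝ) := by positivity
    have k1 : (rd w.1.natAbs : ℝ) ≤ Y ^ (1 / 2 + 1 / 100 : ℝ) := by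
      by_contra hc
      rw [not_le] at hc
      have := mul_lt_mul'' hc g2 (by positivity) hp.le
      rw [mul_comm (Y ^ (1 / 2 + 1 / 100 : ℝ)), hm] at this
      linarith
    have k2 : (rd w.2.natAbs : ℝ) ≤ Y ^ (1 / 2 + 1 / 100 : ℝ) := by
      by_contra hc
      rw [not_le] at hc
      have := mul_lt_mul'' g1 hc hp.le (by positivity)
      rw [hm] at this
      linarith
    rcases hcase w with ⟨c1, c2⟩ | ⟨c1, c2⟩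
    · rw [c1, c2]; exact ⟨k1, k2⟩
    · rw [c1, c2]; exact ⟨k2, k1⟩
  have hmain := h (Y ^ K) (Y ^ (1 / 2 + 1 / 100 : ℝ)) (Y ^ (1 / 100 : ℝ)) (Y ^ (1 / 2 + 1 / 100 : ℝ)) (P.image sw)
    (Real.one_le_rpow hY hK0.le) (Real.one_le_rpow hY (by norm_num)) (Real.one_le_rpow hY (by norm_num))
    (Real.one_le_rpow hY (by norm_num)) (by
      intro q hq
      rw [Finset.mem_image] at hq
      obtain ⟨w, hw, rfl⟩ := hq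
      obtain ⟨⟨p1, p2, _, ⟨z, hz⟩, hr, p6, p7⟩, hA, g1, g2⟩ := hP w hw
      obtain ⟨r1, r2⟩ := hrad w hw
      have hb : (sw w).1 ≠ 0 ∧ (sw w).2 ≠ 0 ∧ ((sw w).1.natAbs : ℝ) ≤ Y ^ K ∧ ((sw w).2.natAbs : ℝ) ≤ Y ^ K := by
        rcases hcase w with ⟨c1, c2⟩ | ⟨c1, c2⟩
        · rw [c1, c2]; exact ⟨p1, p2, p6, p7⟩
        · rw [c1, c2]; exact ⟨p2, p1, p7, p6⟩
      refine ⟨hb.1, hb.2.1, hb.2.2.1, hb.2.2.2, r1, ⟨z, by rw [hsw, hz]⟩, ?_⟩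
      obtain ⟨u, T, a1, a2, a3, a4⟩ := hA
      refine ⟨u, T, a1, a4, ?_⟩
      have hdvd : T ∣ (sw w).2.natAbs := by
        rw [a1]
        exact Dvd.dvd.mul_left (dvd_pow_self T (by omega)) u
      have h1 : rd T ≤ rd (sw w).2.natAbs := rd_dvd_le (Int.natAbs_ne_zero.2 hb.2.1) hdvd
      rw [rd_sq a3] at h1
      have h2 : (T : ℝ) ≤ (rd (sw w).2.natAbs : ℝ) := by exact_mod_cast h1
      exact h2.trans r2)
  rw [Finset.card_image_of_injective _ hinj] at hmain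
  refine hmain.trans ?_
  apply le_of_eq
  have e1 : (Y ^ K) ^ (1 / (100 * K)) = Y ^ (1 / 100 : ℝ) := by
    rw [← Real.rpow_mul hY0.le]
    congr 1
    field_simp
  have e2 : (Y ^ (1 / 2 + 1 / 100 : ℝ)) ^ (1 / 3 : ℝ) = Y ^ ((1 / 2 + 1 / 100) / 3 : ℝ) := by
    rw [← Real.rpow_mul hY0.le]
    congr 1
    ring
  rw [e1, e2, mul_assoc, ← Real.rpow_add hY0, ← Real.rpow_add hY0, ← Real.rpow_add hY0]
  congr 2
  norm_num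

theorem few3_A1_of (K : ℝ) (hK : 1 ≤ K) (e : ℕ) (he : 1 ≤ e)
    (hs1 : ∀ c : ℝ, 0 < c → Few3 K (fun Y w => (rd w.1.natAbs : ℝ) ≤ Y ^ (1 / 2 - c)))
    (hs2 : ∀ c : ℝ, 0 < c → Few3 K (fun Y w => (rd w.2.natAbs : ℝ) ≤ Y ^ (1 / 2 - c))) :
    ∃ σ : ℝ, 0 < σ ∧ Few3 K (fun Y w => IsA σ e Y w.1) :=
  ⟨1 / 100, by norm_num, few3_A_swap K hK e he hs1 hs2 1 27 (Or.inl rfl) (Or.inr rfl) Prod.swap Prod.swap_injective
    (fun w => by simp only [Prod.fst_swap, Prod.snd_swap]; ring) (fun w => Or.inr ⟨rfl, rfl⟩)⟩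

theorem few3_A2_of (K : ℝ) (hK : 1 ≤ K) (e : ℕ) (he : 1 ≤ e)
    (hs1 : ∀ c : ℝ, 0 < c → Few3 K (fun Y w => (rd w.1.natAbs : ℝ) ≤ Y ^ (1 / 2 - c)))
    (hs2 : ∀ c : ℝ, 0 < c → Few3 K (fun Y w => (rd w.2.natAbs : ℝ) ≤ Y ^ (1 / 2 - c))) :
    ∃ σ : ℝ, 0 < σ ∧ Few3 K (fun Y w => IsA σ e Y w.2) :=
  ⟨1 / 100, by norm_num, few3_A_swap K hK e he hs1 hs2 27 1 (Or.inr rfl) (Or.inl rfl) id Function.injective_id
    (fun w => by simp only [id]; ring) (fun w => Or.inl ⟨rfl, rfl⟩)⟩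

end T3

end Pool.Agent.Lib.MP_d8bd92_nt
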