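import Mathlib

set_option autoImplicit false

/-!
Phase 3, points of order 3: algebra of two cubes `z^3 - z'^3 = β u (v - v')`.
-/

namespace Pool.Agent.Lib.MP_d8bd92_nt

namespace T3

/-- `x^2 + x y + y^2` -/
def qf (x y : ℤ) : ℤ := x ^ 2 + x * y + y ^ 2

theorem qf_four (x y : ℤ) : 4 * qf x y = 3 * (x + y) ^ 2 + (x - y) ^ 2 := by unfold qf; ring

theorem qf_four' (x y : ℤ) : 4 * qf x y = (2 * x + y) ^ 2 + 3 * y ^ 2 := by unfold qf; ring

theorem qf_pos {x y : ℤ} (h : x ≠ y) : 0 < qf x y := by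
  have h1 := qf_four x y
  have h2 : 0 < (x - y) ^ 2 := by
    have : x - y ≠ 0 := sub_ne_zero.mpr h
    positivity
  have h3 := sq_nonneg (x + y)
  linarith

theorem qf_odd {x y : ℤ} (h : IsCoprime x y) : Odd (qf x y) := by
  rw [← Int.not_even_iff_odd]
  intro he
  have h2 : ¬ (2 ∣ x ∧ 2 ∣ y) := by
    rintro ⟨h3, h4⟩
    have h5 := h.isUnit_of_dvd' h3 h4
    rw [Int.isUnit_iff] at h5
    omega
  unfold qf at he
  rcases Int.even_or_odd x with hx | hx <;> rcases Int.even_or_odd y with hy | hy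
  · exact h2 ⟨hx.two_dvd, hy.two_dvd⟩
  · have h6 : Odd (x ^ 2 + x * y + y ^ 2) := by
      have := (hx.mul_right x)
      rw [← sq] at this
      exact ((this.add (hx.mul_right y)).add_odd (hy.pow))
    exact (Int.not_even_iff_odd.mpr h6) he
  · have h6 : Odd (x ^ 2 + x * y + y ^ 2) := by
      have := (hy.mul_right y)
      rw [← sq] at this
      exact ((hx.pow (n := 2)).add_even (hy.mul_left x)).add_even this
    exact (Int.not_even_iff_odd.mpr h6) he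
  · have h6 : Odd (x ^ 2 + x * y + y ^ 2) :=
      ((hx.pow (n := 2)).add_odd (hx.mul hy)).add_odd (hy.pow (n := 2))
    exact (Int.not_even_iff_odd.mpr h6) he

theorem qf_nine {x y : ℤ} (h : IsCoprime x y) : ¬ (9 : ℤ) ∣ qf x y := by
  intro h9
  have h1 := qf_four x y
  have h3p : Prime (3 : ℤ) := Int.prime_three
  have h2 : (3 : ℤ) ∣ (x - y) ^ 2 := by
    have : (x - y) ^ 2 = 4 * qf x y - 3 * (x + y) ^ 2 := by linarith
    rw [this]
    exact dvd_sub (Dvd.dvd.mul_left (dvd_trans (by norm_num) h9) _) (dvd_mul_right _ _)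
  have h3 : (3 : ℤ) ∣ x - y := h3p.dvd_of_dvd_pow h2
  have h4 : (9 : ℤ) ∣ (x - y) ^ 2 := by
    obtain ⟨k, hk⟩ := h3
    exact ⟨k ^ 2, by rw [hk]; ring⟩
  have h5 : (9 : ℤ) ∣ 3 * (x + y) ^ 2 := by
    have : 3 * (x + y) ^ 2 = 4 * qf x y - (x - y) ^ 2 := by linarith
    rw [this]
    exact dvd_sub (Dvd.dvd.mul_left h9 _) h4
  have h6 : (3 : ℤ) ∣ (x + y) ^ 2 := by
    obtain ⟨k, hk⟩ := h5
    exact ⟨k, by linarith⟩
  have h7 : (3 : ℤ) ∣ x + y := h3p.dvd_of_dvd_pow h6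
  have h8 : (3 : ℤ) ∣ x := by omega
  have h9' : (3 : ℤ) ∣ y := by omega
  have h10 := h.isUnit_of_dvd' h8 h9'
  rw [Int.isUnit_iff] at h10
  omega

/-- for odd `A` prime to 3 dividing `qf x y` -/
theorem qf_cop {x y : ℤ} (h : IsCoprime x y) {A : ℕ} (hA : (A : ℤ) ∣ qf x y) (h3 : Nat.Coprime A 3) :
    IsCoprime (x + y) (A : ℤ) ∧ IsCoprime (x - y) (A : ℤ) ∧ (A : ℤ) ∣ 3 * (x + y) ^ 2 + (x - y) ^ 2 ∧ Odd A := by
  have hodd : Odd A := by
    have h1 := qf_odd h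
    rw [← Nat.not_even_iff_odd]
    intro he
    have h2 : (2 : ℤ) ∣ qf x y := dvd_trans (by exact_mod_cast he.two_dvd) hA
    exact (Int.not_even_iff_odd.mpr h1) (even_iff_two_dvd.mpr h2)
  have hd : (A : ℤ) ∣ 3 * (x + y) ^ 2 + (x - y) ^ 2 := by
    rw [← qf_four]
    exact Dvd.dvd.mul_left hA _
  have hkey : ∀ p : ℕ, p.Prime → (p : ℤ) ∣ (A : ℤ) → ((p : ℤ) ∣ x + y ∨ (p : ℤ) ∣ x - y) → False := by
    intro p hp hpA hor
    have hpZ : Prime (p : ℤ) := Nat.prime_iff_prime_int.mp hp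
    have hpA' : p ∣ A := by exact_mod_cast hpA
    have hp2 : p ≠ 2 := by
      rintro rfl
      exact (Nat.not_even_iff_odd.mpr hodd) (even_iff_two_dvd.mpr hpA')
    have hp3 : p ≠ 3 := by
      rintro rfl
      have := Nat.dvd_gcd hpA' (dvd_refl 3)
      rw [h3] at this
      omega
    have hn2 : ¬ (p : ℤ) ∣ 2 := by
      intro h2
      have : p ∣ 2 := by exact_mod_cast h2
      exact hp2 ((Nat.prime_dvd_prime_iff_eq hp Nat.prime_two).mp this)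
    have hn3 : ¬ (p : ℤ) ∣ 3 := by
      intro h2
      have : p ∣ 3 := by exact_mod_cast h2
      exact hp3 ((Nat.prime_dvd_prime_iff_eq hp Nat.prime_three).mp this)
    have hpd := dvd_trans hpA hd
    have hboth : (p : ℤ) ∣ x + y ∧ (p : ℤ) ∣ x - y := by
      rcases hor with h1 | h1
      · refine ⟨h1, ?_⟩
        have h2 : (p : ℤ) ∣ (x - y) ^ 2 := by
          have e : (x - y) ^ 2 = (3 * (x + y) ^ 2 + (x - y) ^ 2) - 3 * (x + y) * (x + y) := by ring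
          rw [e]
          exact dvd_sub hpd (Dvd.dvd.mul_left h1 _)
        exact hpZ.dvd_of_dvd_pow h2
      · refine ⟨?_, h1⟩
        have h2 : (p : ℤ) ∣ 3 * (x + y) ^ 2 := by
          have e : 3 * (x + y) ^ 2 = (3 * (x + y) ^ 2 + (x - y) ^ 2) - (x - y) * (x - y) := by ring
          rw [e]
          exact dvd_sub hpd (Dvd.dvd.mul_left h1 _)
        rcases hpZ.dvd_or_dvd h2 with h4 | h4
        · exact absurd h4 hn3
        · exact hpZ.dvd_of_dvd_pow h4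
    have hx : (p : ℤ) ∣ x := by
      have h1 : (p : ℤ) ∣ 2 * x := by
        have : 2 * x = (x + y) + (x - y) := by ring
        rw [this]
        exact dvd_add hboth.1 hboth.2
      rcases hpZ.dvd_or_dvd h1 with h4 | h4
      · exact absurd h4 hn2
      · exact h4
    have hy : (p : ℤ) ∣ y := by
      have : y = (x + y) - x := by ring
      rw [this]
      exact dvd_sub hboth.1 hx
    exact hpZ.not_isUnit (h.isUnit_of_dvd' hx hy)
  have hcop : ∀ t : ℤ, (∀ p : ℕ, p.Prime → (p : ℤ) ∣ (A : ℤ) → (p : ℤ) ∣ t → False) → IsCoprime t (A : ℤ) := by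
    intro t ht
    rw [Int.isCoprime_iff_gcd_eq_one]
    by_contra hne
    obtain ⟨p, hp, hpd⟩ := Nat.exists_prime_and_dvd hne
    have h1 : (p : ℤ) ∣ ((Int.gcd t (A : ℤ) : ℕ) : ℤ) := by exact_mod_cast hpd
    exact ht p hp (dvd_trans h1 (Int.gcd_dvd_right _ _)) (dvd_trans h1 (Int.gcd_dvd_left _ _))
  exact ⟨hcop _ (fun p hp h1 h2 => hkey p hp h1 (Or.inl h2)), hcop _ (fun p hp h1 h2 => hkey p hp h1 (Or.inr h2)), hd, hodd⟩

/-- the part of `N` prime to 3, when `9` does not divide `N` -/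
def p3 (N : ℕ) : ℕ := N / Nat.gcd N 3

theorem p3_spec {N : ℕ} (hN : 1 ≤ N) (h9 : ¬ 9 ∣ N) : p3 N ∣ N ∧ Nat.Coprime (p3 N) 3 ∧ N ≤ 3 * p3 N ∧ 1 ≤ p3 N := by
  unfold p3
  have hdiv : Nat.gcd N 3 ∣ N := Nat.gcd_dvd_left _ _
  have h13 : Nat.gcd N 3 = 1 ∨ Nat.gcd N 3 = 3 := (Nat.dvd_prime Nat.prime_three).mp (Nat.gcd_dvd_right _ _)
  rcases h13 with h | h
  · rw [h, Nat.div_one]
    exact ⟨dvd_refl _, h, by omega, hN⟩
  · rw [h] at hdiv
    obtain ⟨k, hk⟩ := hdiv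
    have hk0 : N / 3 = k := by omega
    rw [h, hk0]
    refine ⟨⟨3, by omega⟩, ?_, by omega, by omega⟩
    rw [Nat.coprime_comm, Nat.Prime.coprime_iff_not_dvd Nat.prime_three]
    rintro ⟨j, hj⟩
    exact h9 ⟨j, by omega⟩

/-- the data of two cubes in the same class -/
theorem alg_data (α β : ℤ) (m u v v' : ℕ) (z z' : ℤ) (hcop : IsCoprime (α * (m : ℤ)) ((u * v : ℕ) : ℤ)) (h3 : Nat.Coprime u 3)
    (hu : 1 ≤ u) (h : α * (m : ℤ) + β * ((u * v : ℕ) : ℤ) = z ^ 3)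
    (h' : α * (m : ℤ) + β * ((u * v' : ℕ) : ℤ) = z' ^ 3) (hne : z ≠ z') :
    ∃ (g : ℕ) (z1 z1' d0 e0 : ℤ) (u1 u2 : ℕ), 1 ≤ g ∧ z = g * z1 ∧ z' = g * z1' ∧ IsCoprime z1 z1' ∧
      IsCoprime (g : ℤ) (u : ℤ) ∧ u = u1 * u2 ∧ Nat.Coprime u1 u2 ∧ z1 - z1' = d0 * u1 ∧ qf z1 z1' = e0 * u2 ∧
      (g : ℤ) ^ 3 * (d0 * e0) = β * ((v : ℤ) - v') ∧ IsCoprime z (u : ℤ) := by
  have hcu : IsCoprime (α * (m : ℤ)) (u : ℤ) := by
    apply IsCoprime.of_isCoprime_of_dvd_right hcop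
    push_cast
    exact dvd_mul_right _ _
  have hzu : IsCoprime z (u : ℤ) := by
    have h1 : IsCoprime (z ^ 3) (u : ℤ) := by
      rw [← h]
      have e : α * (m : ℤ) + β * ((u * v : ℕ) : ℤ) = α * (m : ℤ) + (u : ℤ) * (β * v) := by push_cast; ring
      rw [e]
      exact IsCoprime.add_mul_left_left hcu _
    exact (IsCoprime.pow_left_iff (by norm_num)).mp h1
  have hg0 : 0 < Int.gcd z z' := by
    rw [Int.gcd_pos_iff]
    by_contra hcon
    push Not at hcon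
    exact hne (hcon.1.trans hcon.2.symm)
  obtain ⟨z1, z1', hc, e1, e2⟩ := Int.exists_gcd_one hg0
  set g : ℕ := Int.gcd z z' with hg
  have hgz : (g : ℤ) ∣ z := Int.gcd_dvd_left _ _
  have hgu : IsCoprime (g : ℤ) (u : ℤ) := IsCoprime.of_isCoprime_of_dvd_left hzu hgz
  have hgpos : (0 : ℤ) < g := by exact_mod_cast hg0
  have hc1 : IsCoprime z1 z1' := Int.isCoprime_iff_gcd_eq_one.mpr hc
  have hdiff : β * (u : ℤ) * ((v : ℤ) - v') = (g : ℤ) ^ 3 * (z1 ^ 3 - z1' ^ 3) := by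
    have h5 : β * (u : ℤ) * ((v : ℤ) - v') = z ^ 3 - z' ^ 3 := by
      rw [← h, ← h']
      push_cast
      ring
    rw [h5, e1, e2]
    ring
  have hg3 : (g : ℤ) ^ 3 ∣ β * ((v : ℤ) - v') := by
    have h6 : (g : ℤ) ^ 3 ∣ (u : ℤ) * (β * ((v : ℤ) - v')) := by
      refine ⟨z1 ^ 3 - z1' ^ 3, ?_⟩
      rw [← hdiff]
      ring
    exact (IsCoprime.pow_left hgu).dvd_of_dvd_mul_left h6
  obtain ⟨D1, hD1⟩ := hg3
  have huD : (u : ℤ) * D1 = (z1 - z1') * qf z1 z1' := by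
    have h7 : (g : ℤ) ^ 3 * ((u : ℤ) * D1) = (g : ℤ) ^ 3 * ((z1 - z1') * qf z1 z1') := by
      calc (g : ℤ) ^ 3 * ((u : ℤ) * D1) = (u : ℤ) * ((g : ℤ) ^ 3 * D1) := by ring
        _ = (u : ℤ) * (β * ((v : ℤ) - v')) := by rw [← hD1]
        _ = β * (u : ℤ) * ((v : ℤ) - v') := by ring
        _ = (g : ℤ) ^ 3 * (z1 ^ 3 - z1' ^ 3) := hdiff
        _ = (g : ℤ) ^ 3 * ((z1 - z1') * qf z1 z1') := by unfold qf; ring
    exact mul_left_cancel₀ (by positivity) h7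
  -- split
  have hu0 : 0 < Int.gcd (u : ℤ) (z1 - z1') := by
    rw [Int.gcd_pos_iff]
    left
    exact_mod_cast (by omega : u ≠ 0)
  obtain ⟨w2, d0, hc2, f1, f2⟩ := Int.exists_gcd_one hu0
  set u1 : ℕ := Int.gcd (u : ℤ) (z1 - z1') with hu1
  have hu1pos : (0 : ℤ) < u1 := by exact_mod_cast hu0
  have hw2 : 0 < w2 := by
    have h8 : (0 : ℤ) < w2 * u1 := by rw [← f1]; exact_mod_cast hu
    exact pos_of_mul_pos_left h8 hu1pos.le
  obtain ⟨u2, hu2⟩ : ∃ u2 : ℕ, w2 = u2 := ⟨w2.toNat, (Int.toNat_of_nonneg hw2.le).symm⟩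
  rw [hu2] at f1 hc2
  have huu : u = u1 * u2 := by
    have : (u : ℤ) = (u1 : ℤ) * u2 := by rw [f1]; ring
    exact_mod_cast this
  have h9 : (u2 : ℤ) * D1 = d0 * qf z1 z1' := by
    have h10 : (u1 : ℤ) * ((u2 : ℤ) * D1) = (u1 : ℤ) * (d0 * qf z1 z1') := by
      calc (u1 : ℤ) * ((u2 : ℤ) * D1) = (u : ℤ) * D1 := by rw [huu]; push_cast; ring
        _ = (z1 - z1') * qf z1 z1' := huD
        _ = (u1 : ℤ) * (d0 * qf z1 z1') := by rw [f2]; ring
    exact mul_left_cancel₀ hu1pos.ne' h10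
  have hu2d : IsCoprime (u2 : ℤ) d0 := Int.isCoprime_iff_gcd_eq_one.mpr hc2
  have hu2Q : (u2 : ℤ) ∣ qf z1 z1' := hu2d.dvd_of_dvd_mul_left ⟨D1, h9.symm⟩
  obtain ⟨e0, he0⟩ := hu2Q
  have hu20 : (u2 : ℤ) ≠ 0 := by rw [← hu2]; exact hw2.ne'
  have h11 : D1 = d0 * e0 := by
    rw [he0] at h9
    have : (u2 : ℤ) * D1 = (u2 : ℤ) * (d0 * e0) := by rw [h9]; ring
    exact mul_left_cancel₀ hu20 this
  have hcop12 : Nat.Coprime u1 u2 := by
    rw [Nat.coprime_iff_gcd_eq_one]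
    by_contra hne1
    obtain ⟨p, hp, hpd⟩ := Nat.exists_prime_and_dvd hne1
    have hpZ : Prime (p : ℤ) := Nat.prime_iff_prime_int.mp hp
    have hp1 : p ∣ u1 := dvd_trans hpd (Nat.gcd_dvd_left _ _)
    have hp2 : p ∣ u2 := dvd_trans hpd (Nat.gcd_dvd_right _ _)
    have hpu : p ∣ u := by rw [huu]; exact Dvd.dvd.mul_right hp1 _
    have hp3 : ¬ (p : ℤ) ∣ 3 := by
      intro h2
      have h12 : p ∣ 3 := by exact_mod_cast h2
      have h13 := Nat.dvd_gcd hpu h12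
      rw [h3] at h13
      exact hp.one_lt.ne' (Nat.dvd_one.mp h13)
    have hpd1 : (p : ℤ) ∣ z1 - z1' := by
      rw [f2]
      exact Dvd.dvd.mul_left (by exact_mod_cast hp1) _
    have hpQ : (p : ℤ) ∣ qf z1 z1' := by
      rw [he0]
      exact Dvd.dvd.mul_right (by exact_mod_cast hp2) _
    have h14 : (p : ℤ) ∣ 3 * (z1 * z1') := by
      have e : 3 * (z1 * z1') = qf z1 z1' - (z1 - z1') * (z1 - z1') := by unfold qf; ring
      rw [e]
      exact dvd_sub hpQ (Dvd.dvd.mul_right hpd1 _)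
    have h15 : (p : ℤ) ∣ z1 * z1' := (hpZ.dvd_or_dvd h14).resolve_left hp3
    have h16 : (p : ℤ) ∣ z1 ∧ (p : ℤ) ∣ z1' := by
      rcases hpZ.dvd_or_dvd h15 with h17 | h17
      · refine ⟨h17, ?_⟩
        have : z1' = z1 - (z1 - z1') := by ring
        rw [this]
        exact dvd_sub h17 hpd1
      · refine ⟨?_, h17⟩
        have : z1 = (z1 - z1') + z1' := by ring
        rw [this]
        exact dvd_add hpd1 h17
    exact hpZ.not_isUnit (hc1.isUnit_of_dvd' h16.1 h16.2)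
  refine ⟨g, z1, z1', d0, e0, u1, u2, hg0, by rw [e1]; ring, by rw [e2]; ring, hc1, hgu, huu, hcop12, f2,
    by rw [he0]; ring, ?_, hzu⟩
  rw [hD1, h11]

end T3

end Pool.Agent.Lib.MP_d8bd92_nt
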