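import Pool.Agent.Lib.MP_d8bd92_nt.T3.U9

set_option autoImplicit false

/-!
Phase 3: pairs with a unitary divisor of intermediate radical are few.
-/

namespace Pool.Agent.Lib.MP_d8bd92_nt

namespace T3

open Finset Pool.Agent.Lib.Szpiro

/-- a unitary divisor prime to 3 with radical in `[Y ^ η, Y ^ (1/4 - η)]` -/
def HasU (η Y : ℝ) (n : ℕ) : Prop :=
  ∃ u v : ℕ, n = u * v ∧ Nat.Coprime u v ∧ Nat.Coprime u 3 ∧ Y ^ η ≤ (rd u : ℝ) ∧ (rd u : ℝ) ≤ Y ^ (1 / 4 - η)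

theorem u_num (Y x y z η κ : ℝ) (hY : 1 ≤ Y) (hx : Y ^ (1 / 2 - κ) ≤ x) (hy : Y ^ η ≤ y) (hz : 0 ≤ z) (hκ : κ ≤ η / 4)
    (hxyz : x * y * z ≤ 8 * Y) : √x * z * y ^ (3 / 4 : ℝ) ≤ 8 * Y ^ (3 / 4 - η / 8) := by
  have hY0 : 0 < Y := by linarith
  have hx0 : 0 < x := lt_of_lt_of_le (Real.rpow_pos_of_pos hY0 _) hx
  have hy0 : 0 < y := lt_of_lt_of_le (Real.rpow_pos_of_pos hY0 _) hy
  have h1 : Y ^ (1 / 4 + η / 8) ≤ √x * y ^ (1 / 4 : ℝ) := by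
    have a1 : Y ^ (1 / 4 - κ / 2) ≤ √x := by
      apply Real.le_sqrt_of_sq_le
      calc (Y ^ (1 / 4 - κ / 2)) ^ 2 = Y ^ (1 / 2 - κ) := by
            rw [← Real.rpow_natCast (Y ^ (1 / 4 - κ / 2)) 2, ← Real.rpow_mul hY0.le]
            congr 1
            push_cast
            ring
        _ ≤ x := hx
    have a2 : Y ^ (η / 4) ≤ y ^ (1 / 4 : ℝ) := by
      calc Y ^ (η / 4) = (Y ^ η) ^ (1 / 4 : ℝ) := by
            rw [← Real.rpow_mul hY0.le]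
            congr 1
            ring
        _ ≤ y ^ (1 / 4 : ℝ) := Real.rpow_le_rpow (by positivity) hy (by norm_num)
    calc Y ^ (1 / 4 + η / 8) ≤ Y ^ ((1 / 4 - κ / 2) + η / 4) := Real.rpow_le_rpow_of_exponent_le hY (by linarith)
      _ = Y ^ (1 / 4 - κ / 2) * Y ^ (η / 4) := Real.rpow_add hY0 _ _
      _ ≤ √x * y ^ (1 / 4 : ℝ) := by gcongr
  have h2 : (√x * z * y ^ (3 / 4 : ℝ)) * Y ^ (1 / 4 + η / 8) ≤ (8 * Y ^ (3 / 4 - η / 8)) * Y ^ (1 / 4 + η / 8) := by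
    calc (√x * z * y ^ (3 / 4 : ℝ)) * Y ^ (1 / 4 + η / 8) ≤ (√x * z * y ^ (3 / 4 : ℝ)) * (√x * y ^ (1 / 4 : ℝ)) := by gcongr
      _ = (√x * √x) * (y ^ (3 / 4 : ℝ) * y ^ (1 / 4 : ℝ)) * z := by ring
      _ = x * y * z := by
        rw [Real.mul_self_sqrt hx0.le, ← Real.rpow_add hy0]
        norm_num
      _ ≤ 8 * Y := hxyz
      _ = (8 * Y ^ (3 / 4 - η / 8)) * Y ^ (1 / 4 + η / 8) := by
        rw [mul_assoc, ← Real.rpow_add hY0]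
        nth_rewrite 1 [← Real.rpow_one Y]
        congr 2
        ring
  exact le_of_mul_le_mul_right h2 (by positivity)

theorem fewN_U (α β : ℤ) (hα : α ≠ 0) (hβ : β ≠ 0) (K η κ : ℝ) (hK : 1 ≤ K) (hη : 0 < η) (hκ : κ ≤ η / 4) :
    FewN α β K (fun Y w => Y ^ (1 / 2 - κ) ≤ (rd w.1 : ℝ) ∧ (rd w.1 : ℝ) ≤ Y ^ (1 / 2 + κ) ∧ HasU η Y w.2) := by
  classical
  apply fewN_of_bound α β K hK _ (3 / 4 - η / 16) (by linarith)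
  intro σ hσ
  obtain ⟨C, hC, hcount⟩ := unitary_count α β σ hσ
  obtain ⟨C2, hC2, hbox⟩ := Hp.box_count K (η / 48) (by linarith) (by positivity)
  refine ⟨12 * C * C2 ^ 3, by positivity, fun Y hY S hS => ?_⟩
  have hY0 : 0 < Y := by linarith
  have hZ1 := floor_one K Y (by linarith) hY
  set Z : ℕ := ⌊Y ^ K⌋₊ with hZ
  have hZR : (Z : ℝ) ≤ Y ^ K := Nat.floor_le (Real.rpow_nonneg hY0.le _)
  set L : ℕ := Nat.log 2 ⌊Y ^ K⌋₊ + 1 with hL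
  have hch : ∀ w : ℕ × ℕ, ∃ u v : ℕ, w ∈ S → (w.2 = u * v ∧ Nat.Coprime u v ∧ Nat.Coprime u 3 ∧ Y ^ η ≤ (rd u : ℝ) ∧
      (rd u : ℝ) ≤ Y ^ (1 / 4 - η)) := by
    intro w
    by_cases hw : w ∈ S
    · obtain ⟨_, _, _, u, v, h⟩ := hS w hw
      exact ⟨u, v, fun _ => h⟩
    · exact ⟨0, 0, fun h' => absurd h' hw⟩
  choose u v huv using hch
  have huv1 : ∀ w ∈ S, 1 ≤ u w ∧ 1 ≤ v w ∧ u w ≤ Z ∧ v w ≤ Z := by
    intro w hw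
    obtain ⟨⟨h1, h2, h3, h4, _⟩, _⟩ := hS w hw
    obtain ⟨e, _⟩ := huv w hw
    have hu0 : u w ≠ 0 := by
      intro h0
      rw [h0, zero_mul] at e
      omega
    have hv0 : v w ≠ 0 := by
      intro h0
      rw [h0, mul_zero] at e
      omega
    refine ⟨by omega, by omega, ?_, ?_⟩
    · calc u w ≤ u w * v w := Nat.le_mul_of_pos_right _ (by omega)
        _ ≤ Z := by omega
    · calc v w ≤ u w * v w := Nat.le_mul_of_pos_left _ (by omega)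
        _ ≤ Z := by omega
  have hrdZ : ∀ n : ℕ, 1 ≤ n → n ≤ Z → ((rd n : ℕ) : ℝ) ≤ Y ^ K := by
    intro n hn hnZ
    have h3 : rd n ≤ n := rd_le (by omega)
    exact le_trans (by exact_mod_cast h3.trans hnZ) hZR
  have hmaps : ∀ w ∈ S, (Nat.log 2 (rd w.1), Nat.log 2 (rd (u w)), Nat.log 2 (rd (v w))) ∈ range L ×ˢ range L ×ˢ range L := by
    intro w hw
    obtain ⟨⟨h1, h2, h3, h4, _⟩, _⟩ := hS w hw
    obtain ⟨k1, k2, k3, k4⟩ := huv1 w hw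
    rw [mem_product, mem_product, mem_range, mem_range, mem_range]
    exact ⟨(hbox Y hY _ (rd_pos _) (hrdZ _ h1 h2)).1, (hbox Y hY _ (rd_pos _) (hrdZ _ k1 k3)).1,
      (hbox Y hY _ (rd_pos _) (hrdZ _ k2 k4)).1⟩
  have hLle : (L : ℝ) ≤ C2 * Y ^ (η / 48) := (hbox Y hY 1 le_rfl (by
    rw [Nat.cast_one]
    exact Real.one_le_rpow hY (by linarith))).2
  set B : ℝ := 12 * C * (Z : ℝ) ^ σ * Y ^ (3 / 4 - η / 8) with hB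
  have hB0 : 0 ≤ B := by positivity
  have hfib : ∀ k ∈ range L ×ˢ range L ×ˢ range L,
      (S.filter (fun w => (Nat.log 2 (rd w.1), Nat.log 2 (rd (u w)), Nat.log 2 (rd (v w))) = k)).card ≤ ⌊B⌋₊ := by
    rintro ⟨k1, k2, k3⟩ _
    apply Nat.le_floor
    set F := S.filter (fun w => (Nat.log 2 (rd w.1), Nat.log 2 (rd (u w)), Nat.log 2 (rd (v w))) = (k1, k2, k3)) with hF
    have hm : ∀ w ∈ F, w ∈ S ∧ Nat.log 2 (rd w.1) = k1 ∧ Nat.log 2 (rd (u w)) = k2 ∧ Nat.log 2 (rd (v w)) = k3 := by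
      intro w hw
      rw [hF, mem_filter] at hw
      simp only [Prod.mk.injEq] at hw
      exact hw
    rcases F.eq_empty_or_nonempty with he | ⟨w0, hw0⟩
    · rw [he, card_empty, Nat.cast_zero]
      exact hB0
    have hbx : ∀ w ∈ F, ((2 : ℝ) ^ k1 ≤ rd w.1 ∧ (rd w.1 : ℝ) ≤ 2 * 2 ^ k1) ∧ ((2 : ℝ) ^ k2 ≤ rd (u w) ∧ (rd (u w) : ℝ) ≤ 2 * 2 ^ k2) ∧
        ((2 : ℝ) ^ k3 ≤ rd (v w) ∧ (rd (v w) : ℝ) ≤ 2 * 2 ^ k3) := by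
      intro w hw
      obtain ⟨a0, a1, a2, a3⟩ := hm w hw
      have b1 := Hp.log2_box (rd w.1) (rd_pos _)
      have b2 := Hp.log2_box (rd (u w)) (rd_pos _)
      have b3 := Hp.log2_box (rd (v w)) (rd_pos _)
      rw [a1] at b1
      rw [a2] at b2
      rw [a3] at b3
      exact ⟨b1, b2, b3⟩
    have hge : ∀ k : ℕ, (1 : ℝ) ≤ 2 * 2 ^ k := by
      intro k
      have : (1 : ℝ) ≤ 2 ^ k := one_le_pow₀ (by norm_num)
      linarith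
    obtain ⟨zf, hU⟩ := exists_UD α β hα hβ Z hZ1 Y (2 * 2 ^ k1) (2 * 2 ^ k2) (2 * 2 ^ k3) F u v
      (fun w hw => (hS w (hm w hw).1).1) (fun w hw => (huv w (hm w hw).1).1) (fun w hw => (huv w (hm w hw).1).2.2.1)
      (fun w hw => (hbx w hw).1.2) (fun w hw => (hbx w hw).2.1.2) (fun w hw => (hbx w hw).2.2.2)
    have hmain := hcount (hge k1) (hge k2) (hge k3) hU
    refine hmain.trans ?_
    obtain ⟨hc0, hlo, hhi, _⟩ := hS w0 (hm w0 hw0).1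
    obtain ⟨e0, e1, e2, e3, e4⟩ := huv w0 (hm w0 hw0).1
    obtain ⟨⟨b1, b1'⟩, ⟨b2, b2'⟩, ⟨b3, b3'⟩⟩ := hbx w0 hw0
    obtain ⟨q1, q2, q3, q4⟩ := huv1 w0 (hm w0 hw0).1
    have hr := hc0.2.2.2.2.2.2.1
    rw [e0, rd_mul_coprime _ _ (by omega) (by omega) e1] at hr
    push_cast at hr
    have t1 : (2 * 2 ^ k1 : ℝ) * (2 * 2 ^ k2) ≤ 4 * Y ^ (3 / 4 - η / 8) := by
      calc (2 * 2 ^ k1 : ℝ) * (2 * 2 ^ k2) ≤ (2 * Y ^ (1 / 2 + κ)) * (2 * Y ^ (1 / 4 - η)) := by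
            gcongr
            · exact b1.trans hhi
            · exact b2.trans e4
        _ = 4 * (Y ^ (1 / 2 + κ) * Y ^ (1 / 4 - η)) := by ring
        _ = 4 * Y ^ (3 / 4 + κ - η) := by
          rw [← Real.rpow_add hY0]
          congr 2
          ring
        _ ≤ 4 * Y ^ (3 / 4 - η / 8) := by
          gcongr 4 * ?_
          exact Real.rpow_le_rpow_of_exponent_le hY (by linarith)
    have t2 : √(2 * 2 ^ k1) * (2 * 2 ^ k3) * (2 * 2 ^ k2) ^ (3 / 4 : ℝ) ≤ 8 * Y ^ (3 / 4 - η / 8) := by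
      apply u_num Y (2 * 2 ^ k1) (2 * 2 ^ k2) (2 * 2 ^ k3) η κ hY (hlo.trans b1') (e3.trans b2') (by positivity) hκ
      calc (2 * 2 ^ k1 : ℝ) * (2 * 2 ^ k2) * (2 * 2 ^ k3) = 8 * ((2 ^ k1) * ((2 ^ k2) * (2 ^ k3))) := by ring
        _ ≤ 8 * ((rd w0.1 : ℝ) * ((rd (u w0) : ℝ) * rd (v w0))) := by gcongr
        _ ≤ 8 * Y := by linarith
    calc C * (Z : ℝ) ^ σ * ((2 * 2 ^ k1) * (2 * 2 ^ k2) + √(2 * 2 ^ k1) * (2 * 2 ^ k3) * (2 * 2 ^ k2) ^ (3 / 4 : ℝ))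
        ≤ C * (Z : ℝ) ^ σ * (4 * Y ^ (3 / 4 - η / 8) + 8 * Y ^ (3 / 4 - η / 8)) := by
          apply mul_le_mul_of_nonneg_left (add_le_add t1 t2) (by positivity)
      _ = B := by rw [hB]; ring
  have hcard := card_le_mul_card_image_of_maps_to hmaps ⌊B⌋₊ hfib
  rw [card_product, card_product, card_range] at hcard
  calc (S.card : ℝ) ≤ ((⌊B⌋₊ * (L * (L * L)) : ℕ) : ℝ) := by exact_mod_cast hcard
    _ = (⌊B⌋₊ : ℝ) * (L : ℝ) ^ 3 := by push_cast; ring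
    _ ≤ B * (C2 * Y ^ (η / 48)) ^ 3 := by
      gcongr
      exact Nat.floor_le hB0
    _ = 12 * C * C2 ^ 3 * (Z : ℝ) ^ σ * (Y ^ (3 / 4 - η / 8) * (Y ^ (η / 48)) ^ 3) := by rw [hB]; ring
    _ = 12 * C * C2 ^ 3 * (Z : ℝ) ^ σ * Y ^ (3 / 4 - η / 16) := by
      rw [← Real.rpow_natCast (Y ^ (η / 48)) 3, ← Real.rpow_mul hY0.le, ← Real.rpow_add hY0]
      congr 2
      push_cast
      ring

theorem few3_U2 (K η κ : ℝ) (hK : 1 ≤ K) (hη : 0 < η) (hκ : κ ≤ η / 4) : Few3 K (fun Y w =>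
    Y ^ (1 / 2 - κ) ≤ (rd w.1.natAbs : ℝ) ∧ (rd w.1.natAbs : ℝ) ≤ Y ^ (1 / 2 + κ) ∧ HasU η Y w.2.natAbs) :=
  few3_of_N2 K (fun Y w => Y ^ (1 / 2 - κ) ≤ (rd w.1 : ℝ) ∧ (rd w.1 : ℝ) ≤ Y ^ (1 / 2 + κ) ∧ HasU η Y w.2) (fun s =>
    fewN_U _ _ (mul_ne_zero (by norm_num) (Th.sg_ne _)) (Th.sg_ne _) K η κ hK hη hκ)

theorem few3_U1 (K η κ : ℝ) (hK : 1 ≤ K) (hη : 0 < η) (hκ : κ ≤ η / 4) : Few3 K (fun Y w =>
    Y ^ (1 / 2 - κ) ≤ (rd w.2.natAbs : ℝ) ∧ (rd w.2.natAbs : ℝ) ≤ Y ^ (1 / 2 + κ) ∧ HasU η Y w.1.natAbs) :=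
  few3_of_N1 K (fun Y w => Y ^ (1 / 2 - κ) ≤ (rd w.1 : ℝ) ∧ (rd w.1 : ℝ) ≤ Y ^ (1 / 2 + κ) ∧ HasU η Y w.2) (fun s =>
    fewN_U _ _ (Th.sg_ne _) (mul_ne_zero (by norm_num) (Th.sg_ne _)) K η κ hK hη hκ)

end T3

end Pool.Agent.Lib.MP_d8bd92_nt
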