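import Pool.Agent.Lib.MP_d8bd92_nt.T3.U1
import Pool.Agent.Lib.MP_d8bd92_nt.Hp.AlF

set_option autoImplicit false

/-!
Phase 3: counting points with `x^2 + x y + y^2` in a lattice.
-/

namespace Pool.Agent.Lib.MP_d8bd92_nt

namespace T3

open Finset Pool.Agent.Lib.Szpiro

/-- pairs `(s, d)` with `3 s^2 + d^2 = 0` modulo `A`, by the classes `d / s` -/
theorem root_classes (A B : ℕ) (hodd : Odd A) (h3 : Nat.Coprime A 3) (S : Finset (ℤ × ℤ))
    (hS : ∀ x ∈ S, IsCoprime x.1 (A : ℤ) ∧ (A : ℤ) ∣ 3 * x.1 ^ 2 + x.2 ^ 2)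
    (hB : ∀ x0 ∈ S, (S.filter (fun x => (A : ℤ) ∣ x0.1 * x.2 - x.1 * x0.2)).card ≤ B) :
    S.card ≤ B * A.divisors.card := by
  classical
  have hA0 : (0 : ℤ) < A := by exact_mod_cast hodd.pos
  have hr : ∀ x : ℤ × ℤ, ∃ r : ℕ, x ∈ S → r < A ∧ (A : ℤ) ∣ (r : ℤ) * x.1 - x.2 := by
    intro x
    by_cases hx : x ∈ S
    · obtain ⟨a, b, hab⟩ := (hS x hx).1
      refine ⟨((x.2 * a) % A).toNat, fun _ => ?_⟩
      have h1 : 0 ≤ (x.2 * a) % A := Int.emod_nonneg _ hA0.ne'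
      have h2 : (x.2 * a) % A < A := Int.emod_lt_of_pos _ hA0
      refine ⟨by omega, ?_⟩
      rw [Int.toNat_of_nonneg h1]
      have h3 : (A : ℤ) ∣ (x.2 * a) % A - x.2 * a := by
        rw [Int.emod_def]
        exact ⟨-(x.2 * a / A), by ring⟩
      have e : (x.2 * a) % A * x.1 - x.2 = ((x.2 * a) % A - x.2 * a) * x.1 + (A : ℤ) * (-(b * x.2)) := by
        linear_combination x.2 * hab
      rw [e]
      exact dvd_add (Dvd.dvd.mul_right h3 _) (dvd_mul_right _ _)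
    · exact ⟨0, fun h => absurd h hx⟩
  choose f hf using hr
  have hcop3 : IsCoprime (A : ℤ) (-3) := by
    rw [Int.isCoprime_iff_gcd_eq_one]
    simpa [Int.gcd] using h3
  have hcard := Hp.card_roots (D := -3) (A := A) hodd hcop3
  have hmaps : ∀ x ∈ S, f x ∈ (range A).filter (fun r : ℕ => (A : ℤ) ∣ (r : ℤ) ^ 2 - (-3)) := by
    intro x hx
    obtain ⟨h1, h2⟩ := hf x hx
    obtain ⟨h4, h5⟩ := hS x hx
    rw [mem_filter, mem_range]
    refine ⟨h1, ?_⟩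
    have h6 : (A : ℤ) ∣ x.1 ^ 2 * ((f x : ℤ) ^ 2 - (-3)) := by
      have e : x.1 ^ 2 * ((f x : ℤ) ^ 2 - (-3)) = ((f x : ℤ) * x.1 - x.2) * ((f x : ℤ) * x.1 + x.2) + (3 * x.1 ^ 2 + x.2 ^ 2) := by
        ring
      rw [e]
      exact dvd_add (Dvd.dvd.mul_right h2 _) h5
    exact (IsCoprime.pow_left h4).symm.dvd_of_dvd_mul_left h6
  have hfib : ∀ r ∈ (range A).filter (fun r : ℕ => (A : ℤ) ∣ (r : ℤ) ^ 2 - (-3)), (S.filter (fun x => f x = r)).card ≤ B := by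
    intro r _
    rcases (S.filter (fun x => f x = r)).eq_empty_or_nonempty with h0 | ⟨x0, hx0⟩
    · rw [h0, card_empty]
      exact Nat.zero_le _
    · rw [mem_filter] at hx0
      refine le_trans (card_le_card ?_) (hB x0 hx0.1)
      intro x hx
      rw [mem_filter] at hx ⊢
      refine ⟨hx.1, ?_⟩
      have h1 := (hf x hx.1).2
      have h2 := (hf x0 hx0.1).2
      rw [hx.2] at h1
      rw [hx0.2] at h2
      have e : x0.1 * x.2 - x.1 * x0.2 = ((r : ℤ) * x0.1 - x0.2) * x.1 - ((r : ℤ) * x.1 - x.2) * x0.1 := by ring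
      rw [e]
      exact dvd_sub (Dvd.dvd.mul_right h2 _) (Dvd.dvd.mul_right h1 _)
  have h1 := card_le_mul_card_image_of_maps_to hmaps B hfib
  exact h1.trans (Nat.mul_le_mul_left _ hcard)

theorem sd_inj : Function.Injective (fun x : ℤ × ℤ => (x.1 + x.2, x.1 - x.2)) := by
  intro x y h
  simp only [Prod.mk.injEq] at h
  exact Prod.ext (by omega) (by omega)

/-- coprime pairs with a given value of `x^2 + x y + y^2` -/
theorem qf_count (Q : ℤ) (hQ : 0 < Q) (S : Finset (ℤ × ℤ)) (hS : ∀ x ∈ S, IsCoprime x.1 x.2 ∧ qf x.1 x.2 = Q) :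
    S.card ≤ 26 * Q.natAbs.divisors.card := by
  classical
  rcases S.eq_empty_or_nonempty with h0 | ⟨x00, hx00⟩
  · rw [h0, card_empty]
    exact Nat.zero_le _
  obtain ⟨hc00, hq00⟩ := hS x00 hx00
  have hQ1 : 1 ≤ Q.natAbs := by omega
  have h9 : ¬ 9 ∣ Q.natAbs := by
    intro h
    have h1 : (9 : ℤ) ∣ Q := by
      rw [← Int.natAbs_dvd_natAbs]
      exact h
    rw [← hq00] at h1
    exact qf_nine hc00 h1
  obtain ⟨hA1, hA2, hA3, hA4⟩ := p3_spec hQ1 h9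
  set A : ℕ := p3 Q.natAbs with hA
  have hAQ : (A : ℤ) ∣ Q := by
    rw [← Int.natAbs_dvd_natAbs]
    simpa using hA1
  have hQA : Q ≤ 3 * A := by omega
  rw [← card_image_of_injective S sd_inj]
  set T := S.image (fun x : ℤ × ℤ => (x.1 + x.2, x.1 - x.2)) with hT
  have hTm : ∀ x ∈ T, IsCoprime x.1 (A : ℤ) ∧ (A : ℤ) ∣ 3 * x.1 ^ 2 + x.2 ^ 2 ∧ 3 * x.1 ^ 2 + x.2 ^ 2 = 4 * Q ∧ Odd A := by
    intro x hx
    rw [hT, mem_image] at hx
    obtain ⟨y, hy, rfl⟩ := hx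
    obtain ⟨h1, h2⟩ := hS y hy
    obtain ⟨h4, h5, h6, h7⟩ := qf_cop h1 (A := A) (by rw [h2]; exact hAQ) hA2
    refine ⟨h4, h6, ?_, h7⟩
    rw [← h2]
    exact (qf_four _ _).symm
  have hodd : Odd A := by
    obtain ⟨h4, h5, h6, h7⟩ := qf_cop hc00 (A := A) (by rw [hq00]; exact hAQ) hA2
    exact h7
  have hdvd : A.divisors.card ≤ Q.natAbs.divisors.card := card_le_card (Nat.divisors_subset_of_dvd (by omega) hA1)
  refine le_trans (root_classes A 26 hodd hA2 T (fun x hx => ⟨(hTm x hx).1, (hTm x hx).2.1⟩) ?_) (Nat.mul_le_mul_left _ hdvd)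
  intro x0 hx0
  have hA0 : (0 : ℤ) < A := by exact_mod_cast hodd.pos
  set F := T.filter (fun x => (A : ℤ) ∣ x0.1 * x.2 - x.1 * x0.2) with hF
  have h26 : ((Finset.Icc (-6 : ℤ) 6) ×ˢ (Finset.univ : Finset Bool)).card = 26 := by decide
  rw [← h26]
  apply card_le_card_of_injOn (fun x => ((x0.1 * x.2 - x.1 * x0.2) / A, decide (0 ≤ 3 * x0.1 * x.1 + x0.2 * x.2)))
  · intro x hx
    rw [mem_coe, hF, mem_filter] at hx
    obtain ⟨hxT, k, hk⟩ := hx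
    rw [mem_coe, mem_product]
    refine ⟨?_, mem_univ _⟩
    show (x0.1 * x.2 - x.1 * x0.2) / (A : ℤ) ∈ _
    rw [hk, Int.mul_ediv_cancel_left _ hA0.ne', mem_Icc]
    have e1 := (hTm x hxT).2.2.1
    have e0 := (hTm x0 hx0).2.2.1
    have hid : (3 * x0.1 * x.1 + x0.2 * x.2) ^ 2 + 3 * (x0.1 * x.2 - x.1 * x0.2) ^ 2 = (4 * Q) * (4 * Q) := by
      rw [← e1]
      nth_rewrite 1 [e1]
      rw [← e0]
      ring
    rw [hk] at hid
    have h1 : 3 * (A * k) ^ 2 ≤ 16 * (3 * (A : ℤ)) ^ 2 := by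
      have h2 : Q ^ 2 ≤ (3 * (A : ℤ)) ^ 2 := pow_le_pow_left₀ hQ.le hQA 2
      nlinarith [sq_nonneg (3 * x0.1 * x.1 + x0.2 * x.2)]
    have h2 : k ^ 2 ≤ 48 := by
      have h3 : (A : ℤ) ^ 2 * k ^ 2 ≤ (A : ℤ) ^ 2 * 48 := by nlinarith
      exact le_of_mul_le_mul_left h3 (by positivity)
    constructor <;> nlinarith
  · intro x hx y hy hxy
    rw [mem_coe, hF, mem_filter] at hx hy
    obtain ⟨hxT, k, hk⟩ := hx
    obtain ⟨hyT, k', hk'⟩ := hy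
    simp only [Prod.mk.injEq, decide_eq_decide] at hxy
    obtain ⟨h1, h2⟩ := hxy
    rw [hk, hk', Int.mul_ediv_cancel_left _ hA0.ne', Int.mul_ediv_cancel_left _ hA0.ne'] at h1
    rw [← h1] at hk'
    have e1 := (hTm x hxT).2.2.1
    have e1' := (hTm y hyT).2.2.1
    have e0 := (hTm x0 hx0).2.2.1
    set μ := 3 * x0.1 * x.1 + x0.2 * x.2 with hμ
    set μ' := 3 * x0.1 * y.1 + x0.2 * y.2 with hμ'
    have hid : μ ^ 2 + 3 * (x0.1 * x.2 - x.1 * x0.2) ^ 2 = (4 * Q) * (4 * Q) := by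
      have : μ ^ 2 + 3 * (x0.1 * x.2 - x.1 * x0.2) ^ 2 = (3 * x0.1 ^ 2 + x0.2 ^ 2) * (3 * x.1 ^ 2 + x.2 ^ 2) := by
        rw [hμ]; ring
      rw [this, e0, e1]
    have hid' : μ' ^ 2 + 3 * (x0.1 * y.2 - y.1 * x0.2) ^ 2 = (4 * Q) * (4 * Q) := by
      have : μ' ^ 2 + 3 * (x0.1 * y.2 - y.1 * x0.2) ^ 2 = (3 * x0.1 ^ 2 + x0.2 ^ 2) * (3 * y.1 ^ 2 + y.2 ^ 2) := by
        rw [hμ']; ring
      rw [this, e0, e1']
    rw [hk] at hid
    rw [hk'] at hid'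
    have hsq : μ ^ 2 = μ' ^ 2 := by linarith
    have hmm : μ = μ' := by
      rcases sq_eq_sq_iff_eq_or_eq_neg.mp hsq with h | h
      · exact h
      · by_cases h0 : 0 ≤ μ
        · have h3 := h2.mp h0
          have h4 : μ = 0 := by linarith
          have h5 : μ' = 0 := by linarith
          rw [h4, h5]
        · have h3 : ¬ 0 ≤ μ' := fun h' => h0 (h2.mpr h')
          exfalso
          push Not at h0 h3
          linarith
    have hs : 4 * Q * x.1 = 4 * Q * y.1 := by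
      have k1 : 4 * Q * x.1 = x0.1 * μ - x0.2 * (x0.1 * x.2 - x.1 * x0.2) := by
        rw [← e0, hμ]; ring
      have k2 : 4 * Q * y.1 = x0.1 * μ' - x0.2 * (x0.1 * y.2 - y.1 * x0.2) := by
        rw [← e0, hμ']; ring
      rw [k1, k2, hk, hk', hmm]
    have hd : 4 * Q * x.2 = 4 * Q * y.2 := by
      have k1 : 4 * Q * x.2 = x0.2 * μ + 3 * x0.1 * (x0.1 * x.2 - x.1 * x0.2) := by
        rw [← e0, hμ]; ring
      have k2 : 4 * Q * y.2 = x0.2 * μ' + 3 * x0.1 * (x0.1 * y.2 - y.1 * x0.2) := by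
        rw [← e0, hμ']; ring
      rw [k1, k2, hk, hk', hmm]
    have h4Q : 4 * Q ≠ 0 := by positivity
    exact Prod.ext (mul_left_cancel₀ h4Q hs) (mul_left_cancel₀ h4Q hd)

/-- coprime pairs with a given difference `d`, `N ∣ x^2 + x y + y^2` and `3 |x + y| ≤ 4 N` -/
theorem diff_count (N : ℕ) (hN : 1 ≤ N) (d : ℤ) (S : Finset (ℤ × ℤ)) (hS : ∀ x ∈ S, IsCoprime x.1 x.2 ∧
    (N : ℤ) ∣ qf x.1 x.2 ∧ x.1 - x.2 = d ∧ 3 * |x.1 + x.2| ≤ 4 * N) : S.card ≤ 17 * N.divisors.card := by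
  classical
  rcases S.eq_empty_or_nonempty with h0 | ⟨x00, hx00⟩
  · rw [h0, card_empty]
    exact Nat.zero_le _
  obtain ⟨hc00, hq00, _, _⟩ := hS x00 hx00
  have h9 : ¬ 9 ∣ N := by
    intro h
    have h1 : (9 : ℤ) ∣ (N : ℤ) := by exact_mod_cast h
    exact qf_nine hc00 (dvd_trans h1 hq00)
  obtain ⟨hA1, hA2, hA3, hA4⟩ := p3_spec hN h9
  set A : ℕ := p3 N with hA
  have hAN : (A : ℤ) ∣ (N : ℤ) := by exact_mod_cast hA1
  rw [← card_image_of_injective S sd_inj]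
  set T := S.image (fun x : ℤ × ℤ => (x.1 + x.2, x.1 - x.2)) with hT
  have hTm : ∀ x ∈ T, IsCoprime x.1 (A : ℤ) ∧ (A : ℤ) ∣ 3 * x.1 ^ 2 + x.2 ^ 2 ∧ IsCoprime x.2 (A : ℤ) ∧ x.2 = d ∧
      3 * |x.1| ≤ 4 * N := by
    intro x hx
    rw [hT, mem_image] at hx
    obtain ⟨y, hy, rfl⟩ := hx
    obtain ⟨h1, h2, h3, h4⟩ := hS y hy
    obtain ⟨k4, k5, k6, k7⟩ := qf_cop h1 (A := A) (dvd_trans hAN h2) hA2
    exact ⟨k4, k6, k5, h3, h4⟩
  have hodd : Odd A := by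
    obtain ⟨h4, h5, h6, h7⟩ := qf_cop hc00 (A := A) (dvd_trans hAN hq00) hA2
    exact h7
  have hdvd : A.divisors.card ≤ N.divisors.card := card_le_card (Nat.divisors_subset_of_dvd (by omega) hA1)
  refine le_trans (root_classes A 17 hodd hA2 T (fun x hx => ⟨(hTm x hx).1, (hTm x hx).2.1⟩) ?_) (Nat.mul_le_mul_left _ hdvd)
  intro x0 hx0
  have hA0 : (0 : ℤ) < A := by exact_mod_cast hodd.pos
  set F := T.filter (fun x => (A : ℤ) ∣ x0.1 * x.2 - x.1 * x0.2) with hF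
  have h17 : (Finset.Icc (-8 : ℤ) 8).card = 17 := by decide
  rw [← h17]
  have hdiv : ∀ x ∈ F, x ∈ T ∧ (A : ℤ) ∣ x.1 - x0.1 := by
    intro x hx
    rw [hF, mem_filter] at hx
    obtain ⟨hxT, hx2⟩ := hx
    refine ⟨hxT, ?_⟩
    obtain ⟨_, _, c1, c2, _⟩ := hTm x hxT
    obtain ⟨_, _, _, c4, _⟩ := hTm x0 hx0
    rw [c2, c4] at hx2
    rw [c2] at c1
    have h5 : (A : ℤ) ∣ d * (x.1 - x0.1) := by
      have e : d * (x.1 - x0.1) = -(x0.1 * d - x.1 * d) := by ring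
      rw [e]
      exact (dvd_neg).mpr hx2
    exact c1.symm.dvd_of_dvd_mul_left h5
  apply card_le_card_of_injOn (fun x => (x.1 - x0.1) / A)
  · intro x hx
    obtain ⟨hxT, k, hk⟩ := hdiv x hx
    rw [mem_coe]
    show (x.1 - x0.1) / (A : ℤ) ∈ _
    rw [hk, Int.mul_ediv_cancel_left _ hA0.ne', mem_Icc]
    obtain ⟨_, _, _, _, c5⟩ := hTm x hxT
    obtain ⟨_, _, _, _, c5'⟩ := hTm x0 hx0
    have h6 : (N : ℤ) ≤ 3 * A := by exact_mod_cast hA3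
    have h7 := abs_le.mp (show |x.1| ≤ 4 * (A : ℤ) by linarith)
    have h8 := abs_le.mp (show |x0.1| ≤ 4 * (A : ℤ) by linarith)
    have h9 : (A : ℤ) * k ≤ A * 8 := by linarith
    have h10 : (A : ℤ) * (-8) ≤ A * k := by linarith
    exact ⟨le_of_mul_le_mul_left h10 hA0, le_of_mul_le_mul_left h9 hA0⟩
  · intro x hx y hy hxy
    obtain ⟨hxT, k, hk⟩ := hdiv x hx
    obtain ⟨hyT, k', hk'⟩ := hdiv y hy
    simp only at hxy
    rw [hk, hk', Int.mul_ediv_cancel_left _ hA0.ne', Int.mul_ediv_cancel_left _ hA0.ne'] at hxy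
    rw [← hxy] at hk'
    have c1 := (hTm x hxT).2.2.2.1
    have c2 := (hTm y hyT).2.2.2.1
    exact Prod.ext (by linarith) (by rw [c1, c2])

end T3

end Pool.Agent.Lib.MP_d8bd92_nt
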