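import Pool.Agent.Lib.MP_d8bd92_nt.T3.U1
import Pool.Agent.Lib.MP_d8bd92_nt.ThB
import Pool.Agent.Lib.MP_d8bd92_nt.CdA
import Pool.Agent.Lib.MP_d8bd92_nt.CdD

set_option autoImplicit false

/-!
Phase 3: pairs of solutions with the same `m` and the same `u`, first case.
-/

namespace Pool.Agent.Lib.MP_d8bd92_nt

namespace T3

open Finset Pool.Agent.Lib.Szpiro

/-- data of the unitary inequality -/
structure UD (α β : ℤ) (Z : ℕ) (RC RU RV : ℝ) (S : Finset (ℕ × ℕ)) (u v : ℕ × ℕ → ℕ) (zf : ℕ × ℕ → ℤ) : Prop where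
  Z1 : 1 ≤ Z
  α0 : α ≠ 0
  β0 : β ≠ 0
  m1 : ∀ w ∈ S, 1 ≤ w.1
  mZ : ∀ w ∈ S, w.1 ≤ Z
  n1 : ∀ w ∈ S, 1 ≤ w.2
  nZ : ∀ w ∈ S, w.2 ≤ Z
  cop : ∀ w ∈ S, IsCoprime (α * (w.1 : ℤ)) (w.2 : ℤ)
  fac : ∀ w ∈ S, w.2 = u w * v w
  u3 : ∀ w ∈ S, Nat.Coprime (u w) 3
  rc : ∀ w ∈ S, (rd w.1 : ℝ) ≤ RC
  ru : ∀ w ∈ S, (rd (u w) : ℝ) ≤ RU
  rv : ∀ w ∈ S, (rd (v w) : ℝ) ≤ RV
  z : ∀ w ∈ S, α * (w.1 : ℤ) + β * (w.2 : ℤ) = (zf w) ^ 3

variable {α β : ℤ} {Z : ℕ} {RC RU RV : ℝ} {S : Finset (ℕ × ℕ)} {u v : ℕ × ℕ → ℕ} {zf : ℕ × ℕ → ℤ}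

theorem UD.u1 (h : UD α β Z RC RU RV S u v zf) {w : ℕ × ℕ} (hw : w ∈ S) : 1 ≤ u w := by
  by_contra hcon
  have h0 : u w = 0 := by omega
  have h1 := h.fac w hw
  rw [h0, zero_mul] at h1
  have := h.n1 w hw
  omega

theorem UD.v1 (h : UD α β Z RC RU RV S u v zf) {w : ℕ × ℕ} (hw : w ∈ S) : 1 ≤ v w := by
  by_contra hcon
  have h0 : v w = 0 := by omega
  have h1 := h.fac w hw
  rw [h0, mul_zero] at h1
  have := h.n1 w hw
  omega

theorem UD.uZ (h : UD α β Z RC RU RV S u v zf) {w : ℕ × ℕ} (hw : w ∈ S) : u w ≤ Z := by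
  have h1 := h.fac w hw
  have h2 := h.nZ w hw
  have h3 := h.v1 hw
  calc u w ≤ u w * v w := Nat.le_mul_of_pos_right _ (by omega)
    _ ≤ Z := by omega

theorem UD.vZ (h : UD α β Z RC RU RV S u v zf) {w : ℕ × ℕ} (hw : w ∈ S) : v w ≤ Z := by
  have h1 := h.fac w hw
  have h2 := h.nZ w hw
  have h3 := h.u1 hw
  calc v w ≤ u w * v w := Nat.le_mul_of_pos_left _ (by omega)
    _ ≤ Z := by omega

theorem UD.zle (h : UD α β Z RC RU RV S u v zf) {w : ℕ × ℕ} (hw : w ∈ S) :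
    (zf w).natAbs ≤ (α.natAbs + β.natAbs) * Z := by
  have h1 := h.z w hw
  have h2 : (zf w).natAbs ^ 3 ≤ (α.natAbs + β.natAbs) * Z := by
    rw [← Int.natAbs_pow, ← h1]
    calc (α * (w.1 : ℤ) + β * (w.2 : ℤ)).natAbs ≤ (α * (w.1 : ℤ)).natAbs + (β * (w.2 : ℤ)).natAbs := Int.natAbs_add_le _ _
      _ = α.natAbs * w.1 + β.natAbs * w.2 := by rw [Int.natAbs_mul, Int.natAbs_mul, Int.natAbs_natCast, Int.natAbs_natCast]
      _ ≤ α.natAbs * Z + β.natAbs * Z := Nat.add_le_add (Nat.mul_le_mul_left _ (h.mZ w hw)) (Nat.mul_le_mul_left _ (h.nZ w hw))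
      _ = (α.natAbs + β.natAbs) * Z := by ring
  exact (Nat.le_self_pow (by norm_num) _).trans h2

theorem UD.zinj (h : UD α β Z RC RU RV S u v zf) {w w' : ℕ × ℕ} (hw : w ∈ S) (hw' : w' ∈ S) (h1 : w.1 = w'.1)
    (hz : zf w = zf w') : w = w' := by
  have e1 := h.z w hw
  have e2 := h.z w' hw'
  rw [← hz, ← h1] at e2
  have e3 : β * (w.2 : ℤ) = β * (w'.2 : ℤ) := by linarith
  have e4 := mul_left_cancel₀ h.β0 e3
  exact Prod.ext h1 (by exact_mod_cast e4)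

/-- the pairs of solutions with the same `m` and the same `u` -/
def TT (S : Finset (ℕ × ℕ)) (u : ℕ × ℕ → ℕ) : Finset ((ℕ × ℕ) × (ℕ × ℕ)) :=
  (S ×ˢ S).filter (fun t => t.1.1 = t.2.1 ∧ u t.1 = u t.2 ∧ t.1 ≠ t.2)

theorem mem_TT {t : (ℕ × ℕ) × (ℕ × ℕ)} : t ∈ TT S u ↔ t.1 ∈ S ∧ t.2 ∈ S ∧ t.1.1 = t.2.1 ∧ u t.1 = u t.2 ∧ t.1 ≠ t.2 := by
  unfold TT
  rw [mem_filter, mem_product]
  tauto

theorem UD.data (h : UD α β Z RC RU RV S u v zf) {t : (ℕ × ℕ) × (ℕ × ℕ)} (ht : t ∈ TT S u) :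
    ∃ (g : ℕ) (z1 z1' d0 e0 : ℤ) (u1 u2 : ℕ), 1 ≤ g ∧ zf t.1 = g * z1 ∧ zf t.2 = g * z1' ∧ IsCoprime z1 z1' ∧
      IsCoprime (g : ℤ) (u t.1 : ℤ) ∧ u t.1 = u1 * u2 ∧ Nat.Coprime u1 u2 ∧ z1 - z1' = d0 * u1 ∧ qf z1 z1' = e0 * u2 ∧
      (g : ℤ) ^ 3 * (d0 * e0) = β * ((v t.1 : ℤ) - v t.2) ∧ IsCoprime (zf t.1) (u t.1 : ℤ) := by
  rw [mem_TT] at ht
  obtain ⟨h1, h2, h3, h4, h5⟩ := ht
  have e1 := h.z t.1 h1
  have e2 := h.z t.2 h2
  have f1 := h.fac t.1 h1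
  have f2 := h.fac t.2 h2
  refine alg_data α β t.1.1 (u t.1) (v t.1) (v t.2) (zf t.1) (zf t.2) ?_ (h.u3 t.1 h1) (h.u1 h1) ?_ ?_ ?_
  · have := h.cop t.1 h1
    rwa [f1] at this
  · rw [← f1]
    exact e1
  · rw [h4, ← f2, h3]
    exact e2
  · intro hz
    exact h5 (h.zinj h1 h2 h3 hz)

theorem UD.vne (h : UD α β Z RC RU RV S u v zf) {t : (ℕ × ℕ) × (ℕ × ℕ)} (ht : t ∈ TT S u) : v t.1 ≠ v t.2 := by
  rw [mem_TT] at ht
  obtain ⟨h1, h2, h3, h4, h5⟩ := ht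
  intro hv
  apply h5
  have f1 := h.fac t.1 h1
  have f2 := h.fac t.2 h2
  rw [h4, hv, ← f2] at f1
  exact Prod.ext h3 f1

theorem UD.copz (h : UD α β Z RC RU RV S u v zf) {w : ℕ × ℕ} (hw : w ∈ S) : IsCoprime (zf w) (u w : ℤ) := by
  have e1 := h.z w hw
  have f1 := h.fac w hw
  have hc := h.cop w hw
  have hcu : IsCoprime (α * (w.1 : ℤ)) (u w : ℤ) := by
    apply IsCoprime.of_isCoprime_of_dvd_right hc
    rw [f1]
    push_cast
    exact dvd_mul_right _ _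
  have h1 : IsCoprime ((zf w) ^ 3) (u w : ℤ) := by
    rw [← e1, f1]
    have e : α * (w.1 : ℤ) + β * ((u w * v w : ℕ) : ℤ) = α * (w.1 : ℤ) + (u w : ℤ) * (β * v w) := by push_cast; ring
    rw [e]
    exact IsCoprime.add_mul_left_left hcu _
  exact (IsCoprime.pow_left_iff (by norm_num)).mp h1

/-- the first case: `|z'| ≤ gcd (z, z') u` -/
def TA (S : Finset (ℕ × ℕ)) (u : ℕ × ℕ → ℕ) (zf : ℕ × ℕ → ℤ) : Finset ((ℕ × ℕ) × (ℕ × ℕ)) :=
  (TT S u).filter (fun t => (zf t.2).natAbs ≤ Int.gcd (zf t.1) (zf t.2) * u t.1)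

theorem TA_fib (σ : ℝ) (hσ : 0 < σ) : ∃ C : ℝ, 1 ≤ C ∧ ∀ {α β : ℤ} {Z : ℕ} {RC RU RV : ℝ} {S : Finset (ℕ × ℕ)}
    {u v : ℕ × ℕ → ℕ} {zf : ℕ × ℕ → ℤ}, UD α β Z RC RU RV S u v zf → ∀ (w : ℕ × ℕ), w ∈ S → ∀ g : ℕ,
    (((TA S u zf).filter (fun t => t.1 = w ∧ Int.gcd (zf t.1) (zf t.2) = g)).card : ℝ) ≤ C * (Z : ℝ) ^ σ := by
  classical
  obtain ⟨C, hC1, hC⟩ := Th.card_kth 3 (by norm_num) σ hσ
  refine ⟨C * 6, by linarith, ?_⟩
  intro α β Z RC RU RV S u v zf h w hw g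
  set F := (TA S u zf).filter (fun t => t.1 = w ∧ Int.gcd (zf t.1) (zf t.2) = g) with hF
  have hmem : ∀ t ∈ F, t.1 = w ∧ t.2 ∈ S ∧ t.2.1 = w.1 ∧ u t.2 = u w ∧ Int.gcd (zf w) (zf t.2) = g ∧
      (zf t.2).natAbs ≤ g * u w := by
    intro t ht
    rw [hF, mem_filter, TA, mem_filter, mem_TT] at ht
    obtain ⟨⟨⟨h1, h2, h3, h4, h5⟩, h6⟩, h7, h8⟩ := ht
    rw [h8] at h6
    rw [h7] at h3 h4 h6 h8
    exact ⟨h7, h2, h3.symm, h4.symm, h8, h6⟩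
  rcases F.eq_empty_or_nonempty with h0 | ⟨t0, ht0⟩
  · rw [h0, card_empty, Nat.cast_zero]
    positivity
  have hu1 := h.u1 hw
  have hgz : (g : ℤ) ∣ zf w := by
    obtain ⟨_, _, _, _, k5, _⟩ := hmem t0 ht0
    rw [← k5]
    exact Int.gcd_dvd_left _ _
  have hgu : IsCoprime (g : ℤ) (u w : ℤ) := IsCoprime.of_isCoprime_of_dvd_left (h.copz hw) hgz
  have hinj : Set.InjOn (fun t : (ℕ × ℕ) × (ℕ × ℕ) => zf t.2) (F : Set ((ℕ × ℕ) × (ℕ × ℕ))) := by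
    intro t ht t' ht' htt
    rw [mem_coe] at ht ht'
    obtain ⟨a1, a2, a3, _⟩ := hmem t ht
    obtain ⟨b1, b2, b3, _⟩ := hmem t' ht'
    exact Prod.ext (a1.trans b1.symm) (h.zinj a2 b2 (a3.trans b3.symm) htt)
  rw [← card_image_of_injOn hinj]
  have hfin := hC (u w) (α * (w.1 : ℤ)) (F.image (fun t => zf t.2)) 6 hu1 (by norm_num) ?_ ?_
  · refine hfin.trans ?_
    have h1 : ((u w : ℕ) : ℝ) ^ σ ≤ (Z : ℝ) ^ σ := Real.rpow_le_rpow (by positivity) (by exact_mod_cast h.uZ hw) hσ.le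
    calc C * ((u w : ℕ) : ℝ) ^ σ * 6 ≤ C * (Z : ℝ) ^ σ * 6 := by gcongr
      _ = C * 6 * (Z : ℝ) ^ σ := by ring
  · intro s hs
    obtain ⟨t, ht, rfl⟩ := mem_image.mp hs
    obtain ⟨a1, a2, a3, a4, a5, a6⟩ := hmem t ht
    refine ⟨?_, ?_⟩
    · have := h.copz a2
      rwa [a4] at this
    · have e1 := h.z t.2 a2
      show ((u w : ℕ) : ℤ) ∣ (zf t.2) ^ 3 - α * (w.1 : ℤ)
      rw [← e1, a3]
      have e2 : α * (w.1 : ℤ) + β * (t.2.2 : ℤ) - α * (w.1 : ℤ) = β * (t.2.2 : ℤ) := by ring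
      rw [e2, h.fac t.2 a2, a4]
      push_cast
      exact Dvd.dvd.mul_left (dvd_mul_right _ _) _
  · intro x T' hT' hx
    have hg1 : 1 ≤ g := by
      obtain ⟨_, _, _, _, k5, k6⟩ := hmem t0 ht0
      by_contra hcon
      have hg0 : g = 0 := by omega
      rw [hg0] at k5
      rw [Int.gcd_eq_zero_iff] at k5
      have ht0' := ht0
      rw [hF, mem_filter, TA, mem_filter, mem_TT] at ht0'
      obtain ⟨⟨⟨h1, h2, h3, h4, h5⟩, h6⟩, h7, h8⟩ := ht0'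
      apply h5
      apply h.zinj h1 h2 h3
      rw [h7, k5.1, k5.2]
    have hgu1 : 1 ≤ g * u w := Nat.mul_pos hg1 hu1
    rcases T'.eq_empty_or_nonempty with h0 | ⟨x0, hx0⟩
    · rw [h0, card_empty, Nat.cast_zero]
      norm_num
    have hsz : ∀ s ∈ T', (g : ℤ) ∣ s ∧ s.natAbs ≤ g * u w := by
      intro s hs
      obtain ⟨t, ht, rfl⟩ := mem_image.mp (hT' hs)
      obtain ⟨a1, a2, a3, a4, a5, a6⟩ := hmem t ht
      refine ⟨?_, a6⟩
      rw [← a5]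
      exact Int.gcd_dvd_right _ _
    have h1 := cdD_card_class T' (2 * (g * u w)) (g * u w) hgu1 ?_ x0 ?_
    · refine h1.trans (le_of_eq ?_)
      have : ((g * u w : ℕ) : ℝ) ≠ 0 := by exact_mod_cast (by omega : g * u w ≠ 0)
      rw [Nat.cast_mul, mul_div_assoc, div_self this]
      norm_num
    · intro s hs t ht
      obtain ⟨_, b1⟩ := hsz s hs
      obtain ⟨_, b2⟩ := hsz t ht
      push_cast
      have c1 : ((s.natAbs : ℕ) : ℤ) ≤ (g : ℤ) * u w := by exact_mod_cast b1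
      have c2 : ((t.natAbs : ℕ) : ℤ) ≤ (g : ℤ) * u w := by exact_mod_cast b2
      omega
    · intro s hs
      push_cast
      apply hgu.mul_dvd
      · exact dvd_sub (hsz s hs).1 (hsz x0 hx0).1
      · have e : s - x0 = (s - x) - (x0 - x) := by ring
        rw [e]
        exact dvd_sub (hx s hs) (hx x0 hx0)

/-- the first case: few pairs -/
theorem TA_card (σ : ℝ) (hσ : 0 < σ) (α β : ℤ) : ∃ C : ℝ, 1 ≤ C ∧ ∀ {Z : ℕ} {RC RU RV : ℝ} {S : Finset (ℕ × ℕ)}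
    {u v : ℕ × ℕ → ℕ} {zf : ℕ × ℕ → ℤ}, UD α β Z RC RU RV S u v zf →
    ((TA S u zf).card : ℝ) ≤ C * (Z : ℝ) ^ σ * S.card := by
  classical
  obtain ⟨C1, hC11, hC1⟩ := TA_fib (σ / 2) (by positivity)
  obtain ⟨C2, hC21, hC2⟩ := card_divisors_le_rpow (σ / 2) (by positivity)
  set c : ℝ := ((α.natAbs + β.natAbs : ℕ) : ℝ) with hc
  refine ⟨1 + C2 * (1 + c) ^ (σ / 2) * C1, ?_, ?_⟩
  · have : 0 ≤ C2 * (1 + c) ^ (σ / 2) * C1 := by positivity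
    linarith
  intro Z RC RU RV S u v zf h
  have hZ1 : (1 : ℝ) ≤ Z := by exact_mod_cast h.Z1
  have hZ0 : (0 : ℝ) < Z := by linarith
  have hZσ : (1 : ℝ) ≤ (Z : ℝ) ^ σ := Real.one_le_rpow hZ1 hσ.le
  set T0 := (TA S u zf).filter (fun t => zf t.1 = 0) with hT0
  set T1 := (TA S u zf).filter (fun t => ¬ zf t.1 = 0) with hT1
  have hsplit : T0.card + T1.card = (TA S u zf).card := card_filter_add_card_filter_not _
  have hmemTA : ∀ t ∈ TA S u zf, t.1 ∈ S ∧ t.2 ∈ S ∧ t.1.1 = t.2.1 := by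
    intro t ht
    rw [TA, mem_filter, mem_TT] at ht
    exact ⟨ht.1.1, ht.1.2.1, ht.1.2.2.1⟩
  have h0 : T0.card ≤ S.card := by
    apply card_le_card_of_injOn (fun t => t.2)
    · intro t ht
      rw [mem_coe, hT0, mem_filter] at ht
      exact (hmemTA t ht.1).2.1
    · intro t ht t' ht' htt
      rw [mem_coe, hT0, mem_filter] at ht ht'
      have hone : ∀ w ∈ S, zf w = 0 → w.2 = 1 := by
        intro w hw hz
        have e1 := h.z w hw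
        rw [hz] at e1
        have e2 : (w.2 : ℤ) ∣ α * (w.1 : ℤ) := ⟨-β, by linarith⟩
        have e3 := (h.cop w hw).symm.isUnit_of_dvd e2
        rw [Int.isUnit_iff] at e3
        omega
      obtain ⟨a1, a2, a3⟩ := hmemTA t ht.1
      obtain ⟨b1, b2, b3⟩ := hmemTA t' ht'.1
      simp only at htt
      apply Prod.ext _ htt
      apply Prod.ext
      · rw [a3, b3, htt]
      · rw [hone _ a1 ht.2, hone _ b1 ht'.2]
  have h1 : (T1.card : ℝ) ≤ (C2 * (1 + c) ^ (σ / 2) * C1 * (Z : ℝ) ^ σ) * S.card := by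
    have hmaps : ∀ t ∈ T1, t.1 ∈ S := by
      intro t ht
      rw [hT1, mem_filter] at ht
      exact (hmemTA t ht.1).1
    rw [card_eq_sum_card_fiberwise hmaps]
    push_cast
    have hB : ∀ w ∈ S, ((T1.filter (fun t => t.1 = w)).card : ℝ) ≤ C2 * (1 + c) ^ (σ / 2) * C1 * (Z : ℝ) ^ σ := by
      intro w hw
      rcases (T1.filter (fun t => t.1 = w)).eq_empty_or_nonempty with he | ⟨t0, ht0⟩
      · rw [he, card_empty, Nat.cast_zero]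
        positivity
      have hz0 : zf w ≠ 0 := by
        rw [mem_filter, hT1, mem_filter] at ht0
        rw [← ht0.2]
        exact ht0.1.2
      have hm2 : ∀ t ∈ T1.filter (fun t => t.1 = w), Int.gcd (zf t.1) (zf t.2) ∈ (zf w).natAbs.divisors := by
        intro t ht
        rw [mem_filter] at ht
        rw [Nat.mem_divisors]
        refine ⟨?_, Int.natAbs_ne_zero.mpr hz0⟩
        rw [ht.2]
        exact Int.gcd_dvd_natAbs_left _ _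
      rw [card_eq_sum_card_fiberwise hm2]
      push_cast
      have hN : ∀ g ∈ (zf w).natAbs.divisors, (((T1.filter (fun t => t.1 = w)).filter (fun t => Int.gcd (zf t.1) (zf t.2) = g)).card : ℝ) ≤
          C1 * (Z : ℝ) ^ (σ / 2) := by
        intro g _
        refine le_trans ?_ (hC1 h w hw g)
        have : ((T1.filter (fun t => t.1 = w)).filter (fun t => Int.gcd (zf t.1) (zf t.2) = g)) ⊆
            (TA S u zf).filter (fun t => t.1 = w ∧ Int.gcd (zf t.1) (zf t.2) = g) := by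
          intro t ht
          rw [mem_filter, mem_filter, hT1, mem_filter] at ht
          rw [mem_filter]
          exact ⟨ht.1.1.1, ht.1.2, ht.2⟩
        exact_mod_cast card_le_card this
      calc ∑ g ∈ (zf w).natAbs.divisors, (((T1.filter (fun t => t.1 = w)).filter (fun t => Int.gcd (zf t.1) (zf t.2) = g)).card : ℝ)
          ≤ ∑ g ∈ (zf w).natAbs.divisors, C1 * (Z : ℝ) ^ (σ / 2) := sum_le_sum hN
        _ = ((zf w).natAbs.divisors.card : ℝ) * (C1 * (Z : ℝ) ^ (σ / 2)) := by rw [sum_const, nsmul_eq_mul]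
        _ ≤ (C2 * ((1 + c) * Z) ^ (σ / 2)) * (C1 * (Z : ℝ) ^ (σ / 2)) := by
          gcongr
          refine (hC2 _ (Int.natAbs_ne_zero.mpr hz0)).trans ?_
          gcongr
          have h5 : ((zf w).natAbs : ℝ) ≤ c * Z := by
            rw [hc]
            exact_mod_cast h.zle hw
          linarith
        _ = C2 * (1 + c) ^ (σ / 2) * C1 * ((Z : ℝ) ^ (σ / 2) * (Z : ℝ) ^ (σ / 2)) := by
          rw [Real.mul_rpow (by positivity) hZ0.le]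
          ring
        _ = C2 * (1 + c) ^ (σ / 2) * C1 * (Z : ℝ) ^ σ := by
          rw [← Real.rpow_add hZ0]
          congr 2
          ring
    calc ∑ w ∈ S, ((T1.filter (fun t => t.1 = w)).card : ℝ) ≤ ∑ w ∈ S, C2 * (1 + c) ^ (σ / 2) * C1 * (Z : ℝ) ^ σ := sum_le_sum hB
      _ = (C2 * (1 + c) ^ (σ / 2) * C1 * (Z : ℝ) ^ σ) * S.card := by rw [sum_const, nsmul_eq_mul]; ring
  have h2 : ((TA S u zf).card : ℝ) = T0.card + T1.card := by exact_mod_cast hsplit.symm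
  have h3 : (T0.card : ℝ) ≤ S.card := by exact_mod_cast h0
  rw [h2]
  calc (T0.card : ℝ) + T1.card ≤ 1 * S.card + (C2 * (1 + c) ^ (σ / 2) * C1 * (Z : ℝ) ^ σ) * S.card := by linarith
    _ ≤ (Z : ℝ) ^ σ * S.card + (C2 * (1 + c) ^ (σ / 2) * C1 * (Z : ℝ) ^ σ) * S.card := by gcongr
    _ = (1 + C2 * (1 + c) ^ (σ / 2) * C1) * (Z : ℝ) ^ σ * S.card := by ring

end T3

end Pool.Agent.Lib.MP_d8bd92_nt
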