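import Pool.Agent.Lib.MP_d8bd92_nt.T3.U2
import Pool.Agent.Lib.MP_d8bd92_nt.T3.U3
import Pool.Agent.Lib.MP_d8bd92_nt.Hp.AlJ
import Pool.Agent.Lib.MP_d8bd92_nt.TwRad

set_option autoImplicit false

/-!
Phase 3: pairs of solutions with the same `m` and the same `u`, second case.
-/

namespace Pool.Agent.Lib.MP_d8bd92_nt

namespace T3

open Finset Pool.Agent.Lib.Szpiro

variable {α β : ℤ} {Z : ℕ} {RC RU RV : ℝ} {S : Finset (ℕ × ℕ)} {u v : ℕ × ℕ → ℕ} {zf : ℕ × ℕ → ℤ}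

/-- counting with two successive keys -/
theorem fiber2 {ι κ₁ κ₂ : Type} [DecidableEq ι] [DecidableEq κ₁] [DecidableEq κ₂] (T : Finset ι) (f : ι → κ₁) (K1 : Finset κ₁)
    (h1 : ∀ t ∈ T, f t ∈ K1) (g : ι → κ₂) (K2 : ι → Finset κ₂) (h2 : ∀ t ∈ T, g t ∈ K2 t)
    (h2' : ∀ t ∈ T, ∀ t' ∈ T, f t = f t' → K2 t = K2 t') (M N : ℕ)
    (hM : ∀ t ∈ T, (K2 t).card ≤ M) (hN : ∀ t0 ∈ T, (T.filter (fun t => f t = f t0 ∧ g t = g t0)).card ≤ N) :
    T.card ≤ (M * N) * K1.card := by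
  have e : T.card ≤ (M * N) * K1.card := by
    refine card_le_mul_card_image_of_maps_to h1 (M * N) ?_
    intro k _
    rcases (T.filter (fun t => f t = k)).eq_empty_or_nonempty with h0 | ⟨t0, ht0⟩
    · rw [h0, card_empty]
      exact Nat.zero_le _
    rw [mem_filter] at ht0
    have h3 : ∀ t ∈ T.filter (fun t => f t = k), g t ∈ K2 t0 := by
      intro t ht
      rw [mem_filter] at ht
      rw [← h2' t ht.1 t0 ht0.1 (ht.2.trans ht0.2.symm)]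
      exact h2 t ht.1
    have h4 := card_le_mul_card_image_of_maps_to h3 N ?_
    · calc (T.filter (fun t => f t = k)).card ≤ N * (K2 t0).card := h4
        _ ≤ N * M := Nat.mul_le_mul_left _ (hM t0 ht0.1)
        _ = M * N := Nat.mul_comm _ _
    · intro c _
      rcases ((T.filter (fun t => f t = k)).filter (fun t => g t = c)).eq_empty_or_nonempty with h5 | ⟨t1, ht1⟩
      · rw [h5, card_empty]
        exact Nat.zero_le _
      rw [mem_filter, mem_filter] at ht1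
      refine le_trans (card_le_card ?_) (hN t1 ht1.1.1)
      intro t ht
      rw [mem_filter, mem_filter] at ht
      rw [mem_filter]
      exact ⟨ht.1.1, ht.1.2.trans ht1.1.2.symm, ht.2.trans ht1.2.symm⟩
  exact e

/-- numbers up to `Z` with small radical -/
noncomputable def RR (Z : ℕ) (X : ℝ) : Finset ℕ := by
  classical
  exact (Icc 1 Z).filter (fun n => (rd n : ℝ) ≤ X)

theorem mem_RR {Z : ℕ} {X : ℝ} {n : ℕ} : n ∈ RR Z X ↔ 1 ≤ n ∧ n ≤ Z ∧ (rd n : ℝ) ≤ X := by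
  classical
  unfold RR
  rw [mem_filter, mem_Icc]
  tauto

theorem card_RR (ε : ℝ) (hε : 0 < ε) : ∃ C : ℝ, 1 ≤ C ∧ ∀ (Z : ℕ) (X : ℝ), 1 ≤ Z → 1 ≤ X →
    ((RR Z X).card : ℝ) ≤ C * (Z : ℝ) ^ ε * X := by
  obtain ⟨C, hC, h⟩ := Hp.card_rad_le ε hε
  refine ⟨max C 1, le_max_right _ _, fun Z X hZ hX => ?_⟩
  have h1 := h Z X (RR Z X) (by exact_mod_cast hZ) hX (fun n hn => by
    rw [mem_RR] at hn
    exact ⟨hn.1, by exact_mod_cast hn.2.1, hn.2.2⟩)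
  refine h1.trans ?_
  gcongr
  exact le_max_left _ _

/-- the second case: `gcd (z, z') u < |z'|` -/
def TB (S : Finset (ℕ × ℕ)) (u : ℕ × ℕ → ℕ) (zf : ℕ × ℕ → ℤ) : Finset ((ℕ × ℕ) × (ℕ × ℕ)) :=
  (TT S u).filter (fun t => ¬ (zf t.2).natAbs ≤ Int.gcd (zf t.1) (zf t.2) * u t.1)

/-- the data chosen for the pairs -/
structure DD (α β : ℤ) (S : Finset (ℕ × ℕ)) (u v : ℕ × ℕ → ℕ) (zf : ℕ × ℕ → ℤ)
    (T : Finset ((ℕ × ℕ) × (ℕ × ℕ))) (G : (ℕ × ℕ) × (ℕ × ℕ) → ℕ)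
    (X X' D E : (ℕ × ℕ) × (ℕ × ℕ) → ℤ) (U1 U2 : (ℕ × ℕ) × (ℕ × ℕ) → ℕ) : Prop where
  sub : ∀ t ∈ T, t ∈ TT S u
  G1 : ∀ t ∈ T, 1 ≤ G t
  z1 : ∀ t ∈ T, zf t.1 = G t * X t
  z2 : ∀ t ∈ T, zf t.2 = G t * X' t
  cop : ∀ t ∈ T, IsCoprime (X t) (X' t)
  uu : ∀ t ∈ T, u t.1 = U1 t * U2 t
  cU : ∀ t ∈ T, Nat.Coprime (U1 t) (U2 t)
  d : ∀ t ∈ T, X t - X' t = D t * U1 t
  q : ∀ t ∈ T, qf (X t) (X' t) = E t * U2 t
  de : ∀ t ∈ T, (G t : ℤ) ^ 3 * (D t * E t) = β * ((v t.1 : ℤ) - v t.2)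

theorem DD.ne (hU : UD α β Z RC RU RV S u v zf) {T : Finset ((ℕ × ℕ) × (ℕ × ℕ))} {G : (ℕ × ℕ) × (ℕ × ℕ) → ℕ}
    {X X' D E : (ℕ × ℕ) × (ℕ × ℕ) → ℤ} {U1 U2 : (ℕ × ℕ) × (ℕ × ℕ) → ℕ} (h : DD α β S u v zf T G X X' D E U1 U2)
    {t : (ℕ × ℕ) × (ℕ × ℕ)} (ht : t ∈ T) : β * ((v t.1 : ℤ) - v t.2) ≠ 0 ∧ D t ≠ 0 ∧ E t ≠ 0 ∧ (G t : ℤ) ≠ 0 ∧
      (β * ((v t.1 : ℤ) - v t.2)).natAbs ≤ β.natAbs * Z ∧ 1 ≤ U1 t ∧ 1 ≤ U2 t ∧ X t ≠ X' t := by
  have htt := h.sub t ht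
  have hv := hU.vne htt
  have h1 : β * ((v t.1 : ℤ) - v t.2) ≠ 0 := by
    apply mul_ne_zero hU.β0
    intro h0
    apply hv
    have : (v t.1 : ℤ) = v t.2 := by linarith
    exact_mod_cast this
  have h2 := h.de t ht
  rw [← h2] at h1
  have h3 := (mul_ne_zero_iff.mp h1)
  have h4 := (mul_ne_zero_iff.mp h3.2)
  rw [mem_TT] at htt
  have hu := h.uu t ht
  have hu1 := hU.u1 htt.1
  have hU1 : 1 ≤ U1 t := by
    by_contra hcon
    have h0 : U1 t = 0 := by omega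
    rw [h0, zero_mul] at hu
    omega
  have hU2 : 1 ≤ U2 t := by
    by_contra hcon
    have h0 : U2 t = 0 := by omega
    rw [h0, mul_zero] at hu
    omega
  refine ⟨by rw [← h2]; exact h1, h4.1, h4.2, by have := h.G1 t ht; exact_mod_cast (by omega : G t ≠ 0), ?_, hU1, hU2, ?_⟩
  · rw [Int.natAbs_mul]
    apply Nat.mul_le_mul_left
    have a1 := hU.v1 htt.1
    have a2 := hU.vZ htt.1
    have b1 := hU.v1 htt.2.1
    have b2 := hU.vZ htt.2.1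
    omega
  · intro hx
    have h5 := h.d t ht
    rw [hx, sub_self] at h5
    have h6 : (U1 t : ℤ) ≠ 0 := by exact_mod_cast (by omega : U1 t ≠ 0)
    exact (mul_ne_zero h4.1 h6) h5.symm

/-- everything is determined by the keys and `(X, X')` -/
theorem DD.det (hU : UD α β Z RC RU RV S u v zf) {T : Finset ((ℕ × ℕ) × (ℕ × ℕ))} {G : (ℕ × ℕ) × (ℕ × ℕ) → ℕ}
    {X X' D E : (ℕ × ℕ) × (ℕ × ℕ) → ℤ} {U1 U2 : (ℕ × ℕ) × (ℕ × ℕ) → ℕ} (h : DD α β S u v zf T G X X' D E U1 U2)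
    {t t' : (ℕ × ℕ) × (ℕ × ℕ)} (ht : t ∈ T) (ht' : t' ∈ T) (hv : v t.1 = v t'.1) (hv' : v t.2 = v t'.2)
    (hG : G t = G t') (hX : X t = X t') (hX' : X' t = X' t') (hD : D t = D t') : t = t' := by
  obtain ⟨n1, n2, n3, n4, n5, n6, n7, n8⟩ := h.ne hU ht
  have e1 := h.de t ht
  have e2 := h.de t' ht'
  rw [← hv, ← hv', ← hG, ← hD] at e2
  have hE : E t = E t' := by
    have h3 : (G t : ℤ) ^ 3 * (D t * E t) = (G t : ℤ) ^ 3 * (D t * E t') := by rw [e1, e2]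
    exact mul_left_cancel₀ n2 (mul_left_cancel₀ (pow_ne_zero 3 n4) h3)
  have hU1 : U1 t = U1 t' := by
    have a1 := h.d t ht
    have a2 := h.d t' ht'
    rw [← hX, ← hX', ← hD] at a2
    have a3 : D t * (U1 t : ℤ) = D t * (U1 t' : ℤ) := by rw [← a1, ← a2]
    exact_mod_cast mul_left_cancel₀ n2 a3
  have hU2 : U2 t = U2 t' := by
    have a1 := h.q t ht
    have a2 := h.q t' ht'
    rw [← hX, ← hX', ← hE] at a2
    have a3 : E t * (U2 t : ℤ) = E t * (U2 t' : ℤ) := by rw [← a1, ← a2]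
    exact_mod_cast mul_left_cancel₀ n3 a3
  have htt := mem_TT.mp (h.sub t ht)
  have htt' := mem_TT.mp (h.sub t' ht')
  have huu : u t.1 = u t'.1 := by rw [h.uu t ht, h.uu t' ht', hU1, hU2]
  have huu2 : u t.2 = u t'.2 := by rw [← htt.2.2.2.1, ← htt'.2.2.2.1, huu]
  have hz1 : zf t.1 = zf t'.1 := by rw [h.z1 t ht, h.z1 t' ht', hG, hX]
  have hn1 : t.1.2 = t'.1.2 := by rw [hU.fac _ htt.1, hU.fac _ htt'.1, huu, hv]
  have hn2 : t.2.2 = t'.2.2 := by rw [hU.fac _ htt.2.1, hU.fac _ htt'.2.1, huu2, hv']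
  have hm1 : t.1.1 = t'.1.1 := by
    have b1 := hU.z _ htt.1
    have b2 := hU.z _ htt'.1
    rw [← hz1, ← hn1] at b2
    have b3 : α * (t.1.1 : ℤ) = α * (t'.1.1 : ℤ) := by linarith
    exact_mod_cast mul_left_cancel₀ hU.α0 b3
  have hm2 : t.2.1 = t'.2.1 := by rw [← htt.2.2.1, ← htt'.2.2.1, hm1]
  exact Prod.ext (Prod.ext hm1 hn1) (Prod.ext hm2 hn2)

/-- the inner key -/
def ikey (G : (ℕ × ℕ) × (ℕ × ℕ) → ℕ) (D : (ℕ × ℕ) × (ℕ × ℕ) → ℤ) (t : (ℕ × ℕ) × (ℕ × ℕ)) : ℕ × ℕ × Bool :=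
  (G t, (D t).natAbs, decide (0 ≤ D t))

theorem ikey_eq {G : (ℕ × ℕ) × (ℕ × ℕ) → ℕ} {D : (ℕ × ℕ) × (ℕ × ℕ) → ℤ} {t t' : (ℕ × ℕ) × (ℕ × ℕ)}
    (h : ikey G D t = ikey G D t') : G t = G t' ∧ D t = D t' := by
  simp only [ikey, Prod.mk.injEq, decide_eq_decide] at h
  exact ⟨h.1, by omega⟩

/-- the set of the inner keys -/
def iset (β : ℤ) (v : ℕ × ℕ → ℕ) (t : (ℕ × ℕ) × (ℕ × ℕ)) : Finset (ℕ × ℕ × Bool) :=
  (β * ((v t.1 : ℤ) - v t.2)).natAbs.divisors ×ˢ (β * ((v t.1 : ℤ) - v t.2)).natAbs.divisors ×ˢ (Finset.univ : Finset Bool)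

theorem DD.ikey_mem (hU : UD α β Z RC RU RV S u v zf) {T : Finset ((ℕ × ℕ) × (ℕ × ℕ))} {G : (ℕ × ℕ) × (ℕ × ℕ) → ℕ}
    {X X' D E : (ℕ × ℕ) × (ℕ × ℕ) → ℤ} {U1 U2 : (ℕ × ℕ) × (ℕ × ℕ) → ℕ} (h : DD α β S u v zf T G X X' D E U1 U2)
    {t : (ℕ × ℕ) × (ℕ × ℕ)} (ht : t ∈ T) : ikey G D t ∈ iset β v t := by
  obtain ⟨n1, n2, n3, n4, n5, n6, n7, n8⟩ := h.ne hU ht
  have e1 := h.de t ht
  unfold ikey iset
  rw [mem_product, mem_product, Nat.mem_divisors, Nat.mem_divisors]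
  refine ⟨⟨?_, Int.natAbs_ne_zero.mpr n1⟩, ⟨?_, Int.natAbs_ne_zero.mpr n1⟩, mem_univ _⟩
  · have h2 : ((G t : ℕ) : ℤ) ∣ β * ((v t.1 : ℤ) - v t.2) := by
      rw [← e1]
      exact Dvd.dvd.mul_right (dvd_pow_self _ (by norm_num)) _
    have h3 := Int.natAbs_dvd_natAbs.mpr h2
    simpa using h3
  · have h2 : D t ∣ β * ((v t.1 : ℤ) - v t.2) := by
      rw [← e1]
      exact Dvd.dvd.mul_left (dvd_mul_right _ _) _
    exact Int.natAbs_dvd_natAbs.mpr h2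

/-- the size of `x + y` -/
theorem num_bound (x y e : ℤ) (w : ℕ) (hw : 1 ≤ w) (hq : qf x y = e * w) (hy : (w : ℤ) < |y|) (he : 0 < e) :
    3 * |x + y| ≤ 4 * e := by
  have hU2p : (0 : ℤ) < w := by exact_mod_cast hw
  have f1 : 3 * y ^ 2 ≤ 4 * (e * w) := by
    have := qf_four' x y
    rw [hq] at this
    have h2 := sq_nonneg (2 * x + y)
    linarith
  have f2 : 3 * (x + y) ^ 2 ≤ 4 * (e * w) := by
    have := qf_four x y
    rw [hq] at this
    have h2 := sq_nonneg (x - y)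
    linarith
  have f3 : 3 * |y| ≤ 4 * e := by
    have g1 : 3 * |y| * w ≤ 4 * e * w := by
      calc 3 * |y| * w ≤ 3 * |y| * |y| := by
            apply mul_le_mul_of_nonneg_left hy.le
            positivity
        _ = 3 * y ^ 2 := by rw [mul_assoc, abs_mul_abs_self, sq]
        _ ≤ 4 * (e * w) := f1
        _ = 4 * e * w := by ring
    exact le_of_mul_le_mul_right g1 hU2p
  have f4 : (3 * |x + y|) ^ 2 ≤ (4 * e) ^ 2 := by
    calc (3 * |x + y|) ^ 2 = 3 * (3 * (x + y) ^ 2) := by rw [mul_pow, sq_abs]; ring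
      _ ≤ 3 * (4 * (e * w)) := by linarith
      _ = 4 * e * (3 * w) := by ring
      _ ≤ 4 * e * (3 * |y|) := by
        apply mul_le_mul_of_nonneg_left _ (by linarith)
        linarith
      _ ≤ 4 * e * (4 * e) := by
        apply mul_le_mul_of_nonneg_left f3 (by linarith)
      _ = (4 * e) ^ 2 := by ring
  exact (pow_le_pow_iff_left₀ (by positivity) (by linarith) (by norm_num)).mp f4

/-- the two halves of the second case, with a bound for the divisor function up to the sizes in question -/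
theorem half_card (hU : UD α β Z RC RU RV S u v zf) {T : Finset ((ℕ × ℕ) × (ℕ × ℕ))} {G : (ℕ × ℕ) × (ℕ × ℕ) → ℕ}
    {X X' D E : (ℕ × ℕ) × (ℕ × ℕ) → ℤ} {U1 U2 : (ℕ × ℕ) × (ℕ × ℕ) → ℕ} (h : DD α β S u v zf T G X X' D E U1 U2)
    (Dv : ℕ) (hDv : ∀ n : ℕ, n ≠ 0 → n ≤ (3 + β.natAbs) * (((α.natAbs + β.natAbs) * Z) ^ 2) → n.divisors.card ≤ Dv)
    (hbig : ∀ t ∈ T, ¬ (zf t.2).natAbs ≤ Int.gcd (zf t.1) (zf t.2) * u t.1) (W : (ℕ × ℕ) × (ℕ × ℕ) → ℕ)
    (hW : (∀ t ∈ T, W t = U2 t) ∨ (∀ t ∈ T, W t = U1 t)) (Q : ℝ) (hQ : ∀ t ∈ T, (rd (W t) : ℝ) ≤ Q) :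
    T.card ≤ ((Dv * (Dv * 2)) * (26 * Dv)) * ((RR Z RV).card * ((RR Z RV).card * (RR Z Q).card)) := by
  classical
  have hα1 : 1 ≤ α.natAbs := Int.natAbs_pos.mpr hU.α0
  have hβ1 : 1 ≤ β.natAbs := Int.natAbs_pos.mpr hU.β0
  have hsz : β.natAbs * Z ≤ (3 + β.natAbs) * (((α.natAbs + β.natAbs) * Z) ^ 2) := by
    have h1 : Z ≤ ((α.natAbs + β.natAbs) * Z) ^ 2 := by
      calc Z ≤ (α.natAbs + β.natAbs) * Z := Nat.le_mul_of_pos_left _ (by omega)
        _ ≤ ((α.natAbs + β.natAbs) * Z) ^ 2 := Nat.le_self_pow (by norm_num) _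
    exact Nat.mul_le_mul (by omega) h1
  have hcardK : ((RR Z RV) ×ˢ (RR Z RV) ×ˢ (RR Z Q)).card = (RR Z RV).card * ((RR Z RV).card * (RR Z Q).card) := by
    rw [card_product, card_product]
  rw [← hcardK]
  have hWU : ∀ t ∈ T, 1 ≤ W t ∧ W t ≤ Z := by
    intro t ht
    obtain ⟨n1, n2, n3, n4, n5, n6, n7, n8⟩ := h.ne hU ht
    have htt := mem_TT.mp (h.sub t ht)
    have huZ := hU.uZ htt.1
    rw [h.uu t ht] at huZ
    rcases hW with hW | hW
    · rw [hW t ht]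
      exact ⟨n7, le_trans (Nat.le_mul_of_pos_left _ (by omega)) huZ⟩
    · rw [hW t ht]
      exact ⟨n6, le_trans (Nat.le_mul_of_pos_right _ (by omega)) huZ⟩
  refine fiber2 T (fun t => (v t.1, v t.2, W t)) ((RR Z RV) ×ˢ (RR Z RV) ×ˢ (RR Z Q)) ?_ (ikey G D) (iset β v)
    (fun t ht => h.ikey_mem hU ht) ?_ (Dv * (Dv * 2)) (26 * Dv) ?_ ?_
  · intro t ht
    have htt := mem_TT.mp (h.sub t ht)
    rw [mem_product, mem_product, mem_RR, mem_RR, mem_RR]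
    exact ⟨⟨hU.v1 htt.1, hU.vZ htt.1, hU.rv _ htt.1⟩, ⟨hU.v1 htt.2.1, hU.vZ htt.2.1, hU.rv _ htt.2.1⟩,
      ⟨(hWU t ht).1, (hWU t ht).2, hQ t ht⟩⟩
  · intro t ht t' ht' hk
    simp only [Prod.mk.injEq] at hk
    unfold iset
    rw [hk.1, hk.2.1]
  · intro t ht
    obtain ⟨n1, n2, n3, n4, n5, n6, n7, n8⟩ := h.ne hU ht
    unfold iset
    rw [card_product, card_product, card_univ, Fintype.card_bool]
    have h1 := hDv _ (Int.natAbs_ne_zero.mpr n1) (n5.trans hsz)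
    exact Nat.mul_le_mul h1 (Nat.mul_le_mul_right _ h1)
  · intro t0 ht0
    obtain ⟨n1, n2, n3, n4, n5, n6, n7, n8⟩ := h.ne hU ht0
    set F := T.filter (fun t => (v t.1, v t.2, W t) = (v t0.1, v t0.2, W t0) ∧ ikey G D t = ikey G D t0) with hF
    have hmem : ∀ t ∈ F, t ∈ T ∧ v t.1 = v t0.1 ∧ v t.2 = v t0.2 ∧ W t = W t0 ∧ G t = G t0 ∧ D t = D t0 ∧ E t = E t0 := by
      intro t ht
      rw [hF, mem_filter] at ht
      obtain ⟨a1, a2, a3⟩ := ht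
      simp only [Prod.mk.injEq] at a2
      obtain ⟨a4, a5⟩ := ikey_eq a3
      refine ⟨a1, a2.1, a2.2.1, a2.2.2, a4, a5, ?_⟩
      have e1 := h.de t a1
      have e2 := h.de t0 ht0
      rw [a2.1, a2.2.1, a4, a5, ← e2] at e1
      exact mul_left_cancel₀ n2 (mul_left_cancel₀ (pow_ne_zero 3 n4) e1)
    have hinj : Set.InjOn (fun t => (X t, X' t)) (F : Set ((ℕ × ℕ) × (ℕ × ℕ))) := by
      intro t ht t' ht' htt
      rw [mem_coe] at ht ht'
      obtain ⟨a1, a2, a3, a4, a5, a6, a7⟩ := hmem t ht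
      obtain ⟨b1, b2, b3, b4, b5, b6, b7⟩ := hmem t' ht'
      simp only [Prod.mk.injEq] at htt
      exact h.det hU a1 b1 (a2.trans b2.symm) (a3.trans b3.symm) (a5.trans b5.symm) htt.1 htt.2 (a6.trans b6.symm)
    rw [← card_image_of_injOn hinj]
    -- sizes
    have hXsz : ∀ t ∈ T, (X t).natAbs ≤ (α.natAbs + β.natAbs) * Z ∧ (X' t).natAbs ≤ (α.natAbs + β.natAbs) * Z := by
      intro t ht
      have htt := mem_TT.mp (h.sub t ht)
      have g1 := h.G1 t ht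
      have c1 := hU.zle htt.1
      have c2 := hU.zle htt.2.1
      rw [h.z1 t ht, Int.natAbs_mul, Int.natAbs_natCast] at c1
      rw [h.z2 t ht, Int.natAbs_mul, Int.natAbs_natCast] at c2
      exact ⟨le_trans (Nat.le_mul_of_pos_left _ (by omega)) c1, le_trans (Nat.le_mul_of_pos_left _ (by omega)) c2⟩
    have hqsz : ∀ t ∈ T, (qf (X t) (X' t)).natAbs ≤ 3 * (((α.natAbs + β.natAbs) * Z) ^ 2) := by
      intro t ht
      obtain ⟨c1, c2⟩ := hXsz t ht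
      unfold qf
      set L := (α.natAbs + β.natAbs) * Z
      calc ((X t) ^ 2 + X t * X' t + (X' t) ^ 2).natAbs ≤ ((X t) ^ 2 + X t * X' t).natAbs + ((X' t) ^ 2).natAbs := Int.natAbs_add_le _ _
        _ ≤ ((X t) ^ 2).natAbs + (X t * X' t).natAbs + ((X' t) ^ 2).natAbs := by
          gcongr
          exact Int.natAbs_add_le _ _
        _ = (X t).natAbs ^ 2 + (X t).natAbs * (X' t).natAbs + (X' t).natAbs ^ 2 := by
          rw [Int.natAbs_pow, Int.natAbs_mul, Int.natAbs_pow]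
        _ ≤ L ^ 2 + L * L + L ^ 2 := by gcongr
        _ = 3 * L ^ 2 := by ring
    rcases hW with hW | hW
    · -- `W = U2`
      have hq : ∀ t ∈ F, qf (X t) (X' t) = qf (X t0) (X' t0) := by
        intro t ht
        obtain ⟨a1, a2, a3, a4, a5, a6, a7⟩ := hmem t ht
        rw [h.q t a1, h.q t0 ht0, a7, ← hW t a1, ← hW t0 ht0, a4]
      have hpos : 0 < qf (X t0) (X' t0) := qf_pos n8
      have h1 := qf_count (qf (X t0) (X' t0)) hpos (F.image (fun t => (X t, X' t))) (by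
        intro x hx
        obtain ⟨t, ht, rfl⟩ := mem_image.mp hx
        exact ⟨h.cop t (hmem t ht).1, hq t ht⟩)
      refine h1.trans (Nat.mul_le_mul_left _ ?_)
      apply hDv _ (by omega)
      refine (hqsz t0 ht0).trans (Nat.mul_le_mul_right _ (by omega))
    · -- `W = U1`
      have hE1 : 1 ≤ (E t0).natAbs := Int.natAbs_pos.mpr n3
      have h1 := diff_count (E t0).natAbs hE1 (D t0 * U1 t0) (F.image (fun t => (X t, X' t))) (by
        intro x hx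
        obtain ⟨t, ht, rfl⟩ := mem_image.mp hx
        obtain ⟨a1, a2, a3, a4, a5, a6, a7⟩ := hmem t ht
        obtain ⟨k1, k2, k3, k4, k5, k6, k7, k8⟩ := h.ne hU a1
        have hq := h.q t a1
        have hqp := qf_pos k8
        refine ⟨h.cop t a1, ?_, ?_, ?_⟩
        · rw [← Int.natAbs_dvd_natAbs, Int.natAbs_natCast, Int.natAbs_dvd_natAbs, ← a7]
          show E t ∣ qf (X t) (X' t)
          rw [hq]
          exact dvd_mul_right _ _
        · show X t - X' t = D t0 * U1 t0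
          rw [h.d t a1, a6, ← hW t a1, ← hW t0 ht0, a4]
        · show 3 * |X t + X' t| ≤ 4 * (((E t0).natAbs : ℕ) : ℤ)
          rw [← a7]
          -- `|X'| > U2`
          have hb := hbig t a1
          push Not at hb
          have hgcd : Int.gcd (zf t.1) (zf t.2) = G t := by
            rw [h.z1 t a1, h.z2 t a1, Int.gcd_mul_left, Int.isCoprime_iff_gcd_eq_one.mp (h.cop t a1), mul_one,
              Int.natAbs_natCast]
          rw [hgcd, h.z2 t a1, Int.natAbs_mul, Int.natAbs_natCast] at hb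
          have hG1 := h.G1 t a1
          have hb2 : u t.1 < (X' t).natAbs := Nat.lt_of_mul_lt_mul_left hb
          have hb3 : U2 t < (X' t).natAbs := by
            refine lt_of_le_of_lt ?_ hb2
            rw [h.uu t a1]
            exact Nat.le_mul_of_pos_left _ (by omega)
          have hEpos : 0 < E t := by
            have hU2p : (0 : ℤ) < U2 t := by exact_mod_cast k7
            rw [hq] at hqp
            exact pos_of_mul_pos_left hqp hU2p.le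
          have hEabs : (((E t).natAbs : ℕ) : ℤ) = E t := by omega
          rw [hEabs]
          have hU2lt : (U2 t : ℤ) < |X' t| := by
            rw [Int.abs_eq_natAbs]
            exact_mod_cast hb3
          exact num_bound (X t) (X' t) (E t) (U2 t) k7 hq hU2lt hEpos)
      refine h1.trans ?_
      have h2 : (E t0).natAbs.divisors.card ≤ Dv := by
        apply hDv _ (by omega)
        have e1 := h.q t0 ht0
        have e2 := hqsz t0 ht0
        rw [e1, Int.natAbs_mul, Int.natAbs_natCast] at e2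
        calc (E t0).natAbs ≤ (E t0).natAbs * U2 t0 := Nat.le_mul_of_pos_right _ (by omega)
          _ ≤ 3 * (((α.natAbs + β.natAbs) * Z) ^ 2) := e2
          _ ≤ (3 + β.natAbs) * (((α.natAbs + β.natAbs) * Z) ^ 2) := Nat.mul_le_mul_right _ (by omega)
      calc 17 * (E t0).natAbs.divisors.card ≤ 17 * Dv := Nat.mul_le_mul_left _ h2
        _ ≤ 26 * Dv := Nat.mul_le_mul_right _ (by norm_num)

end T3

end Pool.Agent.Lib.MP_d8bd92_nt
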