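import Pool.Agent.Lib.MP_d8bd92_nt.T3.U4

set_option autoImplicit false

/-!
Phase 3: the key inequality for pairs whose second member has a divisor `u` prime to 3.
-/

namespace Pool.Agent.Lib.MP_d8bd92_nt

namespace T3

open Finset Pool.Agent.Lib.Szpiro

/-- Cauchy-Schwarz for the fibres of a map -/
theorem cs_fib {ι κ : Type} [DecidableEq ι] [DecidableEq κ] (S : Finset ι) (f : ι → κ) :
    (S.card : ℝ) ^ 2 ≤ ((S.image f).card : ℝ) * (((S ×ˢ S).filter (fun t => f t.1 = f t.2)).card : ℝ) := by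
  have h1 : S.card = ∑ k ∈ S.image f, (S.filter (fun w => f w = k)).card :=
    card_eq_sum_card_fiberwise (fun w hw => mem_image_of_mem f hw)
  have h2 : ((S ×ˢ S).filter (fun t => f t.1 = f t.2)).card =
      ∑ k ∈ S.image f, (((S ×ˢ S).filter (fun t => f t.1 = f t.2)).filter (fun t => f t.1 = k)).card :=
    card_eq_sum_card_fiberwise (fun t ht => by
      have ht := mem_coe.mp ht
      rw [mem_filter, mem_product] at ht
      exact mem_image_of_mem f ht.1.1)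
  have h3 : ∀ k ∈ S.image f, (((S ×ˢ S).filter (fun t => f t.1 = f t.2)).filter (fun t => f t.1 = k)).card =
      (S.filter (fun w => f w = k)).card ^ 2 := by
    intro k _
    rw [sq, ← card_product]
    congr 1
    ext t
    rw [mem_filter, mem_filter, mem_product, mem_product, mem_filter, mem_filter]
    constructor
    · rintro ⟨⟨⟨a1, a2⟩, a3⟩, a4⟩
      exact ⟨⟨a1, a4⟩, ⟨a2, by rw [← a3]; exact a4⟩⟩
    · rintro ⟨⟨a1, a4⟩, ⟨a2, a5⟩⟩
      exact ⟨⟨⟨a1, a2⟩, by rw [a4, a5]⟩, a4⟩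
  rw [h1, h2, sum_congr rfl h3]
  push_cast
  exact sq_sum_le_card_mul_sum_sq

theorem quad_solve (x a b : ℝ) (ha : 0 ≤ a) (hb : 0 ≤ b) (hx : 0 ≤ x) (h : x ^ 2 ≤ a * x + b ^ 2) : x ≤ a + b := by
  by_contra hcon
  push Not at hcon
  have h1 : a * x + b ^ 2 < x ^ 2 := by
    have h2 : 0 < x - a - b := by linarith
    nlinarith [mul_nonneg hb ha, mul_nonneg hx hb]
  linarith

open scoped Classical in
theorem unitary_count (α β : ℤ) (σ : ℝ) (hσ : 0 < σ) : ∃ C : ℝ, 1 ≤ C ∧ ∀ {Z : ℕ} {RC RU RV : ℝ}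
    {S : Finset (ℕ × ℕ)} {u v : ℕ × ℕ → ℕ} {zf : ℕ × ℕ → ℤ}, 1 ≤ RC → 1 ≤ RU → 1 ≤ RV → UD α β Z RC RU RV S u v zf →
    (S.card : ℝ) ≤ C * (Z : ℝ) ^ σ * (RC * RU + √RC * RV * RU ^ (3 / 4 : ℝ)) := by
  obtain ⟨CA, hCA, hTA⟩ := TA_card (σ / 10) (by positivity) α β
  obtain ⟨CR, hCR, hRR⟩ := card_RR (σ / 10) (by positivity)
  obtain ⟨CD, hCD, hdiv⟩ := card_divisors_le_rpow (σ / 10) (by positivity)
  set c0 : ℝ := (3 + (β.natAbs : ℝ)) * ((α.natAbs : ℝ) + β.natAbs) ^ 2 + 1 with hc0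
  have hc01 : 1 ≤ c0 := by
    have : 0 ≤ (3 + (β.natAbs : ℝ)) * ((α.natAbs : ℝ) + β.natAbs) ^ 2 := by positivity
    linarith
  set CE : ℝ := CD * c0 ^ (σ / 10) with hCE
  have hCE1 : 1 ≤ CE := one_le_mul_of_one_le_of_one_le hCD (Real.one_le_rpow hc01 (by positivity))
  set CB : ℝ := 104 * CE ^ 3 * CR ^ 3 with hCB
  have hCB1 : 1 ≤ CB := by
    have h1 : 1 ≤ CE ^ 3 := one_le_pow₀ hCE1
    have h2 : 1 ≤ CR ^ 3 := one_le_pow₀ hCR
    have h3 : 1 ≤ CE ^ 3 * CR ^ 3 := one_le_mul_of_one_le_of_one_le h1 h2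
    rw [hCB]
    nlinarith
  refine ⟨CR ^ 2 * (1 + CA) + CR * (1 + CB), ?_, ?_⟩
  · have h1 : 1 ≤ CR ^ 2 := one_le_pow₀ hCR
    have h2 : 0 ≤ CR * (1 + CB) := by positivity
    nlinarith
  intro Z RC RU RV S u v zf hRC hRU hRV hU
  have hZ1 : (1 : ℝ) ≤ Z := by exact_mod_cast hU.Z1
  have hZ0 : (0 : ℝ) < Z := by linarith
  set A : ℝ := (Z : ℝ) ^ (σ / 10) with hA
  have hA1 : 1 ≤ A := Real.one_le_rpow hZ1 (by positivity)
  have hA0 : 0 < A := by linarith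
  have hRC0 : 0 < RC := by linarith
  have hRU0 : 0 < RU := by linarith
  have hRV0 : 0 < RV := by linarith
  have hsU : 1 ≤ √RU := by rw [Real.one_le_sqrt]; exact hRU
  -- the divisor bound
  set Dv : ℕ := ⌊CE * A ^ 2⌋₊ with hDv
  have hDvle : (Dv : ℝ) ≤ CE * A ^ 2 := Nat.floor_le (by positivity)
  have hDvp : ∀ n : ℕ, n ≠ 0 → n ≤ (3 + β.natAbs) * (((α.natAbs + β.natAbs) * Z) ^ 2) → n.divisors.card ≤ Dv := by
    intro n hn hnle
    rw [hDv]
    apply Nat.le_floor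
    refine (hdiv n hn).trans ?_
    have h1 : (n : ℝ) ≤ c0 * (Z : ℝ) ^ 2 := by
      calc (n : ℝ) ≤ (((3 + β.natAbs) * (((α.natAbs + β.natAbs) * Z) ^ 2) : ℕ) : ℝ) := by exact_mod_cast hnle
        _ = ((3 + (β.natAbs : ℝ)) * ((α.natAbs : ℝ) + β.natAbs) ^ 2) * (Z : ℝ) ^ 2 := by push_cast; ring
        _ ≤ c0 * (Z : ℝ) ^ 2 := by
          gcongr
          linarith
    have h2 : (n : ℝ) ^ (σ / 10) ≤ c0 ^ (σ / 10) * A ^ 2 := by
      calc (n : ℝ) ^ (σ / 10) ≤ (c0 * (Z : ℝ) ^ 2) ^ (σ / 10) := Real.rpow_le_rpow (by positivity) h1 (by positivity)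
        _ = c0 ^ (σ / 10) * ((Z : ℝ) ^ 2) ^ (σ / 10) := Real.mul_rpow (by positivity) (by positivity)
        _ = c0 ^ (σ / 10) * A ^ 2 := by
          rw [hA, ← Real.rpow_natCast (Z : ℝ) 2, ← Real.rpow_mul hZ0.le, ← Real.rpow_natCast ((Z : ℝ) ^ (σ / 10)) 2,
            ← Real.rpow_mul hZ0.le]
          congr 2
          push_cast
          ring
    calc CD * (n : ℝ) ^ (σ / 10) ≤ CD * (c0 ^ (σ / 10) * A ^ 2) := by gcongr
      _ = CE * A ^ 2 := by rw [hCE]; ring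
  -- the image
  have himg : ((S.image (fun w => (w.1, u w))).card : ℝ) ≤ CR ^ 2 * A ^ 2 * (RC * RU) := by
    have h1 : S.image (fun w => (w.1, u w)) ⊆ (RR Z RC) ×ˢ (RR Z RU) := by
      intro x hx
      obtain ⟨w, hw, rfl⟩ := mem_image.mp hx
      rw [mem_product, mem_RR, mem_RR]
      exact ⟨⟨hU.m1 w hw, hU.mZ w hw, hU.rc w hw⟩, ⟨hU.u1 hw, hU.uZ hw, hU.ru w hw⟩⟩
    calc ((S.image (fun w => (w.1, u w))).card : ℝ) ≤ (((RR Z RC) ×ˢ (RR Z RU)).card : ℝ) := by exact_mod_cast card_le_card h1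
      _ = ((RR Z RC).card : ℝ) * ((RR Z RU).card : ℝ) := by rw [card_product]; push_cast; ring
      _ ≤ (CR * A * RC) * (CR * A * RU) := by
        gcongr
        · exact hRR Z RC hU.Z1 hRC
        · exact hRR Z RU hU.Z1 hRU
      _ = CR ^ 2 * A ^ 2 * (RC * RU) := by ring
  -- the pairs
  have hpairs : (((S ×ˢ S).filter (fun t => (t.1.1, u t.1) = (t.2.1, u t.2))).card : ℝ) ≤ S.card + (TT S u).card := by
    have h1 : (S ×ˢ S).filter (fun t => (t.1.1, u t.1) = (t.2.1, u t.2)) ⊆ (S.image (fun w => (w, w))) ∪ TT S u := by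
      intro t ht
      rw [mem_filter, mem_product] at ht
      simp only [Prod.mk.injEq] at ht
      rw [mem_union]
      by_cases h2 : t.1 = t.2
      · left
        rw [mem_image]
        exact ⟨t.1, ht.1.1, Prod.ext rfl h2⟩
      · right
        rw [mem_TT]
        exact ⟨ht.1.1, ht.1.2, ht.2.1, ht.2.2, h2⟩
    calc (((S ×ˢ S).filter (fun t => (t.1.1, u t.1) = (t.2.1, u t.2))).card : ℝ)
        ≤ (((S.image (fun w => (w, w))) ∪ TT S u).card : ℝ) := by exact_mod_cast card_le_card h1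
      _ ≤ ((S.image (fun w => (w, w))).card + (TT S u).card : ℝ) := by exact_mod_cast card_union_le _ _
      _ ≤ S.card + (TT S u).card := by
        gcongr
        exact card_image_le
  -- the second case
  have hTB : ((TB S u zf).card : ℝ) ≤ CB * A ^ 9 * (RV ^ 2 * √RU) := by
    have hch : ∀ t : (ℕ × ℕ) × (ℕ × ℕ), ∃ (g : ℕ) (z1 z1' d0 e0 : ℤ) (u1 u2 : ℕ), t ∈ TT S u → (1 ≤ g ∧ zf t.1 = g * z1 ∧
        zf t.2 = g * z1' ∧ IsCoprime z1 z1' ∧ IsCoprime (g : ℤ) (u t.1 : ℤ) ∧ u t.1 = u1 * u2 ∧ Nat.Coprime u1 u2 ∧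
        z1 - z1' = d0 * u1 ∧ qf z1 z1' = e0 * u2 ∧ (g : ℤ) ^ 3 * (d0 * e0) = β * ((v t.1 : ℤ) - v t.2) ∧
        IsCoprime (zf t.1) (u t.1 : ℤ)) := by
      intro t
      by_cases ht : t ∈ TT S u
      · obtain ⟨g, z1, z1', d0, e0, u1, u2, h⟩ := hU.data ht
        exact ⟨g, z1, z1', d0, e0, u1, u2, fun _ => h⟩
      · exact ⟨0, 0, 0, 0, 0, 0, 0, fun h => absurd h ht⟩
    choose G X X' D E U1 U2 hd using hch
    have hDD : ∀ T : Finset ((ℕ × ℕ) × (ℕ × ℕ)), T ⊆ TT S u → DD α β S u v zf T G X X' D E U1 U2 := by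
      intro T hT
      exact ⟨fun t ht => hT ht, fun t ht => (hd t (hT ht)).1, fun t ht => (hd t (hT ht)).2.1, fun t ht => (hd t (hT ht)).2.2.1,
        fun t ht => (hd t (hT ht)).2.2.2.1, fun t ht => (hd t (hT ht)).2.2.2.2.2.1, fun t ht => (hd t (hT ht)).2.2.2.2.2.2.1,
        fun t ht => (hd t (hT ht)).2.2.2.2.2.2.2.1, fun t ht => (hd t (hT ht)).2.2.2.2.2.2.2.2.1,
        fun t ht => (hd t (hT ht)).2.2.2.2.2.2.2.2.2.1⟩
    set T1 := (TB S u zf).filter (fun t => (rd (U2 t) : ℝ) ≤ √RU) with hT1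
    set T2 := (TB S u zf).filter (fun t => ¬ (rd (U2 t) : ℝ) ≤ √RU) with hT2
    have hsplit : T1.card + T2.card = (TB S u zf).card := card_filter_add_card_filter_not _
    have hsub1 : T1 ⊆ TT S u := fun t ht => by
      rw [hT1, mem_filter, TB, mem_filter] at ht
      exact ht.1.1
    have hsub2 : T2 ⊆ TT S u := fun t ht => by
      rw [hT2, mem_filter, TB, mem_filter] at ht
      exact ht.1.1
    have hb1 : ∀ t ∈ T1, ¬ (zf t.2).natAbs ≤ Int.gcd (zf t.1) (zf t.2) * u t.1 := fun t ht => by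
      rw [hT1, mem_filter, TB, mem_filter] at ht
      exact ht.1.2
    have hb2 : ∀ t ∈ T2, ¬ (zf t.2).natAbs ≤ Int.gcd (zf t.1) (zf t.2) * u t.1 := fun t ht => by
      rw [hT2, mem_filter, TB, mem_filter] at ht
      exact ht.1.2
    have hk1 := half_card hU (hDD T1 hsub1) Dv hDvp hb1 U2 (Or.inl fun _ _ => rfl) (√RU) (fun t ht => by
      rw [hT1, mem_filter] at ht
      exact ht.2)
    have hk2 := half_card hU (hDD T2 hsub2) Dv hDvp hb2 U1 (Or.inr fun _ _ => rfl) (√RU) (fun t ht => by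
      have ht' := hsub2 ht
      obtain ⟨n1, n2, n3, n4, n5, n6, n7, n8⟩ := (hDD T2 hsub2).ne hU ht
      rw [hT2, mem_filter] at ht
      have h2 := ht.2
      push Not at h2
      have hur := hU.ru _ (mem_TT.mp ht').1
      rw [(hDD T2 hsub2).uu t (by rw [hT2, mem_filter]; exact ht), rd_mul_coprime _ _ (by omega) (by omega)
        ((hDD T2 hsub2).cU t (by rw [hT2, mem_filter]; exact ht))] at hur
      push_cast at hur
      by_contra hcon
      push Not at hcon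
      have h3 : √RU * √RU < (rd (U1 t) : ℝ) * rd (U2 t) := by
        have h4 : 0 < √RU := by linarith
        exact mul_lt_mul'' hcon h2 h4.le h4.le
      rw [Real.mul_self_sqrt hRU0.le] at h3
      linarith)
    have hreal : ∀ n : ℕ, n ≤ ((Dv * (Dv * 2)) * (26 * Dv)) * ((RR Z RV).card * ((RR Z RV).card * (RR Z (√RU)).card)) →
        (n : ℝ) ≤ 52 * CE ^ 3 * CR ^ 3 * A ^ 9 * (RV ^ 2 * √RU) := by
      intro n hn
      calc (n : ℝ) ≤ ((((Dv * (Dv * 2)) * (26 * Dv)) * ((RR Z RV).card * ((RR Z RV).card * (RR Z (√RU)).card)) : ℕ) : ℝ) := by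
            exact_mod_cast hn
        _ = 52 * (Dv : ℝ) ^ 3 * (((RR Z RV).card : ℝ) ^ 2 * ((RR Z (√RU)).card : ℝ)) := by push_cast; ring
        _ ≤ 52 * (CE * A ^ 2) ^ 3 * ((CR * A * RV) ^ 2 * (CR * A * √RU)) := by
          gcongr
          · exact hRR Z RV hU.Z1 hRV
          · exact hRR Z (√RU) hU.Z1 hsU
        _ = 52 * CE ^ 3 * CR ^ 3 * A ^ 9 * (RV ^ 2 * √RU) := by ring
    have r1 := hreal _ hk1
    have r2 := hreal _ hk2
    have r3 : ((TB S u zf).card : ℝ) = T1.card + T2.card := by exact_mod_cast hsplit.symm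
    rw [r3]
    calc (T1.card : ℝ) + T2.card ≤ 52 * CE ^ 3 * CR ^ 3 * A ^ 9 * (RV ^ 2 * √RU) + 52 * CE ^ 3 * CR ^ 3 * A ^ 9 * (RV ^ 2 * √RU) := by
          linarith
      _ = CB * A ^ 9 * (RV ^ 2 * √RU) := by rw [hCB]; ring
  have hTT : ((TT S u).card : ℝ) ≤ CA * A * S.card + CB * A ^ 9 * (RV ^ 2 * √RU) := by
    have h1 : ((TA S u zf).card : ℝ) + (TB S u zf).card = (TT S u).card := by
      have : (TA S u zf).card + (TB S u zf).card = (TT S u).card := card_filter_add_card_filter_not _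
      exact_mod_cast this
    have h2 := hTA hU
    rw [← h1]
    linarith
  -- Cauchy-Schwarz
  have hcs := cs_fib S (fun w => (w.1, u w))
  have hx0 : (0 : ℝ) ≤ S.card := Nat.cast_nonneg _
  have hmain : (S.card : ℝ) ^ 2 ≤ (CR ^ 2 * (1 + CA) * A ^ 3 * (RC * RU)) * S.card +
      (CR * (1 + CB) * A ^ 6 * (√RC * RV * RU ^ (3 / 4 : ℝ))) ^ 2 := by
    have h34 : (RU ^ (3 / 4 : ℝ)) ^ 2 = RU * √RU := by
      rw [← Real.rpow_natCast (RU ^ (3 / 4 : ℝ)) 2, ← Real.rpow_mul hRU0.le, Real.sqrt_eq_rpow]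
      nth_rewrite 2 [← Real.rpow_one RU]
      rw [← Real.rpow_add hRU0]
      norm_num
    have hsq : (√RC) ^ 2 = RC := Real.sq_sqrt hRC0.le
    calc (S.card : ℝ) ^ 2 ≤ ((S.image (fun w => (w.1, u w))).card : ℝ) *
          (((S ×ˢ S).filter (fun t => (t.1.1, u t.1) = (t.2.1, u t.2))).card : ℝ) := hcs
      _ ≤ (CR ^ 2 * A ^ 2 * (RC * RU)) * (S.card + (CA * A * S.card + CB * A ^ 9 * (RV ^ 2 * √RU))) := by
        gcongr
        linarith
      _ ≤ (CR ^ 2 * A ^ 2 * (RC * RU)) * (A * S.card + (CA * A * S.card + CB * A ^ 9 * (RV ^ 2 * √RU))) := by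
        gcongr
        nlinarith
      _ = (CR ^ 2 * (1 + CA) * A ^ 3 * (RC * RU)) * S.card + CR ^ 2 * CB * A ^ 11 * (RC * (RU * √RU) * RV ^ 2) := by ring
      _ ≤ (CR ^ 2 * (1 + CA) * A ^ 3 * (RC * RU)) * S.card + CR ^ 2 * (1 + CB) ^ 2 * A ^ 12 * (RC * (RU * √RU) * RV ^ 2) := by
        have h5 : CB ≤ (1 + CB) ^ 2 := by nlinarith
        have h6 : A ^ 11 ≤ A ^ 12 := pow_le_pow_right₀ hA1 (by norm_num)
        gcongr
      _ = _ := by
        rw [← h34]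
        nth_rewrite 2 [← hsq]
        ring
  have hfin := quad_solve (S.card : ℝ) _ _ (by positivity) (by positivity) hx0 hmain
  have hA6 : A ^ 6 ≤ (Z : ℝ) ^ σ := by
    rw [hA, ← Real.rpow_natCast ((Z : ℝ) ^ (σ / 10)) 6, ← Real.rpow_mul hZ0.le]
    apply Real.rpow_le_rpow_of_exponent_le hZ1
    push_cast
    linarith
  have hA36 : A ^ 3 ≤ (Z : ℝ) ^ σ := (pow_le_pow_right₀ hA1 (by norm_num)).trans hA6
  calc (S.card : ℝ) ≤ CR ^ 2 * (1 + CA) * A ^ 3 * (RC * RU) + CR * (1 + CB) * A ^ 6 * (√RC * RV * RU ^ (3 / 4 : ℝ)) := hfin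
    _ ≤ CR ^ 2 * (1 + CA) * (Z : ℝ) ^ σ * (RC * RU) + CR * (1 + CB) * (Z : ℝ) ^ σ * (√RC * RV * RU ^ (3 / 4 : ℝ)) := by gcongr
    _ ≤ (CR ^ 2 * (1 + CA) + CR * (1 + CB)) * (Z : ℝ) ^ σ * (RC * RU + √RC * RV * RU ^ (3 / 4 : ℝ)) := by
      have p1 : 0 ≤ CR ^ 2 * (1 + CA) * (Z : ℝ) ^ σ * (√RC * RV * RU ^ (3 / 4 : ℝ)) := by positivity
      have p2 : 0 ≤ CR * (1 + CB) * (Z : ℝ) ^ σ * (RC * RU) := by positivity
      nlinarith [p1, p2]

end T3

end Pool.Agent.Lib.MP_d8bd92_nt
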